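import Mathlib
import Pool.Agent.LGO.Q.Loc
import Pool.Agent.LGO.Gal.NCM
import Pool.Agent.LGO.ZV.Types

/-!
# LGO/FC: from `ℚbar` to `ℂ` (MP_d83ecd_ag), definitions

Curves in `Y(1)ⁿ` which are not defined over `ℚbar`.  See the note THEOREM C of helper6.

* `Om M R`: the corner region in the coordinates `w = (w₀, w₁)`, `w_i = 2 π i τ_i / e`; `Hp R`: a half plane.
* `Per`, `Bo`, `Mo`: holomorphic functions on the corner region, periodic with period `2 π i` in both variables (and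
  bounded, of moderate growth).  `Bo1`: the same in one variable.
* `Cz F p`: `F` tends to `p` at the corner.  `Lex a b`: `exp (a w₀ + b w₁)` tends to `0` at the corner.
* `tau a b ψ`: a function with values in the upper half plane.  `Lft`: its two types (finite, infinite).
* `Mlt N x y`: `x = j(σ)`, `y = j(N σ)`.
* `AC k`: the field `k ⊆ ℂ` is algebraically closed.  `Kp k W`: the points of `W` over `k`.
* `Setup W k ξ`: `k` algebraically closed, `W` has finitely many points over `k`, `ξ` a generic point of `W`.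
* `Tp k ξ N x`: a point of type 2 (with the isogenous pairs `0, 1` and `2, 3`).
* `cp i W`: the closure of the projection of `W` to the coordinates `i`.
-/

namespace Pool.Agent.LGO.FC

open UpperHalfPlane Pool.Agent.Hhelper14.ZP Pool.Agent.Hhelper14.ZPL Pool.Agent.LGO

/-- the corner region -/
def Om (M R : ℕ) : Set (ℂ × ℂ) := {w | w.1.re < -(R : ℝ) ∧ w.2.re < M * w.1.re}

/-- a half plane -/
def Hp (R : ℕ) : Set ℂ := {w | w.re < -(R : ℝ)}

/-- holomorphic and periodic on the corner region -/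
structure Per (M R : ℕ) (F : ℂ × ℂ → ℂ) : Prop where
  hol : DifferentiableOn ℂ F (Om M R)
  per1 : ∀ w ∈ Om M R, F (w.1 + 2 * Real.pi * Complex.I, w.2) = F w
  per2 : ∀ w ∈ Om M R, F (w.1, w.2 + 2 * Real.pi * Complex.I) = F w

/-- bounded, holomorphic and periodic on the corner region -/
structure Bo (M R : ℕ) (F : ℂ × ℂ → ℂ) : Prop extends Per M R F where
  bd : ∃ C : ℝ, ∀ w ∈ Om M R, ‖F w‖ ≤ C

/-- holomorphic and periodic on the corner region, of moderate growth -/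
structure Mo (M R : ℕ) (F : ℂ × ℂ → ℂ) : Prop extends Per M R F where
  gr : ∃ (C : ℝ) (B : ℕ), ∀ w ∈ Om M R, ‖F w‖ ≤ C * Real.exp (-(B * w.2.re))

/-- bounded, holomorphic and periodic on the half plane -/
structure Bo1 (R : ℕ) (G : ℂ → ℂ) : Prop where
  hol : DifferentiableOn ℂ G (Hp R)
  per : ∀ w ∈ Hp R, G (w + 2 * Real.pi * Complex.I) = G w
  bd : ∃ C : ℝ, ∀ w ∈ Hp R, ‖G w‖ ≤ C

/-- `F` tends to `p` at the corner -/
def Cz (F : ℂ × ℂ → ℂ) (p : ℂ) : Prop := ∀ ε : ℝ, 0 < ε → ∃ M R : ℕ, ∀ w ∈ Om M R, ‖F w - p‖ < ε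

/-- `exp (a w₀ + b w₁)` tends to `0` at the corner -/
def Lex (a b : ℤ) : Prop := 0 < b ∨ (b = 0 ∧ 0 < a)

/-- the function `(a w₀ + b w₁) / (2 π i) + ψ(w)` -/
noncomputable def tau (a b : ℤ) (ψ : ℂ × ℂ → ℂ) (w : ℂ × ℂ) : ℂ :=
  (a * w.1 + b * w.2) / (2 * Real.pi * Complex.I) + ψ w

/-- the function `j(w / (2 π i))` -/
noncomputable def Jw (w : ℂ) : ℂ := jF (w / (2 * Real.pi * Complex.I))

/-- the two types of functions `tau a b ψ` -/
structure Lft (M R : ℕ) (a b : ℤ) (ψ : ℂ × ℂ → ℂ) : Prop where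
  bo : Bo M R ψ
  ty : (a = 0 ∧ b = 0 ∧ ∃ δ : ℝ, 0 < δ ∧ ∀ w ∈ Om M R, δ ≤ (ψ w).im) ∨ Lex a b

/-- `x = j(σ)`, `y = j(N σ)` -/
def Mlt (N : ℕ) (x y : ℂ) : Prop :=
  ∃ σ σ' : ℍ, (σ' : ℂ) = N * (σ : ℂ) ∧ x = jInv σ ∧ y = jInv σ'

/-- the modular correspondence of `g` -/
def MR (g : GL (Fin 2) ℚ) : Set (Fin 2 → ℂ) := {y | ∃ τ : ℍ, y 0 = jInv τ ∧ y 1 = jInv (gact g τ)}

/-- the subfield `k` of `ℂ` is algebraically closed -/
def AC (k : IntermediateField ℚ ℂ) : Prop := ∀ x : ℂ, IsAlgebraic k x → x ∈ k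

/-- the points of `W` over `k` -/
def Kp {n : ℕ} (k : IntermediateField ℚ ℂ) (W : Set (Fin n → ℂ)) : Set (Fin n → ℂ) :=
  {x ∈ W | ∀ i, x i ∈ k}

/-- `k` algebraically closed, `W` has finitely many points over `k`, `ξ` a generic point of `W`; three coordinates of `ξ`
are algebraically dependent over `k`, and two coordinates of a point of `W` with a modular relation which does not
hold for `ξ` are algebraically dependent over `k` -/
structure Setup {n : ℕ} (W : Set (Fin n → ℂ)) (k : IntermediateField ℚ ℂ) (ξ : Fin n → ℂ) : Prop where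
  ac : AC k
  mem : ξ ∈ W
  gen : ∀ G : MvPolynomial (Fin n) k, MvPolynomial.aeval ξ G = (0 : ℂ) →
    ∀ x ∈ W, MvPolynomial.aeval x G = (0 : ℂ)
  fin : (Kp k W).Finite
  dep3 : ∀ a b c, ¬ AlgebraicIndependent k ![ξ a, ξ b, ξ c]
  dep2 : ∀ x ∈ W, (∃ a b, HeckeRel (x a) (x b) ∧ ¬ HeckeRel (ξ a) (ξ b)) →
    ∀ c d, ¬ AlgebraicIndependent k ![x c, x d]

/-- a point with the isogenous pairs `0, 1` and `2, 3`, a specialisation of `ξ` over `k` of dimension one -/
structure Tp (k : IntermediateField ℚ ℂ) (ξ : Fin 4 → ℂ) (N : ℕ) (x : Fin 4 → ℂ) : Prop where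
  mlt : Mlt N (x 0) (x 1)
  rel : HeckeRel (x 2) (x 3)
  nk : ∀ i, x i ∉ k
  dep : ∀ i j, ¬ AlgebraicIndependent k ![x i, x j]
  spec : ∀ G : MvPolynomial (Fin 4) k, MvPolynomial.aeval ξ G = (0 : ℂ) →
    MvPolynomial.aeval x G = (0 : ℂ)

/-- the polynomial `P(u, T)` -/
noncomputable def pe {k : IntermediateField ℚ ℂ} (u : Fin 2 → ℂ) (P : Polynomial (MvPolynomial (Fin 2) k)) :
    Polynomial ℂ := P.map ((MvPolynomial.aeval u : MvPolynomial (Fin 2) k →ₐ[k] ℂ) : MvPolynomial (Fin 2) k →+* ℂ)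

/-- the point `(j, j)` of the corner region, in the coordinates `w` with `w_i = 2 π i τ_i / e` -/
noncomputable def jj (e : ℕ) (w : ℂ × ℂ) : Fin 2 → ℂ := ![Jw (e * w.1), Jw (e * w.2)]

/-- no modular relation between the coordinates `a` and `b` -/
def NoRel {n : ℕ} (W : Set (Fin n → ℂ)) (a b : Fin n) : Prop := ∀ g : GL (Fin 2) ℚ, 0 < g.det.val →
  ∃ x ∈ W, ¬ ∃ τ : ℍ, x a = jInv τ ∧ x b = jInv (gact g τ)

/-- the closure of the projection -/
def cp {n m : ℕ} (i : Fin m → Fin n) (W : Set (Fin n → ℂ)) : Set (Fin m → ℂ) :=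
  MvPolynomial.zeroLocus ℂ (MvPolynomial.vanishingIdeal ℂ {y : Fin m → ℂ | ∃ x ∈ W, y = fun a => x (i a)})

end Pool.Agent.LGO.FC
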