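import Mathlib
import Pool.Agent.AHC.Cl
import Pool.Agent.LGO.FC.Defs

/-!
# LGO/FC: algebraically closed subfields of `ℂ` of finite transcendence degree

`AHC/Cl.lean`: `cl S` (the numbers algebraic over `ℚ(S)`), `clF S` (the same as a field), the matroid `MC` of algebraic
independence over `ℚ`, `exists_move` (an automorphism over `cl X` moving `a ∉ cl X` to `b ∉ cl X`).

* `clF_ac`: `mem_cl_of_isAlgebraic`.
* `clF_empty`: `Algebra.adjoin ℚ ∅ = ⊥`.
* `eq_clF`: `k = clF k` if `k` is algebraically closed (`Algebra.adjoin ℚ k` is `k` itself).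
* `cl_countable`: `Algebra.adjoin ℚ S` is countable for countable `S` (`Algebra.adjoin` is the range of
  `MvPolynomial S ℚ`, countable; or `Algebra.cardinalMk_adjoin_le`), and an algebraic extension of a countable
  domain is countable (`Algebra.IsAlgebraic.cardinalMk_le_max`, `Algebraic.countable`; or: countably many polynomials with finitely
  many roots each).
* `dep_two`: three elements `x, y` of `cl (insert z S)`, `k = clF S`.  If `x ∉ cl S` then `z ∈ cl (insert x S)` by exchange
  (`cl_exchange`), so `y ∈ cl (insert x S)`, i.e. `y` is algebraic over `k(x)`: `x, y` are not algebraically independent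
  over `k` (`IsAlgebraic` over `Algebra.adjoin ℚ (insert x S)`, hence over `Algebra.adjoin k {x}`).  If `x ∈ cl S = k` then `x`
  is not transcendental over `k`.  (General tool: `dep_of_mem_cl`: `y ∈ cl (insert x S)` implies that `x, y` are not
  algebraically independent over `clF S`, and the same with three elements.)
* `dep_three`: the same with three elements in `cl (insert t (insert z S))`, exchange twice.
* `mem_of_orbit`: if `x ∉ k` then `x + n ∉ k` and `exists_move` gives automorphisms over `k` with `σ x = x + n` for all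
  `n : ℕ`: infinitely many values.
-/

namespace Pool.Agent.LGO.FC

open Pool.Agent.AHC

theorem clF_ac (S : Set ℂ) : AC (clF S) := fun _ h => mem_cl_of_isAlgebraic h

theorem mem_clF_empty {x : ℂ} : x ∈ clF ∅ ↔ IsAlgebraic ℚ x := by
  have hb : Algebra.IsAlgebraic ℚ (Algebra.adjoin ℚ (∅ : Set ℂ)) := by
    constructor
    rintro ⟨y, hy⟩
    rw [Algebra.adjoin_empty, Algebra.mem_bot] at hy
    obtain ⟨q, rfl⟩ := hy
    have h1 : IsAlgebraic ℚ (algebraMap ℚ (Algebra.adjoin ℚ (∅ : Set ℂ)) q) := isAlgebraic_algebraMap q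
    exact h1
  rw [mem_clF]
  constructor
  · intro h
    have h' : IsAlgebraic (Algebra.adjoin ℚ (∅ : Set ℂ)) x := h
    exact h'.restrictScalars ℚ
  · intro h
    have h' : IsAlgebraic (Algebra.adjoin ℚ (∅ : Set ℂ)) x :=
      h.extendScalars (algebraMap ℚ (Algebra.adjoin ℚ (∅ : Set ℂ))).injective
    exact h'

theorem eq_clF {k : IntermediateField ℚ ℂ} (hk : AC k) : clF (k : Set ℂ) = k := by
  have h1 : Algebra.adjoin ℚ (k : Set ℂ) = k.toSubalgebra := by
    have h2 : (k : Set ℂ) = (k.toSubalgebra : Set ℂ) := rfl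
    rw [h2, Algebra.adjoin_eq]
  ext x
  rw [mem_clF]
  constructor
  · intro h
    have h' : IsAlgebraic (Algebra.adjoin ℚ (k : Set ℂ)) x := h
    rw [h1] at h'
    exact hk x h'
  · intro h
    exact subset_cl _ h

theorem cl_countable {S : Set ℂ} (hS : S.Countable) : (cl S).Countable := by
  have h1 : Countable (Algebra.adjoin ℚ S) := by
    rw [← Cardinal.mk_le_aleph0_iff]
    refine (Algebra.cardinalMk_adjoin_le ℚ S).trans ?_
    refine max_le (max_le ?_ ?_) le_rfl
    · exact Cardinal.mk_le_aleph0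
    · exact Cardinal.le_aleph0_iff_set_countable.mpr hS
  exact Algebraic.countable (Algebra.adjoin ℚ S) ℂ

private theorem FldA_dep {ι : Type*} {S : Set ℂ} {v : ι → ℂ} {s : Set ι} {i : ι} (hi : i ∉ s)
    (h : v i ∈ cl (v '' s ∪ S)) : ¬ AlgebraicIndependent (clF S) v := by
  intro H
  have h1 := H.transcendental_adjoin hi
  refine h1 ?_
  have h2 : ∀ y ∈ Algebra.adjoin ℚ (v '' s ∪ S), y ∈ Algebra.adjoin (clF S) (v '' s) := by
    intro y hy
    have h3 : Algebra.adjoin ℚ (v '' s ∪ S) ≤ (Algebra.adjoin (clF S) (v '' s)).restrictScalars ℚ := by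
      refine Algebra.adjoin_le ?_
      rintro z (hz | hz)
      · exact Algebra.subset_adjoin hz
      · exact Subalgebra.algebraMap_mem (Algebra.adjoin (clF S) (v '' s)) (⟨z, subset_cl S hz⟩ : clF S)
    exact h3 hy
  let f : Algebra.adjoin ℚ (v '' s ∪ S) →+* Algebra.adjoin (clF S) (v '' s) :=
    ((Algebra.adjoin ℚ (v '' s ∪ S)).val : Algebra.adjoin ℚ (v '' s ∪ S) →+* ℂ).codRestrict
      (Algebra.adjoin (clF S) (v '' s)).toSubring (fun x => h2 x.1 x.2)
  have h' : IsAlgebraic (Algebra.adjoin ℚ (v '' s ∪ S)) (v i) := h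
  refine IsAlgebraic.ringHom_of_comp_eq (S := Algebra.adjoin (clF S) (v '' s)) f (RingHom.id ℂ) h' ?_ ?_
  · intro x y hxy
    have h3 : (f x).1 = (f y).1 := congrArg Subtype.val hxy
    exact Subtype.ext h3
  · rfl

theorem dep_of_mem_cl {S : Set ℂ} {x y : ℂ} (h : y ∈ cl (insert x S)) :
    ¬ AlgebraicIndependent (clF S) ![x, y] := by
  refine FldA_dep (s := {0}) (i := 1) (by simp) ?_
  simpa [Set.image_singleton, Set.singleton_union] using h

theorem dep_of_mem_cl3 {S : Set ℂ} {x y u : ℂ} (h : u ∈ cl (insert x (insert y S))) :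
    ¬ AlgebraicIndependent (clF S) ![x, y, u] := by
  refine FldA_dep (s := {0, 1}) (i := 2) (by simp) ?_
  have h1 : (![x, y, u] : Fin 3 → ℂ) '' {0, 1} ∪ S = insert x (insert y S) := by
    rw [Set.image_pair]
    simp [Set.insert_union]
  rw [h1]
  exact h

private theorem FldA_dep1 {S : Set ℂ} {n : ℕ} {v : Fin (n + 1) → ℂ} (h : v 0 ∈ cl S) :
    ¬ AlgebraicIndependent (clF S) v := by
  refine FldA_dep (s := ∅) (i := 0) (by simp) ?_
  simpa using h

private theorem FldA_sub {S T : Set ℂ} {z : ℂ} (h1 : z ∈ cl T) (h2 : S ⊆ cl T) : cl (insert z S) ⊆ cl T := by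
  rw [cl_subset_iff]
  exact Set.insert_subset h1 h2

theorem dep_two {S : Set ℂ} {z x y : ℂ} (hx : x ∈ cl (insert z S)) (hy : y ∈ cl (insert z S)) :
    ¬ AlgebraicIndependent (clF S) ![x, y] := by
  by_cases h0 : x ∈ cl S
  · exact FldA_dep1 h0
  · have hz := cl_exchange hx h0
    exact dep_of_mem_cl (FldA_sub hz ((Set.subset_insert _ _).trans (subset_cl _)) hy)

theorem dep_three {S : Set ℂ} {z t x y u : ℂ} (hx : x ∈ cl (insert t (insert z S)))
    (hy : y ∈ cl (insert t (insert z S))) (hu : u ∈ cl (insert t (insert z S))) :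
    ¬ AlgebraicIndependent (clF S) ![x, y, u] := by
  by_cases h0 : x ∈ cl S
  · exact FldA_dep1 h0
  by_cases h1 : y ∈ cl (insert x S)
  · refine FldA_dep (s := {0}) (i := 1) (by simp) ?_
    simpa [Set.image_singleton, Set.singleton_union] using h1
  have hS : S ⊆ cl (insert y (insert x S)) :=
    ((Set.subset_insert _ _).trans (Set.subset_insert _ _)).trans (subset_cl _)
  have hxc : x ∈ cl (insert y (insert x S)) := subset_cl _ (by simp)
  have hyc : y ∈ cl (insert y (insert x S)) := subset_cl _ (by simp)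
  have key : t ∈ cl (insert y (insert x S)) ∧ z ∈ cl (insert y (insert x S)) := by
    by_cases h2 : x ∈ cl (insert z S)
    · have hz : z ∈ cl (insert x S) := cl_exchange h2 h0
      have h3 : cl (insert t (insert z S)) ⊆ cl (insert t (insert x S)) := by
        refine FldA_sub (subset_cl _ (by simp)) (Set.insert_subset ?_ ?_)
        · exact cl_mono (Set.subset_insert _ _) hz
        · exact ((Set.subset_insert _ _).trans (Set.subset_insert _ _)).trans (subset_cl _)
      exact ⟨cl_exchange (h3 hy) h1, cl_mono (Set.subset_insert _ _) hz⟩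
    · have ht : t ∈ cl (insert x (insert z S)) := cl_exchange hx h2
      have h3 : cl (insert t (insert z S)) ⊆ cl (insert x (insert z S)) :=
        FldA_sub ht ((Set.subset_insert _ _).trans (subset_cl _))
      have h4 : y ∈ cl (insert z (insert x S)) := by
        rw [Set.insert_comm]
        exact h3 hy
      have hz : z ∈ cl (insert y (insert x S)) := cl_exchange h4 h1
      refine ⟨?_, hz⟩
      have h5 : cl (insert x (insert z S)) ⊆ cl (insert y (insert x S)) :=
        FldA_sub hxc (Set.insert_subset hz hS)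
      exact h5 ht
  refine dep_of_mem_cl3 ?_
  rw [Set.insert_comm]
  exact FldA_sub key.1 (Set.insert_subset key.2 hS) hu

theorem mem_of_orbit {k : IntermediateField ℚ ℂ} (hk : AC k) {x : ℂ}
    (h : {y : ℂ | ∃ σ : ℂ ≃+* ℂ, (∀ z ∈ k, σ z = z) ∧ σ x = y}.Finite) : x ∈ k := by
  by_contra hx
  have hcl : ∀ y : ℂ, y ∈ cl (k : Set ℂ) → y ∈ k := by
    intro y hy
    have h1 : y ∈ clF (k : Set ℂ) := hy
    rwa [eq_clF hk] at h1
  have hx0 : x ∉ cl (k : Set ℂ) := fun h1 => hx (hcl x h1)
  refine Set.infinite_of_injective_forall_mem (f := fun n : ℕ => x + n) ?_ (fun n => ?_) h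
  · intro a b hab
    have h1 : x + (a : ℂ) = x + b := hab
    exact_mod_cast add_left_cancel h1
  · have hn : x + (n : ℂ) ∉ cl (k : Set ℂ) := by
      intro h1
      have h2 := hcl _ h1
      have h3 : (n : ℂ) ∈ k := natCast_mem k n
      apply hx
      have h4 := k.sub_mem h2 h3
      simpa using h4
    obtain ⟨σ, h1, h2⟩ := exists_move hx0 hn
    exact ⟨σ, fun z hz => h1 z (subset_cl _ hz), h2⟩

end Pool.Agent.LGO.FC
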