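import Mathlib
import Pool.Agent.LGO.FC.FldA
import Pool.Agent.LGO.Gal.Fin
import Pool.Agent.Hhelper14.ZPL.KClosed
import Pool.Agent.Hhelper14.ZPL.Topo

/-!
# LGO/FC: curves and automorphisms

`W ⊆ ℂⁿ` an irreducible closed curve.

* `inter`: a closed set meets `W` in a finite set or contains it (`Gal/Fin.lean`, `finite_inter`).
* `stab_of_inf`: `W` has infinitely many points over `k`, `σ` an automorphism over `k`: `σ(W) ⊆ W`.  Proof: `Z = {x | σ x ∈ W}` is
  Zariski closed (`σ x ∈ W` iff `p (σ x) = 0` for all `p ∈ I(W)`, and `p (σ x) = σ ((σ⁻¹ p) x)`, where `σ⁻¹ p` is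
  `MvPolynomial.map σ.symm p`), and contains the points of `W` over `k`; so `W ⊆ Z` by `inter`.
* `mem_of_fin`: a finite set stable under the automorphisms over `k` consists of points over `k` (`mem_of_orbit` for
  each coordinate).
* `inter_mem`: `W` has infinitely many points over `k ⊇ ℚbar`, `Z` a closed set stable under the automorphisms over `k`
  (in particular `KClosed`: `σ` fixes the coefficients, which are algebraic, so they are in `k`), `W ⊄ Z`.
  Then all points of `W ∩ Z` are points over `k`.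
* `kclosed_of_inf`: `W` has infinitely many points with algebraic coordinates: `W = kcl (Kp ..)`?  The set `kcl S` of
  `S = Kp (clF ∅) W` (`ZPL/KClosed.lean`) is `KClosed` and contains `S`; `S` is dense in `W` (a closed set containing the infinite
  set `S ⊆ W` contains `W`, by `inter`), and `kcl S ⊆ W`: a polynomial `p` over `ℂ` which vanishes on `W` vanishes on
  `S`; decompose `p = ∑ c_j p_j` with `c_j ∈ ℂ` linearly independent over `Qb` and `p_j` over `Qb` (`exists_decomp`); on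
  the points of `S` (coordinates in `Qb`) all `p_j` vanish, so they vanish on `kcl S`, so `p` does.
-/

namespace Pool.Agent.LGO.FC

open MvPolynomial Pool.Agent.AHC Pool.Agent.Hhelper14.ZPL

variable {n : ℕ} {W Z : Set (Fin n → ℂ)} {k : IntermediateField ℚ ℂ}

theorem inter (hW : Pool.Agent.Hhelper14.ZPL.IsIrredClosed W) (hdim : Pool.Agent.Hhelper14.ZPL.dim W = 1)
    (hZ : IsZClosed Z) : (W ∩ Z).Finite ∨ W ⊆ Z := by
  by_cases h : W ⊆ Z
  · exact Or.inr h
  · exact Or.inl (finite_inter hW hdim hZ h)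

/-- evaluation of a conjugate polynomial -/
private theorem CurA_aeval (σ : ℂ ≃+* ℂ) (x : Fin n → ℂ) (p : MvPolynomial (Fin n) ℂ) :
    (aeval x (map (σ.symm : ℂ →+* ℂ) p) : ℂ) = σ.symm (aeval (fun i => σ (x i)) p) := by
  induction p using MvPolynomial.induction_on with
  | C a => simp
  | add p q hp hq => rw [map_add, map_add, map_add, map_add, hp, hq]
  | mul_X p i hp => rw [map_mul, map_mul, map_mul, map_mul, hp, map_X, aeval_X, aeval_X,
      RingEquiv.symm_apply_apply]

theorem stab_of_inf (hW : Pool.Agent.Hhelper14.ZPL.IsIrredClosed W)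
    (hdim : Pool.Agent.Hhelper14.ZPL.dim W = 1) (hinf : (Kp k W).Infinite) {σ : ℂ ≃+* ℂ}
    (hσ : ∀ z ∈ k, σ z = z) : ∀ x ∈ W, (fun i => σ (x i)) ∈ W := by
  have hcl : IsZClosed {x : Fin n → ℂ | (fun i => σ (x i)) ∈ W} := by
    refine Set.Subset.antisymm (fun x hx => ?_) (subset_closure' _)
    rw [mem_zeroLocus_iff] at hx
    show (fun i => σ (x i)) ∈ W
    rw [← hW.2, mem_zeroLocus_iff]
    intro p hp
    have h1 : (aeval x (map (σ.symm : ℂ →+* ℂ) p) : ℂ) = 0 := by
      refine hx _ ?_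
      rw [mem_vanishingIdeal_iff]
      intro y hy
      rw [CurA_aeval, (mem_vanishingIdeal_iff.mp hp) _ hy, map_zero]
    rw [CurA_aeval] at h1
    simpa using h1
  rcases inter hW hdim hcl with h | h
  · refine absurd (h.subset ?_) hinf
    intro x hx
    refine ⟨hx.1, ?_⟩
    have h2 : (fun i => σ (x i)) = x := funext fun i => hσ _ (hx.2 i)
    show (fun i => σ (x i)) ∈ W
    rw [h2]
    exact hx.1
  · exact fun x hx => h hx

theorem mem_of_fin (hk : AC k) {E : Set (Fin n → ℂ)} (hE : E.Finite)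
    (hst : ∀ σ : ℂ ≃+* ℂ, (∀ z ∈ k, σ z = z) → ∀ x ∈ E, (fun i => σ (x i)) ∈ E) :
    ∀ x ∈ E, ∀ i, x i ∈ k := by
  intro x hx i
  refine mem_of_orbit hk ((hE.image fun z => z i).subset ?_)
  rintro y ⟨σ, hσ, rfl⟩
  exact ⟨fun i => σ (x i), hst σ hσ x hx, rfl⟩

/-- a `KClosed` set is stable under the automorphisms over an algebraically closed field -/
theorem kclosed_stab (hk : AC k) (hZ : KClosed Z) {σ : ℂ ≃+* ℂ} (hσ : ∀ z ∈ k, σ z = z) :
    ∀ x ∈ Z, (fun i => σ (x i)) ∈ Z := by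
  intro x hx
  refine kclosed_iff.mp hZ _ fun p hp => ?_
  have hQ : ∀ c : Qb, σ (c : ℂ) = c := by
    intro c
    refine hσ _ (hk _ ?_)
    have h1 : IsAlgebraic ℚ (c : ℂ) := mem_algebraicClosure_iff.mp c.2
    exact h1.tower_top k
  let φ : ℂ →ₐ[Qb] ℂ := { (σ : ℂ →+* ℂ) with commutes' := hQ }
  have h2 : (aeval (fun i => φ (x i)) p : ℂ) = φ (aeval x p) := (comp_aeval_apply (f := x) φ p).symm
  have h3 : (aeval (fun i => σ (x i)) p : ℂ) = φ (aeval x p) := h2
  rw [h3, (mem_vanishingIdeal_iff.mp hp) x hx, map_zero]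

theorem inter_mem (hW : Pool.Agent.Hhelper14.ZPL.IsIrredClosed W)
    (hdim : Pool.Agent.Hhelper14.ZPL.dim W = 1) (hk : AC k) (hinf : (Kp k W).Infinite) (hZ : IsZClosed Z)
    (hst : ∀ σ : ℂ ≃+* ℂ, (∀ z ∈ k, σ z = z) → ∀ x ∈ Z, (fun i => σ (x i)) ∈ Z) (hne : ¬ W ⊆ Z) :
    ∀ x ∈ W ∩ Z, ∀ i, x i ∈ k := by
  refine mem_of_fin hk (finite_inter hW hdim hZ hne) ?_
  rintro σ hσ x ⟨hx, hx'⟩
  exact ⟨stab_of_inf hW hdim hinf hσ x hx, hst σ hσ x hx'⟩

theorem kclosed_of_inf (hW : Pool.Agent.Hhelper14.ZPL.IsIrredClosed W)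
    (hdim : Pool.Agent.Hhelper14.ZPL.dim W = 1) (hinf : (Kp (clF ∅) W).Infinite) : KClosed W := by
  classical
  set S := Kp (clF ∅) W with hS
  have h1 : W ⊆ kcl S := by
    rcases inter hW hdim (kcl_kclosed S).closed with h | h
    · exact absurd (h.subset fun x hx => ⟨hx.1, subset_kcl S hx⟩) hinf
    · exact h
  have h2 : kcl S ⊆ W := by
    intro x hx
    rw [← hW.2, mem_zeroLocus_iff]
    intro p hp
    obtain ⟨s, g, rfl⟩ := exists_decomp p
    rw [aeval_sum_decomp]
    have h3 : ∀ i ∈ s, g i ∈ (vanishingIdeal Qb S : Ideal (MvPolynomial (Fin n) Qb)) := by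
      intro i hi
      rw [mem_vanishingIdeal_iff]
      intro y hy
      have hy' : ∀ j, y j ∈ Qb := fun j => mem_algebraicClosure_iff.mpr (mem_clF_empty.mp (hy.2 j))
      have h4 := (mem_vanishingIdeal_iff.mp hp) y hy.1
      rw [aeval_sum_decomp] at h4
      have h5 : ∀ q : MvPolynomial (Fin n) Qb, (aeval y q : ℂ) =
          ((aeval (fun j => (⟨y j, hy' j⟩ : Qb)) q : Qb) : ℂ) := fun q =>
        aeval_coe (fun j => (⟨y j, hy' j⟩ : Qb)) q
      have h6 : ∑ i ∈ s, (aeval (fun j => (⟨y j, hy' j⟩ : Qb)) (g i) : Qb) •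
          (Module.Basis.ofVectorSpace Qb ℂ) i = 0 := by
        rw [← h4]
        refine Finset.sum_congr rfl fun i _ => ?_
        rw [h5, Algebra.smul_def, mul_comm]
        rfl
      rw [h5, linearIndependent_iff'.mp (Module.Basis.ofVectorSpace Qb ℂ).linearIndependent s _ h6 i hi]
      rfl
    refine Finset.sum_eq_zero fun i hi => ?_
    rw [(mem_zeroLocus_iff.mp hx) _ (h3 i hi), mul_zero]
  rw [Set.Subset.antisymm h1 h2]
  exact kcl_kclosed S

end Pool.Agent.LGO.FC
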