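import Mathlib
import Pool.Agent.LGO.FC.Defs
import Pool.Agent.LGO.FC.CurA

/-!
# LGO/FC: functions on a curve, images of a curve

`curve_dep`: two functions on an irreducible closed curve `W ⊆ ℂⁿ` are algebraically dependent over `ℂ`.
Proof.  `A = MvPolynomial (Fin n) ℂ ⧸ vanishingIdeal W`, a finitely generated domain of Krull dimension `1` (`ZPL.dim`).  Noether
normalisation (`exists_finite_inj_algHom_of_fg` or similar): `A` is a finite extension of a polynomial ring in `s` variables,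
and `s = 1` by `krull_eq_of_integral'` (`Hhelper14/ZPL/Proj.lean`) and `dim_univ` (the Krull dimension of the polynomial ring is `s`).
So `A` is algebraic over `ℂ[y]`, its transcendence degree is `1`, and `f`, `g` are algebraically dependent
(`Algebra.IsAlgebraic`, `AlgebraicIndependent` and the cardinality of a transcendence basis; or directly: `AlgebraicIndependent`
of `f, g` in `A`, `IsTranscendenceBasis` `![y]`).

`dim_image`: the closure `C` of the projection of `W` has dimension `1` if one of the coordinates is not constant.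
Proof.  `one_le_dim` (`ZPL/Topo.lean`): two different points.  `≤ 1`: Noether normalisation of `B = ℂ[C]`, `ℂ[y₁, .., y_s] → B`
finite and injective, `s = dim C`.  `B → ℂ[W]` is injective (a polynomial which vanishes on the projection of `W`
vanishes on `C`), so for `s ≥ 2` the functions `y₁`, `y₂` on `W` contradict `curve_dep`.

`cp_irr`: `irredClosed_closure` (`ZPL/Topo.lean`), `irred_proj` (`ZPL/Proj.lean`).
`cp_cp`: the closure of the projection of the closure: `⊇` clear; `⊆`: the set of `y` with `y ∘ σ ∈ cp (i ∘ σ) W` is closed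
(`closed_preimage`) and contains the projection of `W`.
`cp_fin`: the fibres of `x ↦ (x (i a))` on `W` are finite: for the index `a` with nonconstant coordinate, `{x ∈ W | x (i a) = c}` is
finite by `inter`.
-/

namespace Pool.Agent.LGO.FC

open Pool.Agent.Hhelper14.ZPL

variable {n m : ℕ} {W : Set (Fin n → ℂ)} {i : Fin m → Fin n}

/-- the transcendence degree of the ring of functions is the dimension -/
private theorem DimA_trdeg {n d : ℕ} {W : Set (Fin n → ℂ)} (hW : Pool.Agent.Hhelper14.ZPL.IsIrredClosed W)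
    (hdim : Pool.Agent.Hhelper14.ZPL.dim W = (d : ℕ)) :
    Algebra.trdeg ℂ (MvPolynomial (Fin n) ℂ ⧸ (MvPolynomial.vanishingIdeal ℂ W : Ideal (MvPolynomial (Fin n) ℂ))) = d := by
  have hp := hW.1
  have hdom : IsDomain (MvPolynomial (Fin n) ℂ ⧸ (MvPolynomial.vanishingIdeal ℂ W : Ideal (MvPolynomial (Fin n) ℂ))) :=
    Ideal.Quotient.isDomain _
  obtain ⟨s, -, g, hinj, hint⟩ := exists_integral_inj_algHom_of_quotient
    (MvPolynomial.vanishingIdeal ℂ W : Ideal (MvPolynomial (Fin n) ℂ)) hp.ne_top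
  let _ : Algebra (MvPolynomial (Fin s) ℂ)
    (MvPolynomial (Fin n) ℂ ⧸ (MvPolynomial.vanishingIdeal ℂ W : Ideal (MvPolynomial (Fin n) ℂ))) :=
    g.toRingHom.toAlgebra
  have hI : Algebra.IsIntegral (MvPolynomial (Fin s) ℂ)
    (MvPolynomial (Fin n) ℂ ⧸ (MvPolynomial.vanishingIdeal ℂ W : Ideal (MvPolynomial (Fin n) ℂ))) := ⟨hint⟩
  have hT : IsScalarTower ℂ (MvPolynomial (Fin s) ℂ)
    (MvPolynomial (Fin n) ℂ ⧸ (MvPolynomial.vanishingIdeal ℂ W : Ideal (MvPolynomial (Fin n) ℂ))) :=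
    IsScalarTower.of_algebraMap_eq fun x => (g.commutes x).symm
  have hF : FaithfulSMul (MvPolynomial (Fin s) ℂ)
    (MvPolynomial (Fin n) ℂ ⧸ (MvPolynomial.vanishingIdeal ℂ W : Ideal (MvPolynomial (Fin n) ℂ))) :=
    (faithfulSMul_iff_algebraMap_injective _ _).mpr hinj
  have h1 : ringKrullDim (MvPolynomial (Fin s) ℂ) = Pool.Agent.Hhelper14.ZPL.dim W :=
    krull_eq_of_integral' hinj
  have h2 : s = d := by
    rw [hdim, MvPolynomial.ringKrullDim_of_isNoetherianRing] at h1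
    simp only [ringKrullDim_eq_zero_of_field, Nat.card_eq_fintype_card, Fintype.card_fin, zero_add] at h1
    exact_mod_cast h1
  have h3 := (IsTranscendenceBasis.mvPolynomial (Fin s) ℂ).algebraMap_comp
    (A := MvPolynomial (Fin n) ℂ ⧸ (MvPolynomial.vanishingIdeal ℂ W : Ideal (MvPolynomial (Fin n) ℂ)))
  have h4 := h3.cardinalMk_eq_trdeg
  rw [← h4, h2]
  simp

/-- two functions on a curve are algebraically dependent -/
theorem curve_dep (hW : Pool.Agent.Hhelper14.ZPL.IsIrredClosed W) (hdim : Pool.Agent.Hhelper14.ZPL.dim W = 1)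
    (f g : MvPolynomial (Fin n) ℂ) : ∃ P : MvPolynomial (Fin 2) ℂ, P ≠ 0 ∧
      ∀ x ∈ W, MvPolynomial.eval ![MvPolynomial.eval x f, MvPolynomial.eval x g] P = 0 := by
  have hp := hW.1
  have hdom : IsDomain (MvPolynomial (Fin n) ℂ ⧸ (MvPolynomial.vanishingIdeal ℂ W : Ideal (MvPolynomial (Fin n) ℂ))) :=
    Ideal.Quotient.isDomain _
  have ht := DimA_trdeg (d := 1) hW (by rw [hdim]; rfl)
  have hnot : ¬ AlgebraicIndependent ℂ (fun j : Fin 2 =>
      (Ideal.Quotient.mk (MvPolynomial.vanishingIdeal ℂ W : Ideal (MvPolynomial (Fin n) ℂ)) (![f, g] j))) := by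
    intro hA
    have h1 := hA.cardinalMk_le_trdeg
    rw [ht] at h1
    simp only [Cardinal.mk_fintype, Fintype.card_fin, Nat.cast_ofNat, Nat.cast_one] at h1
    have h2 : ((2 : ℕ) : Cardinal.{0}) ≤ ((1 : ℕ) : Cardinal.{0}) := by exact_mod_cast h1
    have h3 : 2 ≤ 1 := by exact_mod_cast h2
    omega
  rw [algebraicIndependent_iff] at hnot
  push Not at hnot
  obtain ⟨P, hP, hP0⟩ := hnot
  refine ⟨P, hP0, fun x hx => ?_⟩
  have h1 : MvPolynomial.aeval (fun j : Fin 2 =>
      (Ideal.Quotient.mk (MvPolynomial.vanishingIdeal ℂ W : Ideal (MvPolynomial (Fin n) ℂ)) (![f, g] j))) P =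
      Ideal.Quotient.mk (MvPolynomial.vanishingIdeal ℂ W : Ideal (MvPolynomial (Fin n) ℂ))
        (MvPolynomial.aeval ![f, g] P) := by
    have h5 : (Ideal.Quotient.mkₐ ℂ
      (MvPolynomial.vanishingIdeal ℂ W : Ideal (MvPolynomial (Fin n) ℂ))).comp (MvPolynomial.aeval ![f, g]) =
      MvPolynomial.aeval (fun j : Fin 2 =>
      (Ideal.Quotient.mk (MvPolynomial.vanishingIdeal ℂ W : Ideal (MvPolynomial (Fin n) ℂ)) (![f, g] j))) := by
      apply MvPolynomial.algHom_ext
      intro j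
      simp
    exact (congrArg (fun φ => φ P) h5).symm
  rw [h1, Ideal.Quotient.eq_zero_iff_mem, MvPolynomial.mem_vanishingIdeal_iff] at hP
  have h2 := hP x hx
  have h3 : (MvPolynomial.aeval x : MvPolynomial (Fin n) ℂ →ₐ[ℂ] ℂ).comp (MvPolynomial.aeval ![f, g]) =
      MvPolynomial.aeval ![MvPolynomial.eval x f, MvPolynomial.eval x g] := by
    apply MvPolynomial.algHom_ext
    intro j
    fin_cases j
    · simp [MvPolynomial.aeval_eq_eval]
    · simp [MvPolynomial.aeval_eq_eval]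
  have h4 := congrArg (fun φ => φ P) h3
  simp only [AlgHom.comp_apply] at h4
  rw [h2] at h4
  rw [← MvPolynomial.aeval_eq_eval]
  exact h4.symm

theorem cp_mem {x : Fin n → ℂ} (hx : x ∈ W) : (fun a => x (i a)) ∈ cp i W := subset_closure' _ ⟨x, hx, rfl⟩

theorem cp_closed : IsZClosed (cp i W) := closed_zeroLocus _

private theorem DimA_proj : {y : Fin m → ℂ | ∃ x ∈ W, y = fun a => x (i a)} = proj i W := by
  ext y
  constructor
  · rintro ⟨x, hx, rfl⟩
    exact ⟨x, hx, rfl⟩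
  · rintro ⟨x, hx, rfl⟩
    exact ⟨x, hx, rfl⟩

theorem cp_irr (hW : Pool.Agent.Hhelper14.ZPL.IsIrredClosed W) : Pool.Agent.Hhelper14.ZPL.IsIrredClosed (cp i W) := by
  unfold cp
  apply irredClosed_closure
  rw [DimA_proj]
  exact irred_proj hW.1

/-- a closed set which contains the projection -/
theorem cp_sub {Z : Set (Fin m → ℂ)} (hZ : IsZClosed Z) (h : ∀ x ∈ W, (fun a => x (i a)) ∈ Z) : cp i W ⊆ Z := by
  apply closure_subset' _ hZ
  rintro y ⟨x, hx, rfl⟩
  exact h x hx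

theorem cp_cp {l : ℕ} {σ : Fin l → Fin m} : cp σ (cp i W) = cp (fun a => i (σ a)) W := by
  apply Set.Subset.antisymm
  · apply cp_sub cp_closed
    have h1 : cp i W ⊆ {y : Fin m → ℂ | y ∘ σ ∈ cp (fun a => i (σ a)) W} := by
      apply cp_sub (closed_preimage cp_closed)
      intro x hx
      exact cp_mem (i := fun a => i (σ a)) hx
    intro y hy
    exact h1 hy
  · apply cp_sub cp_closed
    intro x hx
    exact cp_mem (i := σ) (cp_mem (i := i) hx)

theorem dim_image (hW : Pool.Agent.Hhelper14.ZPL.IsIrredClosed W) (hdim : Pool.Agent.Hhelper14.ZPL.dim W = 1)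
    (hnc : ∃ a : Fin m, ∀ c : ℂ, ∃ x ∈ W, x (i a) ≠ c) : Pool.Agent.Hhelper14.ZPL.dim (cp i W) = 1 := by
  have hC := cp_irr (i := i) hW
  have hdom : IsDomain (MvPolynomial (Fin n) ℂ ⧸ (MvPolynomial.vanishingIdeal ℂ W : Ideal (MvPolynomial (Fin n) ℂ))) := by
    have := hW.1
    exact Ideal.Quotient.isDomain _
  obtain ⟨a, ha⟩ := hnc
  obtain ⟨x0, hx0⟩ := irred_nonempty hW
  obtain ⟨x1, hx1, hne⟩ := ha (x0 (i a))
  have h1 : 1 ≤ Pool.Agent.Hhelper14.ZPL.dim (cp i W) := by
    refine one_le_dim hC (cp_mem hx0) (cp_mem hx1) fun h => hne ?_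
    exact (congrFun h a).symm
  obtain ⟨d, hd, -⟩ := exists_dim hC
  have h2 := DimA_trdeg hC hd
  have h3 := DimA_trdeg (d := 1) hW (by rw [hdim]; rfl)
  have hI : (MvPolynomial.vanishingIdeal ℂ (cp i W) : Ideal (MvPolynomial (Fin m) ℂ)) =
      (MvPolynomial.vanishingIdeal ℂ W : Ideal (MvPolynomial (Fin n) ℂ)).comap
        (MvPolynomial.rename i : MvPolynomial (Fin m) ℂ →ₐ[ℂ] MvPolynomial (Fin n) ℂ) := by
    unfold cp
    rw [vanishing_closure, DimA_proj, vanishingIdeal_proj]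
  let φ : (MvPolynomial (Fin m) ℂ ⧸ (MvPolynomial.vanishingIdeal ℂ (cp i W) : Ideal (MvPolynomial (Fin m) ℂ))) →ₐ[ℂ]
      (MvPolynomial (Fin n) ℂ ⧸ (MvPolynomial.vanishingIdeal ℂ W : Ideal (MvPolynomial (Fin n) ℂ))) :=
    Ideal.quotientMapₐ _ (MvPolynomial.rename i : MvPolynomial (Fin m) ℂ →ₐ[ℂ] MvPolynomial (Fin n) ℂ) hI.le
  have hφ : Function.Injective φ := Ideal.quotientMap_injective' (H := hI.le) hI.ge
  have h4 := trdeg_le_of_injective φ hφ
  rw [h2, h3] at h4
  have h5 : d ≤ 1 := by exact_mod_cast h4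
  apply le_antisymm _ h1
  rw [hd]
  exact_mod_cast h5

/-- finite fibres -/
theorem cp_fin (hW : Pool.Agent.Hhelper14.ZPL.IsIrredClosed W) (hdim : Pool.Agent.Hhelper14.ZPL.dim W = 1)
    (hnc : ∃ a : Fin m, ∀ c : ℂ, ∃ x ∈ W, x (i a) ≠ c) {S : Set (Fin m → ℂ)} (hS : S.Finite)
    {T : Set (Fin n → ℂ)} (hT : ∀ x ∈ T, x ∈ W ∧ (fun a => x (i a)) ∈ S) : T.Finite := by
  obtain ⟨a, ha⟩ := hnc
  have hcl : ∀ c : ℂ, IsZClosed {x : Fin n → ℂ | x (i a) = c} := by
    intro c
    have h1 : {x : Fin n → ℂ | x (i a) = c} =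
        MvPolynomial.zeroLocus ℂ (Ideal.span {(MvPolynomial.X (i a) - MvPolynomial.C c : MvPolynomial (Fin n) ℂ)}) := by
      ext x
      rw [MvPolynomial.zeroLocus_span]
      simp [sub_eq_zero]
    rw [h1]
    exact closed_zeroLocus _
  have hfin : ∀ c : ℂ, (W ∩ {x : Fin n → ℂ | x (i a) = c}).Finite := by
    intro c
    rcases inter hW hdim (hcl c) with h | h
    · exact h
    · exfalso
      obtain ⟨x, hx, hne⟩ := ha c
      exact hne (h hx)
  refine (hS.biUnion fun s _ => hfin (s a)).subset ?_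
  intro x hx
  rw [Set.mem_iUnion₂]
  exact ⟨_, (hT x hx).2, (hT x hx).1, rfl⟩

/-- a curve has a nonconstant coordinate -/
theorem exists_nc (hW : Pool.Agent.Hhelper14.ZPL.IsIrredClosed W) (hdim : Pool.Agent.Hhelper14.ZPL.dim W = 1) :
    ∃ a : Fin n, ∀ c : ℂ, ∃ x ∈ W, x a ≠ c := by
  by_contra hcon
  push Not at hcon
  choose c hc using hcon
  have hsub : W ⊆ {c} := by
    intro x hx
    rw [Set.mem_singleton_iff]
    funext a
    exact hc a x hx
  have h1 : Pool.Agent.Hhelper14.ZPL.dim W ≤ Pool.Agent.Hhelper14.ZPL.dim ({c} : Set (Fin n → ℂ)) := dim_mono hsub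
  have h2 : Pool.Agent.Hhelper14.ZPL.dim ({c} : Set (Fin n → ℂ)) = 0 := by
    have hmax : (MvPolynomial.vanishingIdeal ℂ {c} : Ideal (MvPolynomial (Fin n) ℂ)).IsMaximal :=
      MvPolynomial.isMaximal_iff_eq_vanishingIdeal_singleton.mpr ⟨c, rfl⟩
    let _ := Ideal.Quotient.field (MvPolynomial.vanishingIdeal ℂ {c} : Ideal (MvPolynomial (Fin n) ℂ))
    exact ringKrullDim_eq_zero_of_field _
  rw [hdim, h2] at h1
  exact absurd h1 (by decide)

end Pool.Agent.LGO.FC
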