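import Mathlib
import Pool.Agent.LGO.FC.Defs

/-!
# LGO/FC: the corner region

`Om M R = {Re w₀ < -R, Re w₁ < M Re w₀}`, `Hp R = {Re t < -R}`.

* `isOpen_Om`, `convex_Om` (two real linear inequalities), `Om_ne` (the point `(-(R+1), -M(R+1) - 1)`), the same for `Hp`.
* `Om_mono`: `Re w₀ < 0`, so `M' Re w₀ ≤ M Re w₀`.  `arc_mem`: `N > M`, `Re t < 0`: `N Re t < M Re t`.
* `sc_mem`: `(q w₀, q w₁)`, `q ≥ 1`: `q Re w₀ ≤ Re w₀ < -R`.
* `ident`: identity theorem.  `Ω` open and convex in a complex normed space `E`, `F` complex differentiable on `Ω` and `0` near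
  `w ∈ Ω`.  For `w' ∈ Ω` let `D = {t : ℂ | w + t (w' - w) ∈ Ω}`, open and convex in `ℂ` (preimage of a convex set under a
  real affine map), `0, 1 ∈ D`.  The function `t ↦ F (w + t (w' - w))` is holomorphic on `D` and `0` near `0`, so it is
  `0` on `D` (`DifferentiableOn.analyticOnNhd` and `AnalyticOnNhd.eqOn_zero_of_preconnected_of_eventuallyEq_zero`), in
  particular at `t = 1`.
* `dom`: `F G = 0` on `Ω`; if `F w ≠ 0` then `F ≠ 0` near `w`, `G = 0` near `w`, so `G = 0` on `Ω`.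
* The algebra of `Mo`, `Bo`: if `‖F w‖ ≤ C exp (-B Re w₁)` then this holds with `|C|` and every `B' ≥ B`, as `Re w₁ ≤ 0`
  (on `Om M R`: `Re w₁ < M Re w₀ ≤ 0`).
* `Mo.bo`: multiply by `exp (B w₁)`, periodic since `B` is an integer.
* `Mo.ext`, `Bo.ext`: `DifferentiableOn.congr`; the translates of `w ∈ Om M R` by `2 π i` are in `Om M R`.
* `per_int`: induction.
-/

namespace Pool.Agent.LGO.FC

open Complex

variable {M R M' R' : ℕ} {F G : ℂ × ℂ → ℂ}

private theorem BasA_cvx {a b u v c : ℝ} (ha : 0 ≤ a) (hb : 0 ≤ b) (hab : a + b = 1) (hu : u < c)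
    (hv : v < c) : a * u + b * v < c := by
  have h1 : c = a * c + b * c := by rw [← add_mul, hab, one_mul]
  rcases ha.eq_or_lt with h | h
  · have hb1 : b = 1 := by linarith
    rw [← h, hb1]
    linarith
  · have h2 := mul_lt_mul_of_pos_left hu h
    have h3 := mul_le_mul_of_nonneg_left hv.le hb
    linarith

theorem isOpen_Om : IsOpen (Om M R) := by
  have h1 : IsOpen {w : ℂ × ℂ | w.1.re < -(R : ℝ)} :=
    isOpen_lt (Complex.continuous_re.comp continuous_fst) continuous_const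
  have h2 : IsOpen {w : ℂ × ℂ | w.2.re < M * w.1.re} :=
    isOpen_lt (Complex.continuous_re.comp continuous_snd)
      (continuous_const.mul (Complex.continuous_re.comp continuous_fst))
  exact h1.inter h2

theorem convex_Om : Convex ℝ (Om M R) := by
  intro x hx y hy a b ha hb hab
  obtain ⟨h1, h2⟩ := hx
  obtain ⟨h3, h4⟩ := hy
  constructor
  · simp only [Prod.fst_add, Prod.smul_fst, Complex.add_re, Complex.real_smul, Complex.re_ofReal_mul]
    exact BasA_cvx ha hb hab h1 h3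
  · simp only [Prod.fst_add, Prod.smul_fst, Prod.snd_add, Prod.smul_snd, Complex.add_re,
      Complex.real_smul, Complex.re_ofReal_mul]
    have := BasA_cvx ha hb hab (sub_neg.mpr h2) (sub_neg.mpr h4)
    linarith

theorem Om_ne : (Om M R).Nonempty := by
  refine ⟨((-((R : ℝ) + 1) : ℝ), (-(M * ((R : ℝ) + 1)) - 1 : ℝ)), ?_, ?_⟩
  · simp only [Complex.ofReal_re]
    linarith
  · simp only [Complex.ofReal_re]
    linarith

theorem isOpen_Hp : IsOpen (Hp R) := by
  exact isOpen_lt Complex.continuous_re continuous_const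

theorem convex_Hp : Convex ℝ (Hp R) := by
  intro x hx y hy a b ha hb hab
  change (a • x + b • y).re < -(R : ℝ)
  simp only [Complex.add_re, Complex.real_smul, Complex.re_ofReal_mul]
  exact BasA_cvx ha hb hab hx hy

theorem Hp_ne : (Hp R).Nonempty := by
  refine ⟨((-((R : ℝ) + 1) : ℝ) : ℂ), ?_⟩
  change ((-((R : ℝ) + 1) : ℝ) : ℂ).re < -(R : ℝ)
  rw [Complex.ofReal_re]
  linarith

theorem Om_mono (hM : M ≤ M') (hR : R ≤ R') : Om M' R' ⊆ Om M R := by
  rintro w ⟨h1, h2⟩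
  have hR' : (R : ℝ) ≤ R' := by exact_mod_cast hR
  have hM' : (M : ℝ) ≤ M' := by exact_mod_cast hM
  have h0 : (0 : ℝ) ≤ R' := Nat.cast_nonneg _
  refine ⟨by linarith, h2.trans_le ?_⟩
  exact mul_le_mul_of_nonpos_right hM' (by linarith)

theorem arc_mem {N : ℕ} (hN : M < N) {t : ℂ} (ht : t ∈ Hp R) : (t, (N : ℂ) * t) ∈ Om M R := by
  have ht' : t.re < -(R : ℝ) := ht
  have hN' : (M : ℝ) < N := by exact_mod_cast hN
  have h0 : (0 : ℝ) ≤ R := Nat.cast_nonneg _
  refine ⟨ht', ?_⟩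
  change ((N : ℂ) * t).re < M * t.re
  rw [← Complex.ofReal_natCast, Complex.re_ofReal_mul]
  exact mul_lt_mul_of_neg_right hN' (by linarith)

theorem sc_mem {q : ℕ} (hq : 0 < q) {w : ℂ × ℂ} (hw : w ∈ Om M R) : ((q : ℂ) * w.1, (q : ℂ) * w.2) ∈ Om M R := by
  obtain ⟨h1, h2⟩ := hw
  have h0 : (0 : ℝ) ≤ R := Nat.cast_nonneg _
  have hq' : (1 : ℝ) ≤ q := by exact_mod_cast hq
  constructor
  · change ((q : ℂ) * w.1).re < -(R : ℝ)
    rw [← Complex.ofReal_natCast, Complex.re_ofReal_mul]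
    nlinarith
  · change ((q : ℂ) * w.2).re < M * ((q : ℂ) * w.1).re
    rw [← Complex.ofReal_natCast, Complex.re_ofReal_mul, Complex.re_ofReal_mul]
    have := mul_lt_mul_of_pos_left h2 (by linarith : (0 : ℝ) < q)
    linarith

theorem sc_mem' {q : ℕ} (hq : 0 < q) {t : ℂ} (ht : t ∈ Hp R) : (q : ℂ) * t ∈ Hp R := by
  have ht' : t.re < -(R : ℝ) := ht
  have h0 : (0 : ℝ) ≤ R := Nat.cast_nonneg _
  have hq' : (1 : ℝ) ≤ q := by exact_mod_cast hq
  change ((q : ℂ) * t).re < -(R : ℝ)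
  rw [← Complex.ofReal_natCast, Complex.re_ofReal_mul]
  nlinarith

/-- identity theorem -/
theorem ident {E : Type*} [NormedAddCommGroup E] [NormedSpace ℂ E] {Ω : Set E} (ho : IsOpen Ω)
    (hc : ∀ w ∈ Ω, ∀ w' ∈ Ω, ∀ s : ℝ, 0 ≤ s → s ≤ 1 → w + (s : ℂ) • (w' - w) ∈ Ω) {f : E → ℂ}
    (hf : DifferentiableOn ℂ f Ω) {w : E} (hw : w ∈ Ω) (h0 : ∀ᶠ z in nhds w, f z = 0) : ∀ z ∈ Ω, f z = 0 := by
  intro w' hw'
  let D : Set ℂ := {t : ℂ | w + t • (w' - w) ∈ Ω}
  have hcont : Continuous fun t : ℂ => w + t • (w' - w) := by fun_prop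
  have hD : IsOpen D := ho.preimage hcont
  have hDc : Convex ℝ D := by
    intro s hs t ht a b ha hb hab
    have h1 := hc _ hs _ ht b hb (by linarith)
    change w + (a • s + b • t) • (w' - w) ∈ Ω
    have h2 : w + (a • s + b • t) • (w' - w) =
        w + s • (w' - w) + (b : ℂ) • (w + t • (w' - w) - (w + s • (w' - w))) := by
      have ha' : a = 1 - b := by linarith
      rw [ha', Complex.real_smul, Complex.real_smul, Complex.ofReal_sub, Complex.ofReal_one]
      module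
    rw [h2]
    exact h1
  have hg : DifferentiableOn ℂ (fun t : ℂ => f (w + t • (w' - w))) D := by
    refine hf.comp (t := Ω) ?_ fun t ht => ht
    fun_prop
  have h0D : (0 : ℂ) ∈ D := by
    change w + (0 : ℂ) • (w' - w) ∈ Ω
    rw [zero_smul, add_zero]
    exact hw
  have h1D : (1 : ℂ) ∈ D := by
    change w + (1 : ℂ) • (w' - w) ∈ Ω
    rw [one_smul, add_sub_cancel]
    exact hw'
  have hev : (fun t : ℂ => f (w + t • (w' - w))) =ᶠ[nhds 0] 0 := by
    have h3 : Filter.Tendsto (fun t : ℂ => w + t • (w' - w)) (nhds 0) (nhds w) := by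
      have := hcont.tendsto 0
      rwa [zero_smul, add_zero] at this
    exact h3.eventually h0
  have h4 := (hg.analyticOnNhd hD).eqOn_zero_of_preconnected_of_eventuallyEq_zero
    hDc.isPreconnected h0D hev h1D
  have h5 : f (w + (1 : ℂ) • (w' - w)) = 0 := h4
  rwa [one_smul, add_sub_cancel] at h5

/-- no zero divisors -/
theorem dom {E : Type*} [NormedAddCommGroup E] [NormedSpace ℂ E] {Ω : Set E} (ho : IsOpen Ω)
    (hc : ∀ w ∈ Ω, ∀ w' ∈ Ω, ∀ s : ℝ, 0 ≤ s → s ≤ 1 → w + (s : ℂ) • (w' - w) ∈ Ω) {f g : E → ℂ}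
    (hf : DifferentiableOn ℂ f Ω) (hg : DifferentiableOn ℂ g Ω) (h : ∀ z ∈ Ω, f z * g z = 0) :
    (∀ z ∈ Ω, f z = 0) ∨ (∀ z ∈ Ω, g z = 0) := by
  by_cases h1 : ∀ z ∈ Ω, f z = 0
  · exact Or.inl h1
  right
  push Not at h1
  obtain ⟨w, hw, hfw⟩ := h1
  have hcw : ContinuousAt f w := (hf w hw).continuousWithinAt.continuousAt (ho.mem_nhds hw)
  refine ident ho hc hg hw ?_
  filter_upwards [hcw.eventually_ne hfw, ho.mem_nhds hw] with z hz hzΩ
  exact (mul_eq_zero.mp (h z hzΩ)).resolve_left hz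

theorem seg_Om : ∀ w ∈ Om M R, ∀ w' ∈ Om M R, ∀ s : ℝ, 0 ≤ s → s ≤ 1 → w + (s : ℂ) • (w' - w) ∈ Om M R := by
  intro w hw w' hw' s hs hs'
  have h1 := convex_Om hw hw' (sub_nonneg.mpr hs') hs (by ring)
  have h2 : w + (s : ℂ) • (w' - w) = (1 - s) • w + s • w' := by
    rw [← Complex.coe_smul s w', ← Complex.coe_smul (1 - s) w, Complex.ofReal_sub, Complex.ofReal_one]
    module
  rw [h2]
  exact h1

theorem seg_Hp : ∀ w ∈ Hp R, ∀ w' ∈ Hp R, ∀ s : ℝ, 0 ≤ s → s ≤ 1 → w + (s : ℂ) • (w' - w) ∈ Hp R := by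
  intro w hw w' hw' s hs hs'
  have h1 := convex_Hp hw hw' (sub_nonneg.mpr hs') hs (by ring)
  have h2 : w + (s : ℂ) • (w' - w) = (1 - s) • w + s • w' := by
    rw [Complex.real_smul, Complex.real_smul, Complex.ofReal_sub, Complex.ofReal_one, smul_eq_mul]
    ring
  rw [h2]
  exact h1

private theorem BasA_re {w : ℂ × ℂ} (hw : w ∈ Om M R) : w.2.re ≤ 0 := by
  obtain ⟨h1, h2⟩ := hw
  have h0 : (0 : ℝ) ≤ R := Nat.cast_nonneg _
  have h3 : (M : ℝ) * w.1.re ≤ 0 :=
    mul_nonpos_of_nonneg_of_nonpos (Nat.cast_nonneg _) (by linarith)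
  linarith

private theorem BasA_int_re (a : ℤ) : ((a : ℂ) * (2 * Real.pi * I)).re = 0 := by
  have h : (a : ℂ) * (2 * Real.pi * I) = ((a * (2 * Real.pi) : ℝ) : ℂ) * I := by
    push_cast
    ring
  rw [h, Complex.re_ofReal_mul, Complex.I_re, mul_zero]

private theorem BasA_tr {w : ℂ × ℂ} (hw : w ∈ Om M R) (a b : ℤ) :
    (w.1 + a * (2 * Real.pi * I), w.2 + b * (2 * Real.pi * I)) ∈ Om M R := by
  obtain ⟨h1, h2⟩ := hw
  constructor
  · change (w.1 + a * (2 * Real.pi * I)).re < -(R : ℝ)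
    rw [Complex.add_re, BasA_int_re, add_zero]
    exact h1
  · change (w.2 + b * (2 * Real.pi * I)).re < M * (w.1 + a * (2 * Real.pi * I)).re
    rw [Complex.add_re, Complex.add_re, BasA_int_re, BasA_int_re, add_zero, add_zero]
    exact h2

private theorem BasA_per1 (h : Per M R F) (a : ℤ) : ∀ w ∈ Om M R,
    F (w.1 + a * (2 * Real.pi * I), w.2) = F w := by
  have htr : ∀ (a : ℤ), ∀ w ∈ Om M R, (w.1 + a * (2 * Real.pi * I), w.2) ∈ Om M R := by
    intro a w hw
    have := BasA_tr hw a 0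
    rwa [Int.cast_zero, zero_mul, add_zero] at this
  induction a using Int.induction_on with
  | zero =>
    intro w _
    rw [Int.cast_zero, zero_mul, add_zero]
  | succ n ih =>
    intro w hw
    have h1 := h.per1 _ (htr n w hw)
    rw [ih w hw] at h1
    rw [← h1]
    congr 1
    refine Prod.ext ?_ rfl
    push_cast
    ring
  | pred n ih =>
    intro w hw
    have h1 := h.per1 _ (htr (-(n : ℤ) - 1) w hw)
    rw [← h1, ← ih w hw]
    congr 1
    refine Prod.ext ?_ rfl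
    push_cast
    ring

private theorem BasA_per2 (h : Per M R F) (b : ℤ) : ∀ w ∈ Om M R,
    F (w.1, w.2 + b * (2 * Real.pi * I)) = F w := by
  have htr : ∀ (b : ℤ), ∀ w ∈ Om M R, (w.1, w.2 + b * (2 * Real.pi * I)) ∈ Om M R := by
    intro b w hw
    have := BasA_tr hw 0 b
    rwa [Int.cast_zero, zero_mul, add_zero] at this
  induction b using Int.induction_on with
  | zero =>
    intro w _
    rw [Int.cast_zero, zero_mul, add_zero]
  | succ n ih =>
    intro w hw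
    have h1 := h.per2 _ (htr n w hw)
    rw [ih w hw] at h1
    rw [← h1]
    congr 1
    refine Prod.ext rfl ?_
    push_cast
    ring
  | pred n ih =>
    intro w hw
    have h1 := h.per2 _ (htr (-(n : ℤ) - 1) w hw)
    rw [← h1, ← ih w hw]
    congr 1
    refine Prod.ext rfl ?_
    push_cast
    ring

/-- periods -/
theorem Per.int (h : Per M R F) {w : ℂ × ℂ} (hw : w ∈ Om M R) (a b : ℤ) :
    F (w.1 + a * (2 * Real.pi * I), w.2 + b * (2 * Real.pi * I)) = F w := by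
  have h1 : (w.1, w.2 + b * (2 * Real.pi * I)) ∈ Om M R := by
    have := BasA_tr hw 0 b
    rwa [Int.cast_zero, zero_mul, add_zero] at this
  have h2 := BasA_per1 h a _ h1
  have h3 := BasA_per2 h b w hw
  exact h2.trans h3

private theorem Per.BasA_add (hF : Per M R F) (hG : Per M R G) : Per M R (fun w => F w + G w) := by
  refine ⟨hF.hol.add hG.hol, fun w hw => ?_, fun w hw => ?_⟩
  · have h1 := hF.per1 w hw
    have h2 := hG.per1 w hw
    simp only [h1, h2]
  · have h1 := hF.per2 w hw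
    have h2 := hG.per2 w hw
    simp only [h1, h2]

private theorem Per.BasA_mul (hF : Per M R F) (hG : Per M R G) : Per M R (fun w => F w * G w) := by
  refine ⟨hF.hol.mul hG.hol, fun w hw => ?_, fun w hw => ?_⟩
  · have h1 := hF.per1 w hw
    have h2 := hG.per1 w hw
    simp only [h1, h2]
  · have h1 := hF.per2 w hw
    have h2 := hG.per2 w hw
    simp only [h1, h2]

private theorem Per.BasA_ext (hF : Per M R F) (h : ∀ w ∈ Om M R, G w = F w) : Per M R G := by
  refine ⟨hF.hol.congr h, fun w hw => ?_, fun w hw => ?_⟩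
  · have h1 : (w.1 + 2 * Real.pi * I, w.2) ∈ Om M R := by
      have := BasA_tr hw 1 0
      rwa [Int.cast_zero, zero_mul, add_zero, Int.cast_one, one_mul] at this
    rw [h _ h1, h w hw]
    exact hF.per1 w hw
  · have h1 : (w.1, w.2 + 2 * Real.pi * I) ∈ Om M R := by
      have := BasA_tr hw 0 1
      rwa [Int.cast_zero, zero_mul, add_zero, Int.cast_one, one_mul] at this
    rw [h _ h1, h w hw]
    exact hF.per2 w hw

private theorem Per.BasA_scale {q : ℕ} (hq : 0 < q) (hF : Per M R F) :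
    Per M R (fun w => F ((q : ℂ) * w.1, (q : ℂ) * w.2)) := by
  refine ⟨?_, fun w hw => ?_, fun w hw => ?_⟩
  · refine hF.hol.comp (t := Om M R) (f := fun w : ℂ × ℂ => ((q : ℂ) * w.1, (q : ℂ) * w.2)) ?_
      fun w hw => sc_mem hq hw
    fun_prop
  · have h1 := hF.int (sc_mem hq hw) q 0
    change F ((q : ℂ) * (w.1 + 2 * Real.pi * I), (q : ℂ) * w.2) = F ((q : ℂ) * w.1, (q : ℂ) * w.2)
    rw [← h1]
    congr 1
    refine Prod.ext ?_ ?_
    · push_cast
      ring
    · push_cast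
      ring
  · have h1 := hF.int (sc_mem hq hw) 0 q
    change F ((q : ℂ) * w.1, (q : ℂ) * (w.2 + 2 * Real.pi * I)) = F ((q : ℂ) * w.1, (q : ℂ) * w.2)
    rw [← h1]
    congr 1
    refine Prod.ext ?_ ?_
    · push_cast
      ring
    · push_cast
      ring

theorem Bo.mo (h : Bo M R F) : Mo M R F := by
  obtain ⟨C, hC⟩ := h.bd
  refine ⟨h.toPer, |C|, 0, fun w hw => ?_⟩
  refine (hC w hw).trans ((le_abs_self C).trans ?_)
  simp

theorem Mo.bo (h : Mo M R F) : ∃ B : ℕ, Bo M R (fun w => exp (B * w.2) * F w) := by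
  obtain ⟨C, B, hB⟩ := h.gr
  refine ⟨B, ⟨?_, ?_, ?_⟩, C, fun w hw => ?_⟩
  · exact (DifferentiableOn.cexp (by fun_prop)).mul h.hol
  · intro w hw
    have := h.per1 w hw
    simp only [this]
  · intro w hw
    have h1 := h.per2 w hw
    have h2 : exp ((B : ℂ) * (w.2 + 2 * Real.pi * I)) = exp ((B : ℂ) * w.2) := by
      rw [mul_add, Complex.exp_add, Complex.exp_nat_mul_two_pi_mul_I, mul_one]
    simp only [h1, h2]
  · rw [norm_mul, Complex.norm_exp]
    have h1 : ((B : ℂ) * w.2).re = B * w.2.re := by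
      rw [← Complex.ofReal_natCast, Complex.re_ofReal_mul]
    rw [h1]
    calc Real.exp (B * w.2.re) * ‖F w‖ ≤ Real.exp (B * w.2.re) * (C * Real.exp (-(B * w.2.re))) :=
          mul_le_mul_of_nonneg_left (hB w hw) (Real.exp_pos _).le
      _ = C * (Real.exp (B * w.2.re) * Real.exp (-(B * w.2.re))) := by ring
      _ = C := by rw [← Real.exp_add, add_neg_cancel, Real.exp_zero, mul_one]

theorem Mo.add (hF : Mo M R F) (hG : Mo M R G) : Mo M R (fun w => F w + G w) := by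
  obtain ⟨C, B, hB⟩ := hF.gr
  obtain ⟨C', B', hB'⟩ := hG.gr
  refine ⟨hF.toPer.BasA_add hG.toPer, |C| + |C'|, B + B', fun w hw => ?_⟩
  have h0 := BasA_re hw
  refine (norm_add_le _ _).trans ?_
  rw [add_mul]
  refine add_le_add ((hB w hw).trans ?_) ((hB' w hw).trans ?_)
  · refine mul_le_mul (le_abs_self C) (Real.exp_le_exp.mpr ?_) (Real.exp_pos _).le (abs_nonneg _)
    push_cast
    have : (B' : ℝ) * w.2.re ≤ 0 := mul_nonpos_of_nonneg_of_nonpos (Nat.cast_nonneg _) h0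
    linarith
  · refine mul_le_mul (le_abs_self C') (Real.exp_le_exp.mpr ?_) (Real.exp_pos _).le (abs_nonneg _)
    push_cast
    have : (B : ℝ) * w.2.re ≤ 0 := mul_nonpos_of_nonneg_of_nonpos (Nat.cast_nonneg _) h0
    linarith

theorem Mo.mul (hF : Mo M R F) (hG : Mo M R G) : Mo M R (fun w => F w * G w) := by
  obtain ⟨C, B, hB⟩ := hF.gr
  obtain ⟨C', B', hB'⟩ := hG.gr
  refine ⟨hF.toPer.BasA_mul hG.toPer, C * C', B + B', fun w hw => ?_⟩
  rw [norm_mul]
  calc ‖F w‖ * ‖G w‖ ≤ (C * Real.exp (-(B * w.2.re))) * (C' * Real.exp (-(B' * w.2.re))) :=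
        mul_le_mul (hB w hw) (hB' w hw) (norm_nonneg _) ((norm_nonneg _).trans (hB w hw))
    _ = C * C' * (Real.exp (-(B * w.2.re)) * Real.exp (-(B' * w.2.re))) := by ring
    _ = C * C' * Real.exp (-(((B + B' : ℕ) : ℝ) * w.2.re)) := by
        rw [← Real.exp_add]
        push_cast
        congr 2
        ring

theorem Mo.mono (hF : Mo M R F) (hM : M ≤ M') (hR : R ≤ R') : Mo M' R' F := by
  obtain ⟨C, B, hB⟩ := hF.gr
  have hs : Om M' R' ⊆ Om M R := Om_mono hM hR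
  exact ⟨⟨hF.hol.mono hs, fun w hw => hF.per1 w (hs hw), fun w hw => hF.per2 w (hs hw)⟩,
    C, B, fun w hw => hB w (hs hw)⟩

theorem Mo.scale {q : ℕ} (hq : 0 < q) (hF : Mo M R F) :
    Mo M R (fun w => F ((q : ℂ) * w.1, (q : ℂ) * w.2)) := by
  obtain ⟨C, B, hB⟩ := hF.gr
  refine ⟨hF.toPer.BasA_scale hq, C, B * q, fun w hw => ?_⟩
  refine (hB _ (sc_mem hq hw)).trans (le_of_eq ?_)
  have h1 : ((q : ℂ) * w.2).re = q * w.2.re := by
    rw [← Complex.ofReal_natCast, Complex.re_ofReal_mul]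
  rw [h1]
  push_cast
  rw [mul_assoc]

theorem Mo.ext (hF : Mo M R F) (h : ∀ w ∈ Om M R, G w = F w) : Mo M R G := by
  obtain ⟨C, B, hB⟩ := hF.gr
  refine ⟨hF.toPer.BasA_ext h, C, B, fun w hw => ?_⟩
  rw [h w hw]
  exact hB w hw

theorem bo_const (c : ℂ) : Bo M R (fun _ => c) := by
  exact ⟨⟨differentiableOn_const c, fun _ _ => rfl, fun _ _ => rfl⟩, ‖c‖, fun _ _ => le_rfl⟩

theorem mo_const (c : ℂ) : Mo M R (fun _ => c) := by
  exact (bo_const c).mo

theorem Bo.add (hF : Bo M R F) (hG : Bo M R G) : Bo M R (fun w => F w + G w) := by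
  obtain ⟨C, hC⟩ := hF.bd
  obtain ⟨C', hC'⟩ := hG.bd
  exact ⟨hF.toPer.BasA_add hG.toPer, C + C', fun w hw =>
    (norm_add_le _ _).trans (add_le_add (hC w hw) (hC' w hw))⟩

theorem Bo.mul (hF : Bo M R F) (hG : Bo M R G) : Bo M R (fun w => F w * G w) := by
  obtain ⟨C, hC⟩ := hF.bd
  obtain ⟨C', hC'⟩ := hG.bd
  refine ⟨hF.toPer.BasA_mul hG.toPer, C * C', fun w hw => ?_⟩
  rw [norm_mul]
  exact mul_le_mul (hC w hw) (hC' w hw) (norm_nonneg _) ((norm_nonneg _).trans (hC w hw))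

theorem Bo.mono (hF : Bo M R F) (hM : M ≤ M') (hR : R ≤ R') : Bo M' R' F := by
  obtain ⟨C, hC⟩ := hF.bd
  have hs : Om M' R' ⊆ Om M R := Om_mono hM hR
  exact ⟨⟨hF.hol.mono hs, fun w hw => hF.per1 w (hs hw), fun w hw => hF.per2 w (hs hw)⟩,
    C, fun w hw => hC w (hs hw)⟩

theorem Bo.scale {q : ℕ} (hq : 0 < q) (hF : Bo M R F) :
    Bo M R (fun w => F ((q : ℂ) * w.1, (q : ℂ) * w.2)) := by
  obtain ⟨C, hC⟩ := hF.bd
  exact ⟨hF.toPer.BasA_scale hq, C, fun w hw => hC _ (sc_mem hq hw)⟩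

theorem Bo.ext (hF : Bo M R F) (h : ∀ w ∈ Om M R, G w = F w) : Bo M R G := by
  obtain ⟨C, hC⟩ := hF.bd
  refine ⟨hF.toPer.BasA_ext h, C, fun w hw => ?_⟩
  rw [h w hw]
  exact hC w hw

theorem Lex.ne {a b : ℤ} (h : Lex a b) : a ≠ 0 ∨ b ≠ 0 := by
  rcases h with h | ⟨-, h⟩
  · exact Or.inr h.ne'
  · exact Or.inl h.ne'

private noncomputable def BasA_fil : Filter (ℂ × ℂ) :=
  ⨅ n : ℕ × ℕ, Filter.principal (Om n.1 n.2)

private theorem BasA_basis : BasA_fil.HasBasis (fun _ : ℕ × ℕ => True) (fun n => Om n.1 n.2) := by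
  refine Filter.hasBasis_iInf_principal ?_
  intro m n
  exact ⟨(max m.1 n.1, max m.2 n.2), Om_mono (le_max_left _ _) (le_max_left _ _),
    Om_mono (le_max_right _ _) (le_max_right _ _)⟩

private theorem BasA_cz {p : ℂ} : Cz F p ↔ Filter.Tendsto F BasA_fil (nhds p) := by
  rw [BasA_basis.tendsto_iff Metric.nhds_basis_ball]
  constructor
  · intro h ε hε
    obtain ⟨M, R, hMR⟩ := h ε hε
    refine ⟨(M, R), trivial, fun w hw => ?_⟩
    rw [Metric.mem_ball, dist_eq_norm]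
    exact hMR w hw
  · intro h ε hε
    obtain ⟨n, -, hn⟩ := h ε hε
    refine ⟨n.1, n.2, fun w hw => ?_⟩
    have := hn w hw
    rwa [Metric.mem_ball, dist_eq_norm] at this

theorem Cz.mul {p q : ℂ} (hF : Cz F p) (hG : Cz G q) : Cz (fun w => F w * G w) (p * q) := by
  exact BasA_cz.mpr ((BasA_cz.mp hF).mul (BasA_cz.mp hG))

/-- `exp (a w₀ + b w₁)` tends to `0` at the corner -/
theorem cz_lex {a b : ℤ} (h : Lex a b) : Cz (fun w => exp (a * w.1 + b * w.2)) 0 := by
  intro ε hε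
  obtain ⟨R, hR⟩ := exists_nat_gt (-Real.log ε)
  refine ⟨a.natAbs + 1, R, fun w hw => ?_⟩
  have h0 : (0 : ℝ) ≤ R := Nat.cast_nonneg _
  have hw2 := BasA_re hw
  obtain ⟨h1, h2⟩ := hw
  have hre : ((a : ℂ) * w.1 + (b : ℂ) * w.2).re = a * w.1.re + b * w.2.re := by
    rw [Complex.add_re, ← Complex.ofReal_intCast, ← Complex.ofReal_intCast, Complex.re_ofReal_mul,
      Complex.re_ofReal_mul]
  rw [sub_zero, Complex.norm_exp, hre]
  have hlt : (a : ℝ) * w.1.re + b * w.2.re < -(R : ℝ) := by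
    have habs : ((a.natAbs : ℕ) : ℝ) = |(a : ℝ)| := by
      rw [Nat.cast_natAbs, Int.cast_abs]
    push_cast at h2
    rw [habs] at h2
    have hx : w.1.re < 0 := by linarith
    rcases h with hb | ⟨hb, ha⟩
    · have hb' : (1 : ℝ) ≤ b := by exact_mod_cast hb
      have h3 : (b : ℝ) * w.2.re ≤ w.2.re := by nlinarith
      have h4 : (a : ℝ) * w.1.re ≤ |(a : ℝ)| * (-w.1.re) := by
        have := neg_abs_le (a : ℝ)
        nlinarith
      linarith
    · have ha' : (1 : ℝ) ≤ a := by exact_mod_cast ha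
      rw [hb, Int.cast_zero, zero_mul, add_zero]
      nlinarith
  calc Real.exp ((a : ℝ) * w.1.re + b * w.2.re) < Real.exp (Real.log ε) :=
        Real.exp_lt_exp.mpr (by linarith)
    _ = ε := Real.exp_log hε

/-- composition with a continuous function -/
theorem Cz.comp {p : ℂ} (hF : Cz F p) {f : ℂ → ℂ} (hf : ContinuousAt f p) : Cz (fun w => f (F w)) (f p) := by
  exact BasA_cz.mpr (hf.tendsto.comp (BasA_cz.mp hF))

theorem Cz.scale {p : ℂ} {q : ℕ} (hq : 0 < q) (hF : Cz F p) :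
    Cz (fun w => F ((q : ℂ) * w.1, (q : ℂ) * w.2)) p := by
  intro ε hε
  obtain ⟨M, R, h⟩ := hF ε hε
  exact ⟨M, R, fun w hw => h _ (sc_mem hq hw)⟩

end Pool.Agent.LGO.FC
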