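import Mathlib
import Pool.Agent.LGO.FC.BasA

/-!
# LGO/FC: bounded periodic functions

`one_asy`: a bounded periodic holomorphic function `G ≠ 0` on `Hp R` is `exp (l t) (p + o(1))`, `l ∈ ℕ`, `p ≠ 0`, as
`Re t → -∞`.

Proof.  `G t = g (exp t)` with `g` holomorphic and bounded on the punctured disc `0 < |s| < exp (-R)` (Mathlib:
`Function.Periodic.cuspFunction`, `Function.Periodic.differentiableAt_cuspFunction_zero`, with `h = 1` and
`q = exp (2 π i z)`, `t = 2 π i z`; see its uses in Mathlib for modular forms; or define `g s = G (log s)`, which is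
holomorphic near every `s ≠ 0` since locally it is `G` composed with a branch of the logarithm, by periodicity).
`g` extends holomorphically to `s = 0` (`Complex.differentiableOn_update_limUnder_of_bddAbove`, Riemann), it is not zero
near `0` (identity theorem: otherwise `G = 0`), so `g s = s ^ l h(s)`, `h(0) = p ≠ 0`
(`AnalyticAt.exists_eventuallyEq_pow_smul_nonzero_iff`), and `exp (-l t) G t = h (exp t) → p`.

`exp_step`: `F` bounded periodic on `Om M R`: `F w = G (w₀) + exp (w₁ - M w₀) F' w` with `G` and `F'` bounded periodic,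
and if `F w = exp (w₁ - M w₀) F' w` (i.e. `G = 0`) then `F'` has the same bound as `F`.

Proof.  Fix `w₀ ∈ Hp R`.  `w₁ ↦ F (w₀, w₁)` is periodic, holomorphic and bounded by `C` on `Re w₁ < M Re w₀`, so it is
`f (exp (w₁ - M w₀))` with `f = f_{w₀}` holomorphic on the punctured unit disc, bounded by `C`, extended to the unit disc.
Put `G w₀ = f 0`, `|G| ≤ C`, and `F' w = (F w - G w₀) / exp (w₁ - M w₀)`.  By the Schwarz lemma for `f - f 0`
(bounded by `2 C`; `Complex.dist_le_div_mul_dist_of_mapsTo_ball` or similar, or the maximum principle) `|F'| ≤ 2 C`.  `G` is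
holomorphic: for `n ∈ ℕ` the functions `G_n t = F (t, M t - (n + 1))` are holomorphic on `Hp R` and
`|G_n t - G t| = |exp (- (n + 1)) F' (t, M t - (n + 1))| ≤ 2 C exp (-n)`: uniform convergence
(`TendstoLocallyUniformlyOn.differentiableOn`).  `G` is periodic: `f_{w₀ + 2 π i} = f_{w₀}`, because
`F (w₀ + 2 π i, w₁) = F (w₀, w₁)` and `exp (w₁ - M (w₀ + 2 π i)) = exp (w₁ - M w₀)` (or as a limit: `G_n (t + 2 π i) = G_n t`
by `Per.int`).  `F'` is holomorphic on `Om M R` as a quotient and periodic.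
If `G = 0`: for fixed `w₀`, `f(z) = z f'(z)` on the unit disc, `|f| ≤ C`: `|f'| ≤ C` by the maximum principle
(`|f'(z)| ≤ C / r` for `|z| = r < 1`, `r → 1`; Schwarz lemma `Complex.norm_le_norm_of_mapsTo_ball...`).
-/

namespace Pool.Agent.LGO.FC

open Complex Metric Filter Topology

private theorem ExpA_per {c : ℝ} {G : ℂ → ℂ} (hp : ∀ t : ℂ, t.re < c → G (t + 2 * Real.pi * I) = G t) {t : ℂ}
    (ht : t.re < c) (n : ℤ) : G (t + n * (2 * Real.pi * I)) = G t := by
  have hre : ∀ k : ℤ, (t + k * (2 * Real.pi * I)).re < c := by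
    intro k
    have h : (t + k * (2 * Real.pi * I)).re = t.re := by simp
    rw [h]
    exact ht
  induction n using Int.induction_on with
  | zero => rw [Int.cast_zero, zero_mul, add_zero]
  | succ n ih =>
    rw [← ih, ← hp _ (hre n)]
    congr 1
    push_cast
    ring
  | pred n ih =>
    rw [← ih, ← hp _ (hre (-(n : ℤ) - 1))]
    congr 1
    push_cast
    ring

/-- a bounded periodic function is a holomorphic function of `exp t` -/
private theorem ExpA_desc {c C : ℝ} {G : ℂ → ℂ} (hd : DifferentiableOn ℂ G {t | t.re < c})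
    (hp : ∀ t : ℂ, t.re < c → G (t + 2 * Real.pi * I) = G t) (hb : ∀ t : ℂ, t.re < c → ‖G t‖ ≤ C) :
    ∃ g : ℂ → ℂ, DifferentiableOn ℂ g (ball 0 (Real.exp c)) ∧ (∀ t : ℂ, t.re < c → g (exp t) = G t) ∧
      ∀ z ∈ ball (0 : ℂ) (Real.exp c), ‖g z‖ ≤ C := by
  have hopen : IsOpen {t : ℂ | t.re < c} := isOpen_lt Complex.continuous_re continuous_const
  set g₀ : ℂ → ℂ := fun z => G (log z) with hg₀
  have hge : ∀ t : ℂ, t.re < c → g₀ (exp t) = G t := by
    intro t ht
    have h1 : exp (log (exp t)) = exp t := exp_log (exp_ne_zero t)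
    rw [exp_eq_exp_iff_exists_int] at h1
    obtain ⟨n, hn⟩ := h1
    rw [hg₀]
    simp only
    rw [hn]
    exact ExpA_per hp ht n
  have hlog : ∀ z : ℂ, z ≠ 0 → z ∈ ball (0 : ℂ) (Real.exp c) → (log z).re < c := by
    intro z hz hzb
    rw [log_re, Real.log_lt_iff_lt_exp (norm_pos_iff.mpr hz)]
    rwa [mem_ball_zero_iff] at hzb
  have hd0 : DifferentiableOn ℂ g₀ (ball (0 : ℂ) (Real.exp c) \ {0}) := by
    intro z₀ hz₀
    have hz0 : z₀ ≠ 0 := hz₀.2
    have hre := hlog z₀ hz0 hz₀.1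
    set L : ℂ → ℂ := fun w => log (w / z₀) + log z₀ with hL
    have hLz : L z₀ = log z₀ := by
      rw [hL]
      simp only
      rw [div_self hz0, log_one, zero_add]
    have hLd : DifferentiableAt ℂ L z₀ := by
      have h1 : z₀ / z₀ ∈ slitPlane := by
        rw [div_self hz0]
        exact one_mem_slitPlane
      have h2 : DifferentiableAt ℂ (fun w => w / z₀) z₀ := by fun_prop
      exact (h2.clog h1).add_const _
    have hGL : DifferentiableAt ℂ (fun w => G (L w)) z₀ := by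
      have h1 : DifferentiableAt ℂ G (L z₀) := by
        rw [hLz]
        exact hd.differentiableAt (hopen.mem_nhds hre)
      exact h1.comp z₀ hLd
    have hev : g₀ =ᶠ[𝓝 z₀] fun w => G (L w) := by
      have h1 : ∀ᶠ w in 𝓝 z₀, L w ∈ {t : ℂ | t.re < c} := by
        refine hLd.continuousAt.eventually_mem (hopen.mem_nhds ?_)
        rw [hLz]
        exact hre
      filter_upwards [h1, isOpen_ne.mem_nhds hz0] with w hw hw0
      have h2 : exp (L w) = w := by
        rw [hL]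
        simp only
        rw [exp_add, exp_log (div_ne_zero hw0 hz0), exp_log hz0, div_mul_cancel₀ _ hz0]
      rw [← hge _ hw, h2]
    exact (hev.differentiableAt_iff.mpr hGL).differentiableWithinAt
  have hbd : ∀ z ∈ ball (0 : ℂ) (Real.exp c) \ {0}, ‖g₀ z‖ ≤ C := fun z hz =>
    hb _ (hlog z hz.2 hz.1)
  have hnh : ball (0 : ℂ) (Real.exp c) ∈ 𝓝 (0 : ℂ) := ball_mem_nhds _ (Real.exp_pos c)
  have hba : BddAbove (norm ∘ g₀ '' (ball (0 : ℂ) (Real.exp c) \ {0})) := by
    refine ⟨C, ?_⟩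
    rintro _ ⟨z, hz, rfl⟩
    exact hbd z hz
  refine ⟨Function.update g₀ 0 (limUnder (𝓝[≠] 0) g₀),
    differentiableOn_update_limUnder_of_bddAbove hnh hd0 hba, ?_, ?_⟩
  · intro t ht
    rw [Function.update_of_ne (exp_ne_zero t)]
    exact hge t ht
  · intro z hz
    by_cases hz0 : z = 0
    · have hc : ContinuousAt (Function.update g₀ 0 (limUnder (𝓝[≠] 0) g₀)) 0 :=
        ((differentiableOn_update_limUnder_of_bddAbove hnh hd0 hba).continuousOn).continuousAt hnh
      have h1 : Tendsto (fun z => ‖Function.update g₀ 0 (limUnder (𝓝[≠] 0) g₀) z‖) (𝓝[≠] 0)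
          (𝓝 ‖Function.update g₀ 0 (limUnder (𝓝[≠] 0) g₀) 0‖) :=
        (hc.norm.tendsto).mono_left nhdsWithin_le_nhds
      rw [hz0]
      refine le_of_tendsto h1 ?_
      filter_upwards [self_mem_nhdsWithin, nhdsWithin_le_nhds hnh] with w hw hwb
      have hw0 : w ≠ 0 := hw
      rw [Function.update_of_ne hw0]
      exact hbd w ⟨hwb, hw0⟩
    · rw [Function.update_of_ne hz0]
      exact hbd z ⟨hz, hz0⟩

/-- leading term of a periodic function of one variable -/
theorem one_asy {R : ℕ} {G : ℂ → ℂ} (hG : Bo1 R G) (hne : ∃ t ∈ Hp R, G t ≠ 0) :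
    ∃ (l : ℕ) (p : ℂ), p ≠ 0 ∧ ∀ ε : ℝ, 0 < ε → ∃ R' : ℕ, ∀ t ∈ Hp R', ‖exp (-(l * t)) * G t - p‖ < ε := by
  obtain ⟨C, hC⟩ := hG.bd
  obtain ⟨g, hgd, hge, -⟩ := ExpA_desc (c := -(R : ℝ)) (C := C) hG.hol (fun t ht => hG.per t ht)
    (fun t ht => hC t ht)
  have hr := Real.exp_pos (-(R : ℝ))
  have h0 : (0 : ℂ) ∈ ball (0 : ℂ) (Real.exp (-(R : ℝ))) := mem_ball_self hr
  have han : AnalyticOnNhd ℂ g (ball 0 (Real.exp (-(R : ℝ)))) := hgd.analyticOnNhd isOpen_ball
  have hnz : ¬ ∀ᶠ z in 𝓝 (0 : ℂ), g z = 0 := by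
    intro h
    obtain ⟨t, ht, hGt⟩ := hne
    apply hGt
    rw [← hge t ht]
    refine han.eqOn_zero_of_preconnected_of_eventuallyEq_zero (convex_ball _ _).isPreconnected h0 h ?_
    rw [mem_ball_zero_iff, norm_exp]
    exact Real.exp_lt_exp.mpr ht
  obtain ⟨l, h, hha, hh0, hev⟩ := (han 0 h0).exists_eventuallyEq_pow_smul_nonzero_iff.mpr hnz
  refine ⟨l, h 0, hh0, fun ε hε => ?_⟩
  have h1 : ∀ᶠ z in 𝓝 (0 : ℂ), ‖h z - h 0‖ < ε := by
    have h2 := hha.continuousAt.tendsto.eventually (ball_mem_nhds (h 0) hε)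
    filter_upwards [h2] with z hz
    rwa [dist_eq_norm] at hz
  obtain ⟨δ, hδ, hall⟩ := Metric.eventually_nhds_iff_ball.mp (hev.and h1)
  obtain ⟨n, hn⟩ := exists_nat_gt (-Real.log δ)
  refine ⟨max n R, fun t ht => ?_⟩
  have ht' : t.re < -((max n R : ℕ) : ℝ) := ht
  have hn' : (n : ℝ) ≤ ((max n R : ℕ) : ℝ) := by exact_mod_cast le_max_left _ _
  have hR' : (R : ℝ) ≤ ((max n R : ℕ) : ℝ) := by exact_mod_cast le_max_right _ _
  have htR : t.re < -(R : ℝ) := by linarith
  have hb : exp t ∈ ball (0 : ℂ) δ := by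
    rw [mem_ball_zero_iff, norm_exp, ← Real.lt_log_iff_exp_lt hδ]
    linarith
  obtain ⟨e1, e2⟩ := hall _ hb
  have e3 : exp (-(l * t)) * G t = h (exp t) := by
    rw [← hge t htR, e1, sub_zero, smul_eq_mul, ← mul_assoc, ← exp_nat_mul, ← exp_add, neg_add_cancel,
      exp_zero, one_mul]
  rw [e3]
  exact e2

private theorem ExpA_mem {M R : ℕ} {w₀ t : ℂ} (hw : w₀ ∈ Hp R) (ht : t.re < 0) :
    (w₀, t + M * w₀) ∈ Om M R := by
  refine ⟨hw, ?_⟩
  change (t + M * w₀).re < M * w₀.re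
  rw [add_re, ← ofReal_natCast, re_ofReal_mul]
  linarith

private theorem ExpA_re {M R : ℕ} {w : ℂ × ℂ} (hw : w ∈ Om M R) : (w.2 - M * w.1).re < 0 := by
  rw [sub_re, ← ofReal_natCast, re_ofReal_mul]
  have := hw.2
  linarith

private theorem ExpA_ball {t : ℂ} (ht : t.re < 0) : exp t ∈ ball (0 : ℂ) 1 := by
  rw [mem_ball_zero_iff, norm_exp, ← Real.exp_zero]
  exact Real.exp_lt_exp.mpr ht

/-- the function of the second variable -/
private theorem ExpA_fib {M R : ℕ} {F : ℂ × ℂ → ℂ} (hF : Per M R F) {C : ℝ} (hC : ∀ w ∈ Om M R, ‖F w‖ ≤ C)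
    {w₀ : ℂ} (hw : w₀ ∈ Hp R) : ∃ f : ℂ → ℂ, DifferentiableOn ℂ f (ball 0 1) ∧
      (∀ t : ℂ, t.re < 0 → f (exp t) = F (w₀, t + M * w₀)) ∧ ∀ z ∈ ball (0 : ℂ) 1, ‖f z‖ ≤ C := by
  have h := ExpA_desc (c := 0) (C := C) (G := fun t => F (w₀, t + M * w₀)) ?_ ?_ ?_
  · rwa [Real.exp_zero] at h
  · refine hF.hol.comp (t := Om M R) (f := fun t : ℂ => (w₀, t + M * w₀)) ?_ fun t ht => ExpA_mem hw ht
    fun_prop
  · intro t ht
    have h1 := hF.per2 _ (ExpA_mem (M := M) hw ht)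
    simp only at h1
    rw [← h1]
    congr 2
    ring
  · exact fun t ht => hC _ (ExpA_mem hw ht)

/-- expansion with respect to the second variable -/
theorem exp_step {M R : ℕ} {F : ℂ × ℂ → ℂ} (hF : Bo M R F) :
    ∃ (G : ℂ → ℂ) (F' : ℂ × ℂ → ℂ), Bo1 R G ∧ Bo M R F' ∧
      (∀ w ∈ Om M R, F w = G w.1 + exp (w.2 - M * w.1) * F' w) := by
  classical
  obtain ⟨C, hC⟩ := hF.bd
  have hex : ∀ w₀ : ℂ, ∃ f : ℂ → ℂ, w₀ ∈ Hp R → (DifferentiableOn ℂ f (ball 0 1) ∧
      (∀ t : ℂ, t.re < 0 → f (exp t) = F (w₀, t + M * w₀)) ∧ ∀ z ∈ ball (0 : ℂ) 1, ‖f z‖ ≤ C) := by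
    intro w₀
    by_cases hw : w₀ ∈ Hp R
    · obtain ⟨f, hf⟩ := ExpA_fib hF.toPer hC hw
      exact ⟨f, fun _ => hf⟩
    · exact ⟨0, fun h => absurd h hw⟩
  choose f hf using hex
  have h0 : (0 : ℂ) ∈ ball (0 : ℂ) 1 := mem_ball_self one_pos
  -- Schwarz lemma
  have hsch : ∀ w₀ ∈ Hp R, ∀ t : ℂ, t.re < 0 →
      ‖F (w₀, t + M * w₀) - f w₀ 0‖ ≤ 2 * C * ‖exp t‖ := by
    intro w₀ hw t ht
    obtain ⟨hd, he, hb⟩ := hf w₀ hw
    have h1 : Set.MapsTo (f w₀) (ball 0 1) (closedBall (f w₀ 0) (2 * C)) := by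
      intro z hz
      rw [mem_closedBall, dist_eq_norm]
      have h2 := norm_sub_le (f w₀ z) (f w₀ 0)
      have h3 := hb z hz
      have h4 := hb 0 h0
      linarith
    have h2 := Complex.dist_le_div_mul_dist_of_mapsTo_ball hd h1 (ExpA_ball ht)
    rw [dist_eq_norm, dist_eq_norm, sub_zero, div_one, he t ht] at h2
    exact h2
  have hper1 : ∀ t ∈ Hp R, ∀ s : ℂ, s.re < 0 → F (t + 2 * Real.pi * I, s + M * (t + 2 * Real.pi * I)) =
      F (t, s + M * t) := by
    intro t ht s hs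
    have h1 := hF.toPer.int (ExpA_mem (M := M) ht hs) 1 M
    rw [← h1]
    congr 1
    refine Prod.ext ?_ ?_
    · push_cast
      ring
    · push_cast
      ring
  have hHp2 : ∀ t ∈ Hp R, t + 2 * Real.pi * I ∈ Hp R := by
    intro t ht
    change (t + 2 * Real.pi * I).re < -(R : ℝ)
    have h1 : (t + 2 * Real.pi * I).re = t.re := by simp
    rw [h1]
    exact ht
  -- the constant term as a limit
  have hlim : ∀ t ∈ Hp R, Tendsto (fun n : ℕ => F (t, -((n : ℂ) + 1) + M * t)) atTop (𝓝 (f t 0)) := by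
    intro t ht
    obtain ⟨hd, he, hb⟩ := hf t ht
    have hc : ContinuousAt (f t) 0 := hd.continuousOn.continuousAt (ball_mem_nhds _ one_pos)
    have h1 : Tendsto (fun n : ℕ => exp (-((n : ℂ) + 1))) atTop (𝓝 0) := by
      rw [tendsto_zero_iff_norm_tendsto_zero]
      have h2 : Tendsto (fun n : ℕ => Real.exp (-((n : ℝ) + 1))) atTop (𝓝 0) := by
        refine Real.tendsto_exp_neg_atTop_nhds_zero.comp ?_
        exact tendsto_natCast_atTop_atTop.atTop_add tendsto_const_nhds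
      refine h2.congr fun n => ?_
      rw [norm_exp]
      congr 1
    have h3 := hc.tendsto.comp h1
    refine h3.congr fun n => ?_
    refine he _ ?_
    have h4 : (0 : ℝ) ≤ n := Nat.cast_nonneg n
    simp only [neg_re, add_re, natCast_re, one_re]
    linarith
  have hGd : DifferentiableOn ℂ (fun t => f t 0) (Hp R) := by
    have hu : TendstoUniformlyOn (fun (n : ℕ) (t : ℂ) => F (t, -((n : ℂ) + 1) + M * t)) (fun t => f t 0) atTop
        (Hp R) := by
      rw [Metric.tendstoUniformlyOn_iff]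
      intro ε hε
      have h2 : Tendsto (fun n : ℕ => 2 * C * Real.exp (-((n : ℝ) + 1))) atTop (𝓝 0) := by
        have h3 : Tendsto (fun n : ℕ => Real.exp (-((n : ℝ) + 1))) atTop (𝓝 0) := by
          refine Real.tendsto_exp_neg_atTop_nhds_zero.comp ?_
          exact tendsto_natCast_atTop_atTop.atTop_add tendsto_const_nhds
        have h4 := h3.const_mul (2 * C)
        rwa [mul_zero] at h4
      filter_upwards [h2.eventually (gt_mem_nhds hε)] with n hn t ht
      have h4 : (0 : ℝ) ≤ n := Nat.cast_nonneg n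
      have h5 : (-((n : ℂ) + 1)).re = -((n : ℝ) + 1) := by simp
      have h6 := hsch t ht (-((n : ℂ) + 1)) (by rw [h5]; linarith)
      rw [norm_exp, h5] at h6
      rw [dist_comm, dist_eq_norm]
      exact h6.trans_lt hn
    refine hu.tendstoLocallyUniformlyOn.differentiableOn ?_ isOpen_Hp
    refine Eventually.of_forall fun n => ?_
    refine hF.hol.comp (t := Om M R) (f := fun t : ℂ => (t, -((n : ℂ) + 1) + M * t)) ?_ fun t ht => ?_
    · fun_prop
    · refine ExpA_mem ht ?_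
      have h4 : (0 : ℝ) ≤ n := Nat.cast_nonneg n
      simp only [neg_re, add_re, natCast_re, one_re]
      linarith
  have hGp : ∀ t ∈ Hp R, f (t + 2 * Real.pi * I) 0 = f t 0 := by
    intro t ht
    refine tendsto_nhds_unique (hlim _ (hHp2 t ht)) ((hlim t ht).congr fun n => ?_)
    refine (hper1 t ht _ ?_).symm
    have h4 : (0 : ℝ) ≤ n := Nat.cast_nonneg n
    simp only [neg_re, add_re, natCast_re, one_re]
    linarith
  have hpd : ∀ w ∈ Om M R, w.1 ∈ Hp R := fun w hw => hw.1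
  refine ⟨fun t => f t 0, fun w => (F w - f w.1 0) / exp (w.2 - M * w.1), ⟨hGd, hGp, C, fun t ht =>
    (hf t ht).2.2 0 h0⟩, ⟨⟨?_, ?_, ?_⟩, 2 * C, ?_⟩, ?_⟩
  · have k1 : DifferentiableOn ℂ (fun w : ℂ × ℂ => f w.1 0) (Om M R) :=
      hGd.comp (t := Hp R) differentiableOn_fst hpd
    have k2 : DifferentiableOn ℂ (fun w : ℂ × ℂ => exp (-(w.2 - M * w.1))) (Om M R) :=
      DifferentiableOn.cexp (by fun_prop)
    refine ((hF.hol.sub k1).mul k2).congr fun w _ => ?_
    simp only [Pi.mul_apply, Pi.sub_apply]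
    rw [div_eq_mul_inv, exp_neg]
  · intro w hw
    simp only
    rw [hF.per1 w hw, hGp w.1 (hpd w hw)]
    congr 1
    rw [exp_eq_exp_iff_exists_int]
    exact ⟨-M, by push_cast; ring⟩
  · intro w hw
    simp only
    rw [hF.per2 w hw]
    congr 1
    rw [exp_eq_exp_iff_exists_int]
    exact ⟨1, by push_cast; ring⟩
  · intro w hw
    have h1 := hsch w.1 (hpd w hw) (w.2 - M * w.1) (ExpA_re hw)
    rw [sub_add_cancel] at h1
    rw [norm_div, div_le_iff₀ (norm_pos_iff.mpr (exp_ne_zero _))]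
    exact h1
  · intro w hw
    simp only
    rw [mul_div_cancel₀ _ (exp_ne_zero _), add_sub_cancel]

/-- uniqueness of the expansion -/
theorem exp_uniq {M R : ℕ} {F' F'' : ℂ × ℂ → ℂ} {G G' : ℂ → ℂ} (hF' : Bo M R F') (hF'' : Bo M R F'')
    (h : ∀ w ∈ Om M R, G w.1 + exp (w.2 - M * w.1) * F' w = G' w.1 + exp (w.2 - M * w.1) * F'' w) :
    (∀ t ∈ Hp R, G t = G' t) ∧ ∀ w ∈ Om M R, F' w = F'' w := by
  obtain ⟨C, hC⟩ := hF'.bd
  obtain ⟨C', hC'⟩ := hF''.bd
  have h1 : ∀ t ∈ Hp R, G t = G' t := by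
    intro t ht
    have hlim : Tendsto (fun n : ℕ => (C + C') * Real.exp (-((n : ℝ) + 1))) atTop (𝓝 0) := by
      have h3 : Tendsto (fun n : ℕ => Real.exp (-((n : ℝ) + 1))) atTop (𝓝 0) := by
        refine Real.tendsto_exp_neg_atTop_nhds_zero.comp ?_
        exact tendsto_natCast_atTop_atTop.atTop_add tendsto_const_nhds
      have h4 := h3.const_mul (C + C')
      rwa [mul_zero] at h4
    have hle : ∀ n : ℕ, ‖G t - G' t‖ ≤ (C + C') * Real.exp (-((n : ℝ) + 1)) := by
      intro n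
      have h4 : (0 : ℝ) ≤ n := Nat.cast_nonneg n
      have h5 : (-((n : ℂ) + 1)).re = -((n : ℝ) + 1) := by simp
      have hm : (t, -((n : ℂ) + 1) + M * t) ∈ Om M R := ExpA_mem ht (by rw [h5]; linarith)
      have h6 := h _ hm
      simp only [add_sub_cancel_right] at h6
      have h7 : G t - G' t = exp (-((n : ℂ) + 1)) *
          (F'' (t, -((n : ℂ) + 1) + M * t) - F' (t, -((n : ℂ) + 1) + M * t)) := by
        linear_combination h6
      rw [h7, norm_mul, norm_exp, h5, mul_comm]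
      refine mul_le_mul_of_nonneg_right ?_ (Real.exp_pos _).le
      have h8 := norm_sub_le (F'' (t, -((n : ℂ) + 1) + M * t)) (F' (t, -((n : ℂ) + 1) + M * t))
      have h9 := hC _ hm
      have h10 := hC' _ hm
      linarith
    have h2 : ‖G t - G' t‖ ≤ 0 := ge_of_tendsto' hlim hle
    exact sub_eq_zero.mp (norm_le_zero_iff.mp h2)
  refine ⟨h1, fun w hw => ?_⟩
  have h2 := h w hw
  rw [h1 w.1 hw.1] at h2
  exact mul_left_cancel₀ (exp_ne_zero _) (add_left_cancel h2)

/-- division by `exp (w₁ - M w₀)` does not increase the bound -/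
theorem exp_bd {M R : ℕ} {F F' : ℂ × ℂ → ℂ} {C : ℝ} (hF : ∀ w ∈ Om M R, ‖F w‖ ≤ C) (hF' : Bo M R F')
    (h : ∀ w ∈ Om M R, F w = exp (w.2 - M * w.1) * F' w) : ∀ w ∈ Om M R, ‖F' w‖ ≤ C := by
  intro w hw
  obtain ⟨C', hC'⟩ := hF'.bd
  obtain ⟨f, hd, he, -⟩ := ExpA_fib hF'.toPer hC' hw.1
  have hd2 : DifferentiableOn ℂ (fun z => z * f z) (ball 0 1) := differentiableOn_id.mul hd
  have h0 : (0 : ℂ) ∈ ball (0 : ℂ) 1 := mem_ball_self one_pos
  have hb : ∀ z ∈ ball (0 : ℂ) 1, ‖z * f z‖ ≤ C := by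
    intro z hz
    by_cases hz0 : z = 0
    · rw [hz0, zero_mul, norm_zero]
      exact (norm_nonneg _).trans (hF w hw)
    · have hre : (log z).re < 0 := by
        rw [log_re]
        rw [mem_ball_zero_iff] at hz
        exact Real.log_neg (norm_pos_iff.mpr hz0) hz
      have hm : (w.1, log z + M * w.1) ∈ Om M R := ExpA_mem hw.1 hre
      have h1 := he (log z) hre
      rw [exp_log hz0] at h1
      have h2 := h _ hm
      simp only [add_sub_cancel_right] at h2
      rw [exp_log hz0] at h2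
      rw [h1, ← h2]
      exact hF _ hm
  have hmaps : Set.MapsTo (fun z => z * f z) (ball 0 1) (closedBall ((fun z => z * f z) 0) C) := by
    intro z hz
    simp only [zero_mul]
    rw [mem_closedBall_zero_iff]
    exact hb z hz
  have hre := ExpA_re hw
  have h1 := Complex.dist_le_div_mul_dist_of_mapsTo_ball hd2 hmaps (ExpA_ball hre)
  simp only [zero_mul, dist_zero_right, div_one] at h1
  rw [norm_mul, mul_comm C] at h1
  have h2 : ‖f (exp (w.2 - M * w.1))‖ ≤ C :=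
    le_of_mul_le_mul_left h1 (norm_pos_iff.mpr (exp_ne_zero _))
  rw [he _ hre, sub_add_cancel] at h2
  exact h2

private theorem ExpA_e {M R : ℕ} : Bo M R (fun w => exp (w.2 - M * w.1)) := by
  refine ⟨⟨DifferentiableOn.cexp (by fun_prop), ?_, ?_⟩, 1, ?_⟩
  · intro w _
    simp only
    rw [exp_eq_exp_iff_exists_int]
    exact ⟨-M, by push_cast; ring⟩
  · intro w _
    simp only
    rw [exp_eq_exp_iff_exists_int]
    exact ⟨1, by push_cast; ring⟩
  · intro w hw
    have := ExpA_ball (ExpA_re hw)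
    rw [mem_ball_zero_iff] at this
    exact this.le

private theorem ExpA_pow {M R : ℕ} (j : ℕ) : Bo M R (fun w => exp (w.2 - M * w.1) ^ j) := by
  induction j with
  | zero =>
    refine (bo_const 1).ext fun w _ => ?_
    rw [pow_zero]
  | succ j ih =>
    refine (ih.mul ExpA_e).ext fun w _ => ?_
    rw [pow_succ]

private theorem ExpA_bds {M R : ℕ} {C : ℝ} (j : ℕ) : ∀ (F F' : ℂ × ℂ → ℂ), (∀ w ∈ Om M R, ‖F w‖ ≤ C) →
    Bo M R F' → (∀ w ∈ Om M R, F w = exp (w.2 - M * w.1) ^ j * F' w) → ∀ w ∈ Om M R, ‖F' w‖ ≤ C := by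
  induction j with
  | zero =>
    intro F F' hF _ h w hw
    have h1 := h w hw
    rw [pow_zero, one_mul] at h1
    rw [← h1]
    exact hF w hw
  | succ j ih =>
    intro F F' hF hF' h
    have h1 : ∀ w ∈ Om M R, ‖exp (w.2 - M * w.1) ^ j * F' w‖ ≤ C := by
      refine exp_bd hF ((ExpA_pow j).mul hF') fun w hw => ?_
      rw [h w hw, pow_succ]
      ring
    exact ih _ F' h1 hF' fun w _ => rfl

/-- a bounded function divisible by all powers of `exp (w₁ - M w₀)` is zero -/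
theorem exp_inf {M R : ℕ} {F : ℂ × ℂ → ℂ} (hF : Bo M R F)
    (h : ∀ j : ℕ, ∃ F' : ℂ × ℂ → ℂ, Bo M R F' ∧ ∀ w ∈ Om M R, F w = exp (w.2 - M * w.1) ^ j * F' w) :
    ∀ w ∈ Om M R, F w = 0 := by
  intro w hw
  obtain ⟨C, hC⟩ := hF.bd
  have h1 : ‖exp (w.2 - M * w.1)‖ < 1 := by
    have := ExpA_ball (ExpA_re hw)
    rwa [mem_ball_zero_iff] at this
  have h2 : ∀ j : ℕ, ‖F w‖ ≤ ‖exp (w.2 - M * w.1)‖ ^ j * C := by
    intro j
    obtain ⟨F', hF', h3⟩ := h j
    rw [h3 w hw, norm_mul, norm_pow]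
    exact mul_le_mul_of_nonneg_left (ExpA_bds j F F' hC hF' h3 w hw) (pow_nonneg (norm_nonneg _) _)
  have h3 : Tendsto (fun j : ℕ => ‖exp (w.2 - M * w.1)‖ ^ j * C) atTop (𝓝 0) := by
    have h4 := (tendsto_pow_atTop_nhds_zero_of_lt_one (norm_nonneg _) h1).mul_const C
    rwa [zero_mul] at h4
  have h4 : ‖F w‖ ≤ 0 := ge_of_tendsto' h3 h2
  exact norm_le_zero_iff.mp h4

end Pool.Agent.LGO.FC
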