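import Mathlib
import Pool.Agent.LGO.FC.ExpA

/-!
# LGO/FC: the key lemma

`F 0, ..., F (r - 1)` bounded periodic functions on `Om M R`.  There is `N₀` such that for all `N ≥ N₀` and ALL vectors `v`:
if `∑ v i F i` vanishes on the arc `w = (t, N t)`, `t ∈ Hp R`, then it vanishes on `Om M R`.

Proof.  For `v ∈ ℂ ^ r` let `F_v = ∑ v i F i`, linear in `v`.  Statement `P(d)`: for every subspace `K ⊆ ℂ ^ r` of dimension at
most `d` and every family `F_v`, `v ∈ K`, of bounded periodic functions, linear in `v` on `Om M R`, there is `N₀` such that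
for `N ≥ N₀` and `v ∈ K`: `F_v = 0` on the arc of `N` implies `F_v = 0` on `Om M R`.  (It may be convenient to replace `K` by
`Fin d → ℂ` and to work with finite families `F : Fin d → ...`, changing the basis: a subspace of dimension `d' < d` of
`Fin d → ℂ` is the injective image of `Fin d' → ℂ`.)  Induction on `d`; `d = 0` is trivial.

Let `F_v = G_v (w₀) + z F'_v`, `z = exp (w₁ - M w₀)` (`exp_step` for the basis vectors, linear extension; the expansion is
linear in `v` by uniqueness `exp_uniq`).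
(a) If there are `j ∈ ℕ` and a family `F^(j)_v` of bounded periodic functions, linear in `v ∈ K`, with `F_v = z ^ j F^(j)_v` for all
`v ∈ K` and, `F^(j)_v = G_v + z F^(j+1)_v` being the expansion, `G_v ≠ 0` for some `v ∈ K`, take such a `j`.
`K' = {v ∈ K | G_v = 0}` is a proper subspace.  The subspaces `K_L = {v ∈ K | G_v(t) = O(exp (L Re t))}` decrease with `L`,
their intersection is `K'` (`one_asy`: if `G_v ≠ 0` then `exp (-l t) G_v(t) → p ≠ 0`, so `v ∉ K_{l + 1}`), so there is `L` with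
`K_L = K'` (finite dimension).  On the arc `w = (t, N t)`: if `F_v = 0` there then `F^(j)_v = 0` there, so
`G_v (t) = - exp ((N - M) t) F^(j+1)_v (t, N t) = O(exp ((N - M) Re t))`, `v ∈ K_(N - M) ⊆ K_L = K'` for `N ≥ M + L`, so
`G_v = 0`, and `F^(j+1)_v = 0` on the arc.  Apply the induction hypothesis to `K'` and `F^(j+1)`: for `N ≥ N₀'` it
follows that `F^(j+1)_v = 0`, so `F_v = z ^ (j + 1) F^(j+1)_v = 0`.  Take `N₀ = max (M + L) N₀'`.
(b) Otherwise for all `j` there is such a family with `F_v = z ^ j F^(j)_v` for all `v ∈ K` (induction on `j`), so `F_v = 0`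
by `exp_inf` for all `v ∈ K`, and there is nothing to prove.

`key_mo`: multiply by `exp (B w₁)` (`Mo.bo`) and apply `key` with `r = 1`, `v = 1`.
-/

namespace Pool.Agent.LGO.FC

open Complex

private theorem KeyA_bo_sum {M R r : ℕ} {F : Fin r → ℂ × ℂ → ℂ} (hF : ∀ i, Bo M R (F i)) (v : Fin r → ℂ) :
    Bo M R (fun w => ∑ i, v i * F i w) := by
  have h : ∀ s : Finset (Fin r), Bo M R (fun w => ∑ i ∈ s, v i * F i w) := by
    intro s
    induction s using Finset.induction_on with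
    | empty => simpa using bo_const (M := M) (R := R) 0
    | insert a s ha ih =>
      refine (((bo_const (M := M) (R := R) (v a)).mul (hF a)).add ih).ext fun w _ => ?_
      rw [Finset.sum_insert ha]
  exact h Finset.univ

private theorem KeyA_bo1_sum {R r : ℕ} {G : Fin r → ℂ → ℂ} (hG : ∀ i, Bo1 R (G i)) (v : Fin r → ℂ) :
    Bo1 R (fun t => ∑ i, v i * G i t) := by
  choose C hC using fun i => (hG i).bd
  refine ⟨?_, ?_, ∑ i, ‖v i‖ * C i, ?_⟩
  · exact DifferentiableOn.fun_sum fun i _ => (hG i).hol.const_mul (v i)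
  · intro w hw
    exact Finset.sum_congr rfl fun i _ => by rw [(hG i).per w hw]
  · intro w hw
    refine norm_sum_le_of_le _ fun i _ => ?_
    rw [norm_mul]
    exact mul_le_mul_of_nonneg_left (hC i w hw) (norm_nonneg _)

private theorem KeyA_hp {R R' : ℕ} (h : R ≤ R') {t : ℂ} (ht : t ∈ Hp R') : t ∈ Hp R := by
  have h1 : t.re < -(R' : ℝ) := ht
  have h2 : (R : ℝ) ≤ R' := by exact_mod_cast h
  show t.re < -(R : ℝ)
  linarith

private theorem KeyA_neg {R : ℕ} {t : ℂ} (ht : t ∈ Hp R) : t.re < 0 := by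
  have h1 : t.re < -(R : ℝ) := ht
  have h2 : (0 : ℝ) ≤ R := Nat.cast_nonneg R
  linarith

/-- the combinations of order at least `L` -/
private def KeyA_K {r : ℕ} (G : Fin r → ℂ → ℂ) (L : ℕ) : Submodule ℂ (Fin r → ℂ) where
  carrier := {v | ∃ (C : ℝ) (R' : ℕ), ∀ t ∈ Hp R', ‖∑ i, v i * G i t‖ ≤ C * Real.exp (L * t.re)}
  zero_mem' := ⟨0, 0, fun t _ => by simp⟩
  add_mem' := by
    rintro v w ⟨C, R, h⟩ ⟨C', R', h'⟩
    refine ⟨C + C', max R R', fun t ht => ?_⟩
    have h1 := h t (KeyA_hp (le_max_left _ _) ht)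
    have h2 := h' t (KeyA_hp (le_max_right _ _) ht)
    have h3 : ∑ i, (v + w) i * G i t = ∑ i, v i * G i t + ∑ i, w i * G i t := by
      rw [← Finset.sum_add_distrib]
      exact Finset.sum_congr rfl fun i _ => by rw [Pi.add_apply, add_mul]
    rw [h3, add_mul]
    exact (norm_add_le _ _).trans (add_le_add h1 h2)
  smul_mem' := by
    rintro c v ⟨C, R, h⟩
    refine ⟨‖c‖ * C, R, fun t ht => ?_⟩
    have h3 : ∑ i, (c • v) i * G i t = c * ∑ i, v i * G i t := by
      rw [Finset.mul_sum]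
      exact Finset.sum_congr rfl fun i _ => by rw [Pi.smul_apply, smul_eq_mul, mul_assoc]
    rw [h3, norm_mul, mul_assoc]
    exact mul_le_mul_of_nonneg_left (h t ht) (norm_nonneg _)

/-- the combinations which are zero -/
private def KeyA_Z {r : ℕ} (G : Fin r → ℂ → ℂ) (R : ℕ) : Submodule ℂ (Fin r → ℂ) where
  carrier := {v | ∀ t ∈ Hp R, ∑ i, v i * G i t = 0}
  zero_mem' := fun t _ => by simp
  add_mem' := by
    intro v w h h' t ht
    have h3 : ∑ i, (v + w) i * G i t = ∑ i, v i * G i t + ∑ i, w i * G i t := by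
      rw [← Finset.sum_add_distrib]
      exact Finset.sum_congr rfl fun i _ => by rw [Pi.add_apply, add_mul]
    rw [h3, h t ht, h' t ht, add_zero]
  smul_mem' := by
    intro c v h t ht
    have h3 : ∑ i, (c • v) i * G i t = c * ∑ i, v i * G i t := by
      rw [Finset.mul_sum]
      exact Finset.sum_congr rfl fun i _ => by rw [Pi.smul_apply, smul_eq_mul, mul_assoc]
    rw [h3, h t ht, mul_zero]

private theorem KeyA_anti {r : ℕ} (G : Fin r → ℂ → ℂ) {L L' : ℕ} (h : L ≤ L') : KeyA_K G L' ≤ KeyA_K G L := by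
  rintro v ⟨C, R', hv⟩
  refine ⟨|C|, R', fun t ht => (hv t ht).trans ?_⟩
  have h1 : (L : ℝ) ≤ L' := by exact_mod_cast h
  have h2 : (L' : ℝ) * t.re ≤ L * t.re := mul_le_mul_of_nonpos_right h1 (KeyA_neg ht).le
  exact mul_le_mul (le_abs_self C) (Real.exp_le_exp.2 h2) (Real.exp_pos _).le (abs_nonneg C)

private theorem KeyA_inter {R r : ℕ} {G : Fin r → ℂ → ℂ} (hG : ∀ i, Bo1 R (G i)) {v : Fin r → ℂ}
    (hv : ∀ L, v ∈ KeyA_K G L) : v ∈ KeyA_Z G R := by
  by_contra hcon
  obtain ⟨t, ht, hne⟩ : ∃ t ∈ Hp R, ∑ i, v i * G i t ≠ 0 := by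
    by_contra h
    apply hcon
    intro t ht
    by_contra h'
    exact h ⟨t, ht, h'⟩
  obtain ⟨l, p, hp, has⟩ := one_asy (KeyA_bo1_sum hG v) ⟨t, ht, hne⟩
  have hp0 : 0 < ‖p‖ := norm_pos_iff.2 hp
  obtain ⟨R', hR'⟩ := has (‖p‖ / 2) (by positivity)
  obtain ⟨C, R'', hC⟩ := hv (l + 1)
  set x : ℝ := (max R' R'' : ℕ) + 1 + 2 * |C| / ‖p‖ with hx
  have hx0 : 0 ≤ 2 * |C| / ‖p‖ := by positivity
  have hmem : ((-x : ℝ) : ℂ) ∈ Hp (max R' R'') := by
    show ((-x : ℝ) : ℂ).re < -((max R' R'' : ℕ) : ℝ)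
    rw [ofReal_re]
    linarith
  have h1 := hR' _ (KeyA_hp (le_max_left _ _) hmem)
  have h2 := hC _ (KeyA_hp (le_max_right _ _) hmem)
  rw [ofReal_re] at h2
  have h3 : ‖exp (-((l : ℂ) * ((-x : ℝ) : ℂ))) * ∑ i, v i * G i ((-x : ℝ) : ℂ)‖ ≤ C * Real.exp (-x) := by
    rw [norm_mul, norm_exp]
    have h4 : (-((l : ℂ) * ((-x : ℝ) : ℂ))).re = l * x := by
      rw [neg_re, ← ofReal_natCast, ← ofReal_mul, ofReal_re]
      ring
    rw [h4]
    have h5 : C * Real.exp (-x) = Real.exp (l * x) * (C * Real.exp (((l + 1 : ℕ) : ℝ) * -x)) := by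
      have h6 : Real.exp (-x) = Real.exp (l * x) * Real.exp (((l + 1 : ℕ) : ℝ) * -x) := by
        rw [← Real.exp_add]
        congr 1
        push_cast
        ring
      rw [h6]
      ring
    rw [h5]
    exact mul_le_mul_of_nonneg_left h2 (Real.exp_pos _).le
  have h4 : C * Real.exp (-x) ≤ ‖p‖ / 2 := by
    have h5 : x + 1 ≤ Real.exp x := Real.add_one_le_exp x
    have h6 : 2 * |C| / ‖p‖ ≤ Real.exp x := by
      have : (0 : ℝ) ≤ (max R' R'' : ℕ) := Nat.cast_nonneg _
      linarith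
    rw [div_le_iff₀ hp0] at h6
    have h7 : C ≤ |C| := le_abs_self C
    rw [Real.exp_neg, ← div_eq_mul_inv, div_le_iff₀ (Real.exp_pos x)]
    linarith
  have h5 := norm_sub_norm_le p (exp (-((l : ℂ) * ((-x : ℝ) : ℂ))) * ∑ i, v i * G i ((-x : ℝ) : ℂ))
  rw [norm_sub_rev] at h1
  linarith

private theorem KeyA_stab {R r : ℕ} {G : Fin r → ℂ → ℂ} (hG : ∀ i, Bo1 R (G i)) :
    ∃ L, KeyA_K G L ≤ KeyA_Z G R := by
  obtain ⟨L, hL⟩ := IsArtinian.monotone_stabilizes (R := ℂ) (M := Fin r → ℂ)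
    ⟨fun L => OrderDual.toDual (KeyA_K G L), fun L L' h => KeyA_anti G h⟩
  refine ⟨L, fun v hv => KeyA_inter hG fun L' => ?_⟩
  rcases le_total L L' with h | h
  · have h1 : KeyA_K G L = KeyA_K G L' := hL L' h
    rw [← h1]
    exact hv
  · exact KeyA_anti G h hv

/-- all functions are divisible by the power `j` -/
private def KeyA_Q (M R : ℕ) {r : ℕ} (F : Fin r → ℂ × ℂ → ℂ) (j : ℕ) : Prop :=
  ∃ E : Fin r → ℂ × ℂ → ℂ, (∀ i, Bo M R (E i)) ∧
    ∀ i, ∀ w ∈ Om M R, F i w = exp (w.2 - M * w.1) ^ j * E i w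

/-- key lemma -/
theorem key {M R r : ℕ} (F : Fin r → ℂ × ℂ → ℂ) (hF : ∀ i, Bo M R (F i)) :
    ∃ N₀ : ℕ, M < N₀ ∧ ∀ N ≥ N₀, ∀ v : Fin r → ℂ, (∀ t ∈ Hp R, ∑ i, v i * F i (t, (N : ℂ) * t) = 0) →
      ∀ w ∈ Om M R, ∑ i, v i * F i w = 0 := by
  induction r using Nat.strong_induction_on with
  | _ r ih =>
  by_cases hall : ∀ j : ℕ, KeyA_Q M R F j
  · refine ⟨M + 1, Nat.lt_succ_self M, fun N _ v _ w hw => ?_⟩
    refine Finset.sum_eq_zero fun i _ => ?_
    rw [exp_inf (hF i) (fun j => by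
      obtain ⟨E, hE, h⟩ := hall j
      exact ⟨E i, hE i, h i⟩) w hw, mul_zero]
  · obtain ⟨k, ⟨E, hE, hEF⟩, hk⟩ : ∃ k, KeyA_Q M R F k ∧ ¬ KeyA_Q M R F (k + 1) := by
      by_contra hcon
      apply hall
      intro j
      induction j with
      | zero => exact ⟨F, hF, fun i w _ => by rw [pow_zero, one_mul]⟩
      | succ j ihj =>
        by_contra h
        exact hcon ⟨j, ihj, h⟩
    choose G E' hG hE' hexp using fun i => exp_step (hE i)
    obtain ⟨i₀, t₀, ht₀, hne⟩ : ∃ i, ∃ t ∈ Hp R, G i t ≠ 0 := by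
      by_contra hcon
      refine hk ⟨E', hE', fun i w hw => ?_⟩
      have h0 : G i w.1 = 0 := by
        by_contra h
        exact hcon ⟨i, w.1, hw.1, h⟩
      rw [hEF i w hw, hexp i w hw, h0, zero_add, pow_succ, mul_assoc]
    obtain ⟨L, hL⟩ := KeyA_stab hG
    have hlt : Module.finrank ℂ (KeyA_Z G R) < r := by
      have h1 : KeyA_Z G R ≠ ⊤ := by
        intro h
        have h2 : (Pi.single i₀ (1 : ℂ) : Fin r → ℂ) ∈ KeyA_Z G R := by rw [h]; trivial
        have h3 := h2 t₀ ht₀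
        rw [Finset.sum_eq_single i₀ (fun i _ hi => by rw [Pi.single_eq_of_ne hi, zero_mul])
          (fun h => absurd (Finset.mem_univ _) h), Pi.single_eq_same, one_mul] at h3
        exact hne h3
      have h2 := Submodule.finrank_lt h1
      rwa [Module.finrank_fin_fun] at h2
    set b := Module.finBasis ℂ (KeyA_Z G R) with hb
    obtain ⟨N', hMN', hN'⟩ := ih (Module.finrank ℂ (KeyA_Z G R)) hlt
      (fun k w => ∑ i, (b k : Fin r → ℂ) i * E' i w) (fun k => KeyA_bo_sum hE' _)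
    refine ⟨max (M + L + 1) N', lt_of_lt_of_le hMN' (le_max_right _ _), fun N hN v hv w hw => ?_⟩
    have hN1 : M + L + 1 ≤ N := (le_max_left _ _).trans hN
    have hN2 : N' ≤ N := (le_max_right _ _).trans hN
    have hMN : M < N := by omega
    -- the sums
    have hsum : ∀ w ∈ Om M R, ∑ i, v i * F i w = exp (w.2 - M * w.1) ^ k * ∑ i, v i * E i w := by
      intro w hw
      rw [Finset.mul_sum]
      refine Finset.sum_congr rfl fun i _ => ?_
      rw [hEF i w hw]
      ring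
    have hsum' : ∀ w ∈ Om M R, ∑ i, v i * E i w =
        ∑ i, v i * G i w.1 + exp (w.2 - M * w.1) * ∑ i, v i * E' i w := by
      intro w hw
      rw [Finset.mul_sum, ← Finset.sum_add_distrib]
      refine Finset.sum_congr rfl fun i _ => ?_
      rw [hexp i w hw]
      ring
    have harc : ∀ t ∈ Hp R, ∑ i, v i * G i t +
        exp ((N : ℂ) * t - M * t) * ∑ i, v i * E' i (t, (N : ℂ) * t) = 0 := by
      intro t ht
      have h1 := hv t ht
      rw [hsum _ (arc_mem hMN ht)] at h1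
      have h2 := (mul_eq_zero.1 h1).resolve_left (pow_ne_zero _ (exp_ne_zero _))
      rw [hsum' _ (arc_mem hMN ht)] at h2
      exact h2
    have hvK : v ∈ KeyA_K G (N - M) := by
      obtain ⟨C, hC⟩ := (KeyA_bo_sum hE' v).bd
      refine ⟨C, R, fun t ht => ?_⟩
      have h1 : ∑ i, v i * G i t = -(exp ((N : ℂ) * t - M * t) * ∑ i, v i * E' i (t, (N : ℂ) * t)) :=
        eq_neg_of_add_eq_zero_left (harc t ht)
      rw [h1, norm_neg, norm_mul, norm_exp, mul_comm]
      have h2 : ((N : ℂ) * t - M * t).re = ((N - M : ℕ) : ℝ) * t.re := by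
        rw [← sub_mul, Nat.cast_sub hMN.le, ← ofReal_natCast, ← ofReal_natCast, ← ofReal_sub, re_ofReal_mul]
      rw [h2]
      exact mul_le_mul_of_nonneg_right (hC _ (arc_mem hMN ht)) (Real.exp_pos _).le
    have hvZ : v ∈ KeyA_Z G R := hL (KeyA_anti G (by omega : L ≤ N - M) hvK)
    -- the coordinates
    have hrep : ∀ i, v i = ∑ k, b.repr ⟨v, hvZ⟩ k * (b k : Fin r → ℂ) i := by
      intro i
      have h1 := congrArg (fun u : KeyA_Z G R => (u : Fin r → ℂ) i) (b.sum_repr ⟨v, hvZ⟩)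
      simp only [Submodule.coe_sum, Submodule.coe_smul, Finset.sum_apply, Pi.smul_apply, smul_eq_mul] at h1
      exact h1.symm
    have hrep' : ∀ w, ∑ k, b.repr ⟨v, hvZ⟩ k * ∑ i, (b k : Fin r → ℂ) i * E' i w = ∑ i, v i * E' i w := by
      intro w
      simp only [Finset.mul_sum]
      rw [Finset.sum_comm]
      refine Finset.sum_congr rfl fun i _ => ?_
      rw [hrep i, Finset.sum_mul]
      exact Finset.sum_congr rfl fun k _ => by ring
    have hE0 : ∀ w ∈ Om M R, ∑ i, v i * E' i w = 0 := by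
      intro w hw
      rw [← hrep']
      refine hN' N hN2 (fun k => b.repr ⟨v, hvZ⟩ k) (fun t ht => ?_) w hw
      rw [hrep']
      have h1 := harc t ht
      rw [hvZ t ht, zero_add] at h1
      exact (mul_eq_zero.1 h1).resolve_left (exp_ne_zero _)
    rw [hsum w hw, hsum' w hw, hvZ w.1 hw.1, hE0 w hw, mul_zero, add_zero, mul_zero]

/-- key lemma for one function of moderate growth -/
theorem key_mo {M R : ℕ} {F : ℂ × ℂ → ℂ} (hF : Mo M R F) :
    ∃ N₀ : ℕ, M < N₀ ∧ ∀ N ≥ N₀, (∀ t ∈ Hp R, F (t, (N : ℂ) * t) = 0) → ∀ w ∈ Om M R, F w = 0 := by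
  obtain ⟨B, hB⟩ := hF.bo
  obtain ⟨N₀, h0, h⟩ := key (r := 1) (fun _ => fun w => exp (B * w.2) * F w) (fun _ => hB)
  refine ⟨N₀, h0, fun N hN hz w hw => ?_⟩
  have h1 := h N hN (fun _ => 1) (fun t ht => by simp [hz t ht]) w hw
  simp only [Finset.univ_unique, Finset.sum_const, Finset.card_singleton, one_smul, one_mul] at h1
  exact (mul_eq_zero.1 h1).resolve_left (exp_ne_zero _)

end Pool.Agent.LGO.FC
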