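import Mathlib
import Pool.Agent.LGO.FC.KeyA

/-!
# LGO/FC: matrices on infinitely many arcs

`con`: `τ₂ = tau a₂ b₂ ψ₂`, `τ₃ = tau a₃ b₃ ψ₃` on `Om M R`, with values in the upper half plane.  For infinitely many `N` there
is an integer matrix with `τ₃ (C τ₂ + D) = A τ₂ + B` on the arc `w = (t, N t)`.  Then there is one such matrix for all of
`Om M R`, or `Lex a₂ b₂` and `ψ₂` is a rational constant.

Proof.  Take `N > M` in `S`, large (`arc_mem`).
(finite, finite) `a_i = b_i = 0`, `τ_i = ψ_i` bounded: `C ψ₂ ψ₃ + D ψ₃ - A ψ₂ - B = 0` on the arc; `key` for the four functions `ψ₂ ψ₃`, `ψ₃`,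
`ψ₂`, `1` and one `N ≥ N₀` in `S`: the equation holds on `Om M R`.
(finite, infinite): `τ₂ = ψ₂` bounded, `Im ψ₂ ≥ δ`: `|C ψ₂ + D| ≥ c > 0` on the arc (`C ≠ 0`: `≥ |C| δ`; `C = 0`: `|D| ≥ 1`), so
`τ₃ = (A ψ₂ + B) / (C ψ₂ + D)` is bounded on the arc; but `τ₃ (t, N t) = (a₃ + b₃ N) t / (2 π i) + ψ₃`, `a₃ + b₃ N ≠ 0` for all
large `N` (`Lex a₃ b₃`), is unbounded as `Re t → -∞`.  Contradiction for one large `N`.
(infinite, finite): `τ₃ = ψ₃` bounded with `Im ψ₃ ≥ δ`, `τ₂` unbounded.  `C τ₂ τ₃ + D τ₃ = A τ₂ + B`: `τ₂ (C τ₃ - A) = B - D τ₃`.  If `C ≠ 0` then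
`|C τ₃ - A| ≥ |C| δ`, so `τ₂` is bounded, a contradiction; if `C = 0` then `A ≠ 0`, the same.
(infinite, infinite): on the arc `τ₂ = α₂ t / (2 π i) + ψ₂`, `τ₃ = α₃ t / (2 π i) + ψ₃`, `α_i = a_i + b_i N > 0` for large `N`.  If `C ≠ 0`: both tend to
`∞` as `t → -∞`, but `C τ₂ τ₃ + D τ₃ - A τ₂ - B = 0` divided by `τ₂ τ₃` gives `C = 0` in the limit.  So `C = 0`, `A D > 0`.
Translate `t` by `2 π i`: `(t + 2 π i, N t + 2 π i N)`; `ψ_i` does not change (`Per.int`), so the difference of the equations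
`D τ₃ = A τ₂ + B` gives `D α₃ = A α₂` and then `D ψ₃ - A ψ₂ - B = 0` on the arc, hence on `Om M R` for `N ≥ N₀` by `key`
for the functions `ψ₃`, `ψ₂`, `1`.  Take `N ≠ N'` in `S`, both large, with `(A, B, D)` and `(A', B', D')`.  If `A D' ≠ A' D`: solving the two
linear equations, `ψ₂ = (B' D - B D') / (A D' - A' D)` is a rational constant (and `Lex a₂ b₂`).  If `A D' = A' D`, i.e.
`A / D = A' / D' = ρ`: `α₃(N) = ρ α₂(N)` and `α₃(N') = ρ α₂(N')`, so `b₃ = ρ b₂`, `a₃ = ρ a₂`, and `D τ₃ = A τ₂ + B` on `Om M R` (with the matrix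
`(A, B; 0, D)` of `N`).
-/

namespace Pool.Agent.LGO.FC

open Complex

private theorem ConA_lex {a b : ℤ} (h : Lex a b) : ∃ N₁ : ℕ, ∀ N : ℕ, N₁ ≤ N → 1 ≤ a + b * N := by
  rcases h with h | ⟨h, h'⟩
  · refine ⟨a.natAbs + 1, fun N hN => ?_⟩
    have h1 : (a.natAbs : ℤ) + 1 ≤ N := by exact_mod_cast hN
    have h2 : -a ≤ a.natAbs := by omega
    have h3 : (0 : ℤ) ≤ N := by omega
    nlinarith
  · exact ⟨0, fun N _ => by rw [h]; omega⟩

private theorem ConA_tau (a b : ℤ) (ψ : ℂ × ℂ → ℂ) (N : ℕ) (t : ℂ) :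
    tau a b ψ (t, (N : ℂ) * t) =
      ((a + b * N : ℤ) : ℂ) * t / (2 * Real.pi * I) + ψ (t, (N : ℂ) * t) := by
  unfold tau
  push_cast
  ring

private theorem ConA_tpi : (2 * (Real.pi : ℂ) * I) ≠ 0 := by
  have : (Real.pi : ℂ) ≠ 0 := by exact_mod_cast Real.pi_ne_zero
  simp [this, I_ne_zero]

private theorem ConA_hp {R : ℕ} {x : ℝ} (hx : (R : ℝ) < x) : ((-x : ℝ) : ℂ) ∈ Hp R := by
  show (((-x : ℝ) : ℂ)).re < -(R : ℝ)
  rw [ofReal_re]
  linarith

private theorem ConA_low {M R : ℕ} {a b : ℤ} {ψ : ℂ × ℂ → ℂ} {C : ℝ} (hC : ∀ w ∈ Om M R, ‖ψ w‖ ≤ C)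
    {N : ℕ} (hN : M < N) (hab : 1 ≤ a + b * N) {x : ℝ} (hx : (R : ℝ) < x) :
    x / (2 * Real.pi) - C ≤ ‖tau a b ψ (((-x : ℝ) : ℂ), (N : ℂ) * ((-x : ℝ) : ℂ))‖ := by
  rw [ConA_tau]
  have h1 := hC _ (arc_mem hN (ConA_hp hx))
  have hx0 : 0 < x := lt_of_le_of_lt (Nat.cast_nonneg R) hx
  have hpi := Real.pi_pos
  have h2 : ‖((a + b * N : ℤ) : ℂ) * ((-x : ℝ) : ℂ) / (2 * Real.pi * I)‖ =
      ((a + b * N : ℤ) : ℝ) * x / (2 * Real.pi) := by
    rw [norm_div, norm_mul, norm_mul, norm_mul, norm_I, norm_intCast, norm_real, norm_real,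
      Real.norm_eq_abs, Real.norm_eq_abs, abs_neg, abs_of_pos hx0, abs_of_pos hpi, mul_one,
      abs_of_nonneg (by exact_mod_cast (by omega : (0 : ℤ) ≤ a + b * N))]
    norm_num
  have h3 : x / (2 * Real.pi) ≤ ((a + b * N : ℤ) : ℝ) * x / (2 * Real.pi) := by
    have h4 : (1 : ℝ) ≤ ((a + b * N : ℤ) : ℝ) := by exact_mod_cast hab
    rw [div_le_div_iff_of_pos_right (by positivity)]
    nlinarith
  have h5 : ‖((a + b * N : ℤ) : ℂ) * ((-x : ℝ) : ℂ) / (2 * Real.pi * I)‖ ≤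
      ‖((a + b * N : ℤ) : ℂ) * ((-x : ℝ) : ℂ) / (2 * Real.pi * I) +
        ψ (((-x : ℝ) : ℂ), (N : ℂ) * ((-x : ℝ) : ℂ))‖ + ‖ψ (((-x : ℝ) : ℂ), (N : ℂ) * ((-x : ℝ) : ℂ))‖ := by
    refine le_trans (le_of_eq ?_) (norm_sub_le _ _)
    rw [add_sub_cancel_right]
  linarith

private theorem ConA_x (R K : ℝ) : ∃ x : ℝ, R < x ∧ K < x / (2 * Real.pi) := by
  have hpi := Real.pi_pos
  refine ⟨max (R + 1) (2 * Real.pi * (K + 1)), lt_max_of_lt_left (by linarith), ?_⟩
  rw [lt_div_iff₀ (by positivity)]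
  refine lt_of_lt_of_le ?_ (le_max_right _ _)
  nlinarith

private theorem ConA_den {C D : ℤ} (h : C ≠ 0 ∨ D ≠ 0) {δ : ℝ} {z : ℂ} (hz : δ ≤ z.im) (hδ : 0 < δ) :
    min δ 1 ≤ ‖(C : ℂ) * z + D‖ := by
  by_cases hC : C = 0
  · have hD : D ≠ 0 := by
      rcases h with h | h
      · exact absurd hC h
      · exact h
    rw [hC, Int.cast_zero, zero_mul, zero_add, norm_intCast]
    refine le_trans (min_le_right _ _) ?_
    exact_mod_cast Int.one_le_abs hD
  · refine le_trans (min_le_left _ _) (le_trans ?_ (abs_im_le_norm _))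
    have h1 : ((C : ℂ) * z + D).im = C * z.im := by simp
    rw [h1, abs_mul, abs_of_pos (hδ.trans_le hz)]
    have h2 : (1 : ℝ) ≤ |(C : ℝ)| := by exact_mod_cast Int.one_le_abs hC
    nlinarith

/-- an equation between an unbounded and a bounded quantity -/
private theorem ConA_no {R : ℕ} {c K : ℝ} (hc : 0 < c) {C' : ℝ} {u v w : ℝ → ℂ}
    (hu : ∀ x : ℝ, (R : ℝ) < x → x / (2 * Real.pi) - C' ≤ ‖u x‖)
    (hv : ∀ x : ℝ, (R : ℝ) < x → c ≤ ‖v x‖) (hw : ∀ x : ℝ, (R : ℝ) < x → ‖w x‖ ≤ K)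
    (h : ∀ x : ℝ, (R : ℝ) < x → u x * v x = w x) : False := by
  obtain ⟨x, hx, hx'⟩ := ConA_x R (C' + |K| / c)
  have h1 := hu x hx
  have h2 := hv x hx
  have h3 := hw x hx
  have h4 : ‖u x‖ * ‖v x‖ = ‖w x‖ := by rw [← norm_mul, h x hx]
  have h5 : |K| / c < ‖u x‖ := by linarith
  have h6 : |K| < ‖u x‖ * c := by rwa [div_lt_iff₀ hc] at h5
  have h7 : ‖u x‖ * c ≤ ‖u x‖ * ‖v x‖ := mul_le_mul_of_nonneg_left h2 (norm_nonneg _)
  have h8 := le_abs_self K
  linarith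

/-- matrices on infinitely many arcs -/
theorem con {M R : ℕ} {a₂ b₂ a₃ b₃ : ℤ} {ψ₂ ψ₃ : ℂ × ℂ → ℂ} (h2 : Lft M R a₂ b₂ ψ₂) (h3 : Lft M R a₃ b₃ ψ₃)
    {S : Set ℕ} (hS : S.Infinite)
    (h : ∀ N ∈ S, M < N → ∃ A B C D : ℤ, 0 < A * D - B * C ∧ ∀ t ∈ Hp R,
      tau a₃ b₃ ψ₃ (t, (N : ℂ) * t) * (C * tau a₂ b₂ ψ₂ (t, (N : ℂ) * t) + D) =
        A * tau a₂ b₂ ψ₂ (t, (N : ℂ) * t) + B) :
    (∃ A B C D : ℤ, 0 < A * D - B * C ∧ ∀ w ∈ Om M R,
      tau a₃ b₃ ψ₃ w * (C * tau a₂ b₂ ψ₂ w + D) = A * tau a₂ b₂ ψ₂ w + B) ∨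
    (Lex a₂ b₂ ∧ ∃ r : ℚ, ∀ w ∈ Om M R, ψ₂ w = r) := by
  obtain ⟨C₂, hC₂⟩ := h2.bo.bd
  obtain ⟨C₃, hC₃⟩ := h3.bo.bd
  have hex : ∀ K : ℕ, ∃ N ∈ S, K < N := fun K => hS.exists_gt K
  rcases h2.ty with ⟨ha2, hb2, δ, hδ, hδ2⟩ | hl2
  · rcases h3.ty with ⟨ha3, hb3, δ', hδ', hδ3⟩ | hl3
    · -- (finite, finite)
      obtain ⟨N₀, hMN, hk⟩ := key (M := M) (R := R) ![fun w => ψ₂ w * ψ₃ w, ψ₃, ψ₂, fun _ => 1]
        (by
          intro i
          fin_cases i
          exacts [h2.bo.mul h3.bo, h3.bo, h2.bo, bo_const 1])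
      obtain ⟨N, hNS, hN⟩ := hex N₀
      obtain ⟨A, B, C, D, hdet, he⟩ := h N hNS (hMN.trans hN)
      refine Or.inl ⟨A, B, C, D, hdet, fun w hw => ?_⟩
      have h1 := hk N hN.le ![(C : ℂ), D, -A, -B] (fun t ht => by
        have h0 := he t ht
        subst ha2 hb2 ha3 hb3
        simp only [tau, Int.cast_zero, zero_mul, zero_add, zero_div] at h0
        simp only [Fin.sum_univ_four, Matrix.cons_val_zero, Matrix.cons_val_one, Matrix.cons_val]
        linear_combination h0) w hw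
      subst ha2 hb2 ha3 hb3
      simp only [Fin.sum_univ_four, Matrix.cons_val_zero, Matrix.cons_val_one, Matrix.cons_val] at h1
      simp only [tau, Int.cast_zero, zero_mul, zero_add, zero_div]
      linear_combination h1
    · -- (finite, infinite)
      exfalso
      obtain ⟨N₁, hN₁⟩ := ConA_lex hl3
      obtain ⟨N, hNS, hN⟩ := hex (max M N₁)
      have hMN : M < N := lt_of_le_of_lt (le_max_left _ _) hN
      obtain ⟨A, B, C, D, hdet, he⟩ := h N hNS hMN
      have hα := hN₁ N (le_of_lt (lt_of_le_of_lt (le_max_right _ _) hN))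
      have hCD : C ≠ 0 ∨ D ≠ 0 := by
        by_contra hcon
        push Not at hcon
        rw [hcon.1, hcon.2] at hdet
        simp at hdet
      subst ha2 hb2
      have h2z : ∀ w, tau 0 0 ψ₂ w = ψ₂ w := fun w => by simp [tau]
      refine ConA_no (R := R) (c := min δ 1) (K := |(A : ℝ)| * C₂ + |(B : ℝ)|) (lt_min hδ one_pos)
        (fun x hx => ConA_low hC₃ hMN hα hx)
        (v := fun x => (C : ℂ) * ψ₂ (((-x : ℝ) : ℂ), (N : ℂ) * ((-x : ℝ) : ℂ)) + D)
        (w := fun x => (A : ℂ) * ψ₂ (((-x : ℝ) : ℂ), (N : ℂ) * ((-x : ℝ) : ℂ)) + B)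
        (fun x hx => ConA_den hCD (hδ2 _ (arc_mem hMN (ConA_hp hx))) hδ) (fun x hx => ?_)
        (fun x hx => ?_)
      · refine (norm_add_le _ _).trans ?_
        rw [norm_mul, norm_intCast, norm_intCast]
        have := hC₂ _ (arc_mem hMN (ConA_hp hx))
        gcongr
      · have h0 := he _ (ConA_hp hx)
        rw [h2z] at h0
        exact h0
  · rcases h3.ty with ⟨ha3, hb3, δ', hδ', hδ3⟩ | hl3
    · -- (infinite, finite)
      exfalso
      obtain ⟨N₁, hN₁⟩ := ConA_lex hl2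
      obtain ⟨N, hNS, hN⟩ := hex (max M N₁)
      have hMN : M < N := lt_of_le_of_lt (le_max_left _ _) hN
      obtain ⟨A, B, C, D, hdet, he⟩ := h N hNS hMN
      have hα := hN₁ N (le_of_lt (lt_of_le_of_lt (le_max_right _ _) hN))
      have hCA : C ≠ 0 ∨ -A ≠ 0 := by
        by_contra hcon
        push Not at hcon
        have hA : A = 0 := by have := hcon.2; omega
        rw [hcon.1, hA] at hdet
        simp at hdet
      subst ha3 hb3
      have h3z : ∀ w, tau 0 0 ψ₃ w = ψ₃ w := fun w => by simp [tau]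
      refine ConA_no (R := R) (c := min δ' 1) (K := |(B : ℝ)| + |(D : ℝ)| * C₃) (lt_min hδ' one_pos)
        (fun x hx => ConA_low hC₂ hMN hα hx)
        (v := fun x => (C : ℂ) * ψ₃ (((-x : ℝ) : ℂ), (N : ℂ) * ((-x : ℝ) : ℂ)) + ((-A : ℤ) : ℂ))
        (w := fun x => (B : ℂ) - D * ψ₃ (((-x : ℝ) : ℂ), (N : ℂ) * ((-x : ℝ) : ℂ)))
        (fun x hx => ConA_den hCA (hδ3 _ (arc_mem hMN (ConA_hp hx))) hδ') (fun x hx => ?_)
        (fun x hx => ?_)
      · refine (norm_sub_le _ _).trans ?_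
        rw [norm_mul, norm_intCast, norm_intCast]
        have := hC₃ _ (arc_mem hMN (ConA_hp hx))
        gcongr
      · have h0 := he _ (ConA_hp hx)
        rw [h3z] at h0
        push_cast at h0 ⊢
        linear_combination h0
    · -- (infinite, infinite)
      obtain ⟨n₂, hn₂⟩ := ConA_lex hl2
      obtain ⟨n₃, hn₃⟩ := ConA_lex hl3
      obtain ⟨N₀, hMN₀, hk⟩ := key (M := M) (R := R) ![ψ₃, ψ₂, fun _ => 1]
        (by
          intro i
          fin_cases i
          exacts [h3.bo, h2.bo, bo_const 1])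
      have main : ∀ N ∈ S, max N₀ (max n₂ n₃) < N → ∃ A B D : ℤ, 0 < A * D ∧
          D * (a₃ + b₃ * N) = A * (a₂ + b₂ * N) ∧ ∀ w ∈ Om M R, (D : ℂ) * ψ₃ w = A * ψ₂ w + B := by
        intro N hNS hN
        have hN0 : N₀ < N := lt_of_le_of_lt (le_max_left _ _) hN
        have hMN : M < N := hMN₀.trans hN0
        have hα₂ := hn₂ N (le_of_lt (lt_of_le_of_lt ((le_max_left _ _).trans (le_max_right _ _)) hN))
        have hα₃ := hn₃ N (le_of_lt (lt_of_le_of_lt ((le_max_right _ _).trans (le_max_right _ _)) hN))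
        obtain ⟨A, B, C, D, hdet, he⟩ := h N hNS hMN
        have hC : C = 0 := by
          by_contra hC
          have hC1 : (1 : ℝ) ≤ |(C : ℝ)| := by exact_mod_cast Int.one_le_abs hC
          obtain ⟨x, hx, hx'⟩ := ConA_x R (|C₂| + |C₃| + (|(A : ℝ)| + |(B : ℝ)| + |(D : ℝ)| + 1))
          have l2 := ConA_low hC₂ hMN hα₂ hx
          have l3 := ConA_low hC₃ hMN hα₃ hx
          have h0 := he _ (ConA_hp hx)
          set P := tau a₂ b₂ ψ₂ (((-x : ℝ) : ℂ), (N : ℂ) * ((-x : ℝ) : ℂ)) with hP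
          set Q := tau a₃ b₃ ψ₃ (((-x : ℝ) : ℂ), (N : ℂ) * ((-x : ℝ) : ℂ)) with hQ
          have h1 : (C : ℂ) * P * Q = A * P + B - D * Q := by linear_combination h0
          have h2' : |(C : ℝ)| * ‖P‖ * ‖Q‖ ≤ |(A : ℝ)| * ‖P‖ + |(B : ℝ)| + |(D : ℝ)| * ‖Q‖ := by
            have e1 : |(C : ℝ)| * ‖P‖ * ‖Q‖ = ‖(C : ℂ) * P * Q‖ := by
              rw [norm_mul, norm_mul, norm_intCast]
            rw [e1, h1]
            refine (norm_sub_le _ _).trans ?_
            rw [norm_mul (D : ℂ) Q, norm_intCast]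
            gcongr
            refine (norm_add_le _ _).trans ?_
            rw [norm_mul (A : ℂ) P, norm_intCast, norm_intCast]
          have hA0 := abs_nonneg (A : ℝ)
          have hB0 := abs_nonneg (B : ℝ)
          have hD0 := abs_nonneg (D : ℝ)
          have k2 := le_abs_self C₂
          have k3 := le_abs_self C₃
          have k2' := abs_nonneg C₂
          have k3' := abs_nonneg C₃
          have hPl : |(A : ℝ)| + |(B : ℝ)| + |(D : ℝ)| + 1 ≤ ‖P‖ := by linarith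
          have hQl : |(A : ℝ)| + |(B : ℝ)| + |(D : ℝ)| + 1 ≤ ‖Q‖ := by linarith
          have e2 : ‖P‖ * ‖Q‖ ≤ |(C : ℝ)| * ‖P‖ * ‖Q‖ := by
            rw [mul_assoc]
            exact le_mul_of_one_le_left (mul_nonneg (norm_nonneg _) (norm_nonneg _)) hC1
          have e3 : (|(A : ℝ)| + |(B : ℝ)| + 1) * (|(B : ℝ)| + |(D : ℝ)| + 1) ≤
              (‖P‖ - |(D : ℝ)|) * (‖Q‖ - |(A : ℝ)|) := by
            apply mul_le_mul <;> linarith
          nlinarith [mul_nonneg hA0 hB0, mul_nonneg hB0 hD0, mul_nonneg hA0 hD0, mul_nonneg hB0 hB0]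
        subst hC
        have he' : ∀ t ∈ Hp R, (D : ℂ) * tau a₃ b₃ ψ₃ (t, (N : ℂ) * t) =
            A * tau a₂ b₂ ψ₂ (t, (N : ℂ) * t) + B := by
          intro t ht
          have h0 := he t ht
          rw [Int.cast_zero] at h0
          linear_combination h0
        have hsh : ∀ (a b : ℤ) (ψ : ℂ × ℂ → ℂ), Bo M R ψ → ∀ t ∈ Hp R,
            tau a b ψ (t + 2 * Real.pi * I, (N : ℂ) * (t + 2 * Real.pi * I)) =
              tau a b ψ (t, (N : ℂ) * t) + ((a + b * N : ℤ) : ℂ) := by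
          intro a b ψ hψ t ht
          have h1 := hψ.toPer.int (arc_mem hMN ht) 1 N
          simp only [Int.cast_one, one_mul, Int.cast_natCast] at h1
          have h2' : ψ (t + 2 * Real.pi * I, (N : ℂ) * (t + 2 * Real.pi * I)) = ψ (t, (N : ℂ) * t) := by
            rw [← h1]
            congr 2
            ring
          rw [ConA_tau, ConA_tau, h2']
          have := ConA_tpi
          field_simp
          ring
        obtain ⟨t, ht⟩ := Hp_ne (R := R)
        have ht' : t + 2 * Real.pi * I ∈ Hp R := by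
          have h1 : t.re < -(R : ℝ) := ht
          show (t + 2 * Real.pi * I).re < -(R : ℝ)
          simpa using h1
        have hα : D * (a₃ + b₃ * N) = A * (a₂ + b₂ * N) := by
          have h1 := he' t ht
          have h2' := he' _ ht'
          rw [hsh _ _ _ h3.bo t ht, hsh _ _ _ h2.bo t ht] at h2'
          have h3' : (D : ℂ) * ((a₃ + b₃ * N : ℤ) : ℂ) = A * ((a₂ + b₂ * N : ℤ) : ℂ) := by
            linear_combination h2' - h1
          exact_mod_cast h3'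
        have hdet' : 0 < A * D := by simpa using hdet
        refine ⟨A, B, D, hdet', hα, fun w hw => ?_⟩
        have hαC : (D : ℂ) * ((a₃ + b₃ * N : ℤ) : ℂ) = A * ((a₂ + b₂ * N : ℤ) : ℂ) := by
          exact_mod_cast hα
        have h1 := hk N hN0.le ![(D : ℂ), -A, -B] (fun t ht => by
          have h0 := he' t ht
          rw [ConA_tau, ConA_tau] at h0
          simp only [Fin.sum_univ_three, Matrix.cons_val_zero, Matrix.cons_val_one, Matrix.cons_val]
          linear_combination h0 - t / (2 * Real.pi * I) * hαC) w hw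
        simp only [Fin.sum_univ_three, Matrix.cons_val_zero, Matrix.cons_val_one,
          Matrix.cons_val] at h1
        linear_combination h1
      obtain ⟨N, hNS, hN⟩ := hex (max N₀ (max n₂ n₃))
      obtain ⟨N', hNS', hN'⟩ := hex N
      obtain ⟨A, B, D, hAD, hα, hw⟩ := main N hNS hN
      obtain ⟨A', B', D', hAD', hα', hw'⟩ := main N' hNS' (hN.trans hN')
      by_cases hq : A * D' = A' * D
      · left
        have hD' : D' ≠ 0 := by
          rintro rfl
          simp at hAD'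
        have h1 : D * (a₃ + b₃ * N') = A * (a₂ + b₂ * N') := by
          apply mul_left_cancel₀ hD'
          linear_combination D * hα' - (a₂ + b₂ * N') * hq
        have h2' : (D * b₃ - A * b₂) * ((N' : ℤ) - N) = 0 := by linear_combination h1 - hα
        have h3' : D * b₃ = A * b₂ := by
          rcases mul_eq_zero.mp h2' with h0 | h0
          · linarith
          · exfalso
            have : (N : ℤ) < N' := by exact_mod_cast hN'
            linarith
        have h4' : D * a₃ = A * a₂ := by linear_combination hα - N * h3'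
        have h3c : (D : ℂ) * b₃ = A * b₂ := by exact_mod_cast h3'
        have h4c : (D : ℂ) * a₃ = A * a₂ := by exact_mod_cast h4'
        refine ⟨A, B, 0, D, by simpa using hAD, fun w hwm => ?_⟩
        have h0 := hw w hwm
        unfold tau
        push_cast
        linear_combination h0 + w.1 / (2 * Real.pi * I) * h4c + w.2 / (2 * Real.pi * I) * h3c
      · right
        refine ⟨hl2, ((B' * D - B * D' : ℤ) : ℚ) / ((A * D' - A' * D : ℤ) : ℚ), fun w hwm => ?_⟩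
        have h0 := hw w hwm
        have h0' := hw' w hwm
        have hne : ((A * D' - A' * D : ℤ) : ℂ) ≠ 0 := by
          exact_mod_cast sub_ne_zero.mpr hq
        have e1 : ψ₂ w * ((A * D' - A' * D : ℤ) : ℂ) = ((B' * D - B * D' : ℤ) : ℂ) := by
          push_cast
          linear_combination D * h0' - D' * h0
        rw [Rat.cast_div, Rat.cast_intCast, Rat.cast_intCast, eq_div_iff hne, e1]

end Pool.Agent.LGO.FC
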