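import Mathlib

/-!
# LGO/FC: a specialisation which keeps a transcendence basis is injective

`inc`: `b` a point of a domain `B`, `c` a specialisation of `b` over the field `k`; the coordinates `b (s j)` are such that
all `b i` are algebraic over `k[b ∘ s]`, and `c ∘ s` is algebraically independent.  Then every relation of `c` is a relation
of `b`.

Proof.  Suppose `aeval c G = 0` and `β = aeval b G ≠ 0`.  Let `S = Algebra.adjoin k (Set.range b)` (a domain) and
`R = Algebra.adjoin k (Set.range (b ∘ s))`.  All elements of `S` are algebraic over `R` (the algebraic elements of a domain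
over `R` form a subalgebra: `Subalgebra.algebraicClosure`, `IsAlgebraic.add`, `.mul`, ...; or use `Algebra.IsAlgebraic`).
So there is `r ∈ R`, `r ≠ 0`, `r = β β'` with `β' ∈ S` (`IsAlgebraic.exists_nonzero_dvd`, applied in the ring `S`, not in
`B`).  Write `r = aeval (b ∘ s) p = aeval b (rename s p)`, `β' = aeval b G'`.  Then `G * G' - rename s p` vanishes at
`b`, hence at `c`: `aeval (c ∘ s) p = aeval c G * aeval c G' = 0`, so `p = 0` and `r = 0`: a contradiction.

`alg_of_dep`: if `u, v` are algebraically independent over `k` and `u, v, t` are not then `t` is algebraic over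
`k[u, v]`; `alg_of_dep1`: the same for `u` and `u, t`.  (`AlgebraicIndependent` of `![u, v, t]`: see
`algebraicIndependent_fin_succ`, `AlgebraicIndependent.option_iff` or prove it by hand: a nonzero polynomial
`p(u, v, t) = 0`; as polynomial in `t` over `MvPolynomial (Fin 2) k` it is not zero, and its coefficients do not vanish
at `u, v`.)
-/

namespace Pool.Agent.LGO.FC

open MvPolynomial

/-- a specialisation which keeps a transcendence basis is injective -/
theorem inc {k : Type*} [Field k] {ι κ : Type*} {B C : Type*} [CommRing B] [IsDomain B] [Algebra k B]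
    [CommRing C] [Algebra k C] (b : ι → B) (c : ι → C) (s : κ → ι)
    (hspec : ∀ G : MvPolynomial ι k, aeval b G = 0 → aeval c G = 0)
    (hind : AlgebraicIndependent k (fun j => c (s j)))
    (halg : ∀ i, IsAlgebraic (Algebra.adjoin k (Set.range fun j => b (s j))) (b i))
    (G : MvPolynomial ι k) (hG : aeval c G = 0) : aeval b G = 0 := by
  by_contra hβ
  have hR : (Algebra.adjoin k (Set.range fun j => b (s j))) ≤ Algebra.adjoin k (Set.range b) :=
    Algebra.adjoin_mono (by rintro _ ⟨j, rfl⟩; exact ⟨s j, rfl⟩)
  have hβS : aeval b G ∈ Algebra.adjoin k (Set.range b) := by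
    rw [Algebra.adjoin_range_eq_range_aeval]; exact ⟨G, rfl⟩
  have hle : Algebra.adjoin k (Set.range b) ≤
      (Subalgebra.algebraicClosure (Algebra.adjoin k (Set.range fun j => b (s j))) B).restrictScalars k :=
    Algebra.adjoin_le (by rintro _ ⟨i, rfl⟩; exact halg i)
  have hβalg : IsAlgebraic (Algebra.adjoin k (Set.range fun j => b (s j))) (aeval b G) := hle hβS
  obtain ⟨q, hq0, hq⟩ := hβalg.exists_nonzero_coeff_and_aeval_eq_zero (mem_nonZeroDivisors_of_ne_zero hβ)
  have hmem : ∀ Q : Polynomial (Algebra.adjoin k (Set.range fun j => b (s j))),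
      Polynomial.aeval (aeval b G) Q ∈ Algebra.adjoin k (Set.range b) := by
    intro Q
    rw [Polynomial.aeval_eq_sum_range]
    refine Subalgebra.sum_mem _ fun i _ => ?_
    rw [Algebra.smul_def]
    exact Subalgebra.mul_mem _ (hR (Q.coeff i).2) (Subalgebra.pow_mem _ hβS i)
  have hG' := hmem q.divX
  rw [Algebra.adjoin_range_eq_range_aeval] at hG'
  obtain ⟨G', hG'⟩ := hG'
  have hr : ∀ x ∈ Algebra.adjoin k (Set.range fun j => b (s j)),
      ∃ p : MvPolynomial κ k, aeval (fun j => b (s j)) p = x := by
    intro x hx
    rw [Algebra.adjoin_range_eq_range_aeval] at hx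
    exact hx
  obtain ⟨p, hp⟩ := hr _ (q.coeff 0).2
  have hsum : aeval b G' * aeval b G + (q.coeff 0 : B) = 0 := by
    have h1 := hq
    rw [← Polynomial.divX_mul_X_add q, map_add, map_mul, Polynomial.aeval_X, Polynomial.aeval_C] at h1
    have hG'' : aeval b G' = Polynomial.aeval (aeval b G) q.divX := hG'
    rw [hG'']
    exact h1
  have hp' : aeval b (rename s p) = (q.coeff 0 : B) := by
    rw [aeval_rename]; exact hp
  have hb : aeval b (G' * G + rename s p) = 0 := by
    rw [map_add, map_mul, hp', hsum]
  have hc := hspec _ hb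
  rw [map_add, map_mul, hG, mul_zero, zero_add, aeval_rename] at hc
  have hp0 : p = 0 := by
    have hinj := hind
    rw [AlgebraicIndependent] at hinj
    apply hinj
    rw [map_zero]
    exact hc
  apply hq0
  apply Subtype.ext
  rw [← hp', hp0, map_zero, map_zero]
  rfl

theorem alg_of_dep1 {k B : Type*} [Field k] [Field B] [Algebra k B] {u t : B}
    (h1 : AlgebraicIndependent k ![u]) (h2 : ¬ AlgebraicIndependent k ![u, t]) :
    IsAlgebraic (Algebra.adjoin k (Set.range ![u])) t := by
  by_contra ht
  have h3 := (h1.option_iff_transcendental t).2 ht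
  apply h2
  let e : Fin 2 ≃ Option (Fin 1) := finSuccEquivLast
  refine (algebraicIndependent_equiv' e ?_).2 h3
  funext i
  fin_cases i
  · have : e 0 = some 0 := by decide
    simp [this]
  · have : e 1 = none := by decide
    simp [this]

theorem alg_of_dep {k B : Type*} [Field k] [Field B] [Algebra k B] {u v t : B}
    (h1 : AlgebraicIndependent k ![u, v]) (h2 : ¬ AlgebraicIndependent k ![u, v, t]) :
    IsAlgebraic (Algebra.adjoin k (Set.range ![u, v])) t := by
  by_contra ht
  have h3 := (h1.option_iff_transcendental t).2 ht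
  apply h2
  let e : Fin 3 ≃ Option (Fin 2) := finSuccEquivLast
  refine (algebraicIndependent_equiv' e ?_).2 h3
  funext i
  fin_cases i
  · have : e 0 = some 0 := by decide
    simp [this]
  · have : e 1 = some 1 := by decide
    simp [this]
  · have : e 2 = none := by decide
    simp [this]

/-- one element of an algebraically closed subfield or not -/
theorem ind1_iff {k : IntermediateField ℚ ℂ} (hk : ∀ x : ℂ, IsAlgebraic k x → x ∈ k) {u : ℂ} :
    AlgebraicIndependent k ![u] ↔ u ∉ k := by
  rw [algebraicIndependent_unique_type_iff]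
  constructor
  · intro h hu
    exact h (isAlgebraic_algebraMap (⟨u, hu⟩ : k))
  · intro hu h
    exact hu (hk u h)

end Pool.Agent.LGO.FC
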