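import Mathlib

/-!
# LGO/FC: transport of an algebraic point into a ring of functions

`x` a point of a field `L`, the points `(x 0, x 1)` and `f` have the same relations over `k`, `x 2` and `x 3` are roots of
`P₂`, `P₃` (with coefficients in `k[x 0, x 1]`), and `P₂`, `P₃` split into linear factors in `B[T]`, `B` a domain.
Then some choice of the roots is a specialisation of `x` over `k`.

Proof.  `K = FractionRing B`, `Ω = AlgebraicClosure K`, a field containing `B`.  Let `A₀ ⊆ L` be the image of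
`aeval ![x 0, x 1]`, `F₀ ⊆ L` its fraction field (`IntermediateField.adjoin k {x 0, x 1}` or `FractionRing`), by `hker` there
is a `k`-homomorphism `F₀ → Ω` with `x 0 ↦ f 0`, `x 1 ↦ f 1`.  `l₂ ≠ 0` is the leading coefficient of `P₂.map`, so the
leading coefficient of `P₂` (or some coefficient) does not vanish at `f`, hence not at `(x 0, x 1)`, and
`x 2` is algebraic over `F₀`; the same for `x 3`.  Extend the homomorphism to `φ : F₀(x 2, x 3) → Ω` (`IsAlgClosed.lift`,
or `IntermediateField.exists_algHom_of_adjoin_splits`).  `φ (x 2)` is a root of `P₂` at `f`, i.e. of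
`l₂ ∏ (T - r₂ i)`, so it is one of the `r₂ i`; the same for `x 3`.  If `aeval x G = 0` then apply `φ`:
`aeval ![f 0, f 1, r₂ i, r₃ i'] G = 0` in `Ω`, so in `B`.
-/

namespace Pool.Agent.LGO.FC

open MvPolynomial

/-- extension of a homomorphism into an algebraically closed field -/
theorem TransA_core {A L Ω : Type*} [CommRing A] [Field L] [Field Ω] [IsAlgClosed Ω] (gL : A →+* L) (gΩ : A →+* Ω)
    (iL : Function.Injective gL) (iΩ : Function.Injective gΩ) (z w : L)
    (hz : ∃ Q : Polynomial A, Q ≠ 0 ∧ Q.eval₂ gL z = 0) (hw : ∃ Q : Polynomial A, Q ≠ 0 ∧ Q.eval₂ gL w = 0) :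
    ∃ (S : Subring L) (φ : S →+* Ω) (c : A →+* S), (∀ a, ((c a : S) : L) = gL a) ∧ (∀ a, φ (c a) = gΩ a) ∧
      z ∈ S ∧ w ∈ S := by
  let _ : Algebra A L := gL.toAlgebra
  let _ : Algebra A Ω := gΩ.toAlgebra
  have hdom : IsDomain A := Function.Injective.isDomain gL iL
  have al₂ : IsAlgebraic A z := by
    obtain ⟨Q, h1, h2⟩ := hz
    exact ⟨Q, h1, h2⟩
  have al₃ : IsAlgebraic A w := by
    obtain ⟨Q, h1, h2⟩ := hw
    exact ⟨Q, h1, h2⟩
  let S : Subalgebra A L := Algebra.adjoin A {z, w}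
  have hAS : Algebra.IsAlgebraic A S := by
    rw [← Subalgebra.isAlgebraic_iff]
    intro u hu
    induction hu using Algebra.adjoin_induction with
    | mem u hu =>
      rcases hu with hu | hu
      · rw [hu]
        exact al₂
      · rw [Set.mem_singleton_iff] at hu
        rw [hu]
        exact al₃
    | algebraMap r => exact isAlgebraic_algebraMap r
    | add u v _ _ hu hv => exact hu.add hv
    | mul u v _ _ hu hv => exact hu.mul hv
  have f1 : FaithfulSMul A L := (faithfulSMul_iff_algebraMap_injective A L).2 iL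
  have f2 : FaithfulSMul A Ω := (faithfulSMul_iff_algebraMap_injective A Ω).2 iΩ
  have f3 : FaithfulSMul A S := by
    rw [faithfulSMul_iff_algebraMap_injective]
    intro a b hab
    exact iL (congrArg Subtype.val hab)
  have f4 : Module.IsTorsionFree A Ω := inferInstance
  have f5 : Module.IsTorsionFree A S := inferInstance
  let φ : S →ₐ[A] Ω := IsAlgClosed.lift
  refine ⟨S.toSubring, (φ : S →+* Ω), algebraMap A S, fun a => rfl, fun a => φ.commutes a, ?_, ?_⟩
  · exact Algebra.subset_adjoin (by simp)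
  · exact Algebra.subset_adjoin (by simp)

/-- the general form, with an algebraically closed field containing `B` -/
theorem TransA_gen {k : Type*} [Field k] {L : Type*} [Field L] [Algebra k L] {B : Type*} [CommRing B] [IsDomain B]
    [Algebra k B] {Ω : Type*} [Field Ω] [IsAlgClosed Ω] (ι : B →+* Ω) (hι : Function.Injective ι)
    (x : Fin 4 → L) (f : Fin 2 → B)
    (hker : ∀ G : MvPolynomial (Fin 2) k, aeval ![x 0, x 1] G = (0 : L) ↔ aeval f G = (0 : B))
    (P₂ P₃ : Polynomial (MvPolynomial (Fin 2) k))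
    (h₂ : P₂.eval₂ ((aeval ![x 0, x 1] : MvPolynomial (Fin 2) k →ₐ[k] L) : _ →+* L) (x 2) = 0)
    (h₃ : P₃.eval₂ ((aeval ![x 0, x 1] : MvPolynomial (Fin 2) k →ₐ[k] L) : _ →+* L) (x 3) = 0)
    {d₂ d₃ : ℕ} (r₂ : Fin d₂ → B) (r₃ : Fin d₃ → B) (l₂ l₃ : B) (hl₂ : l₂ ≠ 0) (hl₃ : l₃ ≠ 0)
    (hs₂ : P₂.map ((aeval f : MvPolynomial (Fin 2) k →ₐ[k] B) : _ →+* B) =
      Polynomial.C l₂ * ∏ i, (Polynomial.X - Polynomial.C (r₂ i)))
    (hs₃ : P₃.map ((aeval f : MvPolynomial (Fin 2) k →ₐ[k] B) : _ →+* B) =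
      Polynomial.C l₃ * ∏ i, (Polynomial.X - Polynomial.C (r₃ i))) :
    ∃ (i : Fin d₂) (i' : Fin d₃), ∀ G : MvPolynomial (Fin 4) k, aeval x G = (0 : L) →
      aeval ![f 0, f 1, r₂ i, r₃ i'] G = (0 : B) := by
  classical
  set eL : MvPolynomial (Fin 2) k →+* L :=
    ((aeval ![x 0, x 1] : MvPolynomial (Fin 2) k →ₐ[k] L) : MvPolynomial (Fin 2) k →+* L) with heL
  set eB : MvPolynomial (Fin 2) k →+* B :=
    ((aeval f : MvPolynomial (Fin 2) k →ₐ[k] B) : MvPolynomial (Fin 2) k →+* B) with heB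
  have hk1 : ∀ G, eL G = 0 ↔ eB G = 0 := fun G => hker G
  obtain ⟨A, cr, mk, gL, gB, hgL, hgB, iL, iB⟩ : ∃ (A : Type _) (_ : CommRing A) (mk : MvPolynomial (Fin 2) k →+* A)
      (gL : A →+* L) (gB : A →+* B), (∀ G, gL (mk G) = eL G) ∧ (∀ G, gB (mk G) = eB G) ∧
      Function.Injective gL ∧ Function.Injective gB := by
    have hsur : Function.Surjective (Ideal.Quotient.mk (RingHom.ker eL)) := Ideal.Quotient.mk_surjective
    refine ⟨MvPolynomial (Fin 2) k ⧸ RingHom.ker eL, inferInstance, Ideal.Quotient.mk _,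
      Ideal.Quotient.lift _ eL (fun a ha => ha), Ideal.Quotient.lift _ eB (fun a ha => (hk1 a).1 ha),
      fun G => Ideal.Quotient.lift_mk _ _ _, fun G => Ideal.Quotient.lift_mk _ _ _, ?_, ?_⟩
    · rw [injective_iff_map_eq_zero]
      intro a ha
      obtain ⟨G, rfl⟩ := hsur a
      rw [Ideal.Quotient.lift_mk] at ha
      exact Ideal.Quotient.eq_zero_iff_mem.2 ha
    · rw [injective_iff_map_eq_zero]
      intro a ha
      obtain ⟨G, rfl⟩ := hsur a
      rw [Ideal.Quotient.lift_mk] at ha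
      exact Ideal.Quotient.eq_zero_iff_mem.2 ((hk1 G).2 ha)
  have algof : ∀ (P : Polynomial (MvPolynomial (Fin 2) k)) (z : L) (l : B) (d : ℕ) (r : Fin d → B), l ≠ 0 →
      P.eval₂ eL z = 0 → P.map eB = Polynomial.C l * ∏ i, (Polynomial.X - Polynomial.C (r i)) →
      ∃ Q : Polynomial A, Q ≠ 0 ∧ Q.eval₂ gL z = 0 := by
    intro P z l d r hl hz hP
    refine ⟨P.map mk, ?_, ?_⟩
    · intro h0
      have h1 : P.map eB = 0 := by
        have h2 : P.map eB = (P.map mk).map gB := by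
          rw [Polynomial.map_map]
          exact congrArg (fun g => P.map g) (RingHom.ext fun G => (hgB G).symm)
        rw [h2, h0, Polynomial.map_zero]
      rw [hP] at h1
      rcases mul_eq_zero.1 h1 with h2 | h2
      · exact hl (by simpa using h2)
      · rw [Finset.prod_eq_zero_iff] at h2
        obtain ⟨i, _, hi⟩ := h2
        exact Polynomial.X_sub_C_ne_zero _ hi
    · rw [Polynomial.eval₂_map]
      have : gL.comp mk = eL := RingHom.ext fun G => hgL G
      rw [this]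
      exact hz
  obtain ⟨S, φ, c, hc, hφ, m2, m3⟩ := TransA_core gL (ι.comp gB) iL (hι.comp iB) (x 2) (x 3)
    (algof P₂ (x 2) l₂ d₂ r₂ hl₂ h₂ hs₂) (algof P₃ (x 3) l₃ d₃ r₃ hl₃ h₃ hs₃)
  have root : ∀ (P : Polynomial (MvPolynomial (Fin 2) k)) (z : S) (l : B) (d : ℕ) (r : Fin d → B), l ≠ 0 →
      P.eval₂ eL (z : L) = 0 → P.map eB = Polynomial.C l * ∏ i, (Polynomial.X - Polynomial.C (r i)) →
      ∃ i, φ z = ι (r i) := by
    intro P z l d r hl hz hP
    have h1 : P.eval₂ (c.comp mk) z = 0 := by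
      apply Subtype.val_injective
      have h2 := Polynomial.hom_eval₂ P (c.comp mk) S.subtype z
      have h3 : S.subtype.comp (c.comp mk) = eL :=
        RingHom.ext fun G => (hc (mk G)).trans (hgL G)
      rw [h3] at h2
      exact h2.trans hz
    have h4 : P.eval₂ (ι.comp eB) (φ z) = 0 := by
      have h5 := Polynomial.hom_eval₂ P (c.comp mk) φ z
      rw [h1, map_zero] at h5
      have h6 : φ.comp (c.comp mk) = ι.comp eB :=
        RingHom.ext fun G => (hφ (mk G)).trans (congrArg ι (hgB G))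
      rw [h6] at h5
      exact h5.symm
    have h7 : (P.map eB).eval₂ ι (φ z) = 0 := by rw [Polynomial.eval₂_map]; exact h4
    rw [hP, Polynomial.eval₂_mul, Polynomial.eval₂_C, Polynomial.eval₂_finsetProd] at h7
    rcases mul_eq_zero.1 h7 with h8 | h8
    · exact absurd (hι (by rw [h8, map_zero])) hl
    · rw [Finset.prod_eq_zero_iff] at h8
      obtain ⟨i, _, hi⟩ := h8
      refine ⟨i, ?_⟩
      rw [Polynomial.eval₂_sub, Polynomial.eval₂_X, Polynomial.eval₂_C] at hi
      exact sub_eq_zero.1 hi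
  obtain ⟨i, hi⟩ := root P₂ ⟨x 2, m2⟩ l₂ d₂ r₂ hl₂ h₂ hs₂
  obtain ⟨i', hi'⟩ := root P₃ ⟨x 3, m3⟩ l₃ d₃ r₃ hl₃ h₃ hs₃
  refine ⟨i, i', ?_⟩
  intro G hG
  apply hι
  rw [map_zero]
  let y : Fin 4 → S := ![c (mk (X 0)), c (mk (X 1)), ⟨x 2, m2⟩, ⟨x 3, m3⟩]
  have hy : ∀ j, ((y j : S) : L) = x j := by
    intro j
    fin_cases j
    · change ((c (mk (X 0)) : S) : L) = x 0
      rw [hc, hgL, heL]
      simp
    · change ((c (mk (X 1)) : S) : L) = x 1
      rw [hc, hgL, heL]
      simp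
    · rfl
    · rfl
  have hφy : ∀ j, φ (y j) = ι ((![f 0, f 1, r₂ i, r₃ i'] : Fin 4 → B) j) := by
    intro j
    fin_cases j
    · change φ (c (mk (X 0))) = ι (f 0)
      rw [hφ, RingHom.comp_apply, hgB, heB]
      simp
    · change φ (c (mk (X 1))) = ι (f 1)
      rw [hφ, RingHom.comp_apply, hgB, heB]
      simp
    · exact hi
    · exact hi'
  let cA : k →+* A := mk.comp C
  have e1 : (G.eval₂ (c.comp cA) y : S) = 0 := by
    apply Subtype.val_injective
    have h1 := MvPolynomial.eval₂_comp_left S.subtype (c.comp cA) y G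
    have h2 : S.subtype.comp (c.comp cA) = algebraMap k L := by
      refine RingHom.ext fun a => ?_
      change ((c (mk (C a)) : S) : L) = algebraMap k L a
      rw [hc, hgL, heL]
      simp
    have h3 : S.subtype ∘ y = x := by
      funext j
      exact hy j
    rw [h2, h3] at h1
    exact h1.trans hG
  have h1 := MvPolynomial.eval₂_comp_left φ (c.comp cA) y G
  rw [e1, map_zero] at h1
  have h4 := MvPolynomial.eval₂_comp_left ι (algebraMap k B) (![f 0, f 1, r₂ i, r₃ i'] : Fin 4 → B) G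
  have h2 : φ.comp (c.comp cA) = ι.comp (algebraMap k B) := by
    refine RingHom.ext fun a => ?_
    change φ (c (mk (C a))) = ι (algebraMap k B a)
    rw [hφ, RingHom.comp_apply, hgB, heB]
    simp
  have h3 : φ ∘ y = ι ∘ (![f 0, f 1, r₂ i, r₃ i'] : Fin 4 → B) := by
    funext j
    exact hφy j
  rw [h2, h3, ← h4] at h1
  exact h1.symm

/-- transport of an algebraic point -/
theorem trans {k : Type*} [Field k] {L : Type*} [Field L] [Algebra k L] {B : Type*} [CommRing B] [IsDomain B]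
    [Algebra k B] (x : Fin 4 → L) (f : Fin 2 → B)
    (hker : ∀ G : MvPolynomial (Fin 2) k, aeval ![x 0, x 1] G = (0 : L) ↔ aeval f G = (0 : B))
    (P₂ P₃ : Polynomial (MvPolynomial (Fin 2) k))
    (h₂ : P₂.eval₂ ((aeval ![x 0, x 1] : MvPolynomial (Fin 2) k →ₐ[k] L) : _ →+* L) (x 2) = 0)
    (h₃ : P₃.eval₂ ((aeval ![x 0, x 1] : MvPolynomial (Fin 2) k →ₐ[k] L) : _ →+* L) (x 3) = 0)
    {d₂ d₃ : ℕ} (r₂ : Fin d₂ → B) (r₃ : Fin d₃ → B) (l₂ l₃ : B) (hl₂ : l₂ ≠ 0) (hl₃ : l₃ ≠ 0)
    (hs₂ : P₂.map ((aeval f : MvPolynomial (Fin 2) k →ₐ[k] B) : _ →+* B) =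
      Polynomial.C l₂ * ∏ i, (Polynomial.X - Polynomial.C (r₂ i)))
    (hs₃ : P₃.map ((aeval f : MvPolynomial (Fin 2) k →ₐ[k] B) : _ →+* B) =
      Polynomial.C l₃ * ∏ i, (Polynomial.X - Polynomial.C (r₃ i))) :
    ∃ (i : Fin d₂) (i' : Fin d₃), ∀ G : MvPolynomial (Fin 4) k, aeval x G = (0 : L) →
      aeval ![f 0, f 1, r₂ i, r₃ i'] G = (0 : B) := by
  refine TransA_gen (Ω := AlgebraicClosure (FractionRing B))
    ((algebraMap (FractionRing B) (AlgebraicClosure (FractionRing B))).comp (algebraMap B (FractionRing B)))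
    ?_ x f hker P₂ P₃ h₂ h₃ r₂ r₃ l₂ l₃ hl₂ hl₃ hs₂ hs₃
  intro a b hab
  exact IsFractionRing.injective B (FractionRing B)
    ((algebraMap (FractionRing B) (AlgebraicClosure (FractionRing B))).injective hab)

end Pool.Agent.LGO.FC
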