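import Mathlib
import Pool.Agent.LGO.FC.IncA
import Pool.Agent.LGO.FC.TransA
import Pool.Agent.LGO.FC.BasA

/-!
# LGO/FC: `inc` and `trans` for holomorphic functions

`Ω` open and with all segments (convex) in a complex normed space `E`, not empty.  The ring `B` of the functions `Ω → ℂ` which are
restrictions of functions complex differentiable on `Ω` (a subring, `k`-subalgebra, of `Ω → ℂ`) is a domain by `dom`.
`inc_fun`, `trans_fun` are `inc`, `trans` for this ring: `aeval` in `B` evaluated at `w ∈ Ω` is `aeval` of the values (evaluation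
at `w` is a `k`-algebra homomorphism `B → ℂ`), an element of `B` is zero if it is zero at all `w ∈ Ω`; two polynomials over `B`
are equal if their images in `ℂ[T]` under the evaluations at all `w ∈ Ω` are equal (compare coefficients).
-/

namespace Pool.Agent.LGO.FC

open MvPolynomial

variable {E : Type*} [NormedAddCommGroup E] [NormedSpace ℂ E] {Ω : Set E} {k : IntermediateField ℚ ℂ}

/-- the algebra of the restrictions of the functions complex differentiable on `Ω` -/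
private noncomputable def FunA_S (k : IntermediateField ℚ ℂ) (Ω : Set E) : Subalgebra k (Ω → ℂ) where
  carrier := {f | ∃ F : E → ℂ, DifferentiableOn ℂ F Ω ∧ ∀ w : Ω, f w = F w}
  mul_mem' := by
    rintro f g ⟨F, hF, hf⟩ ⟨G, hG, hg⟩
    exact ⟨fun w => F w * G w, hF.mul hG, fun w => by rw [Pi.mul_apply, hf, hg]⟩
  add_mem' := by
    rintro f g ⟨F, hF, hf⟩ ⟨G, hG, hg⟩
    exact ⟨fun w => F w + G w, hF.add hG, fun w => by rw [Pi.add_apply, hf, hg]⟩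
  algebraMap_mem' := fun a => ⟨fun _ => algebraMap k ℂ a, differentiableOn_const _, fun _ => rfl⟩

/-- evaluation -/
private noncomputable def FunA_ev (w : Ω) : FunA_S k Ω →ₐ[k] ℂ :=
  (Pi.evalAlgHom k (fun _ : Ω => ℂ) w).comp (FunA_S k Ω).val

private theorem FunA_ext {a b : FunA_S k Ω} (h : ∀ w : Ω, FunA_ev w a = FunA_ev w b) : a = b :=
  Subtype.ext (funext fun w => h w)

private theorem FunA_dom (ho : IsOpen Ω) (hne : Ω.Nonempty)
    (hc : ∀ w ∈ Ω, ∀ w' ∈ Ω, ∀ s : ℝ, 0 ≤ s → s ≤ 1 → w + (s : ℂ) • (w' - w) ∈ Ω) :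
    IsDomain (FunA_S k Ω) := by
  obtain ⟨w₀, hw₀⟩ := hne
  have h1 : Nontrivial (FunA_S k Ω) := by
    refine ⟨⟨0, 1, fun h => ?_⟩⟩
    have h2 := congrArg (FunA_ev (⟨w₀, hw₀⟩ : Ω)) h
    rw [map_zero, map_one] at h2
    exact zero_ne_one h2
  have h2 : NoZeroDivisors (FunA_S k Ω) := by
    refine ⟨fun {a b} hab => ?_⟩
    obtain ⟨a, F, hF, hf⟩ := a
    obtain ⟨b, G, hG, hg⟩ := b
    have h3 : ∀ w ∈ Ω, F w * G w = 0 := by
      intro w hw
      have h4 := congrFun (congrArg Subtype.val hab) (⟨w, hw⟩ : Ω)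
      have h5 : a ⟨w, hw⟩ * b ⟨w, hw⟩ = 0 := h4
      rwa [hf, hg] at h5
    rcases dom ho hc hF hG h3 with h4 | h4
    · left
      refine Subtype.ext (funext fun w => ?_)
      exact (hf w).trans (h4 w w.2)
    · right
      refine Subtype.ext (funext fun w => ?_)
      exact (hg w).trans (h4 w w.2)
  exact NoZeroDivisors.to_isDomain _

omit [NormedAddCommGroup E] [NormedSpace ℂ E] in
private theorem FunA_key {κ : Type*} (w : Ω) (g : κ → E → ℂ) (H : MvPolynomial κ k) :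
    (aeval (fun j => (fun v : Ω => g j v) : κ → (Ω → ℂ)) H : Ω → ℂ) w = aeval (fun j => g j w) H :=
  comp_aeval_apply (fun j => (fun v : Ω => g j v) : κ → (Ω → ℂ)) (Pi.evalAlgHom k (fun _ : Ω => ℂ) w) H

private theorem FunA_pol (P : Polynomial (MvPolynomial (Fin 2) k)) (f : Fin 2 → E → ℂ) (f' : Fin 2 → FunA_S k Ω)
    (hf' : ∀ j (w : Ω), FunA_ev w (f' j) = f j w) {d : ℕ} (r : Fin d → E → ℂ) (r' : Fin d → FunA_S k Ω)
    (hr' : ∀ i (w : Ω), FunA_ev w (r' i) = r i w) (l : E → ℂ) (l' : FunA_S k Ω)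
    (hl' : ∀ w : Ω, FunA_ev w l' = l w)
    (h : ∀ w ∈ Ω, pe (fun j => f j w) P = Polynomial.C (l w) * ∏ i, (Polynomial.X - Polynomial.C (r i w))) :
    P.map ((aeval f' : MvPolynomial (Fin 2) k →ₐ[k] FunA_S k Ω) : _ →+* FunA_S k Ω) =
      Polynomial.C l' * ∏ i, (Polynomial.X - Polynomial.C (r' i)) := by
  refine Polynomial.ext fun n => FunA_ext fun w => ?_
  have e1 : ∀ Q : Polynomial (FunA_S k Ω), FunA_ev w (Q.coeff n) =
      (Q.map ((FunA_ev w : FunA_S k Ω →ₐ[k] ℂ) : FunA_S k Ω →+* ℂ)).coeff n := fun Q =>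
    (Polynomial.coeff_map _ _).symm
  rw [e1, e1]
  have e2 : (P.map ((aeval f' : MvPolynomial (Fin 2) k →ₐ[k] FunA_S k Ω) : _ →+* FunA_S k Ω)).map
      ((FunA_ev w : FunA_S k Ω →ₐ[k] ℂ) : FunA_S k Ω →+* ℂ) = pe (fun j => f j w) P := by
    unfold pe
    rw [Polynomial.map_map]
    congr 1
    refine RingHom.ext fun G => ?_
    change FunA_ev w (aeval f' G) = aeval (fun j => f j w) G
    rw [comp_aeval_apply]
    congr 2
    funext j
    exact hf' j w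
  have e3 : (Polynomial.C l' * ∏ i, (Polynomial.X - Polynomial.C (r' i))).map
      ((FunA_ev w : FunA_S k Ω →ₐ[k] ℂ) : FunA_S k Ω →+* ℂ) =
      Polynomial.C (l w) * ∏ i, (Polynomial.X - Polynomial.C (r i w)) := by
    rw [Polynomial.map_mul, Polynomial.map_C, Polynomial.map_prod]
    congr 1
    · exact congrArg _ (hl' w)
    · refine Finset.prod_congr rfl fun i _ => ?_
      rw [Polynomial.map_sub, Polynomial.map_X, Polynomial.map_C]
      congr 1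
      exact congrArg _ (hr' i w)
  rw [e2, e3, h w w.2]

/-- a specialisation which keeps a transcendence basis is injective, for functions -/
theorem inc_fun (ho : IsOpen Ω) (hne : Ω.Nonempty)
    (hc : ∀ w ∈ Ω, ∀ w' ∈ Ω, ∀ s : ℝ, 0 ≤ s → s ≤ 1 → w + (s : ℂ) • (w' - w) ∈ Ω)
    {ι κ : Type*} (b : ι → ℂ) (c : ι → E → ℂ) (hol : ∀ i, DifferentiableOn ℂ (c i) Ω) (s : κ → ι)
    (hspec : ∀ G : MvPolynomial ι k, aeval b G = (0 : ℂ) → ∀ w ∈ Ω, aeval (fun i => c i w) G = (0 : ℂ))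
    (hind : ∀ G : MvPolynomial κ k, (∀ w ∈ Ω, aeval (fun j => c (s j) w) G = (0 : ℂ)) → G = 0)
    (halg : ∀ i, IsAlgebraic (Algebra.adjoin k (Set.range fun j => b (s j))) (b i))
    (G : MvPolynomial ι k) (hG : ∀ w ∈ Ω, aeval (fun i => c i w) G = (0 : ℂ)) : aeval b G = (0 : ℂ) := by
  refine inc b (fun i => (fun v : Ω => c i v) : ι → (Ω → ℂ)) s ?_ ?_ halg G ?_
  · intro H hH
    funext w
    rw [FunA_key]
    exact hspec H hH w w.2
  · rw [AlgebraicIndependent, injective_iff_map_eq_zero]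
    intro H hH
    refine hind H fun w hw => ?_
    have h1 := congrFun hH (⟨w, hw⟩ : Ω)
    rw [FunA_key (⟨w, hw⟩ : Ω) (fun j => c (s j)) H] at h1
    exact h1
  · funext w
    rw [FunA_key]
    exact hG w w.2

/-- transport of an algebraic point, for functions -/
theorem trans_fun (ho : IsOpen Ω) (hne : Ω.Nonempty)
    (hc : ∀ w ∈ Ω, ∀ w' ∈ Ω, ∀ s : ℝ, 0 ≤ s → s ≤ 1 → w + (s : ℂ) • (w' - w) ∈ Ω)
    (x : Fin 4 → ℂ) (f : Fin 2 → E → ℂ) (hf : ∀ j, DifferentiableOn ℂ (f j) Ω)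
    (hker : ∀ G : MvPolynomial (Fin 2) k, aeval ![x 0, x 1] G = (0 : ℂ) ↔
      ∀ w ∈ Ω, aeval (fun j => f j w) G = (0 : ℂ))
    (P₂ P₃ : Polynomial (MvPolynomial (Fin 2) k))
    (h₂ : (pe ![x 0, x 1] P₂).eval (x 2) = 0) (h₃ : (pe ![x 0, x 1] P₃).eval (x 3) = 0)
    {d₂ d₃ : ℕ} (r₂ : Fin d₂ → E → ℂ) (r₃ : Fin d₃ → E → ℂ)
    (hr₂ : ∀ i, DifferentiableOn ℂ (r₂ i) Ω) (hr₃ : ∀ i, DifferentiableOn ℂ (r₃ i) Ω)
    (l₂ l₃ : E → ℂ) (hd₂ : DifferentiableOn ℂ l₂ Ω) (hd₃ : DifferentiableOn ℂ l₃ Ω)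
    (hl₂ : ∀ w ∈ Ω, l₂ w ≠ 0) (hl₃ : ∀ w ∈ Ω, l₃ w ≠ 0)
    (hs₂ : ∀ w ∈ Ω, pe (fun j => f j w) P₂ =
      Polynomial.C (l₂ w) * ∏ i, (Polynomial.X - Polynomial.C (r₂ i w)))
    (hs₃ : ∀ w ∈ Ω, pe (fun j => f j w) P₃ =
      Polynomial.C (l₃ w) * ∏ i, (Polynomial.X - Polynomial.C (r₃ i w))) :
    ∃ (i : Fin d₂) (i' : Fin d₃), ∀ G : MvPolynomial (Fin 4) k, aeval x G = (0 : ℂ) →
      ∀ w ∈ Ω, aeval ![f 0 w, f 1 w, r₂ i w, r₃ i' w] G = (0 : ℂ) := by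
  have hD : IsDomain (FunA_S k Ω) := FunA_dom ho hne hc
  let mk : ∀ F : E → ℂ, DifferentiableOn ℂ F Ω → FunA_S k Ω := fun F hF => ⟨fun w => F w, F, hF, fun _ => rfl⟩
  have hmk : ∀ (F : E → ℂ) (hF : DifferentiableOn ℂ F Ω) (w : Ω), FunA_ev w (mk F hF) = F w :=
    fun F hF w => rfl
  have hev : ∀ (w : Ω) {κ : Type} (g : κ → FunA_S k Ω) (H : MvPolynomial κ k),
      FunA_ev w (aeval g H) = aeval (fun j => FunA_ev w (g j)) H := by
    intro w κ g H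
    rw [comp_aeval_apply]
  have hk1 : ∀ G : MvPolynomial (Fin 2) k, aeval ![x 0, x 1] G = (0 : ℂ) ↔
      aeval (fun j => mk (f j) (hf j)) G = (0 : FunA_S k Ω) := by
    intro G
    rw [hker G]
    constructor
    · intro h
      refine FunA_ext fun w => ?_
      rw [hev, map_zero]
      exact h w w.2
    · intro h w hw
      have h1 := congrArg (FunA_ev (⟨w, hw⟩ : Ω)) h
      rw [hev, map_zero] at h1
      exact h1
  have k₂ : P₂.eval₂ ((aeval ![x 0, x 1] : MvPolynomial (Fin 2) k →ₐ[k] ℂ) : _ →+* ℂ) (x 2) = 0 := by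
    rw [← Polynomial.eval_map]
    exact h₂
  have k₃ : P₃.eval₂ ((aeval ![x 0, x 1] : MvPolynomial (Fin 2) k →ₐ[k] ℂ) : _ →+* ℂ) (x 3) = 0 := by
    rw [← Polynomial.eval_map]
    exact h₃
  have n₂ : mk l₂ hd₂ ≠ 0 := by
    intro h
    obtain ⟨w, hw⟩ := hne
    exact hl₂ w hw (congrArg (FunA_ev (⟨w, hw⟩ : Ω)) h)
  have n₃ : mk l₃ hd₃ ≠ 0 := by
    intro h
    obtain ⟨w, hw⟩ := hne
    exact hl₃ w hw (congrArg (FunA_ev (⟨w, hw⟩ : Ω)) h)
  obtain ⟨i, i', hii⟩ := trans x (fun j => mk (f j) (hf j)) hk1 P₂ P₃ k₂ k₃ (fun i => mk (r₂ i) (hr₂ i))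
    (fun i => mk (r₃ i) (hr₃ i)) (mk l₂ hd₂) (mk l₃ hd₃) n₂ n₃
    (FunA_pol P₂ f _ (fun j w => rfl) r₂ _ (fun i w => rfl) l₂ _ (fun w => rfl) hs₂)
    (FunA_pol P₃ f _ (fun j w => rfl) r₃ _ (fun i w => rfl) l₃ _ (fun w => rfl) hs₃)
  refine ⟨i, i', fun G hG w hw => ?_⟩
  have h1 := congrArg (FunA_ev (⟨w, hw⟩ : Ω)) (hii G hG)
  rw [hev, map_zero] at h1
  rw [← h1]
  congr 2
  funext j
  fin_cases j <;> rfl

end Pool.Agent.LGO.FC
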