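import Mathlib
import Pool.Agent.LGO.FC.BasA
import Pool.Agent.LGO.AX.ChJ

/-!
# LGO/FC: the function `j` in the coordinate `w = 2 π i τ`

`Jw w = jF (w / (2 π i))`, holomorphic on `Re w < 0` (`Im (w / (2 π i)) = - Re w / (2 π)`), periodic with period `2 π i` (`j (τ + 1) = j τ`).
`jw_asy`: `exp w * Jw w → 1` as `Re w → -∞` (`j = 1 / q + ...`; `j_cusp` in `LGO/Gal/JG.lean`, `j_inv_inf` in `LGO/AX/ChJ.lean`,
`PS/GerO.lean` or `Q/Loc.lean` for the behaviour of `j` at infinity).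

`pol_mo`: the polynomials in `Jw (e w₀)`, `Jw (e w₁)` are periodic of moderate growth on `Om M R`, `M, R ≥ 1`: for `Re w < -1`
`|Jw (e w)| ≤ C exp (- e Re w)` (`exp w * Jw w` is bounded for `Re w ≤ -1`: by `jw_asy` for `Re w < - R₀`, and by compactness and
periodicity for `-R₀ ≤ Re w ≤ -1`, `|Im w| ≤ π`), and on `Om M R` with `M ≥ 1`, `R ≥ 1`: `Re w₁ < Re w₀ < -1`.  Induction on the polynomial
(`MvPolynomial.induction_on`) with `Mo.add`, `Mo.mul`, `mo_const`.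

`pol_ind`: `G (Jw (e w₀), Jw (e w₁)) = 0` on `Om M R` implies `G = 0`.  Proof: `Jw` takes infinitely many values on every `Hp R'`
(`|Jw| → ∞`).  For fixed `w₀` the polynomial `G(Jw (e w₀), Y)` has infinitely many roots, so all its coefficients vanish;
the coefficients are polynomials in `Jw (e w₀)` with infinitely many roots.  (`MvPolynomial.funext_set` or
`MvPolynomial.funext`-like lemmas for infinite sets; or Fin 2 = Fin 1 + 1 via `finSuccEquiv`.)
`pol_ind1`: the same in one variable on `Hp R`.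
-/

namespace Pool.Agent.LGO.FC

open Complex

private theorem PolA_two_pi_I_ne : (2 * Real.pi * I : ℂ) ≠ 0 := Complex.two_pi_I_ne_zero

private theorem PolA_im (w : ℂ) : (w / (2 * Real.pi * I)).im = -w.re / (2 * Real.pi) := by
  have h1 : w / (2 * Real.pi * I) = ((1 / (2 * Real.pi) : ℝ) : ℂ) * (w * (-I)) := by
    rw [div_eq_iff PolA_two_pi_I_ne]
    have hpi : (Real.pi : ℂ) ≠ 0 := by exact_mod_cast Real.pi_ne_zero
    push_cast
    field_simp
    rw [Complex.I_sq]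
    ring
  rw [h1, Complex.im_ofReal_mul]
  simp only [Complex.mul_im, Complex.neg_im, Complex.I_im, Complex.neg_re, Complex.I_re]
  ring

private theorem PolA_im_pos {w : ℂ} (hw : w.re < 0) : 0 < (w / (2 * Real.pi * I)).im := by
  rw [PolA_im]
  have := Real.pi_pos
  exact div_pos (by linarith) (by linarith)

private theorem PolA_key : ∃ J : ℂ → ℂ, DifferentiableOn ℂ J (Metric.ball 0 1) ∧ J 0 = 1 ∧
    ∀ w : ℂ, w.re < 0 → Jw w * exp w = J (exp w) := by
  obtain ⟨J, hJg, hJ0, hJτ⟩ := Pool.Agent.Hhelper14.ZP.exists_J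
  refine ⟨J, hJg.differentiableOn, hJ0, fun w hw => ?_⟩
  have him := PolA_im_pos hw
  have h6 := hJτ ⟨w / (2 * Real.pi * I), him⟩
  have h7 : Function.Periodic.qParam 1 ((⟨w / (2 * Real.pi * I), him⟩ : UpperHalfPlane) : ℂ) = exp w := by
    have h8 : 2 * Real.pi * I * (w / (2 * Real.pi * I)) = w := mul_div_cancel₀ _ PolA_two_pi_I_ne
    simp only [Function.Periodic.qParam, Complex.ofReal_one, div_one]
    exact congrArg exp h8
  rw [h7, ← jF_coe] at h6
  exact h6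

theorem jw_hol : DifferentiableOn ℂ Jw (Hp 0) := by
  have h1 : DifferentiableOn ℂ jF {z : ℂ | 0 < z.im} := jF_analytic.differentiableOn
  refine h1.comp (f := fun w : ℂ => w / (2 * Real.pi * I)) (by fun_prop) ?_
  intro w hw
  have hw' : w.re < -((0 : ℕ) : ℝ) := hw
  rw [Nat.cast_zero, neg_zero] at hw'
  exact PolA_im_pos hw'

theorem jw_per (w : ℂ) : Jw (w + 2 * Real.pi * I) = Jw w := by
  have hre : (w + 2 * Real.pi * I).re = w.re := by simp
  rcases lt_or_ge w.re 0 with hw | hw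
  · obtain ⟨J, -, -, hJ⟩ := PolA_key
    have h1 := hJ w hw
    have h2 := hJ (w + 2 * Real.pi * I) (by rw [hre]; exact hw)
    have h3 : exp (w + 2 * Real.pi * I) = exp w := by
      rw [Complex.exp_add, Complex.exp_two_pi_mul_I, mul_one]
    rw [h3, ← h1] at h2
    exact mul_right_cancel₀ (Complex.exp_ne_zero w) h2
  · have hpi := Real.pi_pos
    have h1 : ∀ v : ℂ, 0 ≤ v.re → (v / (2 * Real.pi * I)).im ≤ 0 := by
      intro v hv
      rw [PolA_im]
      exact div_nonpos_of_nonpos_of_nonneg (by linarith) (by linarith)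
    simp only [Jw, jF]
    rw [UpperHalfPlane.ofComplex_apply_of_im_nonpos (h1 w hw),
      UpperHalfPlane.ofComplex_apply_of_im_nonpos (h1 _ (by rw [hre]; exact hw))]

theorem jw_asy : ∀ ε : ℝ, 0 < ε → ∃ R : ℕ, ∀ w ∈ Hp R, ‖exp w * Jw w - 1‖ < ε := by
  intro ε hε
  obtain ⟨J, hJd, hJ0, hJ⟩ := PolA_key
  have hc : ContinuousAt J 0 :=
    (hJd.differentiableAt (Metric.ball_mem_nhds _ one_pos)).continuousAt
  obtain ⟨δ, hδ, h1⟩ := Metric.continuousAt_iff.mp hc ε hε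
  obtain ⟨R, hR⟩ := exists_nat_gt (-Real.log δ)
  refine ⟨R, fun w hw => ?_⟩
  have hw' : w.re < -(R : ℝ) := hw
  have hR0 : (0 : ℝ) ≤ R := Nat.cast_nonneg _
  have h2 : ‖exp w‖ < δ := by
    rw [Complex.norm_exp, ← Real.lt_log_iff_exp_lt hδ]
    linarith
  have h3 := h1 (x := exp w) (by rwa [dist_zero_right])
  rw [hJ0, dist_eq_norm, ← hJ w (by linarith), mul_comm] at h3
  exact h3

private theorem PolA_bd : ∃ C : ℝ, 0 ≤ C ∧ ∀ w : ℂ, w.re < -1 → ‖Jw w‖ ≤ C * Real.exp (-w.re) := by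
  obtain ⟨J, hJd, -, hJ⟩ := PolA_key
  have hcomp : IsCompact (Metric.closedBall (0 : ℂ) (Real.exp (-1))) := isCompact_closedBall _ _
  have hlt : Real.exp (-1) < 1 := by
    rw [Real.exp_lt_one_iff]
    norm_num
  have hcont : ContinuousOn J (Metric.closedBall (0 : ℂ) (Real.exp (-1))) :=
    hJd.continuousOn.mono (Metric.closedBall_subset_ball hlt)
  obtain ⟨C, hC⟩ := hcomp.exists_bound_of_continuousOn hcont
  have hC0 : 0 ≤ C := (norm_nonneg _).trans (hC 0 (Metric.mem_closedBall_self (Real.exp_pos _).le))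
  refine ⟨C, hC0, fun w hw => ?_⟩
  have h1 : exp w ∈ Metric.closedBall (0 : ℂ) (Real.exp (-1)) := by
    rw [mem_closedBall_zero_iff, Complex.norm_exp]
    exact Real.exp_le_exp.mpr hw.le
  have h2 := hC _ h1
  rw [← hJ w (by linarith), norm_mul, Complex.norm_exp] at h2
  calc ‖Jw w‖ = ‖Jw w‖ * Real.exp w.re * Real.exp (-w.re) := by
        rw [mul_assoc, ← Real.exp_add, add_neg_cancel, Real.exp_zero, mul_one]
    _ ≤ C * Real.exp (-w.re) := mul_le_mul_of_nonneg_right h2 (Real.exp_pos _).le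

private theorem PolA_per (n : ℕ) (w : ℂ) : Jw (w + n * (2 * Real.pi * I)) = Jw w := by
  induction n with
  | zero => rw [Nat.cast_zero, zero_mul, add_zero]
  | succ n ih =>
    rw [← ih, ← jw_per (w + n * (2 * Real.pi * I))]
    congr 1
    push_cast
    ring

private theorem PolA_re_mul (e : ℕ) (w : ℂ) : ((e : ℂ) * w).re = e * w.re := by
  rw [← Complex.ofReal_natCast, Complex.re_ofReal_mul]

private theorem PolA_hol {e : ℕ} (he : 0 < e) : DifferentiableOn ℂ (fun w : ℂ => Jw (e * w)) (Hp 0) := by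
  refine jw_hol.comp (f := fun w : ℂ => (e : ℂ) * w) (by fun_prop) ?_
  intro w hw
  exact sc_mem' he hw

private theorem PolA_re {M R : ℕ} (hM : 1 ≤ M) (hR : 1 ≤ R) {w : ℂ × ℂ} (hw : w ∈ Om M R) :
    w.1.re < -1 ∧ w.2.re < -1 ∧ w.2.re ≤ w.1.re := by
  obtain ⟨h1, h2⟩ := hw
  have hM' : (1 : ℝ) ≤ M := by exact_mod_cast hM
  have hR' : (1 : ℝ) ≤ R := by exact_mod_cast hR
  have h3 : w.1.re < -1 := by linarith
  have h4 : (M : ℝ) * w.1.re ≤ w.1.re := by nlinarith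
  exact ⟨h3, by linarith, by linarith⟩

private theorem PolA_mo0 {e M R : ℕ} (he : 0 < e) (hM : 1 ≤ M) (hR : 1 ≤ R) :
    Mo M R (fun w => Jw (e * w.1)) := by
  obtain ⟨C, hC0, hC⟩ := PolA_bd
  have he' : (1 : ℝ) ≤ e := by exact_mod_cast he
  refine ⟨⟨?_, ?_, ?_⟩, C, e, fun w hw => ?_⟩
  · refine (PolA_hol he).comp (f := fun w : ℂ × ℂ => w.1) (by fun_prop) ?_
    intro w hw
    change w.1.re < -((0 : ℕ) : ℝ)
    rw [Nat.cast_zero, neg_zero]
    linarith [(PolA_re hM hR hw).1]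
  · intro w _
    change Jw (e * (w.1 + 2 * Real.pi * I)) = Jw (e * w.1)
    rw [mul_add, PolA_per]
  · intro w _
    rfl
  · obtain ⟨h1, h2, h3⟩ := PolA_re hM hR hw
    refine (hC _ ?_).trans ?_
    · rw [PolA_re_mul]
      nlinarith
    · rw [PolA_re_mul]
      refine mul_le_mul_of_nonneg_left (Real.exp_le_exp.mpr ?_) hC0
      nlinarith

private theorem PolA_mo1 {e M R : ℕ} (he : 0 < e) (hM : 1 ≤ M) (hR : 1 ≤ R) :
    Mo M R (fun w => Jw (e * w.2)) := by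
  obtain ⟨C, hC0, hC⟩ := PolA_bd
  have he' : (1 : ℝ) ≤ e := by exact_mod_cast he
  refine ⟨⟨?_, ?_, ?_⟩, C, e, fun w hw => ?_⟩
  · refine (PolA_hol he).comp (f := fun w : ℂ × ℂ => w.2) (by fun_prop) ?_
    intro w hw
    change w.2.re < -((0 : ℕ) : ℝ)
    rw [Nat.cast_zero, neg_zero]
    linarith [(PolA_re hM hR hw).2.1]
  · intro w _
    rfl
  · intro w _
    change Jw (e * (w.2 + 2 * Real.pi * I)) = Jw (e * w.2)
    rw [mul_add, PolA_per]
  · obtain ⟨h1, h2, h3⟩ := PolA_re hM hR hw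
    refine (hC _ ?_).trans ?_
    · rw [PolA_re_mul]
      nlinarith
    · rw [PolA_re_mul]

theorem pol_mo {e M R : ℕ} (he : 0 < e) (hM : 1 ≤ M) (hR : 1 ≤ R) (G : MvPolynomial (Fin 2) ℂ) :
    Mo M R (fun w => MvPolynomial.eval (jj e w) G) := by
  induction G using MvPolynomial.induction_on with
  | C a =>
    refine (mo_const a).ext fun w _ => ?_
    rw [MvPolynomial.eval_C]
  | add p q hp hq =>
    refine (hp.add hq).ext fun w _ => ?_
    rw [map_add]
  | mul_X p n hp =>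
    have h1 : Mo M R (fun w => jj e w n) := by
      fin_cases n
      · exact PolA_mo0 he hM hR
      · exact PolA_mo1 he hM hR
    refine (hp.mul h1).ext fun w _ => ?_
    rw [map_mul, MvPolynomial.eval_X]

/-- `j` takes infinitely many values near the cusp -/
private theorem PolA_inf {e : ℕ} (he : 0 < e) (R : ℕ) :
    (Set.Infinite ((fun t : ℂ => Jw (e * t)) '' Hp R)) := by
  intro hfin
  obtain ⟨B, hB⟩ := hfin.isBounded.exists_norm_le
  obtain ⟨R₁, hR₁⟩ := jw_asy (1 / 2) (by norm_num)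
  obtain ⟨R₂, hR₂⟩ := exists_nat_gt (|2 * B| + 1)
  have he' : (1 : ℝ) ≤ e := by exact_mod_cast he
  set x : ℝ := -((R : ℝ) + R₁ + R₂ + 1) with hx
  have hR0 : (0 : ℝ) ≤ R := Nat.cast_nonneg _
  have hR10 : (0 : ℝ) ≤ R₁ := Nat.cast_nonneg _
  have hR20 : (0 : ℝ) ≤ R₂ := Nat.cast_nonneg _
  have h1 : ((x : ℂ)) ∈ Hp R := by
    change ((x : ℂ)).re < -(R : ℝ)
    rw [Complex.ofReal_re]
    linarith
  have h2 : (e : ℂ) * (x : ℂ) ∈ Hp R₁ := by
    refine sc_mem' he ?_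
    change ((x : ℂ)).re < -(R₁ : ℝ)
    rw [Complex.ofReal_re]
    linarith
  have h3 := hR₁ _ h2
  have h4 : ‖Jw ((e : ℂ) * (x : ℂ))‖ ≤ B := hB _ (Set.mem_image_of_mem _ h1)
  have h5 : ‖exp ((e : ℂ) * (x : ℂ)) * Jw ((e : ℂ) * (x : ℂ))‖ ≤ 1 / 2 := by
    have h6 : ‖exp ((e : ℂ) * (x : ℂ))‖ = Real.exp (e * x) := by
      rw [Complex.norm_exp, PolA_re_mul, Complex.ofReal_re]
    rw [norm_mul, h6]
    have h7 : Real.exp ((e : ℝ) * x) ≤ Real.exp x := Real.exp_le_exp.mpr (by nlinarith)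
    have h8 : (|2 * B| + 1) * Real.exp x ≤ 1 := by
      have h9 : |2 * B| + 1 ≤ Real.exp (-x) := by
        have := Real.add_one_le_exp (-x)
        linarith
      calc (|2 * B| + 1) * Real.exp x ≤ Real.exp (-x) * Real.exp x :=
            mul_le_mul_of_nonneg_right h9 (Real.exp_pos _).le
        _ = 1 := by rw [← Real.exp_add, neg_add_cancel, Real.exp_zero]
    have h10 := abs_nonneg (2 * B)
    have h11 := le_abs_self (2 * B)
    have h12 := Real.exp_pos x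
    have h13 : 0 ≤ B := (norm_nonneg _).trans h4
    calc Real.exp (e * x) * ‖Jw ((e : ℂ) * (x : ℂ))‖ ≤ Real.exp x * B :=
          mul_le_mul h7 h4 (norm_nonneg _) h12.le
      _ ≤ 1 / 2 := by nlinarith
  have h6 : ‖(1 : ℂ)‖ ≤ ‖exp ((e : ℂ) * (x : ℂ)) * Jw ((e : ℂ) * (x : ℂ))‖ +
      ‖exp ((e : ℂ) * (x : ℂ)) * Jw ((e : ℂ) * (x : ℂ)) - 1‖ := by
    have := norm_sub_le (exp ((e : ℂ) * (x : ℂ)) * Jw ((e : ℂ) * (x : ℂ)))
      (exp ((e : ℂ) * (x : ℂ)) * Jw ((e : ℂ) * (x : ℂ)) - 1)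
    rwa [sub_sub_cancel] at this
  rw [norm_one] at h6
  linarith

theorem pol_ind {e M R : ℕ} (he : 0 < e) {G : MvPolynomial (Fin 2) ℂ}
    (h : ∀ w ∈ Om M R, MvPolynomial.eval (jj e w) G = 0) : G = 0 := by
  classical
  obtain ⟨S₀, hS₀, hc₀⟩ := (PolA_inf he R).exists_subset_card_eq (G.degreeOf 0 + 1)
  have h1 : ∀ x : S₀, ∃ t ∈ Hp R, Jw (e * t) = x := fun x => hS₀ x.2
  choose t ht htx using h1
  obtain ⟨B, hB⟩ : ∃ B : ℝ, ∀ x : S₀, |(M : ℝ) * (t x).re| ≤ B := by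
    obtain ⟨B, hB⟩ := (Set.finite_range fun x : S₀ => |(M : ℝ) * (t x).re|).bddAbove
    exact ⟨B, fun x => hB ⟨x, rfl⟩⟩
  obtain ⟨R', hR'⟩ := exists_nat_gt B
  obtain ⟨S₁, hS₁, hc₁⟩ := (PolA_inf he R').exists_subset_card_eq (G.degreeOf 1 + 1)
  refine MvPolynomial.eq_zero_of_eval_zero_at_prod_finset G ![S₀, S₁] ?_ ?_
  · intro i
    fin_cases i
    · change G.degreeOf 0 < S₀.card
      omega
    · change G.degreeOf 1 < S₁.card
      omega
  · intro x hx
    have hx0 : x 0 ∈ S₀ := hx 0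
    have hx1 : x 1 ∈ S₁ := hx 1
    obtain ⟨s, hs, hsx⟩ := hS₁ hx1
    have h2 : (t ⟨x 0, hx0⟩, s) ∈ Om M R := by
      refine ⟨ht _, ?_⟩
      have hs' : s.re < -(R' : ℝ) := hs
      have h3 := hB ⟨x 0, hx0⟩
      have h4 := neg_abs_le ((M : ℝ) * (t ⟨x 0, hx0⟩).re)
      change s.re < M * (t ⟨x 0, hx0⟩).re
      linarith
    have h3 := h _ h2
    have h4 : jj e (t ⟨x 0, hx0⟩, s) = x := by
      funext i
      fin_cases i
      · exact htx ⟨x 0, hx0⟩
      · exact hsx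
    rwa [h4] at h3

theorem pol_ind1 {e R : ℕ} (he : 0 < e) {G : Polynomial ℂ} (h : ∀ t ∈ Hp R, G.eval (Jw (e * t)) = 0) : G = 0 := by
  refine Polynomial.eq_zero_of_infinite_isRoot G ((PolA_inf he R).mono ?_)
  rintro _ ⟨t, ht, rfl⟩
  exact h t ht

end Pool.Agent.LGO.FC
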