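import Mathlib

/-!
# LGO/FC: holomorphic roots on a convex open subset of `ℂ × ℂ`

`q w`, `w ∈ Ω`, polynomials of degree `d` with holomorphic coefficients, without multiple roots.  Then there are `d`
holomorphic root functions on `Ω`.  (Model, in one variable: `LGO/AX/ChS.lean`, `exists_loc`, `exists_sec`.)

`root_loc`: local root near `(w₀, t₀)`.  The universal polynomial `f (c, t) = ∑ m, c m * t ^ m` on `(Fin (d + 1) → ℂ) × ℂ` is
continuously differentiable, `∂f/∂t ≠ 0` at `(c(w₀), t₀)`; the implicit function theorem (`HasStrictFDerivAt.implicitFunction`,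
`ImplicitFunctionData`, or the inverse function theorem for `(c, t) ↦ (c, f (c, t))`, `ContDiffAt.to_localInverse`,
`HasStrictFDerivAt.toOpenPartialHomeomorph`) gives a `C¹` function `Y(c)` near `c(w₀)` with `f (c, Y c) = 0`, `Y (c(w₀)) = t₀`, the only
root near `t₀`; put `y w = Y (c (w))`.  (Alternatively: a continuous root `y` of a separable polynomial is holomorphic,
`y(w) = y₀ - (f(w, y₀) - f(w₀, y₀)) / Q(w, y(w))`, `Q(w, t) = (f(w, t) - f(w, y₀)) / (t - y₀)` a polynomial in `t`, `Q(w₀, y₀) ≠ 0`.)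

`roots_hol`: `E = {(w, t) | w ∈ Ω, (q w).eval t = 0}` as a subtype of `Ω × ℂ`, `π : E → ℂ × ℂ` is a covering on `Ω` with fibre `Fin d`: near
`w₀` the `d` distinct roots continue to `d` holomorphic roots (`root_loc`), distinct on a small ball, so they are all
the roots (`card_roots`).  `Ω` (as a subtype) is simply connected and locally path connected, so
`IsCoveringMapOn.existsUnique_continuousMap_lifts` gives `d` continuous sections, different everywhere, holomorphic by `root_loc`.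
A separable polynomial over `ℂ` of degree `d` with the `d` distinct roots `ρ i` is `C (leadingCoeff) * ∏ (X - C (ρ i))`
(`Polynomial.C_leadingCoeff_mul_prod_multiset_X_sub_C`).

`one_of`: `σ` continuous with `σ w ∈ {ρ i w}`: the sets `{w ∈ Ω | σ w = ρ i w}` are closed in `Ω`, disjoint and cover `Ω`, finitely
many, so they are open in `Ω`, and `Ω` is connected.
-/

namespace Pool.Agent.LGO.FC

open Metric

/-- the universal polynomial -/
private noncomputable def RL_f (d : ℕ) (p : (Fin (d + 1) → ℂ) × ℂ) : ℂ := ∑ m : Fin (d + 1), p.1 m * p.2 ^ (m : ℕ)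

private theorem RL_contDiff (d : ℕ) : ContDiff ℂ 1 (RL_f d) := by
  unfold RL_f
  fun_prop

private theorem RL_f_eq {d : ℕ} {q : Polynomial ℂ} (hd : q.natDegree = d) (t : ℂ) :
    RL_f d (fun m => q.coeff m, t) = q.eval t := by
  rw [Polynomial.eval_eq_sum_range, hd]
  unfold RL_f
  rw [Fin.sum_univ_eq_sum_range (fun m => q.coeff m * t ^ m) (d + 1)]

private theorem RL_inv {d : ℕ} {q : Polynomial ℂ} (hd : q.natDegree = d) {t : ℂ}
    (h1 : (Polynomial.derivative q).eval t ≠ 0) :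
    (fderiv ℂ (RL_f d) (fun m => q.coeff m, t) ∘L .inr ℂ (Fin (d + 1) → ℂ) ℂ).IsInvertible := by
  set c : Fin (d + 1) → ℂ := fun m => q.coeff m with hc
  have hf : HasFDerivAt (RL_f d) (fderiv ℂ (RL_f d) (c, t)) (c, t) :=
    ((RL_contDiff d).differentiable one_ne_zero (c, t)).hasFDerivAt
  have hp : HasDerivAt (fun s : ℂ => ((c, s) : (Fin (d + 1) → ℂ) × ℂ)) (0, 1) t :=
    (hasDerivAt_const t c).prodMk (hasDerivAt_id t)
  have h2 : HasDerivAt (fun s : ℂ => RL_f d (c, s)) (fderiv ℂ (RL_f d) (c, t) (0, 1)) t :=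
    hf.comp_hasDerivAt t hp
  have h3 : (fun s : ℂ => RL_f d (c, s)) = fun s => q.eval s := by
    funext s
    exact RL_f_eq hd s
  rw [h3] at h2
  have h4 := h2.unique (q.hasDerivAt t)
  refine ⟨ContinuousLinearEquiv.unitsEquivAut ℂ (Units.mk0 _ h1), ?_⟩
  ext
  simp [← h4]

theorem root_loc {Ω : Set (ℂ × ℂ)} (ho : IsOpen Ω) {d : ℕ} {q : ℂ × ℂ → Polynomial ℂ}
    (hq : ∀ m, DifferentiableOn ℂ (fun w => (q w).coeff m) Ω) (hd : ∀ w ∈ Ω, (q w).natDegree = d)
    {w₀ : ℂ × ℂ} (hw : w₀ ∈ Ω) {t₀ : ℂ} (h0 : (q w₀).eval t₀ = 0)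
    (h1 : (Polynomial.derivative (q w₀)).eval t₀ ≠ 0) :
    ∃ (δ ε : ℝ) (y : ℂ × ℂ → ℂ), 0 < δ ∧ 0 < ε ∧ ball w₀ δ ⊆ Ω ∧ DifferentiableOn ℂ y (ball w₀ δ) ∧ y w₀ = t₀ ∧
      ∀ w ∈ ball w₀ δ, (q w).eval (y w) = 0 ∧ ∀ t ∈ ball t₀ ε, (q w).eval t = 0 → t = y w := by
  classical
  set c : ℂ × ℂ → Fin (d + 1) → ℂ := fun w m => (q w).coeff m with hc
  have hcd : ∀ w ∈ Ω, DifferentiableAt ℂ c w := fun w hw =>
    differentiableAt_pi.mpr fun m => (hq m w hw).differentiableAt (ho.mem_nhds hw)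
  have hcc : ContinuousAt c w₀ := (hcd w₀ hw).continuousAt
  have hu := (RL_contDiff d).contDiffAt (x := (c w₀, t₀))
  have hi : (fderiv ℂ (RL_f d) (c w₀, t₀) ∘L .inr ℂ (Fin (d + 1) → ℂ) ℂ).IsInvertible := RL_inv (hd w₀ hw) h1
  set Y := hu.implicitFunction one_ne_zero hi with hY
  have hY0 : Y (c w₀) = t₀ := hu.implicitFunction_apply_self one_ne_zero hi
  have hf0 : RL_f d (c w₀, t₀) = 0 := by rw [RL_f_eq (hd w₀ hw), h0]
  have e1 : ∀ᶠ x in nhds (c w₀), DifferentiableAt ℂ Y x := by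
    have := (hu.contDiffAt_implicitFunction one_ne_zero hi).eventually (by simp)
    exact this.mono fun x hx => hx.differentiableAt one_ne_zero
  have e2 : ∀ᶠ x in nhds (c w₀), RL_f d (x, Y x) = 0 := by
    have := hu.eventually_apply_implicitFunction one_ne_zero hi
    exact this.mono fun x hx => hx.trans hf0
  have e3 : ∀ᶠ v in nhds (c w₀, t₀), RL_f d v = 0 → Y v.1 = v.2 := by
    have := hu.eventually_apply_eq_iff_implicitFunction one_ne_zero hi
    exact this.mono fun x hx h => hx.mp (h.trans hf0.symm)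
  have g3 : ∀ᶠ v in nhds (w₀, t₀), RL_f d (c v.1, v.2) = 0 → Y (c v.1) = v.2 := by
    have : ContinuousAt (fun v : (ℂ × ℂ) × ℂ => (c v.1, v.2)) (w₀, t₀) :=
      (hcc.comp (f := fun v : (ℂ × ℂ) × ℂ => v.1) (x := (w₀, t₀)) continuousAt_fst).prodMk continuousAt_snd
    exact this.eventually e3
  have g0 : ∀ᶠ w in nhds w₀, w ∈ Ω := ho.mem_nhds hw
  have g : ∀ᶠ w in nhds w₀, w ∈ Ω ∧ DifferentiableAt ℂ Y (c w) ∧ RL_f d (c w, Y (c w)) = 0 :=
    g0.and ((hcc.eventually e1).and (hcc.eventually e2))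
  obtain ⟨δ₁, hδ₁, H1⟩ := Metric.eventually_nhds_iff_ball.mp g
  obtain ⟨ε, hε, H3⟩ := Metric.eventually_nhds_iff_ball.mp g3
  refine ⟨min δ₁ ε, ε, fun w => Y (c w), lt_min hδ₁ hε, hε, ?_, ?_, hY0, ?_⟩
  · intro w hw'
    exact (H1 w (ball_subset_ball (min_le_left _ _) hw')).1
  · intro w hw'
    have h := H1 w (ball_subset_ball (min_le_left _ _) hw')
    exact (h.2.1.comp w (hcd w h.1)).differentiableWithinAt
  · intro w hw'
    have h := H1 w (ball_subset_ball (min_le_left _ _) hw')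
    refine ⟨?_, ?_⟩
    · rw [← RL_f_eq (hd w h.1)]
      exact h.2.2
    · intro t ht h5
      have h6 : (w, t) ∈ ball (w₀, t₀) ε := by
        rw [← ball_prod_same]
        exact ⟨ball_subset_ball (min_le_right _ _) hw', ht⟩
      refine (H3 (w, t) h6 ?_).symm
      change RL_f d (c w, t) = 0
      rw [hc, RL_f_eq (hd w h.1), h5]

private theorem RL_cont {X : Type*} [TopologicalSpace X] {d : ℕ} {g : X → ℂ} {u : Fin d → X → ℂ}
    (hg : Continuous g) (hu : ∀ k, Continuous (u k)) {κ : X → Fin d} (hκ : ∀ x, g x = u (κ x) x)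
    (hinj : ∀ x, Function.Injective fun k => u k x) : Continuous κ := by
  rw [continuous_discrete_rng]
  intro k
  have h1 : κ ⁻¹' {k} = ⋂ l : {l : Fin d // l ≠ k}, {x | g x ≠ u l x} := by
    ext x
    simp only [Set.mem_preimage, Set.mem_singleton_iff, Set.mem_iInter]
    constructor
    · intro h l hl
      apply l.2
      have h2 : u (κ x) x = u l x := (hκ x).symm.trans hl
      exact (hinj x h2).symm.trans h
    · intro h
      by_contra hne
      exact h ⟨κ x, hne⟩ (hκ x)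
  rw [h1]
  exact isOpen_iInter_of_finite fun l => isOpen_ne_fun hg (hu l)


/-- one of finitely many functions -/
theorem one_of {E : Type*} [TopologicalSpace E] {Ω : Set E} (hc : IsPreconnected Ω) (hne : Ω.Nonempty) {d : ℕ}
    {ρ : Fin d → E → ℂ} (hρ : ∀ i, ContinuousOn (ρ i) Ω) (hinj : ∀ w ∈ Ω, Function.Injective fun i => ρ i w)
    {σ : E → ℂ} (hσ : ContinuousOn σ Ω) (h : ∀ w ∈ Ω, ∃ i, σ w = ρ i w) : ∃ i, ∀ w ∈ Ω, σ w = ρ i w := by
  have : PreconnectedSpace Ω := isPreconnected_iff_preconnectedSpace.mp hc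
  have hκ : ∀ w : Ω, ∃ k, σ w = ρ k w := fun w => h w w.2
  choose κ hκ using hκ
  have hκc : Continuous κ := by
    refine RL_cont (g := fun w : Ω => σ w) (u := fun k w => ρ k w) ?_ (fun k => ?_) hκ
      fun w => hinj w w.2
    · exact hσ.comp_continuous continuous_subtype_val fun w => w.2
    · exact (hρ k).comp_continuous continuous_subtype_val fun w => w.2
  obtain ⟨w₁, hw₁⟩ := hne
  refine ⟨κ ⟨w₁, hw₁⟩, fun w hw => ?_⟩
  have h1 : κ ⟨w, hw⟩ = κ ⟨w₁, hw₁⟩ := PreconnectedSpace.constant inferInstance hκc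
  rw [← h1]
  exact hκ ⟨w, hw⟩


private theorem RL_card {d : ℕ} {q : Polynomial ℂ} (hd : q.natDegree = d) (hs : q.Separable) :
    q.roots.toFinset.card = d := by
  classical
  rw [Multiset.toFinset_card_of_nodup (Polynomial.nodup_roots hs), ← (IsAlgClosed.splits q).natDegree_eq_card_roots, hd]

private theorem RL_all {d : ℕ} {q : Polynomial ℂ} (hd : q.natDegree = d) (hs : q.Separable) {y : Fin d → ℂ}
    (hinj : Function.Injective y) (hmem : ∀ k, q.eval (y k) = 0) :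
    q.roots.toFinset = Finset.univ.image y := by
  classical
  symm
  apply Finset.eq_of_subset_of_card_le
  · intro Z hZ
    obtain ⟨k, -, rfl⟩ := Finset.mem_image.mp hZ
    rw [Multiset.mem_toFinset, Polynomial.mem_roots hs.ne_zero]
    exact hmem k
  · rw [RL_card hd hs, Finset.card_image_of_injective _ hinj, Finset.card_univ, Fintype.card_fin]

private theorem RL_iff {d : ℕ} {q : Polynomial ℂ} (hd : q.natDegree = d) (hs : q.Separable) {y : Fin d → ℂ}
    (hinj : Function.Injective y) (hmem : ∀ k, q.eval (y k) = 0) (t : ℂ) :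
    q.eval t = 0 ↔ ∃ k, t = y k := by
  classical
  constructor
  · intro h
    have h1 : t ∈ q.roots.toFinset := by
      rw [Multiset.mem_toFinset, Polynomial.mem_roots hs.ne_zero]
      exact h
    rw [RL_all hd hs hinj hmem] at h1
    obtain ⟨k, -, hk⟩ := Finset.mem_image.mp h1
    exact ⟨k, hk.symm⟩
  · rintro ⟨k, rfl⟩
    exact hmem k

private theorem RL_enum {d : ℕ} {q : Polynomial ℂ} (hd : q.natDegree = d) (hs : q.Separable) :
    ∃ y : Fin d → ℂ, Function.Injective y ∧ ∀ k, q.eval (y k) = 0 := by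
  classical
  have e := q.roots.toFinset.equivFinOfCardEq (RL_card hd hs)
  refine ⟨fun k => (e.symm k : ℂ), ?_, ?_⟩
  · intro k l h
    exact e.symm.injective (Subtype.ext h)
  · intro k
    have := Multiset.mem_toFinset.mp (e.symm k).2
    exact (Polynomial.mem_roots hs.ne_zero).mp this

private theorem RL_der {q : Polynomial ℂ} (hs : q.Separable) {t : ℂ} (h : q.eval t = 0) :
    (Polynomial.derivative q).eval t ≠ 0 := by
  have := hs.eval₂_derivative_ne_zero (RingHom.id ℂ) (x := t) (by simpa using h)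
  simpa using this

private theorem RL_loc {Ω : Set (ℂ × ℂ)} (ho : IsOpen Ω) {d : ℕ}
    {q : ℂ × ℂ → Polynomial ℂ} (hq : ∀ m, DifferentiableOn ℂ (fun w => (q w).coeff m) Ω)
    (hd : ∀ w ∈ Ω, (q w).natDegree = d) (hs : ∀ w ∈ Ω, (q w).Separable) {w₀ : ℂ × ℂ} (hw : w₀ ∈ Ω) :
    ∃ r > (0 : ℝ), ball w₀ r ⊆ Ω ∧ ∃ y : Fin d → ℂ × ℂ → ℂ, (∀ k, DifferentiableOn ℂ (y k) (ball w₀ r)) ∧
      (∀ w ∈ ball w₀ r, Function.Injective fun k => y k w) ∧
      ∀ w ∈ ball w₀ r, ∀ t, (q w).eval t = 0 ↔ ∃ k, t = y k w := by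
  obtain ⟨Y, hYinj, hY⟩ := RL_enum (hd w₀ hw) (hs w₀ hw)
  choose δ ε y hδ hε hb hy hv hm using fun k => root_loc ho hq hd hw (hY k) (RL_der (hs w₀ hw) (hY k))
  have hc : ∀ k, ContinuousAt (y k) w₀ := fun k =>
    ((hy k).continuousOn.continuousAt (ball_mem_nhds w₀ (hδ k)))
  have h1 : ∀ᶠ T in nhds w₀, ∀ k, T ∈ ball w₀ (δ k) :=
    Filter.eventually_all.mpr fun k => ball_mem_nhds w₀ (hδ k)
  have h2 : ∀ᶠ T in nhds w₀, ∀ k l, k ≠ l → y k T ≠ y l T := by
    refine Filter.eventually_all.mpr fun k => Filter.eventually_all.mpr fun l => ?_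
    by_cases hkl : k = l
    · exact Filter.Eventually.of_forall fun T h => absurd hkl h
    · have h3 : ContinuousAt (fun T => y k T - y l T) w₀ := (hc k).sub (hc l)
      have h4 : y k w₀ - y l w₀ ≠ 0 := by
        rw [hv, hv, sub_ne_zero]
        exact fun h => hkl (hYinj h)
      filter_upwards [h3.eventually_ne h4] with T hT _
      exact sub_ne_zero.mp hT
  have h3 : ∀ᶠ T in nhds w₀, T ∈ Ω := ho.mem_nhds hw
  obtain ⟨r, hr, hbb⟩ := Metric.eventually_nhds_iff_ball.mp (h1.and (h2.and h3))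
  have hinj : ∀ w ∈ ball w₀ r, Function.Injective fun k => y k w := by
    intro T hT k l hkl
    by_contra hne
    exact (hbb T hT).2.1 k l hne hkl
  refine ⟨r, hr, fun w hw => (hbb w hw).2.2, y, ?_, hinj, ?_⟩
  · intro k
    exact (hy k).mono fun T hT => (hbb T hT).1 k
  · intro w hw' t
    have hΩ := (hbb w hw').2.2
    refine RL_iff (hd w hΩ) (hs w hΩ) (y := fun k => y k w) (hinj w hw') ?_ t
    intro k
    exact (hm k w ((hbb w hw').1 k)).1

private theorem RL_even {Ω : Set (ℂ × ℂ)} (ho : IsOpen Ω) {d : ℕ}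
    {q : ℂ × ℂ → Polynomial ℂ} (hq : ∀ m, DifferentiableOn ℂ (fun w => (q w).coeff m) Ω)
    (hd : ∀ w ∈ Ω, (q w).natDegree = d) (hs : ∀ w ∈ Ω, (q w).Separable) {w₀ : ℂ × ℂ} (hw : w₀ ∈ Ω) :
    IsEvenlyCovered (fun p : {x : (ℂ × ℂ) × ℂ | x.1 ∈ Ω ∧ (q x.1).eval x.2 = 0} => p.1.1) w₀ (Fin d) := by
  obtain ⟨ρ, hρ, hsub, y, ya, yi, ym⟩ := RL_loc ho hq hd hs hw
  have hpc : Continuous (fun p : {x : (ℂ × ℂ) × ℂ | x.1 ∈ Ω ∧ (q x.1).eval x.2 = 0} => p.1.1) := by fun_prop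
  refine ⟨inferInstance, ball w₀ ρ, mem_ball_self hρ, isOpen_ball, isOpen_ball.preimage hpc, ?_⟩
  have hκ : ∀ p : (fun p : {x : (ℂ × ℂ) × ℂ | x.1 ∈ Ω ∧ (q x.1).eval x.2 = 0} => p.1.1) ⁻¹' (ball w₀ ρ),
      ∃ k, p.1.1.2 = y k p.1.1.1 := by
    intro p
    exact (ym p.1.1.1 p.2 p.1.1.2).mp p.1.2.2
  choose κ hκ using hκ
  have hyc : ∀ k, Continuous fun T : ball w₀ ρ => y k T := fun k =>
    ((ya k).continuousOn).comp_continuous continuous_subtype_val fun T => T.2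
  have hκc : Continuous κ := by
    refine RL_cont (g := fun p : (fun p : {x : (ℂ × ℂ) × ℂ | x.1 ∈ Ω ∧ (q x.1).eval x.2 = 0} => p.1.1) ⁻¹'
        (ball w₀ ρ) => p.1.1.2)
      (u := fun k p => y k p.1.1.1) (by fun_prop) (fun k => ?_) hκ fun p => yi _ p.2
    exact (hyc k).comp (f := fun p : (fun p : {x : (ℂ × ℂ) × ℂ | x.1 ∈ Ω ∧ (q x.1).eval x.2 = 0} => p.1.1) ⁻¹'
        (ball w₀ ρ) => (⟨p.1.1.1, p.2⟩ : ball w₀ ρ))
      (by fun_prop)
  refine ⟨{ toFun := fun p => (⟨p.1.1.1, p.2⟩, κ p)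
            invFun := fun x => ⟨⟨(x.1.1, y x.2 x.1.1), ⟨hsub x.1.2, (ym x.1.1 x.1.2 _).mpr ⟨x.2, rfl⟩⟩⟩, x.1.2⟩
            left_inv := ?_
            right_inv := ?_
            continuous_toFun := ?_
            continuous_invFun := ?_ }, ?_⟩
  · intro p
    apply Subtype.ext
    apply Subtype.ext
    exact Prod.ext rfl (hκ p).symm
  · intro x
    refine Prod.ext rfl ?_
    have h := hκ ⟨⟨(x.1.1, y x.2 x.1.1), ⟨hsub x.1.2, (ym x.1.1 x.1.2 _).mpr ⟨x.2, rfl⟩⟩⟩, x.1.2⟩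
    exact (yi _ x.1.2 h).symm
  · exact Continuous.prodMk (by fun_prop) hκc
  · refine Continuous.subtype_mk (Continuous.subtype_mk (Continuous.prodMk (by fun_prop) ?_) _) _
    exact continuous_prod_of_discrete_right.mpr fun k => hyc k
  · intro p
    rfl

theorem roots_hol {Ω : Set (ℂ × ℂ)} (ho : IsOpen Ω) (hc : Convex ℝ Ω) (hne : Ω.Nonempty) {d : ℕ}
    {q : ℂ × ℂ → Polynomial ℂ} (hq : ∀ m, DifferentiableOn ℂ (fun w => (q w).coeff m) Ω)
    (hd : ∀ w ∈ Ω, (q w).natDegree = d) (hs : ∀ w ∈ Ω, (q w).Separable) :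
    ∃ ρ : Fin d → ℂ × ℂ → ℂ, (∀ i, DifferentiableOn ℂ (ρ i) Ω) ∧
      (∀ w ∈ Ω, Function.Injective fun i => ρ i w) ∧
      ∀ w ∈ Ω, q w = Polynomial.C (q w).leadingCoeff * ∏ i, (Polynomial.X - Polynomial.C (ρ i w)) := by
  classical
  obtain ⟨w₀, hw₀⟩ := hne
  have : ContractibleSpace Ω := hc.contractibleSpace ⟨w₀, hw₀⟩
  have : SimplyConnectedSpace Ω := SimplyConnectedSpace.ofContractible Ω
  have : LocallyPathConnectedSpace Ω := ho.locallyPathConnectedSpace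
  obtain ⟨Y, hYinj, hY⟩ := RL_enum (hd w₀ hw₀) (hs w₀ hw₀)
  have hcov : IsCoveringMapOn (fun p : {x : (ℂ × ℂ) × ℂ | x.1 ∈ Ω ∧ (q x.1).eval x.2 = 0} => p.1.1) Ω :=
    fun _ hT => (RL_even ho hq hd hs hT).to_isEvenlyCovered_preimage
  have hTc : Continuous fun w : Ω => (w : ℂ × ℂ) := continuous_subtype_val
  have hlift : ∀ (a : Ω) (e : {x : (ℂ × ℂ) × ℂ | x.1 ∈ Ω ∧ (q x.1).eval x.2 = 0}), e.1.1 = a →
      ∃! F : C(Ω, {x : (ℂ × ℂ) × ℂ | x.1 ∈ Ω ∧ (q x.1).eval x.2 = 0}), F a = e ∧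
      (fun p : {x : (ℂ × ℂ) × ℂ | x.1 ∈ Ω ∧ (q x.1).eval x.2 = 0} => p.1.1) ∘ F =
        (⟨fun w : Ω => (w : ℂ × ℂ), hTc⟩ : C(Ω, ℂ × ℂ)) := fun a e he =>
    hcov.existsUnique_continuousMap_lifts (⟨fun w : Ω => (w : ℂ × ℂ), hTc⟩ : C(Ω, ℂ × ℂ)) he fun w => w.2
  choose F hF using fun k => (hlift ⟨w₀, hw₀⟩ ⟨(w₀, Y k), hw₀, hY k⟩ rfl).exists
  have hF1 : ∀ k (w : Ω), (F k w).1.1 = w := fun k w => congrFun (hF k).2 w
  obtain ⟨y, hy⟩ : ∃ y : Fin d → ℂ × ℂ → ℂ, ∀ k (w : Ω), y k w = (F k w).1.2 :=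
    ⟨fun k w => if h : w ∈ Ω then (F k ⟨w, h⟩).1.2 else 0, fun k w => by simp⟩
  have hpt : ∀ k, ∀ w ∈ Ω, (q w).eval (y k w) = 0 := by
    intro k w hw
    have h := (F k ⟨w, hw⟩).2.2
    rw [hF1 k ⟨w, hw⟩, ← hy k ⟨w, hw⟩] at h
    exact h
  have hinj : ∀ w ∈ Ω, Function.Injective fun k => y k w := by
    intro w hw k l hkl
    have h1 : F k ⟨w, hw⟩ = F l ⟨w, hw⟩ := by
      apply Subtype.ext
      refine Prod.ext ?_ ?_
      · rw [hF1, hF1]
      · rw [← hy, ← hy]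
        exact hkl
    have h2 : F k = F l := (hlift ⟨w, hw⟩ (F l ⟨w, hw⟩) (hF1 l _)).unique ⟨h1, (hF k).2⟩ ⟨rfl, (hF l).2⟩
    have h3 : (w₀, Y k) = (w₀, Y l) := by
      have h4 := congrArg (fun p : {x : (ℂ × ℂ) × ℂ | x.1 ∈ Ω ∧ (q x.1).eval x.2 = 0} => p.1) (hF k).1
      have h5 := congrArg (fun p : {x : (ℂ × ℂ) × ℂ | x.1 ∈ Ω ∧ (q x.1).eval x.2 = 0} => p.1) (hF l).1
      rw [h2] at h4
      exact h4.symm.trans h5
    exact hYinj (congrArg (fun p : (ℂ × ℂ) × ℂ => p.2) h3)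
  refine ⟨y, ?_, hinj, ?_⟩
  · intro k
    have hyc : ContinuousOn (y k) Ω := by
      rw [continuousOn_iff_continuous_domRestrict]
      have h : Ω.domRestrict (y k) = fun w : Ω => (F k w).1.2 := by
        funext w
        exact hy k w
      rw [h]
      fun_prop
    intro w hw
    have hwn : Ω ∈ nhds w := ho.mem_nhds hw
    obtain ⟨ρ, σ, s, hρ, hσ, -, hsd, hs0, hs1⟩ := root_loc ho hq hd hw (hpt k w hw) (RL_der (hs w hw) (hpt k w hw))
    have h1 : ∀ᶠ v in nhds w, v ∈ ball w ρ := ball_mem_nhds _ hρ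
    have h2 : ∀ᶠ v in nhds w, y k v ∈ ball (y k w) σ :=
      (hyc.continuousAt hwn) (ball_mem_nhds _ hσ)
    have h3 : y k =ᶠ[nhds w] s := by
      filter_upwards [h1, h2, hwn] with v hv1 hv2 hv3
      exact (hs1 v hv1).2 (y k v) hv2 (hpt k v hv3)
    have h4 : DifferentiableAt ℂ s w := hsd.differentiableAt (ball_mem_nhds _ hρ)
    exact (h4.congr_of_eventuallyEq h3).differentiableWithinAt
  · intro w hw
    have h1 := RL_all (hd w hw) (hs w hw) (y := fun k => y k w) (hinj w hw) fun k => hpt k w hw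
    have h2 : (q w).roots = Finset.univ.val.map fun k => y k w := by
      have h3 : (q w).roots.toFinset.val = (q w).roots := by
        rw [Multiset.toFinset_val, Multiset.dedup_eq_self]
        exact Polynomial.nodup_roots (hs w hw)
      rw [← h3, h1, Finset.image_val_of_injOn]
      exact (hinj w hw).injOn
    have h4 := Polynomial.C_leadingCoeff_mul_prod_multiset_X_sub_C
      (IsAlgClosed.splits (q w)).natDegree_eq_card_roots.symm
    rw [h2, Multiset.map_map] at h4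
    rw [← h4]
    rw [show (Polynomial.C (q w).leadingCoeff * (Multiset.map ((fun a => Polynomial.X - Polynomial.C a) ∘ fun k => y k w)
      Finset.univ.val).prod) = q w from h4]
    exact h4.symm

end Pool.Agent.LGO.FC
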