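import Mathlib
import Pool.Agent.LGO.FC.ExpA

/-!
# LGO/FC: the leading term at the corner

`str`: `F ≠ 0` periodic of moderate growth: `F w = exp (a w₀ + b w₁) (p + o(1))` with `a, b ∈ ℤ`, `p ≠ 0`.

Proof.  `F₁ = exp (B w₁) F` is bounded (`Mo.bo`).  By `exp_step` and `exp_inf` there is `j` with
`F₁ = z ^ j F_j`, `z = exp (w₁ - M w₀)`, `F_j = G (w₀) + z F_(j+1)`, `G ≠ 0` (otherwise `F₁ = z ^ j F_j` with bounded periodic
`F_j` for all `j`, so `F₁ = 0`).  By `one_asy` `exp (-l t) G(t) → p ≠ 0`.  On `Om M' R'` with `M' ≥ M + l + 1`: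
`|z exp (-l w₀)| = exp (Re w₁ - (M + l) Re w₀) ≤ exp (Re w₀) ≤ exp (-R')`, so `exp (-l w₀) F_j(w) → p` at the corner.
`F w = exp (- B w₁) z ^ j F_j = exp ((l - j M) w₀ + (j - B) w₁) (exp (- l w₀) F_j)`.

`str_u`: write `F w = exp (a w₀ + b w₁) U w` with `U w = exp (-(a w₀ + b w₁)) F w`: periodic, holomorphic, bounded near the corner.
`mo_inv`: `1 / F = exp (-(a w₀ + b w₁)) / U`, `U` is bounded away from `0` near the corner; `exp (-(a w₀ + b w₁))` is of moderate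
growth (`|Re w₀| ≤ |Re w₁|` for `M' ≥ 1`).
-/

namespace Pool.Agent.LGO.FC

open Complex

/-- the index of the first nonzero coefficient -/
private theorem StrA_first {M R : ℕ} {F : ℂ × ℂ → ℂ} (hF : Bo M R F) (hne : ∃ w ∈ Om M R, F w ≠ 0) :
    ∃ (j : ℕ) (H F' : ℂ × ℂ → ℂ) (G : ℂ → ℂ), Bo M R F' ∧ Bo1 R G ∧ (∃ t ∈ Hp R, G t ≠ 0) ∧
      (∀ w ∈ Om M R, F w = exp (w.2 - M * w.1) ^ j * H w) ∧
      ∀ w ∈ Om M R, H w = G w.1 + exp (w.2 - M * w.1) * F' w := by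
  by_contra hcon
  have key : ∀ j : ℕ, ∃ F' : ℂ × ℂ → ℂ, Bo M R F' ∧
      ∀ w ∈ Om M R, F w = exp (w.2 - M * w.1) ^ j * F' w := by
    intro j
    induction j with
    | zero => exact ⟨F, hF, fun w _ => by rw [pow_zero, one_mul]⟩
    | succ j ih =>
      obtain ⟨H, hH, h1⟩ := ih
      obtain ⟨G, F', hG, hF', h2⟩ := exp_step hH
      have h3 : ∀ t ∈ Hp R, G t = 0 := by
        intro t ht
        by_contra h4
        exact hcon ⟨j, H, F', G, hF', hG, ⟨t, ht, h4⟩, h1, h2⟩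
      refine ⟨F', hF', fun w hw => ?_⟩
      have h5 : w.1 ∈ Hp R := hw.1
      rw [h1 w hw, h2 w hw, h3 _ h5, zero_add, pow_succ, mul_assoc]
  obtain ⟨w, hw, h⟩ := hne
  exact h (exp_inf hF key w hw)

/-- leading term -/
theorem str {M R : ℕ} {F : ℂ × ℂ → ℂ} (hF : Mo M R F) (hne : ∃ w ∈ Om M R, F w ≠ 0) :
    ∃ (a b : ℤ) (p : ℂ), p ≠ 0 ∧ Cz (fun w => exp (-(a * w.1 + b * w.2)) * F w) p := by
  obtain ⟨B, hB⟩ := hF.bo
  obtain ⟨j, H, F', G, hF', hG, hGne, h1, h2⟩ := StrA_first hB (by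
    obtain ⟨w, hw, h⟩ := hne
    exact ⟨w, hw, mul_ne_zero (exp_ne_zero _) h⟩)
  obtain ⟨l, p, hp, hlim⟩ := one_asy hG hGne
  obtain ⟨C, hC⟩ := hF'.bd
  refine ⟨(l : ℤ) - j * M, (j : ℤ) - B, p, hp, ?_⟩
  intro ε hε
  obtain ⟨R1, hR1⟩ := hlim (ε / 2) (by positivity)
  obtain ⟨R2, hR2⟩ : ∃ R2 : ℕ, (|C| + 1) * Real.exp (-(R2 : ℝ)) < ε / 2 := by
    have h3 : Filter.Tendsto (fun n : ℕ => (|C| + 1) * Real.exp (-(n : ℝ))) Filter.atTop (nhds ((|C| + 1) * 0)) :=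
      ((Real.tendsto_exp_atBot.comp Filter.tendsto_neg_atTop_atBot).comp
        tendsto_natCast_atTop_atTop).const_mul _
    rw [mul_zero] at h3
    exact (h3.eventually (gt_mem_nhds (by positivity : (0 : ℝ) < ε / 2))).exists
  refine ⟨M + l + 1, max R (max R1 R2), fun w hw => ?_⟩
  have hwM : w ∈ Om M R := Om_mono (by omega) (le_max_left _ _) hw
  have hwR1 : w.1 ∈ Hp R1 := by
    have h4 := hw.1
    have h5 : (R1 : ℝ) ≤ (max R (max R1 R2) : ℕ) := by exact_mod_cast (le_max_left R1 R2).trans (le_max_right _ _)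
    show w.1.re < -(R1 : ℝ)
    linarith
  have hwR2 : w.1.re < -(R2 : ℝ) := by
    have h4 := hw.1
    have h5 : (R2 : ℝ) ≤ (max R (max R1 R2) : ℕ) := by exact_mod_cast (le_max_right R1 R2).trans (le_max_right _ _)
    linarith
  have e1 : exp (-((((l : ℤ) - j * M : ℤ) : ℂ) * w.1 + (((j : ℤ) - B : ℤ) : ℂ) * w.2)) * F w =
      exp (-(l * w.1)) * G w.1 + exp (w.2 - (M + l) * w.1) * F' w := by
    have h6 : exp (B * w.2) * F w = exp (w.2 - M * w.1) ^ j * (G w.1 + exp (w.2 - M * w.1) * F' w) := by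
      rw [← h2 w hwM]
      exact h1 w hwM
    have h7 : F w = exp (-(B * w.2)) * (exp (w.2 - M * w.1) ^ j * (G w.1 + exp (w.2 - M * w.1) * F' w)) := by
      rw [← h6, ← mul_assoc, ← exp_add, neg_add_cancel, exp_zero, one_mul]
    have h8 : exp (w.2 - (M + l) * w.1) = exp (-(l * w.1)) * exp (w.2 - M * w.1) := by
      rw [← exp_add]
      congr 1
      ring
    have h9 : exp (-((((l : ℤ) - j * M : ℤ) : ℂ) * w.1 + (((j : ℤ) - B : ℤ) : ℂ) * w.2)) *
        (exp (-(B * w.2)) * exp (w.2 - M * w.1) ^ j) = exp (-(l * w.1)) := by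
      rw [← exp_nat_mul, ← exp_add, ← exp_add]
      congr 1
      push_cast
      ring
    rw [h7, h8, ← h9]
    ring
  beta_reduce
  rw [e1]
  have h10 : ‖exp (w.2 - (M + l) * w.1) * F' w‖ < ε / 2 := by
    rw [norm_mul, norm_exp]
    have h11 : (w.2 - ((M : ℂ) + l) * w.1).re ≤ -(R2 : ℝ) := by
      have h12 : (w.2 - ((M : ℂ) + l) * w.1).re = w.2.re - (M + l) * w.1.re := by
        simp
      rw [h12]
      have h13 := hw.2
      push_cast at h13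
      nlinarith
    calc Real.exp (w.2 - ((M : ℂ) + l) * w.1).re * ‖F' w‖
        ≤ Real.exp (-(R2 : ℝ)) * (|C| + 1) := by
          refine mul_le_mul (Real.exp_le_exp.2 h11) ?_ (norm_nonneg _) (Real.exp_nonneg _)
          exact (hC w hwM).trans ((le_abs_self C).trans (by linarith))
      _ < ε / 2 := by rw [mul_comm]; exact hR2
  have h14 := hR1 _ hwR1
  calc ‖exp (-(l * w.1)) * G w.1 + exp (w.2 - (M + l) * w.1) * F' w - p‖
      = ‖(exp (-(l * w.1)) * G w.1 - p) + exp (w.2 - (M + l) * w.1) * F' w‖ := by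
        congr 1
        ring
    _ ≤ ‖exp (-(l * w.1)) * G w.1 - p‖ + ‖exp (w.2 - (M + l) * w.1) * F' w‖ := norm_add_le _ _
    _ < ε := by linarith

private theorem StrA_per (a b : ℤ) (w : ℂ × ℂ) :
    exp (-(a * (w.1 + 2 * Real.pi * I) + b * w.2)) = exp (-(a * w.1 + b * w.2)) ∧
      exp (-(a * w.1 + b * (w.2 + 2 * Real.pi * I))) = exp (-(a * w.1 + b * w.2)) := by
  have h : ∀ n : ℤ, exp (n * (2 * Real.pi * I)) = 1 := fun n => exp_int_mul_two_pi_mul_I n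
  constructor
  · have e : -(a * (w.1 + 2 * Real.pi * I) + b * w.2) = -(a * w.1 + b * w.2) + ((-a : ℤ) : ℂ) * (2 * Real.pi * I) := by
      push_cast
      ring
    rw [e, exp_add, h, mul_one]
  · have e : -(a * w.1 + b * (w.2 + 2 * Real.pi * I)) = -(a * w.1 + b * w.2) + ((-b : ℤ) : ℂ) * (2 * Real.pi * I) := by
      push_cast
      ring
    rw [e, exp_add, h, mul_one]

/-- leading term, with a bounded periodic factor -/
theorem str_u {M R : ℕ} {F : ℂ × ℂ → ℂ} (hF : Mo M R F) (hne : ∃ w ∈ Om M R, F w ≠ 0) :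
    ∃ (a b : ℤ) (p : ℂ) (U : ℂ × ℂ → ℂ) (M' R' : ℕ), p ≠ 0 ∧ M ≤ M' ∧ R ≤ R' ∧ Cz U p ∧ Bo M' R' U ∧
      (∀ w ∈ Om M' R', U w ≠ 0) ∧ ∀ w ∈ Om M' R', F w = exp (a * w.1 + b * w.2) * U w := by
  obtain ⟨a, b, p, hp, hcz⟩ := str hF hne
  have hp' : 0 < ‖p‖ := norm_pos_iff.2 hp
  obtain ⟨M1, R1, h1⟩ := hcz (‖p‖ / 2) (by positivity)
  have hsub1 : Om (max M M1) (max R R1) ⊆ Om M1 R1 := Om_mono (le_max_right _ _) (le_max_right _ _)
  have hsub2 : Om (max M M1) (max R R1) ⊆ Om M R := Om_mono (le_max_left _ _) (le_max_left _ _)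
  refine ⟨a, b, p, fun w => exp (-(a * w.1 + b * w.2)) * F w, max M M1, max R R1, hp, le_max_left _ _,
    le_max_left _ _, hcz, ?_, ?_, ?_⟩
  · refine ⟨⟨?_, fun w hw => ?_, fun w hw => ?_⟩, 2 * ‖p‖, fun w hw => ?_⟩
    · refine DifferentiableOn.mul ?_ (hF.hol.mono hsub2)
      have : Differentiable ℂ (fun w : ℂ × ℂ => exp (-(a * w.1 + b * w.2))) := by fun_prop
      exact this.differentiableOn
    · show exp (-(a * (w.1 + 2 * Real.pi * I) + b * w.2)) * F (w.1 + 2 * Real.pi * I, w.2) = _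
      rw [(StrA_per a b w).1, hF.per1 w (hsub2 hw)]
    · show exp (-(a * w.1 + b * (w.2 + 2 * Real.pi * I))) * F (w.1, w.2 + 2 * Real.pi * I) = _
      rw [(StrA_per a b w).2, hF.per2 w (hsub2 hw)]
    · have h2 := h1 w (hsub1 hw)
      have h3 := norm_sub_norm_le (exp (-(a * w.1 + b * w.2)) * F w) p
      linarith
  · intro w hw h0
    have h2 := h1 w (hsub1 hw)
    have h0' : exp (-(a * w.1 + b * w.2)) * F w = 0 := h0
    simp only [h0', zero_sub, norm_neg] at h2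
    linarith
  · intro w hw
    show F w = exp (a * w.1 + b * w.2) * (exp (-(a * w.1 + b * w.2)) * F w)
    rw [← mul_assoc, ← exp_add, add_neg_cancel, exp_zero, one_mul]

/-- `1 / F` is of moderate growth near the corner -/
theorem mo_inv {M R : ℕ} {F : ℂ × ℂ → ℂ} (hF : Mo M R F) (hne : ∃ w ∈ Om M R, F w ≠ 0) :
    ∃ M' R' : ℕ, M ≤ M' ∧ R ≤ R' ∧ Mo M' R' (fun w => (F w)⁻¹) ∧ ∀ w ∈ Om M' R', F w ≠ 0 := by
  obtain ⟨a, b, p, U, M1, R1, hp, hM1, hR1, hcz, hU, hU0, hFU⟩ := str_u hF hne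
  have hp' : 0 < ‖p‖ := norm_pos_iff.2 hp
  obtain ⟨M2, R2, h2⟩ := hcz (‖p‖ / 2) (by positivity)
  have hs1 : Om (max M1 M2 + 1) (max R1 R2) ⊆ Om M1 R1 :=
    Om_mono ((le_max_left _ _).trans (Nat.le_succ _)) (le_max_left _ _)
  have hs2 : Om (max M1 M2 + 1) (max R1 R2) ⊆ Om M2 R2 :=
    Om_mono ((le_max_right _ _).trans (Nat.le_succ _)) (le_max_right _ _)
  have hs0 : Om (max M1 M2 + 1) (max R1 R2) ⊆ Om M R := hs1.trans (Om_mono hM1 hR1)
  have hF0 : ∀ w ∈ Om (max M1 M2 + 1) (max R1 R2), F w ≠ 0 := fun w hw => by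
    rw [hFU w (hs1 hw)]
    exact mul_ne_zero (exp_ne_zero _) (hU0 w (hs1 hw))
  refine ⟨max M1 M2 + 1, max R1 R2, hM1.trans ((le_max_left _ _).trans (Nat.le_succ _)),
    hR1.trans (le_max_left _ _), ⟨⟨?_, fun w hw => ?_, fun w hw => ?_⟩, 2 / ‖p‖, a.natAbs + b.natAbs,
      fun w hw => ?_⟩, hF0⟩
  · exact (hF.hol.mono hs0).inv hF0
  · show (F (w.1 + 2 * Real.pi * I, w.2))⁻¹ = _
    rw [hF.per1 w (hs0 hw)]
  · show (F (w.1, w.2 + 2 * Real.pi * I))⁻¹ = _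
    rw [hF.per2 w (hs0 hw)]
  · show ‖(F w)⁻¹‖ ≤ _
    have h3 := h2 w (hs2 hw)
    have h4 : ‖p‖ / 2 ≤ ‖U w‖ := by
      have h5 := norm_sub_norm_le p (U w)
      rw [norm_sub_rev] at h5
      linarith
    have hr1 : w.1.re < 0 := by
      have h6 := hw.1
      have h7 : (0 : ℝ) ≤ (max R1 R2 : ℕ) := Nat.cast_nonneg _
      linarith
    have hr2 : w.2.re ≤ w.1.re := by
      have h6 := hw.2
      have h7 : (0 : ℝ) ≤ (max M1 M2 : ℕ) := Nat.cast_nonneg _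
      push_cast at h6 h7
      nlinarith
    have h8 : -((a : ℝ) * w.1.re + b * w.2.re) ≤ -(((a.natAbs + b.natAbs : ℕ) : ℝ) * w.2.re) := by
      have ha : |(a : ℝ)| = (a.natAbs : ℝ) := by
        rw [Nat.cast_natAbs, Int.cast_abs]
      have hb : |(b : ℝ)| = (b.natAbs : ℝ) := by
        rw [Nat.cast_natAbs, Int.cast_abs]
      push_cast
      rw [← ha, ← hb]
      have h9 : -((a : ℝ) * w.1.re) ≤ |(a : ℝ)| * (-w.1.re) := by
        have := neg_abs_le (a : ℝ)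
        have := le_abs_self (a : ℝ)
        nlinarith
      have h10 : -((b : ℝ) * w.2.re) ≤ |(b : ℝ)| * (-w.2.re) := by
        have := neg_abs_le (b : ℝ)
        have := le_abs_self (b : ℝ)
        nlinarith
      have h11 : |(a : ℝ)| * (-w.1.re) ≤ |(a : ℝ)| * (-w.2.re) :=
        mul_le_mul_of_nonneg_left (by linarith) (abs_nonneg _)
      linarith
    rw [norm_inv, hFU w (hs1 hw), norm_mul, norm_exp, mul_inv, ← Real.exp_neg]
    have h12 : ((a : ℂ) * w.1 + b * w.2).re = (a : ℝ) * w.1.re + b * w.2.re := by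
      simp
    rw [h12, mul_comm]
    refine mul_le_mul ?_ (Real.exp_le_exp.2 h8) (Real.exp_nonneg _) (by positivity)
    rw [inv_le_comm₀ (by linarith) (by positivity), inv_div]
    exact h4

end Pool.Agent.LGO.FC
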