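import Mathlib
import Pool.Agent.LGO.FC.RootL
import Pool.Agent.LGO.FC.StrA
import Pool.Agent.LGO.FC.PolA

/-!
# LGO/FC: the roots of a polynomial over `k[j(e w₀), j(e w₁)]`

`Rts P e M R ρ`: the functions `ρ i` are periodic of moderate growth and are the roots of `P (j(e w₀), j(e w₁); T)`, whose
leading coefficient has no zeros on `Om M R`.

`exists_roots`: `P ∈ k[X₀, X₁][T]`, `A P + B P' = c ≠ 0`.

Proof.  (1) Let `L = P.leadingCoeff`, `d = P.natDegree`.  The functions `w ↦ aeval (jj 1 w) L`, `w ↦ aeval (jj 1 w) c` are of moderate growth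
(`pol_mo`, after mapping the coefficients to `ℂ`) and not zero (`pol_ind`), so they have no zeros on `Om M R`, `M, R ≥ 1` large, and
`1 / L` is of moderate growth there (`mo_inv`).  (2) `q w = pe (jj 1 w) P` has degree `d` and is separable
(`A P + B P' = c`, `c(w) ≠ 0`), with holomorphic coefficients: `roots_hol` gives `ρ i`, holomorphic on `Om M R`, distinct.
(3) Growth: a root `t` of `∑ c_m t ^ m` satisfies `|t| ≤ 1 + ∑_{m < d} |c_m / c_d|`, and these functions are of moderate growth.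
(4) Periods: `w ↦ ρ i (w₀ + 2 π i, w₁)` is a continuous root function of `q`, since `jj 1 (w₀ + 2 π i, w₁) = jj 1 w`, so it is one of the
`ρ j` (`one_of`), `j = π₁ i`; `π₁` is injective (the roots are distinct), a permutation of `Fin d`, the same for the second variable,
`π₂`.  With `e = d !` (`e` divides nothing less than needed: `π ^ (d !) = 1`, `orderOf_dvd_card`, `Fintype.card_perm`)
`ρ i (w₀ + 2 π i e, w₁) = ρ i w`.  So `ρ' i w = ρ i (e w₀, e w₁)` is periodic, of moderate growth on `Om M R` (`sc_mem`), and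
`pe (jj e w) P = pe (jj 1 (e w₀, e w₁)) P`.  `e > 0`.
-/

namespace Pool.Agent.LGO.FC

open MvPolynomial

variable {k : IntermediateField ℚ ℂ}

/-- the roots of `P (j(e w₀), j(e w₁); T)` -/
structure Rts (P : Polynomial (MvPolynomial (Fin 2) k)) (e M R : ℕ) (ρ : Fin P.natDegree → ℂ × ℂ → ℂ) : Prop where
  mo : ∀ i, Mo M R (ρ i)
  lc : ∀ w ∈ Om M R, aeval (jj e w) P.leadingCoeff ≠ (0 : ℂ)
  split : ∀ w ∈ Om M R, pe (jj e w) P = Polynomial.C (aeval (jj e w) P.leadingCoeff) *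
    ∏ i, (Polynomial.X - Polynomial.C (ρ i w))

theorem Rts.mono {P : Polynomial (MvPolynomial (Fin 2) k)} {e M R M' R' : ℕ}
    {ρ : Fin P.natDegree → ℂ × ℂ → ℂ} (h : Rts P e M R ρ) (hM : M ≤ M') (hR : R ≤ R') : Rts P e M' R' ρ :=
  ⟨fun i => (h.mo i).mono hM hR, fun w hw => h.lc w (Om_mono hM hR hw), fun w hw => h.split w (Om_mono hM hR hw)⟩

private theorem RP_jj (e q : ℕ) (w : ℂ × ℂ) : jj (e * q) w = jj e ((q : ℂ) * w.1, (q : ℂ) * w.2) := by
  unfold jj
  rw [Nat.cast_mul, mul_assoc, mul_assoc]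

theorem Rts.scale {P : Polynomial (MvPolynomial (Fin 2) k)} {e M R q : ℕ} (hq : 0 < q)
    {ρ : Fin P.natDegree → ℂ × ℂ → ℂ} (h : Rts P e M R ρ) :
    Rts P (e * q) M R (fun i w => ρ i ((q : ℂ) * w.1, (q : ℂ) * w.2)) := by
  refine ⟨fun i => (h.mo i).scale hq, fun w hw => ?_, fun w hw => ?_⟩
  · rw [RP_jj]
    exact h.lc _ (sc_mem hq hw)
  · rw [RP_jj]
    exact h.split _ (sc_mem hq hw)

private theorem RP_eval (u : Fin 2 → ℂ) (G : MvPolynomial (Fin 2) k) :
    (aeval u G : ℂ) = eval u (map (algebraMap k ℂ) G) := by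
  rw [eval_map, aeval_def]

private theorem RP_mo {e M R : ℕ} (he : 0 < e) (hM : 1 ≤ M) (hR : 1 ≤ R) (G : MvPolynomial (Fin 2) k) :
    Mo M R (fun w => (aeval (jj e w) G : ℂ)) :=
  (pol_mo he hM hR (map (algebraMap k ℂ) G)).ext fun w _ => RP_eval (jj e w) G

private theorem RP_ne {e M R : ℕ} (he : 0 < e) {G : MvPolynomial (Fin 2) k} (hG : G ≠ 0) :
    ∃ w ∈ Om M R, (aeval (jj e w) G : ℂ) ≠ 0 := by
  by_contra hcon
  push Not at hcon
  apply hG
  apply map_injective (algebraMap k ℂ) (algebraMap k ℂ).injective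
  rw [map_zero]
  refine pol_ind (M := M) (R := R) he fun w hw => ?_
  rw [← RP_eval]
  exact hcon w hw

private theorem RP_bd {p : Polynomial ℂ} (hp : p ≠ 0) {t : ℂ} (h : p.eval t = 0) :
    ‖t‖ ≤ 1 + ∑ m ∈ Finset.range p.natDegree, ‖p.coeff m * p.leadingCoeff⁻¹‖ := by
  have h1 : ‖t‖₊ < p.cauchyBound := Polynomial.IsRoot.norm_lt_cauchyBound hp h
  have h2 : (‖t‖₊ : ℝ) < (p.cauchyBound : ℝ) := by exact_mod_cast h1
  have h3 : (p.cauchyBound : ℝ) ≤ 1 + ∑ m ∈ Finset.range p.natDegree, ‖p.coeff m * p.leadingCoeff⁻¹‖ := by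
    have h4 : p.cauchyBound ≤ 1 + ∑ m ∈ Finset.range p.natDegree, ‖p.coeff m * p.leadingCoeff⁻¹‖₊ := by
      rw [Polynomial.cauchyBound, add_comm]
      refine add_le_add le_rfl ?_
      have h5 : (Finset.range p.natDegree).sup (fun m => ‖p.coeff m‖₊) ≤
          ∑ m ∈ Finset.range p.natDegree, ‖p.coeff m‖₊ :=
        Finset.sup_le fun m hm => Finset.single_le_sum (f := fun m => ‖p.coeff m‖₊) (fun _ _ => zero_le) hm
      have h6 : ∀ m, ‖p.coeff m * p.leadingCoeff⁻¹‖₊ = ‖p.coeff m‖₊ / ‖p.leadingCoeff‖₊ := by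
        intro m
        rw [nnnorm_mul, nnnorm_inv, div_eq_mul_inv]
      simp only [h6]
      rw [← Finset.sum_div]
      exact div_le_div_of_nonneg_right h5 zero_le
    have h7 : (p.cauchyBound : ℝ) ≤
        ((1 + ∑ m ∈ Finset.range p.natDegree, ‖p.coeff m * p.leadingCoeff⁻¹‖₊ : NNReal) : ℝ) := by
      exact_mod_cast h4
    refine h7.trans (le_of_eq ?_)
    push_cast
    rfl
  exact h2.le.trans h3

private theorem RP_re {M R : ℕ} {w : ℂ × ℂ} (hw : w ∈ Om M R) : w.2.re ≤ 0 := by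
  obtain ⟨h1, h2⟩ := hw
  have h0 : (0 : ℝ) ≤ R := Nat.cast_nonneg _
  have h3 : (M : ℝ) * w.1.re ≤ 0 :=
    mul_nonpos_of_nonneg_of_nonpos (Nat.cast_nonneg _) (by linarith)
  linarith

private theorem RP_two_re (n : ℕ) : ((n : ℂ) * (2 * Real.pi * Complex.I)).re = 0 := by
  have h : (n : ℂ) * (2 * Real.pi * Complex.I) = ((n * (2 * Real.pi) : ℝ) : ℂ) * Complex.I := by
    push_cast
    ring
  rw [h, Complex.re_ofReal_mul, Complex.I_re, mul_zero]

private theorem RP_tr1 {M R : ℕ} {w : ℂ × ℂ} (hw : w ∈ Om M R) (n : ℕ) :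
    (w.1 + n * (2 * Real.pi * Complex.I), w.2) ∈ Om M R := by
  obtain ⟨h1, h2⟩ := hw
  constructor
  · change (w.1 + n * (2 * Real.pi * Complex.I)).re < -(R : ℝ)
    rw [Complex.add_re, RP_two_re, add_zero]
    exact h1
  · change w.2.re < M * (w.1 + n * (2 * Real.pi * Complex.I)).re
    rw [Complex.add_re, RP_two_re, add_zero]
    exact h2

private theorem RP_tr2 {M R : ℕ} {w : ℂ × ℂ} (hw : w ∈ Om M R) (n : ℕ) :
    (w.1, w.2 + n * (2 * Real.pi * Complex.I)) ∈ Om M R := by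
  obtain ⟨h1, h2⟩ := hw
  constructor
  · exact h1
  · change (w.2 + n * (2 * Real.pi * Complex.I)).re < M * w.1.re
    rw [Complex.add_re, RP_two_re, add_zero]
    exact h2

/-- a translation which preserves the set of roots permutes the root functions -/
private theorem RP_perm {M R d : ℕ} {ρ : Fin d → ℂ × ℂ → ℂ} (hρ : ∀ i, ContinuousOn (ρ i) (Om M R))
    (hinj : ∀ w ∈ Om M R, Function.Injective fun i => ρ i w) {T : ℕ → ℂ × ℂ → ℂ × ℂ}
    (hT : ∀ n, ∀ w ∈ Om M R, T n w ∈ Om M R) (hTc : Continuous (T 1)) (hT0 : ∀ w, T 0 w = w)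
    (hT1 : ∀ n w, T (n + 1) w = T 1 (T n w))
    (h : ∀ w ∈ Om M R, ∀ i, ∃ j, ρ i (T 1 w) = ρ j w) :
    ∀ i, ∀ w ∈ Om M R, ρ i (T (d.factorial) w) = ρ i w := by
  classical
  have h1 : ∀ i, ∃ j, ∀ w ∈ Om M R, ρ i (T 1 w) = ρ j w := by
    intro i
    refine one_of (convex_Om.isPreconnected) Om_ne hρ hinj (σ := fun w => ρ i (T 1 w)) ?_ fun w hw => h w hw i
    exact (hρ i).comp hTc.continuousOn fun w hw => hT 1 w hw
  choose π hπ using h1
  have hπi : Function.Injective π := by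
    intro i j hij
    obtain ⟨w, hw⟩ := Om_ne (M := M) (R := R)
    apply hinj _ (hT 1 w hw)
    change ρ i (T 1 w) = ρ j (T 1 w)
    rw [hπ i w hw, hπ j w hw, hij]
  have h2 : ∀ n : ℕ, ∀ i, ∀ w ∈ Om M R, ρ i (T n w) = ρ (π^[n] i) w := by
    intro n
    induction n with
    | zero =>
      intro i w _
      rw [hT0, Function.iterate_zero, id_eq]
    | succ n ih =>
      intro i w hw
      rw [hT1, hπ i _ (hT n w hw), ih (π i) w hw, Function.iterate_succ_apply]
  have hb : Function.Bijective π := Finite.injective_iff_bijective.mp hπi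
  have h3 : (Equiv.ofBijective π hb) ^ (d.factorial) = 1 := by
    have h4 := pow_card_eq_one (x := Equiv.ofBijective π hb)
    rwa [Fintype.card_perm, Fintype.card_fin] at h4
  intro i w hw
  rw [h2 _ i w hw]
  have h5 : π^[d.factorial] i = ((Equiv.ofBijective π hb) ^ (d.factorial)) i := by
    rw [← Equiv.Perm.iterate_eq_pow]
    rfl
  rw [h5, h3]
  rfl

private theorem RP_jj1 (w : ℂ × ℂ) : jj 1 (w.1 + 2 * Real.pi * Complex.I, w.2) = jj 1 w := by
  unfold jj
  simp only [Nat.cast_one, one_mul]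
  rw [jw_per]

private theorem RP_jj2 (w : ℂ × ℂ) : jj 1 (w.1, w.2 + 2 * Real.pi * Complex.I) = jj 1 w := by
  unfold jj
  simp only [Nat.cast_one, one_mul]
  rw [jw_per]

private theorem RP_jj1e (e : ℕ) (w : ℂ × ℂ) : jj e w = jj 1 ((e : ℂ) * w.1, (e : ℂ) * w.2) := by
  have := RP_jj 1 e w
  rwa [one_mul] at this

theorem exists_roots {P : Polynomial (MvPolynomial (Fin 2) k)} (hd : 0 < P.natDegree)
    {A B : Polynomial (MvPolynomial (Fin 2) k)} {c : MvPolynomial (Fin 2) k} (hc : c ≠ 0)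
    (h : A * P + B * Polynomial.derivative P = Polynomial.C c) :
    ∃ (e M R : ℕ) (ρ : Fin P.natDegree → ℂ × ℂ → ℂ), 0 < e ∧ 1 ≤ M ∧ 1 ≤ R ∧ Rts P e M R ρ := by
  classical
  have hP : P ≠ 0 := by
    rintro rfl
    simp at hd
  have hL : P.leadingCoeff ≠ 0 := Polynomial.leadingCoeff_ne_zero.mpr hP
  obtain ⟨M1, R1, hM1, hR1, hinv, hL1⟩ :=
    mo_inv (RP_mo one_pos le_rfl le_rfl P.leadingCoeff) (RP_ne (M := 1) (R := 1) one_pos hL)
  obtain ⟨M2, R2, hM2, hR2, -, hc2⟩ :=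
    mo_inv (RP_mo one_pos le_rfl le_rfl c) (RP_ne (M := 1) (R := 1) one_pos hc)
  set M := max M1 M2 with hM
  set R := max R1 R2 with hR
  have hM' : 1 ≤ M := hM1.trans (le_max_left _ _)
  have hR' : 1 ≤ R := hR1.trans (le_max_left _ _)
  have hsL : ∀ w ∈ Om M R, (aeval (jj 1 w) P.leadingCoeff : ℂ) ≠ 0 := fun w hw =>
    hL1 w (Om_mono (le_max_left _ _) (le_max_left _ _) hw)
  have hsc : ∀ w ∈ Om M R, (aeval (jj 1 w) c : ℂ) ≠ 0 := fun w hw =>
    hc2 w (Om_mono (le_max_right _ _) (le_max_right _ _) hw)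
  have hinv' : Mo M R (fun w => (aeval (jj 1 w) P.leadingCoeff : ℂ)⁻¹) :=
    hinv.mono (le_max_left _ _) (le_max_left _ _)
  have hdeg : ∀ w ∈ Om M R, (pe (jj 1 w) P).natDegree = P.natDegree := by
    intro w hw
    exact Polynomial.natDegree_map_of_leadingCoeff_ne_zero _ (hsL w hw)
  have hlc : ∀ w ∈ Om M R, (pe (jj 1 w) P).leadingCoeff = aeval (jj 1 w) P.leadingCoeff := by
    intro w hw
    exact Polynomial.leadingCoeff_map_of_leadingCoeff_ne_zero _ (hsL w hw)
  have hcoe : ∀ m w, (pe (jj 1 w) P).coeff m = aeval (jj 1 w) (P.coeff m) := by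
    intro m w
    unfold pe
    rw [Polynomial.coeff_map]
    rfl
  have hsep : ∀ w ∈ Om M R, (pe (jj 1 w) P).Separable := by
    intro w hw
    have h1 := congrArg (Polynomial.map
      ((MvPolynomial.aeval (jj 1 w) : MvPolynomial (Fin 2) k →ₐ[k] ℂ) : MvPolynomial (Fin 2) k →+* ℂ)) h
    rw [Polynomial.map_add, Polynomial.map_mul, Polynomial.map_mul, Polynomial.map_C, ← Polynomial.derivative_map] at h1
    have h2 : (((MvPolynomial.aeval (jj 1 w) : MvPolynomial (Fin 2) k →ₐ[k] ℂ) :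
        MvPolynomial (Fin 2) k →+* ℂ) c) = aeval (jj 1 w) c := rfl
    rw [h2] at h1
    refine ⟨Polynomial.C (aeval (jj 1 w) c : ℂ)⁻¹ * pe (jj 1 w) A,
      Polynomial.C (aeval (jj 1 w) c : ℂ)⁻¹ * pe (jj 1 w) B, ?_⟩
    rw [mul_assoc, mul_assoc, ← mul_add]
    unfold pe
    rw [h1, ← Polynomial.C_mul, inv_mul_cancel₀ (hsc w hw), Polynomial.C_1]
  have hhol : ∀ m, DifferentiableOn ℂ (fun w => (pe (jj 1 w) P).coeff m) (Om M R) := by
    intro m
    have h1 := (RP_mo (M := M) (R := R) one_pos hM' hR' (P.coeff m)).hol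
    refine h1.congr fun w _ => hcoe m w
  obtain ⟨ρ, hρd, hρi, hρs⟩ := roots_hol isOpen_Om convex_Om (Om_ne (M := M) (R := R))
    (q := fun w => pe (jj 1 w) P) (d := P.natDegree) hhol hdeg hsep
  have hroot : ∀ w ∈ Om M R, ∀ i, (pe (jj 1 w) P).eval (ρ i w) = 0 := by
    intro w hw i
    rw [hρs w hw, Polynomial.eval_mul, Polynomial.eval_prod]
    refine mul_eq_zero_of_right _ (Finset.prod_eq_zero (Finset.mem_univ i) ?_)
    rw [Polynomial.eval_sub, Polynomial.eval_X, Polynomial.eval_C, sub_self]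
  have hroot' : ∀ w ∈ Om M R, ∀ t, (pe (jj 1 w) P).eval t = 0 → ∃ j, t = ρ j w := by
    intro w hw t ht
    rw [hρs w hw, Polynomial.eval_mul, Polynomial.eval_C, hlc w hw, Polynomial.eval_prod] at ht
    rcases mul_eq_zero.mp ht with h1 | h1
    · exact absurd h1 (hsL w hw)
    · obtain ⟨j, -, hj⟩ := Finset.prod_eq_zero_iff.mp h1
      rw [Polynomial.eval_sub, Polynomial.eval_X, Polynomial.eval_C] at hj
      exact ⟨j, sub_eq_zero.mp hj⟩
  have hper1 : ∀ i, ∀ w ∈ Om M R,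
      ρ i (w.1 + (P.natDegree.factorial : ℂ) * (2 * Real.pi * Complex.I), w.2) = ρ i w := by
    refine RP_perm (T := fun n w => (w.1 + (n : ℂ) * (2 * Real.pi * Complex.I), w.2))
      (fun i => (hρd i).continuousOn) hρi (fun n w hw => RP_tr1 hw n) (by fun_prop) ?_ ?_ ?_
    · intro w
      simp
    · intro n w
      simp only [Nat.cast_one, one_mul, Nat.cast_add]
      refine Prod.ext ?_ rfl
      change w.1 + ((n : ℂ) + 1) * (2 * Real.pi * Complex.I) = w.1 + (n : ℂ) * (2 * Real.pi * Complex.I) + 2 * Real.pi * Complex.I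
      ring
    · intro w hw i
      apply hroot' w hw
      have h1 := hroot _ (RP_tr1 hw 1) i
      simp only [Nat.cast_one, one_mul] at h1 ⊢
      rwa [RP_jj1] at h1
  have hper2 : ∀ i, ∀ w ∈ Om M R,
      ρ i (w.1, w.2 + (P.natDegree.factorial : ℂ) * (2 * Real.pi * Complex.I)) = ρ i w := by
    refine RP_perm (T := fun n w => (w.1, w.2 + (n : ℂ) * (2 * Real.pi * Complex.I)))
      (fun i => (hρd i).continuousOn) hρi (fun n w hw => RP_tr2 hw n) (by fun_prop) ?_ ?_ ?_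
    · intro w
      simp
    · intro n w
      simp only [Nat.cast_one, one_mul, Nat.cast_add]
      refine Prod.ext rfl ?_
      change w.2 + ((n : ℂ) + 1) * (2 * Real.pi * Complex.I) = w.2 + (n : ℂ) * (2 * Real.pi * Complex.I) + 2 * Real.pi * Complex.I
      ring
    · intro w hw i
      apply hroot' w hw
      have h1 := hroot _ (RP_tr2 hw 1) i
      simp only [Nat.cast_one, one_mul] at h1 ⊢
      rwa [RP_jj2] at h1
  -- growth
  have hgr : ∃ (C : ℝ) (B : ℕ), ∀ i, ∀ w ∈ Om M R, ‖ρ i w‖ ≤ C * Real.exp (-(B * w.2.re)) := by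
    have h1 : ∀ m, ∃ (C : ℝ) (B : ℕ), ∀ w ∈ Om M R,
        ‖(aeval (jj 1 w) (P.coeff m) : ℂ) * (aeval (jj 1 w) P.leadingCoeff : ℂ)⁻¹‖ ≤ C * Real.exp (-(B * w.2.re)) :=
      fun m => ((RP_mo (M := M) (R := R) one_pos hM' hR' (P.coeff m)).mul hinv').gr
    choose C B hCB using h1
    refine ⟨1 + ∑ m ∈ Finset.range P.natDegree, |C m|, ∑ m ∈ Finset.range P.natDegree, B m, fun i w hw => ?_⟩
    have hq0 : pe (jj 1 w) P ≠ 0 := by
      intro h0
      have h2 := hdeg w hw
      rw [h0, Polynomial.natDegree_zero] at h2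
      omega
    have h2 := RP_bd hq0 (hroot w hw i)
    rw [hdeg w hw, hlc w hw] at h2
    have hre := RP_re hw
    have hB : ∀ m ∈ Finset.range P.natDegree, Real.exp (-(B m * w.2.re)) ≤
        Real.exp (-(((∑ m ∈ Finset.range P.natDegree, B m : ℕ) : ℝ) * w.2.re)) := by
      intro m hm
      apply Real.exp_le_exp.mpr
      have h3 : B m ≤ ∑ m ∈ Finset.range P.natDegree, B m :=
        Finset.single_le_sum (f := B) (fun _ _ => Nat.zero_le _) hm
      have h4 : (B m : ℝ) ≤ ((∑ m ∈ Finset.range P.natDegree, B m : ℕ) : ℝ) := by exact_mod_cast h3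
      nlinarith
    have hone : 1 ≤ Real.exp (-(((∑ m ∈ Finset.range P.natDegree, B m : ℕ) : ℝ) * w.2.re)) := by
      apply Real.one_le_exp
      have h4 : (0 : ℝ) ≤ ((∑ m ∈ Finset.range P.natDegree, B m : ℕ) : ℝ) := Nat.cast_nonneg _
      nlinarith
    refine h2.trans ?_
    rw [add_mul, one_mul, Finset.sum_mul]
    refine add_le_add hone (Finset.sum_le_sum fun m hm => ?_)
    rw [hcoe m w]
    refine (hCB m w hw).trans ?_
    have h5 := Real.exp_pos (-(B m * w.2.re))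
    have h6 := hB m hm
    have h7 := le_abs_self (C m)
    have h8 := abs_nonneg (C m)
    calc C m * Real.exp (-(B m * w.2.re)) ≤ |C m| * Real.exp (-(B m * w.2.re)) :=
          mul_le_mul_of_nonneg_right h7 h5.le
      _ ≤ _ := mul_le_mul_of_nonneg_left h6 h8
  obtain ⟨C, B, hCB⟩ := hgr
  have hf : 0 < P.natDegree.factorial := Nat.factorial_pos _
  refine ⟨P.natDegree.factorial, M, R,
    fun i w => ρ i ((P.natDegree.factorial : ℂ) * w.1, (P.natDegree.factorial : ℂ) * w.2), hf, hM', hR', ?_, ?_, ?_⟩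
  · intro i
    refine ⟨⟨?_, ?_, ?_⟩, C, B * P.natDegree.factorial, fun w hw => ?_⟩
    · refine (hρd i).comp (t := Om M R)
        (f := fun w : ℂ × ℂ => ((P.natDegree.factorial : ℂ) * w.1, (P.natDegree.factorial : ℂ) * w.2)) ?_
        fun w hw => sc_mem hf hw
      fun_prop
    · intro w hw
      have h1 := hper1 i _ (sc_mem hf hw)
      change ρ i ((P.natDegree.factorial : ℂ) * (w.1 + 2 * Real.pi * Complex.I), (P.natDegree.factorial : ℂ) * w.2) = _
      rw [mul_add]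
      exact h1
    · intro w hw
      have h1 := hper2 i _ (sc_mem hf hw)
      change ρ i ((P.natDegree.factorial : ℂ) * w.1, (P.natDegree.factorial : ℂ) * (w.2 + 2 * Real.pi * Complex.I)) = _
      rw [mul_add]
      exact h1
    · refine (hCB i _ (sc_mem hf hw)).trans (le_of_eq ?_)
      have h1 : ((P.natDegree.factorial : ℂ) * w.2).re = P.natDegree.factorial * w.2.re := by
        rw [← Complex.ofReal_natCast, Complex.re_ofReal_mul]
      change C * Real.exp (-((B : ℝ) * ((P.natDegree.factorial : ℂ) * w.2).re)) = _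
      rw [h1]
      push_cast
      rw [mul_assoc]
  · intro w hw
    rw [RP_jj1e]
    exact hsL _ (sc_mem hf hw)
  · intro w hw
    have h1 := hρs _ (sc_mem hf hw)
    have h2 := hlc _ (sc_mem hf hw)
    rw [RP_jj1e, ← h2]
    exact h1

end Pool.Agent.LGO.FC
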