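import Mathlib
import Pool.Agent.LGO.FC.BasA

/-!
# LGO/FC: one integer matrix along an arc

`mat`: `u, v` holomorphic on `Hp R` with values in the upper half plane and `j(u t)`, `j(v t)` isogenous for all `t`: there is an
integer matrix `(A, B; C, D)` with determinant `> 0` and `v (C u + D) = A u + B` on `Hp R`.

Proof.  Fix `t`.  `HeckeRel (jF (u t)) (jF (v t))`: by `heckeRel_iff` and `isogDeg_iff_maps` there is an integer matrix of positive
determinant with `v t (C u t + D) = A u t + B`.  So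
`Hp R` is the union of the countably many sets `Z_m = {t | v t (C u t + D) = A u t + B}`, `m = (A, B, C, D)` with determinant `> 0`.
One of them is uncountable on the segment `[-(R+2), -(R+1)]`, so it has an accumulation point in it,
and by the identity theorem the equation holds on `Hp R`.

`rel_of_mat`: conversely `v t (C u t + D) = A u t + B` with determinant `> 0` implies `HeckeRel (jF (u t)) (jF (v t))`, in the form
`(jF (u t), jF (v t)) ∈ MR g` for one `g ∈ GL₂(ℚ)⁺`, `g = (A, B; C, D)`.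
-/

namespace Pool.Agent.LGO.FC

open UpperHalfPlane Pool.Agent.Hhelper14.ZP Pool.Agent.Hhelper14.ZPL Pool.Agent.LGO

/-- the segment is not countable -/
private theorem MatA_seg (R : ℕ) :
    ¬ ((fun x : ℝ => (x : ℂ)) '' Set.Icc (-(R : ℝ) - 2) (-(R : ℝ) - 1)).Countable := by
  intro h
  have h1 : (Set.Icc (-(R : ℝ) - 2) (-(R : ℝ) - 1)).Countable :=
    Set.countable_of_injective_of_countable_image (Complex.ofReal_injective.injOn) h
  rw [Cardinal.Real.Icc_countable_iff] at h1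
  linarith

/-- one integer matrix at a point -/
private theorem MatA_point {x y : ℂ} (hx : 0 < x.im) (hy : 0 < y.im) (h : HeckeRel (jF x) (jF y)) :
    ∃ m : ℤ × ℤ × ℤ × ℤ, 0 < m.1 * m.2.2.2 - m.2.1 * m.2.2.1 ∧
      y * (m.2.2.1 * x + m.2.2.2) = m.1 * x + m.2.1 := by
  obtain ⟨N, hN, hi⟩ := heckeRel_iff.mp h
  rw [jF, jF] at hi
  obtain ⟨g, hg, hm⟩ := (Gal.isogDeg_iff_maps hN _ _).mp hi
  rw [ofComplex_apply_of_im_pos hx, ofComplex_apply_of_im_pos hy] at hm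
  refine ⟨(g 0 0, g 0 1, g 1 0, g 1 1), ?_, hm⟩
  rw [Matrix.det_fin_two] at hg
  show 0 < g 0 0 * g 1 1 - g 0 1 * g 1 0
  rw [hg]
  exact_mod_cast hN

/-- one integer matrix along an arc -/
theorem mat {R : ℕ} {u v : ℂ → ℂ} (hu : DifferentiableOn ℂ u (Hp R)) (hv : DifferentiableOn ℂ v (Hp R))
    (hui : ∀ t ∈ Hp R, 0 < (u t).im) (hvi : ∀ t ∈ Hp R, 0 < (v t).im)
    (h : ∀ t ∈ Hp R, HeckeRel (jF (u t)) (jF (v t))) :
    ∃ A B C D : ℤ, 0 < A * D - B * C ∧ ∀ t ∈ Hp R, v t * (C * u t + D) = A * u t + B := by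
  have hO : IsOpen (Hp R) := isOpen_Hp
  have hP : IsPreconnected (Hp R) := convex_Hp.isPreconnected
  set K : Set ℂ := (fun x : ℝ => (x : ℂ)) '' Set.Icc (-(R : ℝ) - 2) (-(R : ℝ) - 1) with hK
  have hKc : IsCompact K := isCompact_Icc.image Complex.continuous_ofReal
  have hKH : K ⊆ Hp R := by
    rintro _ ⟨x, hx, rfl⟩
    show ((x : ℂ)).re < -(R : ℝ)
    rw [Complex.ofReal_re]
    linarith [hx.2]
  let Z : ℤ × ℤ × ℤ × ℤ → Set ℂ := fun m => {t | t ∈ K ∧ 0 < m.1 * m.2.2.2 - m.2.1 * m.2.2.1 ∧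
      v t * (m.2.2.1 * u t + m.2.2.2) = m.1 * u t + m.2.1}
  have hKZ : K ⊆ ⋃ m, Z m := by
    intro t ht
    obtain ⟨m, hm, hm'⟩ := MatA_point (hui t (hKH ht)) (hvi t (hKH ht)) (h t (hKH ht))
    exact Set.mem_iUnion.mpr ⟨m, ht, hm, hm'⟩
  have hex : ∃ m, (Z m).Infinite := by
    by_contra hcon
    push Not at hcon
    exact MatA_seg R ((Set.countable_iUnion fun m => (hcon m).countable).mono hKZ)
  obtain ⟨m, hm⟩ := hex
  obtain ⟨t₀, ht₀, hac⟩ := hm.exists_accPt_of_subset_isCompact hKc (fun t ht => ht.1)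
  obtain ⟨t₁, -, hd, -⟩ := hm.nonempty
  refine ⟨m.1, m.2.1, m.2.2.1, m.2.2.2, hd, ?_⟩
  have han : AnalyticOnNhd ℂ (fun t => v t * (m.2.2.1 * u t + m.2.2.2) - (m.1 * u t + m.2.1)) (Hp R) := by
    refine DifferentiableOn.analyticOnNhd ?_ hO
    fun_prop
  have hfr : ∃ᶠ t in nhdsWithin t₀ {t₀}ᶜ, v t * (m.2.2.1 * u t + m.2.2.2) - (m.1 * u t + m.2.1) = 0 := by
    rw [accPt_iff_frequently_nhdsNE] at hac
    exact hac.mono fun t ht => sub_eq_zero.mpr ht.2.2
  have hz := han.eqOn_zero_of_preconnected_of_frequently_eq_zero hP (hKH ht₀) hfr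
  intro t ht
  exact sub_eq_zero.mp (hz ht)

/-- an integer matrix gives an isogeny -/
theorem rel_of_mat {A B C D : ℤ} (hd : 0 < A * D - B * C) :
    ∃ g : GL (Fin 2) ℚ, 0 < g.det.val ∧ ∀ x y : ℂ, 0 < x.im → 0 < y.im → y * (C * x + D) = A * x + B →
      (![jF x, jF y] : Fin 2 → ℂ) ∈ MR g := by
  have hdet : (!![(A : ℚ), B; C, D] : Matrix (Fin 2) (Fin 2) ℚ).det = ((A * D - B * C : ℤ) : ℚ) := by
    rw [Matrix.det_fin_two_of]
    push_cast
    ring
  have hpos : (0 : ℚ) < ((A * D - B * C : ℤ) : ℚ) := by exact_mod_cast hd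
  have hne : (!![(A : ℚ), B; C, D] : Matrix (Fin 2) (Fin 2) ℚ).det ≠ 0 := by
    rw [hdet]
    exact hpos.ne'
  have hg : 0 < (Matrix.GeneralLinearGroup.mkOfDetNeZero _ hne).det.val := by
    show 0 < (!![(A : ℚ), B; C, D] : Matrix (Fin 2) (Fin 2) ℚ).det
    rw [hdet]
    exact hpos
  refine ⟨Matrix.GeneralLinearGroup.mkOfDetNeZero _ hne, hg, ?_⟩
  intro x y hx hy hxy
  refine ⟨⟨x, hx⟩, ?_, ?_⟩
  · show jF x = _
    rw [jF, ofComplex_apply_of_im_pos hx]
  · show jF y = _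
    rw [jF, ofComplex_apply_of_im_pos hy]
    congr 1
    apply UpperHalfPlane.ext
    rw [coe_gact hg]
    have hden : ((C : ℂ) * x + D) ≠ 0 := by
      have := Gal.den_ne_zero (g := !![A, B; C, D]) (by
        rw [Matrix.det_fin_two_of]
        exact hd.ne') ⟨x, hx⟩
      simpa using this
    have h00 : (Matrix.GeneralLinearGroup.mkOfDetNeZero _ hne).1 0 0 = (A : ℚ) := rfl
    have h01 : (Matrix.GeneralLinearGroup.mkOfDetNeZero _ hne).1 0 1 = (B : ℚ) := rfl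
    have h10 : (Matrix.GeneralLinearGroup.mkOfDetNeZero _ hne).1 1 0 = (C : ℚ) := rfl
    have h11 : (Matrix.GeneralLinearGroup.mkOfDetNeZero _ hne).1 1 1 = (D : ℚ) := rfl
    rw [h00, h01, h10, h11]
    push_cast
    show y = ((A : ℂ) * x + B) / ((C : ℂ) * x + D)
    rw [eq_div_iff hden]
    exact hxy

/-- points of the correspondence are isogenous -/
theorem rel_of_mr {g : GL (Fin 2) ℚ} (hg : 0 < g.det.val) {x : Fin 2 → ℂ} (h : x ∈ MR g) : HeckeRel (x 0) (x 1) := by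
  obtain ⟨τ, h0, h1⟩ := h
  exact ⟨τ, g, hg, h0, h1⟩

/-- isogenous numbers are in a correspondence -/
theorem mr_of_rel {x y : ℂ} (h : HeckeRel x y) : ∃ g : GL (Fin 2) ℚ, 0 < g.det.val ∧ (![x, y] : Fin 2 → ℂ) ∈ MR g := by
  obtain ⟨τ, g, hg, h0, h1⟩ := h
  exact ⟨g, hg, τ, h0, h1⟩

end Pool.Agent.LGO.FC
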