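import Mathlib
import Pool.Agent.LGO.FC.CurA
import Pool.Agent.LGO.FC.MatA
import Pool.Agent.LGO.ZF.ModR

/-!
# LGO/FC: a point of a modular correspondence outside of `k` is generic

`trf`: `x = j(σ) ∉ k`, `y = j(N σ)`, `G ∈ k[X₀, X₁]` with `G(x, y) = 0`: then `G (j τ, j (N τ)) = 0` for all `τ`.

Proof.  `g = diag (N, 1)`, `Y = MR g ⊆ ℂ²` is special (`ZF.mr_special` with `k = 0`, `l = 1`), so irreducible, `KClosed`
(`special_kclosed`), of dimension `1` (`dim_spSet`), and has infinitely many points over `k`: `(j τ, j (N τ))` with `j τ` an arbitrary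
algebraic number (then `j (N τ)` is algebraic, `HeckeRel` and algebraic numbers: `LGO/Gal`; or `τ` CM).  `Z = {G = 0}` is closed and
stable under the automorphisms over `k`.  If `Y ⊄ Z` then by `inter_mem` all points of `Y ∩ Z` are over `k`, but `(x, y) ∈ Y ∩ Z`, `x ∉ k`.
So `Y ⊆ Z`.  `jF τ = jInv ⟨τ, _⟩` for `Im τ > 0` (`jF_coe`), `gact g τ = N τ`.

`hecke_cyc`: isogenous `x`, `y`: `x = j(σ)`, `y = j(N σ)` for some `N ≥ 1` and `σ`.  Proof: `x = j τ`, `y = j (g τ)`, `g ∈ GL₂(ℚ)⁺`, without loss of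
generality an integer matrix; elementary divisors: `g = γ' (c N, 0; 0, c) γ` with `γ, γ' ∈ SL₂(ℤ)`, `c, N ≥ 1` (multiplied by `-1`
if necessary), so with `σ = γ τ`: `x = j σ`, `y = j (N σ)`.  (`LGO/Gal/Basic.lean`: `heckeRel_iff`, `IsogDeg`; a proof of the
elementary divisor theorem for `2 × 2` matrices: by induction on the nonzero entries, or: the lattice `ℤ + ℤ τ` and a
sublattice; `Pool/Agent` may contain it: grep `Smith`, `elementary`, `cyclic`; Mathlib: `Submodule.smithNormalForm`.)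
`mlt_pos`: in `Mlt N x y` the number `N` is positive (imaginary parts).
`mlt_rel`: `Mlt N x y` implies `HeckeRel x y`.
`hecke_mem`: `IsogDeg N x y` for some `N` (`heckeRel_iff`).  For an automorphism `s` over `k`: `s y` is isogenous to `s x = x` of degree `N`
(`LGO/Gal/Inv.lean`), finitely many values (`LGO/Gal`), so `y ∈ k` by `mem_of_orbit` (or: `y` is algebraic over `ℚ(x)`, modular equation).
-/

namespace Pool.Agent.LGO.FC

open UpperHalfPlane Pool.Agent.AHC Pool.Agent.Hhelper14.ZP Pool.Agent.Hhelper14.ZPL Pool.Agent.LGO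

theorem mlt_pos {N : ℕ} {x y : ℂ} (h : Mlt N x y) : 0 < N := by
  obtain ⟨σ, σ', h1, -, -⟩ := h
  rcases Nat.eq_zero_or_pos N with rfl | hN
  · exfalso
    have h2 := σ'.im_pos
    rw [← UpperHalfPlane.coe_im, h1] at h2
    simp at h2
  · exact hN

/-- the matrix `diag (N, 1)` -/
private theorem TrfA_maps {N : ℕ} {σ σ' : ℍ} (h : (σ' : ℂ) = N * (σ : ℂ)) :
    Maps !![(N : ℤ), 0; 0, 1] (σ : ℂ) (σ' : ℂ) := by
  rw [Maps]
  simp [h]

theorem mlt_rel {N : ℕ} {x y : ℂ} (h : Mlt N x y) : HeckeRel x y := by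
  have hN := mlt_pos h
  obtain ⟨σ, σ', h1, hx, hy⟩ := h
  exact heckeRel_iff.mpr ⟨N, hN, σ, σ', !![(N : ℤ), 0; 0, 1], by simp, TrfA_maps h1, hx, hy⟩

/-- a shift which makes the second column primitive -/
private theorem TrfA_col {a b c d : ℤ} (hp : ∀ q : ℕ, q.Prime → ¬ ((q : ℤ) ∣ a ∧ (q : ℤ) ∣ b ∧
    (q : ℤ) ∣ c ∧ (q : ℤ) ∣ d)) {n : ℤ} (hn : n ≠ 0) (hd : a * d - b * c = n) :
    ∃ t : ℤ, IsCoprime (a * t + b) (c * t + d) := by
  classical
  let P : Finset ℕ := n.natAbs.primeFactors.filter fun q => ¬ ((q : ℤ) ∣ b ∧ (q : ℤ) ∣ d)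
  refine ⟨((∏ q ∈ P, q : ℕ) : ℤ), ?_⟩
  set t : ℤ := ((∏ q ∈ P, q : ℕ) : ℤ) with ht
  rw [Int.isCoprime_iff_gcd_eq_one]
  by_contra hg
  obtain ⟨q, hq, hqd⟩ := Nat.exists_prime_and_dvd hg
  have hq1 : (q : ℤ) ∣ a * t + b := (Int.natCast_dvd_natCast.mpr hqd).trans (Int.gcd_dvd_left _ _)
  have hq2 : (q : ℤ) ∣ c * t + d := (Int.natCast_dvd_natCast.mpr hqd).trans (Int.gcd_dvd_right _ _)
  have hqn : (q : ℤ) ∣ n := by
    have h1 : n = (c * t + d) * a - (a * t + b) * c := by rw [← hd]; ring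
    rw [h1]
    exact dvd_sub (hq2.mul_right a) (hq1.mul_right c)
  have hqP : Prime (q : ℤ) := Nat.prime_iff_prime_int.mp hq
  by_cases hbd : (q : ℤ) ∣ b ∧ (q : ℤ) ∣ d
  · -- then `q` divides neither `t` nor both of `a`, `c`
    have hqt : ¬ (q : ℤ) ∣ t := by
      intro h1
      rw [ht, Int.natCast_dvd_natCast, hq.prime.dvd_finsetProd_iff] at h1
      obtain ⟨r, hr, hqr⟩ := h1
      rw [Finset.mem_filter] at hr
      have hr1 := Nat.prime_of_mem_primeFactors hr.1
      have h2 : q = r := (Nat.prime_dvd_prime_iff_eq hq hr1).mp hqr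
      rw [← h2] at hr
      exact hr.2 hbd
    have h1 : (q : ℤ) ∣ a * t := (dvd_add_left hbd.1).mp hq1
    have h2 : (q : ℤ) ∣ c * t := (dvd_add_left hbd.2).mp hq2
    have h3 : (q : ℤ) ∣ a := (hqP.dvd_or_dvd h1).resolve_right hqt
    have h4 : (q : ℤ) ∣ c := (hqP.dvd_or_dvd h2).resolve_right hqt
    exact hp q hq ⟨h3, hbd.1, h4, hbd.2⟩
  · have hqt : (q : ℤ) ∣ t := by
      rw [ht, Int.natCast_dvd_natCast]
      apply Finset.dvd_prod_of_mem
      rw [Finset.mem_filter, Nat.mem_primeFactors]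
      exact ⟨⟨hq, Int.natCast_dvd.mp hqn, Int.natAbs_ne_zero.mpr hn⟩, hbd⟩
    apply hbd
    exact ⟨(dvd_add_right (hqt.mul_left a)).mp hq1, (dvd_add_right (hqt.mul_left c)).mp hq2⟩

/-- elementary divisors of a primitive matrix -/
private theorem TrfA_smith {g : Matrix (Fin 2) (Fin 2) ℤ} (hg : Prim g) {n : ℕ} (hn : 0 < n)
    (hd : g.det = n) : ∃ P Q : Matrix (Fin 2) (Fin 2) ℤ, P.det = 1 ∧ Q.det = 1 ∧
      g * P = Q * !![(n : ℤ), 0; 0, 1] := by
  rw [Matrix.det_fin_two] at hd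
  obtain ⟨t, r, s, hrs⟩ := TrfA_col (a := g 0 0) (b := g 0 1) (c := g 1 0) (d := g 1 1)
    (fun q hq h => by
      have h1 := hg q (fun i j => by
        fin_cases i <;> fin_cases j
        · exact h.1
        · exact h.2.1
        · exact h.2.2.1
        · exact h.2.2.2)
      rw [h1] at hq
      exact Nat.not_prime_one hq) (by exact_mod_cast hn.ne') hd
  set w1 := g 0 0 * t + g 0 1 with hw1
  set w2 := g 1 0 * t + g 1 1 with hw2
  set β := s * g 1 0 + r * g 0 0 with hβ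
  refine ⟨!![1 - β * t, t; -β, 1], !![s, w1; -r, w2], ?_, ?_, ?_⟩
  · rw [Matrix.det_fin_two_of]
    ring
  · rw [Matrix.det_fin_two_of]
    linear_combination hrs
  · have e1 : g 0 0 * w2 - g 1 0 * w1 = n := by
      rw [hw1, hw2]
      linear_combination hd
    ext i j
    fin_cases i <;> fin_cases j
    · simp only [Matrix.mul_apply, Fin.sum_univ_two, Fin.zero_eta, Fin.isValue, Matrix.of_apply,
        Matrix.cons_val', Matrix.cons_val_zero, Matrix.cons_val_one, Matrix.cons_val_fin_one]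
      linear_combination (-g 0 0) * hrs + s * e1
    · simp only [Matrix.mul_apply, Fin.sum_univ_two, Fin.zero_eta, Fin.mk_one, Fin.isValue,
        Matrix.of_apply, Matrix.cons_val', Matrix.cons_val_zero, Matrix.cons_val_one,
        Matrix.cons_val_fin_one]
      rw [hw1]
      ring
    · simp only [Matrix.mul_apply, Fin.sum_univ_two, Fin.zero_eta, Fin.mk_one, Fin.isValue,
        Matrix.of_apply, Matrix.cons_val', Matrix.cons_val_zero, Matrix.cons_val_one,
        Matrix.cons_val_fin_one]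
      linear_combination (-g 1 0) * hrs - r * e1
    · simp only [Matrix.mul_apply, Fin.sum_univ_two, Fin.zero_eta, Fin.mk_one, Fin.isValue,
        Matrix.of_apply, Matrix.cons_val', Matrix.cons_val_zero, Matrix.cons_val_one,
        Matrix.cons_val_fin_one]
      rw [hw2]
      ring

theorem hecke_cyc {x y : ℂ} (h : HeckeRel x y) : ∃ N : ℕ, 0 < N ∧ Mlt N x y := by
  obtain ⟨M, hM, hI⟩ := heckeRel_iff.mp h
  obtain ⟨τ, rfl⟩ := j_surj x
  obtain ⟨k, n, g, τ', hk, hn, -, hg, hdet, hm, rfl⟩ := hI.exists_prim hM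
  obtain ⟨P, Q, hP, hQ, hPQ⟩ := TrfA_smith hg hn hdet
  let γ : Matrix.SpecialLinearGroup (Fin 2) ℤ := ⟨P, hP⟩
  let γ' : Matrix.SpecialLinearGroup (Fin 2) ℤ := ⟨Q, hQ⟩
  set σ : ℍ := γ⁻¹ • τ with hσ
  have hτ : τ = γ • σ := by rw [hσ, smul_inv_smul]
  have hpos : 0 < ((n : ℂ) * (σ : ℂ)).im := by
    have h1 : ((n : ℂ) * (σ : ℂ)).im = n * σ.im := by simp
    rw [h1]
    have h2 : (0 : ℝ) < n := by exact_mod_cast hn
    exact mul_pos h2 σ.im_pos
  set σ' : ℍ := ⟨(n : ℂ) * (σ : ℂ), hpos⟩ with hσ'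
  have m1 : Maps P (σ : ℂ) (τ : ℂ) := by
    have h1 := Gal.maps_sl γ σ
    rw [← hτ] at h1
    exact h1
  have m2 : Maps (g * P) (σ : ℂ) (τ' : ℂ) := m1.mul hm
  have m3 : Maps (Q * !![(n : ℤ), 0; 0, 1]) (σ : ℂ) ((γ' • σ' : ℍ) : ℂ) :=
    (TrfA_maps (σ := σ) (σ' := σ') rfl).mul (Gal.maps_sl γ' σ')
  rw [hPQ] at m2
  have hd2 : (Q * !![(n : ℤ), 0; 0, 1]).det = n := by
    rw [Matrix.det_mul, hQ]
    simp
  have e1 := Gal.eq_act_of_maps hn hd2 m2
  have e2 := Gal.eq_act_of_maps hn hd2 m3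
  have e3 : τ' = γ' • σ' := by rw [e1, e2]
  refine ⟨n, hn, σ, σ', rfl, ?_, ?_⟩
  · rw [hτ, jInv_smul]
  · rw [e3, jInv_smul]

/-- isogenous numbers are both in `k` or both not in `k` -/
theorem hecke_mem {k : IntermediateField ℚ ℂ} (hk : AC k) {x y : ℂ} (h : HeckeRel x y) (hx : x ∈ k) : y ∈ k := by
  obtain ⟨N, hN, hI⟩ := heckeRel_iff.mp h
  apply mem_of_orbit hk
  obtain ⟨τ, hτ⟩ := j_surj x
  have := finite_QQ hN
  refine (Set.finite_range (fun q : QQ N => jQ hN q τ)).subset ?_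
  rintro _ ⟨σ, hσ, rfl⟩
  have h1 := isogDeg_map σ hN hI
  rw [hσ x hx, ← hτ] at h1
  obtain ⟨q, hq⟩ := (Gal.isogDeg_iff_jQ hN τ _).mp h1
  exact ⟨q, hq.symm⟩

private theorem TrfA_diff (N : ℕ) (hN : 0 < N) (p : MvPolynomial (Fin 2) ℂ) :
    DifferentiableOn ℂ (fun z : ℂ => MvPolynomial.aeval ![jF z, jF (N * z)] p) {z : ℂ | 0 < z.im} := by
  have h0 : DifferentiableOn ℂ jF {z : ℂ | 0 < z.im} := jF_analytic.differentiableOn
  have hN' : (0 : ℝ) < N := by exact_mod_cast hN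
  have h1 : DifferentiableOn ℂ (fun z : ℂ => jF (N * z)) {z : ℂ | 0 < z.im} := by
    refine h0.comp (f := fun z : ℂ => (N : ℂ) * z) (by fun_prop) ?_
    intro z hz
    have hz' : 0 < z.im := hz
    show 0 < ((N : ℂ) * z).im
    have h2 : ((N : ℂ) * z).im = N * z.im := by simp
    rw [h2]
    exact mul_pos hN' hz'
  induction p using MvPolynomial.induction_on with
  | C a =>
    simp only [MvPolynomial.aeval_C]
    exact differentiableOn_const _
  | add p q hp hq =>
    simp only [map_add]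
    exact hp.add hq
  | mul_X p i hp =>
    simp only [map_mul, MvPolynomial.aeval_X]
    refine hp.mul ?_
    fin_cases i
    · exact h0
    · exact h1

/-- the curve `(j τ, j (N τ))` -/
private theorem TrfA_curve {N : ℕ} (hN : 0 < N) : ∃ g : GL (Fin 2) ℚ, 0 < g.det.val ∧
    (∀ τ : ℍ, ((gact g τ : ℍ) : ℂ) = N * (τ : ℂ)) ∧
    Pool.Agent.Hhelper14.ZPL.IsIrredClosed (MR g) ∧ Pool.Agent.Hhelper14.ZPL.dim (MR g) = 1 := by
  obtain ⟨g, hg, hmz⟩ := ZF.exists_gl (g := !![(N : ℤ), 0; 0, 1]) (by simpa using hN)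
  have hgN : ∀ τ : ℍ, ((gact g τ : ℍ) : ℂ) = N * (τ : ℂ) := by
    intro τ
    rw [← hmz τ]
    simp [AX.mz]
  refine ⟨g, hg, hgN, ⟨?_, ?_⟩, ?_⟩
  · constructor
    · intro htop
      have h1 : (1 : MvPolynomial (Fin 2) ℂ) ∈ MvPolynomial.vanishingIdeal ℂ (MR g) := by
        rw [htop]
        trivial
      rw [MvPolynomial.mem_vanishingIdeal_iff] at h1
      have h2 := h1 ![jInv UpperHalfPlane.I, jInv (gact g UpperHalfPlane.I)] ⟨_, rfl, rfl⟩
      simp at h2
    · intro p q hpq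
      rw [MvPolynomial.mem_vanishingIdeal_iff] at hpq
      have key : ∀ r : MvPolynomial (Fin 2) ℂ, (∀ z ∈ {z : ℂ | 0 < z.im},
          MvPolynomial.aeval ![jF z, jF (N * z)] r = (0 : ℂ)) → r ∈ MvPolynomial.vanishingIdeal ℂ (MR g) := by
        intro r hr
        rw [MvPolynomial.mem_vanishingIdeal_iff]
        rintro x ⟨τ, hx0, hx1⟩
        have h1 := hr (τ : ℂ) τ.im_pos
        rw [jF_coe, ← hgN τ, jF_coe] at h1
        have h2 : x = ![jInv τ, jInv (gact g τ)] := by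
          funext i
          fin_cases i
          · exact hx0
          · exact hx1
        rw [h2]
        exact h1
      have hopen : IsOpen {z : ℂ | 0 < z.im} := isOpen_lt continuous_const Complex.continuous_im
      have hseg : ∀ w ∈ {z : ℂ | 0 < z.im}, ∀ w' ∈ {z : ℂ | 0 < z.im}, ∀ s : ℝ, 0 ≤ s → s ≤ 1 →
          w + (s : ℂ) • (w' - w) ∈ {z : ℂ | 0 < z.im} := by
        intro w hw w' hw' s hs hs'
        have e1 : (w + (s : ℂ) • (w' - w)).im = (1 - s) * w.im + s * w'.im := by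
          simp
          ring
        have hw1 : 0 < w.im := hw
        have hw2 : 0 < w'.im := hw'
        show 0 < (w + (s : ℂ) • (w' - w)).im
        rw [e1]
        rcases hs.eq_or_lt with h0 | h0
        · rw [← h0]
          simpa using hw1
        · have h2 := mul_pos h0 hw2
          have h3 := mul_nonneg (sub_nonneg.mpr hs') hw1.le
          linarith
      rcases dom hopen hseg (TrfA_diff N hN p) (TrfA_diff N hN q) (fun z hz => by
        have h1 := hpq ![jInv ⟨z, hz⟩, jInv (gact g ⟨z, hz⟩)] ⟨_, rfl, rfl⟩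
        rw [← jF_coe, ← jF_coe, hgN] at h1
        rw [← map_mul]
        exact h1) with h1 | h1
      · exact Or.inl (key p h1)
      · exact Or.inr (key q h1)
  · exact special_closed (ZF.mr_special (k := (0 : Fin 2)) (l := 1) (by decide) hg)
  · have h1 : MR g = SpSet (fun _ : Fin 2 => some (0 : Fin 1)) ![1, g] (fun _ => UpperHalfPlane.I) := by
      ext x
      constructor
      · rintro ⟨τ, h1, h2⟩
        refine ⟨fun _ => τ, fun i => ?_⟩
        fin_cases i
        · show x 0 = jInv (gact 1 τ)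
          rw [gact_one]
          exact h1
        · exact h2
      · rintro ⟨τ, hτ⟩
        refine ⟨τ 0, ?_, hτ 1⟩
        have h2 : x 0 = jInv (gact 1 (τ 0)) := hτ 0
        rwa [gact_one] at h2
    rw [h1, dim_spSet (fun b => ⟨0, by rw [Subsingleton.elim b 0]⟩) (fun i => by
      fin_cases i
      · simp
      · exact hg)]
    simp

theorem trf {k : IntermediateField ℚ ℂ} (hk : AC k) {N : ℕ} {x y : ℂ} (h : Mlt N x y) (hx : x ∉ k)
    {G : MvPolynomial (Fin 2) k} (hG : MvPolynomial.aeval ![x, y] G = (0 : ℂ)) {τ : ℂ} (hτ : 0 < τ.im) :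
    MvPolynomial.aeval ![jF τ, jF (N * τ)] G = (0 : ℂ) := by
  have hN := mlt_pos h
  obtain ⟨g, hg, hgN, hirr, hdim⟩ := TrfA_curve hN
  obtain ⟨σ, σ', h1, hxσ, hyσ⟩ := h
  set Z : Set (Fin 2 → ℂ) := {u | MvPolynomial.aeval u G = (0 : ℂ)} with hZ
  have hmap : ∀ u : Fin 2 → ℂ, MvPolynomial.aeval u (MvPolynomial.map (algebraMap k ℂ) G) =
      (MvPolynomial.aeval u G : ℂ) := fun u => MvPolynomial.aeval_map_algebraMap ℂ u G
  have hZc : IsZClosed Z := by
    refine Set.Subset.antisymm ?_ (subset_closure' _)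
    intro u hu
    rw [MvPolynomial.mem_zeroLocus_iff] at hu
    have h2 := hu (MvPolynomial.map (algebraMap k ℂ) G) (by
      rw [MvPolynomial.mem_vanishingIdeal_iff]
      intro v hv
      rw [hmap]
      exact hv)
    rw [hmap] at h2
    exact h2
  have hst : ∀ s : ℂ ≃+* ℂ, (∀ z ∈ k, s z = z) → ∀ u ∈ Z, (fun i => s (u i)) ∈ Z := by
    intro s hs u hu
    let s' : ℂ →ₐ[k] ℂ := { s.toRingHom with commutes' := fun r => hs r.1 r.2 }
    have h2 : MvPolynomial.aeval (fun i => s' (u i)) G = s' (MvPolynomial.aeval u G) :=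
      (MvPolynomial.comp_aeval_apply u s' G).symm
    have h3 : MvPolynomial.aeval u G = (0 : ℂ) := hu
    rw [h3, map_zero] at h2
    exact h2
  have hinf : (Kp k (MR g)).Infinite := by
    choose t ht using fun n : ℕ => j_surj (n : ℂ)
    refine Set.infinite_of_injective_forall_mem
      (f := fun n : ℕ => (![jInv (t n), jInv (gact g (t n))] : Fin 2 → ℂ)) ?_ ?_
    · intro n m hnm
      have h2 := congrFun hnm 0
      have h3 : jInv (t n) = jInv (t m) := h2
      rw [ht, ht] at h3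
      exact_mod_cast h3
    · intro n
      have hn0 : jInv (t n) ∈ k := by
        rw [ht]
        exact natCast_mem k n
      refine ⟨⟨t n, rfl, rfl⟩, fun i => ?_⟩
      fin_cases i
      · exact hn0
      · exact hecke_mem hk ⟨t n, g, hg, rfl, rfl⟩ hn0
  have hsub : MR g ⊆ Z := by
    by_contra hne
    have hxy : (![x, y] : Fin 2 → ℂ) ∈ MR g := by
      refine ⟨σ, hxσ, ?_⟩
      have h2 : gact g σ = σ' := by
        apply UpperHalfPlane.ext
        rw [hgN, h1]
      rw [h2]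
      exact hyσ
    exact hx (inter_mem hirr hdim hk hinf hZc hst hne ![x, y] ⟨hxy, hG⟩ 0)
  have h2 : (![jInv ⟨τ, hτ⟩, jInv (gact g ⟨τ, hτ⟩)] : Fin 2 → ℂ) ∈ Z := hsub ⟨_, rfl, rfl⟩
  rw [← jF_coe, ← jF_coe, hgN] at h2
  exact h2

end Pool.Agent.LGO.FC
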