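import Mathlib
import Pool.Agent.LGO.FC.FunA
import Pool.Agent.LGO.FC.RootP
import Pool.Agent.LGO.FC.TrfA

/-!
# LGO/FC: a point of type 2 on the arc of its degree

`arc`: `x` a point of type 2 with `x₀ = j(σ)`, `x₁ = j(N σ)`, `N > M`.  For suitable root functions `ρ₂ i`, `ρ₃ i'` the point `x` and the functions
`j(e t)`, `j(e N t)`, `ρ₂ i (t, N t)`, `ρ₃ i' (t, N t)` on `Hp R` have the same relations over `k`.

Proof.  `Ω = Hp R` (`isOpen_Hp`, `Hp_ne`, `seg_Hp`), `f = ![Jw (e t), Jw (e N t)]`, holomorphic (`jw_hol`; `Re (e t) < 0`).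
`hker` for `G ∈ k[X₀, X₁]`: if `G (x₀, x₁) = 0` then `G (jF τ, jF (N τ)) = 0` for all `τ` (`trf`), in particular for `τ = e t / (2 π i)`, where
`Jw (e t) = jF τ` and `Jw (e N t) = jF (N τ)`.  Conversely if `G (Jw (e t), Jw (e N t)) = 0` for all `t ∈ Hp R` then the holomorphic function
`τ ↦ G (jF τ, jF (N τ))` on the upper half plane vanishes on an open set, so everywhere (`ident`), in particular at `τ = σ` (`Mlt`).
`h₂`: the polynomial `∑ c_m (X₀, X₁) X₂ ^ m` over `k`, `P₂ = ∑ c_m T ^ m`, vanishes at `ξ`, so at `x` (`Tp.spec`), the same for `P₃` and `X₃`.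
Roots: `r₂ i t = ρ₂ i (t, N t)`, holomorphic as `(t, N t) ∈ Om M R` (`arc_mem`), `l₂ t = aeval (jj e (t, N t)) P₂.leadingCoeff`, and
`jj e (t, N t) = ![Jw (e t), Jw (e (N t))]`.  `trans_fun` gives `i`, `i'` with (⇒).
(⇐) `inc_fun` with `b = x`, `c = ` the four functions, `κ = Fin 1`, `s = 0`: `hind`: `Jw (e t)` is transcendental over `k` (`pol_ind1`; map the
coefficients to `ℂ`); `halg`: every `x i` is algebraic over `k[x 0]`: `alg_of_dep1` with `ind1_iff` (`x 0 ∉ k`) and `Tp.dep`.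
-/

namespace Pool.Agent.LGO.FC

open MvPolynomial

variable {k : IntermediateField ℚ ℂ}

private theorem ArcA_pol {ι E : Type*} [NormedAddCommGroup E] [NormedSpace ℂ E] {Ω : Set E}
    (g : ι → E → ℂ) (hg : ∀ i, DifferentiableOn ℂ (g i) Ω) (G : MvPolynomial ι k) :
    DifferentiableOn ℂ (fun w => (aeval (fun i => g i w) G : ℂ)) Ω := by
  induction G using MvPolynomial.induction_on with
  | C a =>
    simp only [aeval_C]
    exact differentiableOn_const _
  | add p q hp hq =>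
    simp only [map_add]
    exact hp.add hq
  | mul_X p i hp =>
    simp only [map_mul, aeval_X]
    exact hp.mul (hg i)

private theorem ArcA_im (s : ℂ) : (s / (2 * Real.pi * Complex.I)).im = -s.re / (2 * Real.pi) := by
  have h1 : s / (2 * Real.pi * Complex.I) = ((1 / (2 * Real.pi) : ℝ) : ℂ) * (-Complex.I * s) := by
    have hp : (Real.pi : ℂ) ≠ 0 := Complex.ofReal_ne_zero.2 Real.pi_ne_zero
    push_cast
    field_simp
    rw [Complex.I_sq]
    ring
  rw [h1, Complex.im_ofReal_mul]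
  simp only [neg_mul, Complex.neg_im, Complex.mul_im, Complex.I_re, Complex.I_im]
  ring

private theorem ArcA_re (s : ℂ) : (2 * Real.pi * Complex.I * s).re = -(2 * Real.pi * s.im) := by
  have h1 : (2 * Real.pi * Complex.I * s) = ((2 * Real.pi : ℝ) : ℂ) * (Complex.I * s) := by
    push_cast
    ring
  rw [h1, Complex.re_ofReal_mul]
  simp only [Complex.mul_re, Complex.I_re, Complex.I_im]
  ring

/-- `jF` is holomorphic -/
private theorem ArcA_jF : DifferentiableOn ℂ jF {τ : ℂ | 0 < τ.im} := by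
  obtain ⟨g, hg⟩ : ∃ g : ℂ → ℂ, ∀ τ, g τ = 2 * Real.pi * Complex.I * τ := ⟨_, fun _ => rfl⟩
  have hgd : DifferentiableOn ℂ g {τ : ℂ | 0 < τ.im} := by
    have : g = fun τ => 2 * Real.pi * Complex.I * τ := funext hg
    rw [this]
    fun_prop
  have hgm : Set.MapsTo g {τ : ℂ | 0 < τ.im} (Hp 0) := by
    intro τ hτ
    have hτ' : 0 < τ.im := hτ
    change (g τ).re < -((0 : ℕ) : ℝ)
    rw [hg, ArcA_re, Nat.cast_zero, neg_zero, neg_lt_zero]
    have := Real.pi_pos
    positivity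
  have h1 : DifferentiableOn ℂ (Jw ∘ g) {τ : ℂ | 0 < τ.im} := jw_hol.comp hgd hgm
  refine h1.congr fun τ _ => ?_
  rw [Function.comp_apply, hg]
  unfold Jw
  congr 1
  have hp : (Real.pi : ℂ) ≠ 0 := Complex.ofReal_ne_zero.2 Real.pi_ne_zero
  have hI := Complex.I_ne_zero
  field_simp

private theorem ArcA_seg : ∀ w ∈ {τ : ℂ | 0 < τ.im}, ∀ w' ∈ {τ : ℂ | 0 < τ.im}, ∀ s : ℝ, 0 ≤ s → s ≤ 1 →
    w + (s : ℂ) • (w' - w) ∈ {τ : ℂ | 0 < τ.im} := by
  intro w hw w' hw' s hs hs'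
  have h1 : 0 < w.im := hw
  have h2 : 0 < w'.im := hw'
  change 0 < (w + (s : ℂ) • (w' - w)).im
  rw [smul_eq_mul, Complex.add_im, Complex.im_ofReal_mul, Complex.sub_im]
  have h3 : w.im + s * (w'.im - w.im) = (1 - s) * w.im + s * w'.im := by ring
  rw [h3]
  rcases hs.eq_or_lt with h | h
  · rw [← h]
    linarith
  · have := mul_pos h h2
    have := mul_nonneg (sub_nonneg.2 hs') h1.le
    linarith

private theorem ArcA_pe (y : Fin 4 → ℂ) (j : Fin 4) (P : Polynomial (MvPolynomial (Fin 2) k)) :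
    (aeval y (P.eval₂ ((rename (![0, 1] : Fin 2 → Fin 4) :
      MvPolynomial (Fin 2) k →ₐ[k] MvPolynomial (Fin 4) k) :
        MvPolynomial (Fin 2) k →+* MvPolynomial (Fin 4) k) (X j)) : ℂ) =
      (pe ![y 0, y 1] P).eval (y j) := by
  have h1 := Polynomial.hom_eval₂ P ((rename (![0, 1] : Fin 2 → Fin 4) :
      MvPolynomial (Fin 2) k →ₐ[k] MvPolynomial (Fin 4) k) :
        MvPolynomial (Fin 2) k →+* MvPolynomial (Fin 4) k)
      ((aeval y : MvPolynomial (Fin 4) k →ₐ[k] ℂ) : MvPolynomial (Fin 4) k →+* ℂ) (X j)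
  have h2 : (((aeval y : MvPolynomial (Fin 4) k →ₐ[k] ℂ) : MvPolynomial (Fin 4) k →+* ℂ)).comp
      ((rename (![0, 1] : Fin 2 → Fin 4) :
      MvPolynomial (Fin 2) k →ₐ[k] MvPolynomial (Fin 4) k) :
        MvPolynomial (Fin 2) k →+* MvPolynomial (Fin 4) k) =
      ((aeval ![y 0, y 1] : MvPolynomial (Fin 2) k →ₐ[k] ℂ) : MvPolynomial (Fin 2) k →+* ℂ) := by
    refine RingHom.ext fun G => ?_
    change (aeval y (rename (![0, 1] : Fin 2 → Fin 4) G) : ℂ) = aeval ![y 0, y 1] G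
    rw [aeval_rename]
    congr 2
    funext i
    fin_cases i
    · rfl
    · rfl
  rw [h2] at h1
  have h3 : ((aeval y : MvPolynomial (Fin 4) k →ₐ[k] ℂ) : MvPolynomial (Fin 4) k →+* ℂ) (X j) = y j :=
    aeval_X y j
  rw [h3] at h1
  unfold pe
  rw [Polynomial.eval_map]
  exact h1

private theorem ArcA_hp {R q : ℕ} (hq : 0 < q) {t : ℂ} (ht : t ∈ Hp R) : (q : ℂ) * t ∈ Hp 0 := by
  have h1 : (q : ℂ) * t ∈ Hp R := sc_mem' hq ht
  have h2 : ((q : ℂ) * t).re < -(R : ℝ) := h1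
  have h3 : (0 : ℝ) ≤ R := Nat.cast_nonneg _
  change ((q : ℂ) * t).re < -((0 : ℕ) : ℝ)
  rw [Nat.cast_zero]
  linarith

/-- the kernel at the first two coordinates -/
private theorem ArcA_ker (hk : AC k) {x : Fin 4 → ℂ} {N : ℕ} (hm : Mlt N (x 0) (x 1)) (hx : x 0 ∉ k)
    {e R : ℕ} (he : 0 < e) (G : MvPolynomial (Fin 2) k) :
    aeval ![x 0, x 1] G = (0 : ℂ) ↔ ∀ t ∈ Hp R, aeval ![Jw (e * t), Jw (e * (N * t))] G = (0 : ℂ) := by
  have hN : 0 < N := mlt_pos hm
  have hpi := Real.pi_pos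
  have hp : (Real.pi : ℂ) ≠ 0 := Complex.ofReal_ne_zero.2 Real.pi_ne_zero
  have hI := Complex.I_ne_zero
  have he0 : (e : ℂ) ≠ 0 := Nat.cast_ne_zero.2 he.ne'
  have key : ∀ t : ℂ, (![Jw (e * t), Jw (e * (N * t))] : Fin 2 → ℂ) =
      ![jF (e * t / (2 * Real.pi * Complex.I)), jF (N * (e * t / (2 * Real.pi * Complex.I)))] := by
    intro t
    unfold Jw
    congr 3
    ring
  constructor
  · intro hG t ht
    rw [key]
    refine trf hk hm hx hG ?_
    rw [ArcA_im]
    have h1 : ((e : ℂ) * t).re < -((0 : ℕ) : ℝ) := ArcA_hp he ht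
    rw [Nat.cast_zero, neg_zero] at h1
    have : 0 < -((e : ℂ) * t).re := by linarith
    positivity
  · intro h
    have hol : DifferentiableOn ℂ (fun τ => (aeval ![jF τ, jF (N * τ)] G : ℂ)) {τ : ℂ | 0 < τ.im} := by
      have h1 := ArcA_pol (k := k) (Ω := {τ : ℂ | 0 < τ.im})
        (![jF, fun τ => jF (N * τ)] : Fin 2 → ℂ → ℂ) (by
          intro i
          fin_cases i
          · exact ArcA_jF
          · refine ArcA_jF.comp (t := {τ : ℂ | 0 < τ.im}) (f := fun τ : ℂ => (N : ℂ) * τ)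
              (by fun_prop) ?_
            intro τ hτ
            have hτ' : 0 < τ.im := hτ
            change 0 < ((N : ℂ) * τ).im
            rw [← Complex.ofReal_natCast, Complex.im_ofReal_mul]
            positivity) G
      refine h1.congr fun τ _ => ?_
      congr 2
      funext i
      fin_cases i
      · rfl
      · rfl
    obtain ⟨t₀, ht₀⟩ := Hp_ne (R := R)
    have hw : (e * t₀ / (2 * Real.pi * Complex.I)) ∈ {τ : ℂ | 0 < τ.im} := by
      change 0 < (e * t₀ / (2 * Real.pi * Complex.I)).im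
      rw [ArcA_im]
      have h1 : ((e : ℂ) * t₀).re < -((0 : ℕ) : ℝ) := ArcA_hp he ht₀
      rw [Nat.cast_zero, neg_zero] at h1
      have : 0 < -((e : ℂ) * t₀).re := by linarith
      positivity
    have hnear : ∀ᶠ τ in nhds (e * t₀ / (2 * Real.pi * Complex.I)),
        (aeval ![jF τ, jF (N * τ)] G : ℂ) = 0 := by
      have hc : Continuous fun τ : ℂ => 2 * Real.pi * Complex.I * τ / e := by fun_prop
      have h1 : (fun τ : ℂ => 2 * Real.pi * Complex.I * τ / e) (e * t₀ / (2 * Real.pi * Complex.I)) =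
          t₀ := by
        field_simp
      have h2 : ∀ᶠ τ in nhds (e * t₀ / (2 * Real.pi * Complex.I)),
          2 * Real.pi * Complex.I * τ / e ∈ Hp R := by
        refine hc.continuousAt.eventually_mem (isOpen_Hp.mem_nhds ?_)
        have h5 : 2 * Real.pi * Complex.I * (e * t₀ / (2 * Real.pi * Complex.I)) / e = t₀ := h1
        rw [h5]
        exact ht₀
      filter_upwards [h2] with τ hτ
      have h3 := h _ hτ
      rw [key] at h3
      have h4 : (e : ℂ) * (2 * Real.pi * Complex.I * τ / e) / (2 * Real.pi * Complex.I) = τ := by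
        field_simp
      rw [h4] at h3
      exact h3
    have hall := ident (isOpen_lt continuous_const Complex.continuous_im) ArcA_seg hol hw hnear
    obtain ⟨σ, σ', h1, h2, h3⟩ := hm
    have h4 := hall (σ : ℂ) σ.2
    rw [← h1, jF_coe, jF_coe, ← h2, ← h3] at h4
    exact h4

/-- the relations of a point of type 2 on its arc -/
theorem arc (hk : AC k) {ξ x : Fin 4 → ℂ} {N : ℕ} (hT : Tp k ξ N x) {P₂ P₃ : Polynomial (MvPolynomial (Fin 2) k)}
    (h2 : (pe ![ξ 0, ξ 1] P₂).eval (ξ 2) = 0) (h3 : (pe ![ξ 0, ξ 1] P₃).eval (ξ 3) = 0)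
    {e M R : ℕ} (he : 0 < e) {ρ₂ : Fin P₂.natDegree → ℂ × ℂ → ℂ} {ρ₃ : Fin P₃.natDegree → ℂ × ℂ → ℂ}
    (r2 : Rts P₂ e M R ρ₂) (r3 : Rts P₃ e M R ρ₃) (hN : M < N) :
    ∃ (i : Fin P₂.natDegree) (i' : Fin P₃.natDegree), ∀ G : MvPolynomial (Fin 4) k, aeval x G = (0 : ℂ) ↔
      ∀ t ∈ Hp R, aeval ![Jw (e * t), Jw (e * (N * t)), ρ₂ i (t, (N : ℂ) * t), ρ₃ i' (t, (N : ℂ) * t)] G =
        (0 : ℂ) := by
  have hN0 : 0 < N := by omega
  set f : Fin 2 → ℂ → ℂ := ![fun t => Jw (e * t), fun t => Jw (e * (N * t))] with hf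
  have hf0 : ∀ t, f 0 t = Jw (e * t) := fun t => rfl
  have hf1 : ∀ t, f 1 t = Jw (e * (N * t)) := fun t => rfl
  have hfv : ∀ t, (fun j => f j t) = ![Jw (e * t), Jw (e * (N * t))] := by
    intro t
    funext j
    fin_cases j
    · rfl
    · rfl
  have hjj : ∀ t : ℂ, jj e (t, (N : ℂ) * t) = fun j => f j t := fun t => (hfv t).symm
  have hfh : ∀ j, DifferentiableOn ℂ (f j) (Hp R) := by
    intro j
    fin_cases j
    · exact jw_hol.comp (t := Hp 0) (f := fun t : ℂ => (e : ℂ) * t) (by fun_prop)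
        fun t ht => ArcA_hp he ht
    · exact jw_hol.comp (t := Hp 0) (f := fun t : ℂ => (e : ℂ) * (N * t)) (by fun_prop)
        fun t ht => ArcA_hp he (sc_mem' hN0 ht)
  have hker : ∀ G : MvPolynomial (Fin 2) k, aeval ![x 0, x 1] G = (0 : ℂ) ↔
      ∀ w ∈ Hp R, aeval (fun j => f j w) G = (0 : ℂ) := by
    intro G
    simp only [hfv]
    exact ArcA_ker hk hT.mlt (hT.nk 0) he G
  have h2' : (pe ![x 0, x 1] P₂).eval (x 2) = 0 := by
    rw [← ArcA_pe] at h2 ⊢
    exact hT.spec _ h2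
  have h3' : (pe ![x 0, x 1] P₃).eval (x 3) = 0 := by
    rw [← ArcA_pe] at h3 ⊢
    exact hT.spec _ h3
  have harc : ∀ F : ℂ × ℂ → ℂ, DifferentiableOn ℂ F (Om M R) →
      DifferentiableOn ℂ (fun t : ℂ => F (t, (N : ℂ) * t)) (Hp R) := by
    intro F hF
    exact hF.comp (t := Om M R) (f := fun t : ℂ => (t, (N : ℂ) * t)) (by fun_prop)
      fun t ht => arc_mem hN ht
  obtain ⟨i, i', hii⟩ := trans_fun isOpen_Hp Hp_ne seg_Hp x f hfh hker P₂ P₃ h2' h3'
    (fun i t => ρ₂ i (t, (N : ℂ) * t)) (fun i t => ρ₃ i (t, (N : ℂ) * t))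
    (fun i => harc _ (r2.mo i).hol) (fun i => harc _ (r3.mo i).hol)
    (fun t => aeval (fun j => f j t) P₂.leadingCoeff) (fun t => aeval (fun j => f j t) P₃.leadingCoeff)
    (ArcA_pol f hfh _) (ArcA_pol f hfh _)
    (fun t ht => by
      have := r2.lc _ (arc_mem hN ht)
      rwa [hjj] at this)
    (fun t ht => by
      have := r3.lc _ (arc_mem hN ht)
      rwa [hjj] at this)
    (fun t ht => by
      have := r2.split _ (arc_mem hN ht)
      rwa [hjj] at this)
    (fun t ht => by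
      have := r3.split _ (arc_mem hN ht)
      rwa [hjj] at this)
  refine ⟨i, i', fun G => ⟨fun hG t ht => hii G hG t ht, fun hG => ?_⟩⟩
  set c : Fin 4 → ℂ → ℂ := ![f 0, f 1, fun t => ρ₂ i (t, (N : ℂ) * t), fun t => ρ₃ i' (t, (N : ℂ) * t)]
    with hc
  have hcv : ∀ t, (fun j => c j t) =
      ![f 0 t, f 1 t, ρ₂ i (t, (N : ℂ) * t), ρ₃ i' (t, (N : ℂ) * t)] := by
    intro t
    funext j
    fin_cases j
    · rfl
    · rfl
    · rfl
    · rfl
  refine inc_fun (isOpen_Hp (R := R)) Hp_ne seg_Hp x c ?_ (fun _ : Fin 1 => (0 : Fin 4)) ?_ ?_ ?_ G ?_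
  · intro j
    fin_cases j
    · exact hfh 0
    · exact hfh 1
    · exact harc _ (r2.mo i).hol
    · exact harc _ (r3.mo i').hol
  · intro G' hG' t ht
    rw [hcv]
    exact hii G' hG' t ht
  · intro G' hG'
    set Gp : Polynomial ℂ := aeval (fun _ : Fin 1 => (Polynomial.X : Polynomial ℂ)) G' with hGp
    have hev : ∀ z : ℂ, Gp.eval z = aeval (fun _ : Fin 1 => z) G' := by
      intro z
      have h4 := MvPolynomial.comp_aeval_apply (R := k) (fun _ : Fin 1 => (Polynomial.X : Polynomial ℂ))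
        ((Polynomial.aeval z : Polynomial ℂ →ₐ[ℂ] ℂ).restrictScalars k) G'
      have h5 : (fun i : Fin 1 => ((Polynomial.aeval z : Polynomial ℂ →ₐ[ℂ] ℂ).restrictScalars k)
          (Polynomial.X : Polynomial ℂ)) = fun _ => z := by
        funext _
        exact Polynomial.aeval_X z
      rw [h5] at h4
      exact h4
    have h0 : Gp = 0 := by
      refine pol_ind1 he (R := R) fun t ht => ?_
      rw [hev]
      exact hG' t ht
    refine MvPolynomial.funext fun z => ?_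
    rw [map_zero]
    have h4 := hev (algebraMap k ℂ (z 0))
    rw [h0, Polynomial.eval_zero] at h4
    have h5 : (fun _ : Fin 1 => algebraMap k ℂ (z 0)) = algebraMap k ℂ ∘ z := by
      funext j
      rw [Subsingleton.elim j 0]
      rfl
    rw [h5, aeval_algebraMap_apply] at h4
    have h6 : (aeval z G' : k) = 0 := (algebraMap k ℂ).injective (by rw [← h4, map_zero])
    exact h6
  · intro j
    have h4 := alg_of_dep1 ((ind1_iff hk).2 (hT.nk 0)) (hT.dep 0 j)
    have h5 : (![x 0] : Fin 1 → ℂ) = fun _ => x 0 := by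
      funext l
      rw [Subsingleton.elim l 0]
      rfl
    rw [h5] at h4
    exact h4
  · intro t ht
    rw [hcv]
    exact hG t ht

end Pool.Agent.LGO.FC
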