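import Mathlib
import Pool.Agent.LGO.FC.MatA
import Pool.Agent.LGO.ZF.ModR
import Pool.Agent.Hhelper78.ZPL.SpK

/-!
# LGO/FC: the modular correspondences are closed sets over `ℚbar`

`mr_k`: `{y : Fin n → ℂ | (y a, y b) ∈ MR g}` is `KClosed` for `a ≠ b`: it is `ZF.MR a b g`, special by `ZF.mr_special`, so `KClosed` by
`special_kclosed` (`Hhelper78/ZPL/SpK.lean`).
`mr_spec`: `x, y ∈ ℂⁿ`, every polynomial over `k` (algebraically closed) which vanishes at `x` vanishes at `y`.  If `(x a, x b) ∈ MR g` then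
`(y a, y b) ∈ MR g`.  Proof.  `MR g ⊆ ℂ²` is the zero set of polynomials `G` over `Qb` (`KClosed`, `mr_k` with `n = 2`, `a = 0`, `b = 1`);
their coefficients are algebraic over `ℚ`, so in `k`; apply the hypothesis to `G (X_a, X_b)` over `k` (`rename ![a, b]`, and `map` of
the coefficients along `Qb → k`).
`mr_spec_fun`: the same for a family.
-/

namespace Pool.Agent.LGO.FC

open UpperHalfPlane Pool.Agent.AHC Pool.Agent.Hhelper14.ZP Pool.Agent.Hhelper14.ZPL Pool.Agent.LGO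

theorem mr_k {n : ℕ} {a b : Fin n} (hab : a ≠ b) {g : GL (Fin 2) ℚ} (hg : 0 < g.det.val) :
    KClosed {y : Fin n → ℂ | (![y a, y b] : Fin 2 → ℂ) ∈ MR g} := by
  have h := special_kclosed (ZF.mr_special (n := n) hab hg)
  exact h

private theorem MrA_mr {g : GL (Fin 2) ℚ} (hg : 0 < g.det.val) : KClosed (MR g) := by
  have h := special_kclosed (ZF.mr_special (n := 2) (k := 0) (l := 1) (by decide) hg)
  exact h

private theorem MrA_le {k : IntermediateField ℚ ℂ} (hk : AC k) : Qb ≤ k := by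
  intro x hx
  have h1 : IsAlgebraic ℚ x := mem_algebraicClosure_iff.mp hx
  exact hk x (h1.tower_top (L := k))

private theorem MrA_poly {k : IntermediateField ℚ ℂ} (hk : AC k) {n : ℕ} (a b : Fin n)
    (p : MvPolynomial (Fin 2) Qb) : ∃ G : MvPolynomial (Fin n) k, ∀ z : Fin n → ℂ,
      (MvPolynomial.aeval z G : ℂ) = MvPolynomial.aeval (![z a, z b] : Fin 2 → ℂ) p := by
  let e : Qb →+* k := (IntermediateField.inclusion (MrA_le hk) : Qb →ₐ[ℚ] k)
  refine ⟨MvPolynomial.rename ![a, b] (MvPolynomial.map e p), fun z => ?_⟩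
  rw [MvPolynomial.aeval_rename, MvPolynomial.aeval_def, MvPolynomial.eval₂_map,
    MvPolynomial.aeval_def]
  have h1 : (algebraMap k ℂ).comp e = algebraMap Qb ℂ := rfl
  have h2 : z ∘ ![a, b] = (![z a, z b] : Fin 2 → ℂ) := by
    funext i
    fin_cases i <;> rfl
  rw [h1, h2]

theorem mr_spec {k : IntermediateField ℚ ℂ} (hk : AC k) {n : ℕ} {x y : Fin n → ℂ}
    (h : ∀ G : MvPolynomial (Fin n) k, MvPolynomial.aeval x G = (0 : ℂ) → MvPolynomial.aeval y G = (0 : ℂ))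
    (a b : Fin n) {g : GL (Fin 2) ℚ} (hg : 0 < g.det.val) (hx : (![x a, x b] : Fin 2 → ℂ) ∈ MR g) :
    (![y a, y b] : Fin 2 → ℂ) ∈ MR g := by
  refine (kclosed_iff.mp (MrA_mr hg)) _ fun p hp => ?_
  obtain ⟨G, hG⟩ := MrA_poly hk a b p
  rw [← hG y]
  apply h
  rw [hG x]
  exact (MvPolynomial.mem_vanishingIdeal_iff.mp hp) _ hx

/-- from a family to a point -/
theorem mr_spec' {k : IntermediateField ℚ ℂ} (hk : AC k) {n : ℕ} {x : Fin n → ℂ} {Y : Set (Fin n → ℂ)}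
    (h : ∀ G : MvPolynomial (Fin n) k, (∀ y ∈ Y, MvPolynomial.aeval y G = (0 : ℂ)) → MvPolynomial.aeval x G = (0 : ℂ))
    (a b : Fin n) {g : GL (Fin 2) ℚ} (hg : 0 < g.det.val) (hY : ∀ y ∈ Y, (![y a, y b] : Fin 2 → ℂ) ∈ MR g) :
    (![x a, x b] : Fin 2 → ℂ) ∈ MR g := by
  refine (kclosed_iff.mp (MrA_mr hg)) _ fun p hp => ?_
  obtain ⟨G, hG⟩ := MrA_poly hk a b p
  rw [← hG x]
  apply h
  intro y hy
  rw [hG y]
  exact (MvPolynomial.mem_vanishingIdeal_iff.mp hp) _ (hY y hy)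

end Pool.Agent.LGO.FC
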