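import Mathlib
import Pool.Agent.LGO.FC.Defs
import Pool.Agent.LGO.FC.IncA

/-!
# LGO/FC: a separable equation

`exists_sep`: `u, v` algebraically independent over `k`, `u, v, t` not.  Then there is `P ∈ k[X₀, X₁][T]` with `P(u, v, t) = 0`
of positive degree in `T` and with a nonzero discriminant: `A P + B P' = c`, `0 ≠ c ∈ k[X₀, X₁]`.

Proof.  `R₀ = MvPolynomial (Fin 2) k`, `K = FractionRing R₀`; `aeval ![u, v] : R₀ → ℂ` is injective, so `ℂ` is a `K`-algebra
and `t` is algebraic over `K` (`alg_of_dep`).  Let `m` be the minimal polynomial of `t` over `K`, separable as the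
characteristic is `0` (`Irreducible.separable`, `minpoly.irreducible`): `a m + b m' = 1` in `K[T]`.  Clear the denominators
(`IsLocalization.integerNormalization` for `K[T]`, or `IsLocalization.exist_integer_multiples_of_finset`): `m = P / d`
with `P ∈ R₀[T]`, and `a = A / d'`, `b = B / d'`: `A P + B P' = c` with `c = d d' ≠ 0`.
-/

namespace Pool.Agent.LGO.FC

open MvPolynomial

/-- a separable equation -/
theorem exists_sep {k : IntermediateField ℚ ℂ} {u v t : ℂ} (h1 : AlgebraicIndependent k ![u, v])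
    (h2 : ¬ AlgebraicIndependent k ![u, v, t]) :
    ∃ P : Polynomial (MvPolynomial (Fin 2) k), 0 < P.natDegree ∧ (pe ![u, v] P).eval t = 0 ∧
      ∃ (A B : Polynomial (MvPolynomial (Fin 2) k)) (c : MvPolynomial (Fin 2) k), c ≠ 0 ∧
        A * P + B * Polynomial.derivative P = Polynomial.C c := by
  classical
  set R₀ := MvPolynomial (Fin 2) k with hR₀
  set K := FractionRing R₀ with hK
  have hinj : Function.Injective
      ((MvPolynomial.aeval ![u, v] : MvPolynomial (Fin 2) k →ₐ[k] ℂ) : MvPolynomial (Fin 2) k →+* ℂ) := h1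
  let φ : K →+* ℂ := IsFractionRing.lift hinj
  have hφ : ∀ x : R₀, φ (algebraMap R₀ K x) = aeval ![u, v] x := fun x =>
    IsFractionRing.lift_algebraMap hinj x
  let _ : Algebra K ℂ := φ.toAlgebra
  have _ : CharZero K := φ.charZero
  have hmapinj : Function.Injective (algebraMap R₀ K) := IsFractionRing.injective R₀ K
  -- `t` is algebraic
  obtain ⟨p, hp0, hp⟩ := alg_of_dep h1 h2
  set P₀ : Polynomial R₀ := p.map (h1.aevalEquiv.symm : _ →+* R₀) with hP₀
  have hcomp : ((MvPolynomial.aeval ![u, v] : MvPolynomial (Fin 2) k →ₐ[k] ℂ) :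
      MvPolynomial (Fin 2) k →+* ℂ).comp (h1.aevalEquiv.symm : _ →+* R₀) =
      algebraMap (Algebra.adjoin k (Set.range ![u, v])) ℂ := by
    ext x
    have h3 := h1.algebraMap_aevalEquiv (h1.aevalEquiv.symm x)
    rw [AlgEquiv.apply_symm_apply] at h3
    exact h3.symm
  have hP₀e : Polynomial.eval₂ φ t (P₀.map (algebraMap R₀ K)) = 0 := by
    rw [Polynomial.eval₂_map]
    have h4 : φ.comp (algebraMap R₀ K) =
        ((MvPolynomial.aeval ![u, v] : MvPolynomial (Fin 2) k →ₐ[k] ℂ) :
          MvPolynomial (Fin 2) k →+* ℂ) := RingHom.ext hφ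
    rw [h4, hP₀, Polynomial.eval₂_map, hcomp]
    exact hp
  have hP₀0 : P₀.map (algebraMap R₀ K) ≠ 0 := by
    rw [Polynomial.map_ne_zero_iff hmapinj, hP₀]
    rw [Polynomial.map_ne_zero_iff (h1.aevalEquiv.symm.injective)]
    exact hp0
  have halg : IsAlgebraic K t := ⟨P₀.map (algebraMap R₀ K), hP₀0, hP₀e⟩
  have hint : IsIntegral K t := halg.isIntegral
  set m := minpoly K t with hm
  have hsep : m.Separable := (minpoly.irreducible hint).separable
  obtain ⟨a, b, hab⟩ := hsep
  obtain ⟨d, hdM, hd⟩ := IsLocalization.integerNormalization_spec (nonZeroDivisors R₀) m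
  obtain ⟨d₁, hd₁M, hd₁⟩ := IsLocalization.integerNormalization_spec (nonZeroDivisors R₀) a
  obtain ⟨d₂, hd₂M, hd₂⟩ := IsLocalization.integerNormalization_spec (nonZeroDivisors R₀) b
  set P := IsLocalization.integerNormalization (nonZeroDivisors R₀) m with hP
  set A := IsLocalization.integerNormalization (nonZeroDivisors R₀) a with hA
  set B := IsLocalization.integerNormalization (nonZeroDivisors R₀) b with hB
  have hs : ∀ (c : R₀) (q : Polynomial K), c • q = Polynomial.C (algebraMap R₀ K c) * q := by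
    intro c q
    rw [← IsScalarTower.algebraMap_smul K c q, Polynomial.smul_eq_C_mul]
  rw [hs] at hd hd₁ hd₂
  have hd0 : d ≠ 0 := nonZeroDivisors.ne_zero hdM
  have hd₁0 : d₁ ≠ 0 := nonZeroDivisors.ne_zero hd₁M
  have hd₂0 : d₂ ≠ 0 := nonZeroDivisors.ne_zero hd₂M
  have hdK : algebraMap R₀ K d ≠ 0 := by
    intro h
    exact hd0 (hmapinj (by rw [h, map_zero]))
  refine ⟨P, ?_, ?_, Polynomial.C d₂ * A, Polynomial.C d₁ * B, d₁ * d₂ * d,
    mul_ne_zero (mul_ne_zero hd₁0 hd₂0) hd0, ?_⟩
  · have h5 : (P.map (algebraMap R₀ K)).natDegree = P.natDegree :=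
      Polynomial.natDegree_map_eq_of_injective hmapinj P
    rw [← h5, hd, Polynomial.natDegree_C_mul hdK]
    exact minpoly.natDegree_pos hint
  · have h4 : φ.comp (algebraMap R₀ K) =
        ((MvPolynomial.aeval ![u, v] : MvPolynomial (Fin 2) k →ₐ[k] ℂ) :
          MvPolynomial (Fin 2) k →+* ℂ) := RingHom.ext hφ
    unfold pe
    have h6 : (m.map φ).eval t = 0 := by
      rw [Polynomial.eval_map]
      exact minpoly.aeval K t
    rw [← h4, ← Polynomial.map_map, hd, Polynomial.map_mul, Polynomial.eval_mul, h6, mul_zero]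
  · apply Polynomial.map_injective _ hmapinj
    rw [Polynomial.map_add, Polynomial.map_mul, Polynomial.map_mul, Polynomial.map_mul,
      Polynomial.map_mul, ← Polynomial.derivative_map, hd, hd₁, hd₂, Polynomial.map_C,
      Polynomial.map_C, Polynomial.map_C, Polynomial.derivative_C_mul, map_mul, map_mul,
      map_mul, map_mul]
    linear_combination (Polynomial.C (algebraMap R₀ K d₁) * Polynomial.C (algebraMap R₀ K d₂) *
      Polynomial.C (algebraMap R₀ K d)) * hab

end Pool.Agent.LGO.FC
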