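import Mathlib
import Pool.Agent.LGO.FC.SepA
import Pool.Agent.LGO.FC.ArcA
import Pool.Agent.LGO.FC.KeyA
import Pool.Agent.LGO.FC.MrA

/-!
# LGO/FC: the data of the core argument

`Dat`: functions `ρ₂`, `ρ₃` on the corner region such that `ξ` and the functions `j(e w₀)`, `j(e w₁)`, `ρ₂`, `ρ₃` have the same relations
over `k`, and `ρ₂`, `ρ₃` are isogenous on the arcs `(t, N t)`, `N ∈ S`.

`exists_dat`.  Proof.  `exists_sep` for `ξ 2` and `ξ 3`: `P₂`, `P₃`.  `exists_roots` for both, `e₂, M₂, R₂, ρ₂`, `e₃, M₃, R₃, ρ₃`; with `Rts.scale`,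
`Rts.mono` for `e = e₂ e₃` and the maxima of the `M` and `R`.  For every `N ∈ S`, `N > M`, take `x = x_N` and `arc`: `(i, i')`.  There are infinitely many
`N ∈ S` and finitely many pairs, so one pair `(i, i')` occurs for all `N` of an infinite subset `S'` of `S` (`Set.Infinite` and
`Finite` pigeonhole: `Set.infinite_iUnion`-type lemma or `Set.Infinite.exists_..`), all `> M`.  `ρ₂ := ρ₂ i`, `ρ₃ := ρ₃ i'`.
`rel` (⇒): `G (ξ) = 0`, so `G (x_N) = 0` (`Tp.spec`), so `F w = G (Jw (e w₀), Jw (e w₁), ρ₂ w, ρ₃ w)` vanishes on the arcs of all `N ∈ S'`.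
`F` is of moderate growth (induction on the polynomial `G` with `Mo.add`, `Mo.mul`, `mo_const`; `pol_mo` for `X_i`), so `F = 0` on
`Om M R` (`key_mo`, one large `N ∈ S'`).
(⇐): `inc_fun` on `Om M R` with `b = ξ`, `κ = Fin 2`, `s = ![0, 1]`: `hspec` is (⇒); `hind`: `pol_ind` (coefficients mapped to `ℂ`);
`halg`: `ξ i`, `i = 2, 3`, is algebraic over `k[ξ 0, ξ 1]` (`alg_of_dep`), trivial for `i = 0, 1`.
`nc2`: suppose `ρ₂ = c` on `Om M R`, `c ∈ ℂ`.  `(pe (jj e w) P₂).eval c = 0` for all `w` (`Rts.split`).  The polynomial `P₂ (X₀, X₁; c) ∈ ℂ[X₀, X₁]`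
vanishes at all `jj e w`, so it is zero (`pol_ind`), so `c` is a root of all the coefficients `∈ k[T]` of the monomials `X₀ ^ i X₁ ^ j` of
`P₂ ≠ 0`, not all zero, so `c` is algebraic over `k`, `c ∈ k`.  Then `X₂ - c ∈ k[X]` vanishes at the functions on `Hp R`, so at `x = x_N` (`arc`,
⇐): `x 2 = c ∈ k`, against `Tp.nk`.  The same for `nc3`.
`alg`: `P₂ ≠ 0`, as a polynomial in `X₀, X₁, X₂` over `ℂ`.
`iso`: `HeckeRel (x 2) (x 3)` gives `(x 2, x 3) ∈ MR g` (`mr_of_rel`), and by `arc` (⇒) and `mr_spec` `(ρ₂ (t, N t), ρ₃ (t, N t)) ∈ MR g` for `t ∈ Hp R`, so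
`HeckeRel` (`rel_of_mr`).
-/

namespace Pool.Agent.LGO.FC

open MvPolynomial Pool.Agent.Hhelper14.ZP Pool.Agent.Hhelper14.ZPL Pool.Agent.LGO

/-- functions on the corner region with the relations of `ξ`, isogenous on infinitely many arcs -/
structure Dat (k : IntermediateField ℚ ℂ) (ξ : Fin 4 → ℂ) (e M R : ℕ) (ρ₂ ρ₃ : ℂ × ℂ → ℂ) (S : Set ℕ) : Prop where
  he : 0 < e
  mo2 : Mo M R ρ₂
  mo3 : Mo M R ρ₃
  nc2 : ¬ ∃ c : ℂ, ∀ w ∈ Om M R, ρ₂ w = c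
  nc3 : ¬ ∃ c : ℂ, ∀ w ∈ Om M R, ρ₃ w = c
  rel : ∀ G : MvPolynomial (Fin 4) k, aeval ξ G = (0 : ℂ) ↔
    ∀ w ∈ Om M R, aeval ![Jw (e * w.1), Jw (e * w.2), ρ₂ w, ρ₃ w] G = (0 : ℂ)
  alg : ∃ G : MvPolynomial (Fin 3) ℂ, G ≠ 0 ∧
    ∀ w ∈ Om M R, eval ![Jw (e * w.1), Jw (e * w.2), ρ₂ w] G = 0
  inf : S.Infinite
  iso : ∀ N ∈ S, M < N → ∀ t ∈ Hp R, HeckeRel (ρ₂ (t, (N : ℂ) * t)) (ρ₃ (t, (N : ℂ) * t))

/-- coefficients in `ℂ` -/
private theorem DatA_ev {k : IntermediateField ℚ ℂ} {n : ℕ} (u : Fin n → ℂ) (G : MvPolynomial (Fin n) k) :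
    eval u (MvPolynomial.map (algebraMap k ℂ) G) = aeval u G := by
  rw [eval_map, aeval_def]

/-- the coordinate functions are of moderate growth -/
private theorem DatA_co {e M R : ℕ} (he : 0 < e) (hM : 1 ≤ M) (hR : 1 ≤ R) {ρ₂ ρ₃ : ℂ × ℂ → ℂ} (h2 : Mo M R ρ₂)
    (h3 : Mo M R ρ₃) (i : Fin 4) :
    Mo M R (fun w => (![Jw (e * w.1), Jw (e * w.2), ρ₂ w, ρ₃ w] : Fin 4 → ℂ) i) := by
  fin_cases i
  · have h := pol_mo he hM hR (X 0)
    simpa [jj] using h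
  · have h := pol_mo he hM hR (X 1)
    simpa [jj] using h
  · exact h2
  · exact h3

/-- polynomials in the coordinate functions are of moderate growth -/
private theorem DatA_mo {k : IntermediateField ℚ ℂ} {e M R : ℕ} (he : 0 < e) (hM : 1 ≤ M) (hR : 1 ≤ R)
    {ρ₂ ρ₃ : ℂ × ℂ → ℂ} (h2 : Mo M R ρ₂) (h3 : Mo M R ρ₃) (G : MvPolynomial (Fin 4) k) :
    Mo M R (fun w => aeval ![Jw (e * w.1), Jw (e * w.2), ρ₂ w, ρ₃ w] G) := by
  induction G using MvPolynomial.induction_on with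
  | C a =>
    refine (mo_const (algebraMap k ℂ a)).ext fun w _ => ?_
    rw [aeval_C]
  | add p q hp hq =>
    refine (hp.add hq).ext fun w _ => ?_
    rw [map_add]
  | mul_X p i hp =>
    refine (hp.mul (DatA_co he hM hR h2 h3 i)).ext fun w _ => ?_
    rw [map_mul, aeval_X]

/-- the polynomial `P` as a polynomial in three variables -/
private noncomputable def DatA_P3 {k : IntermediateField ℚ ℂ} (P : Polynomial (MvPolynomial (Fin 2) k)) :
    MvPolynomial (Fin 3) ℂ :=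
  ∑ m ∈ Finset.range (P.natDegree + 1),
    rename Fin.castSucc (MvPolynomial.map (algebraMap k ℂ) (P.coeff m)) * X 2 ^ m

private theorem DatA_pe {k : IntermediateField ℚ ℂ} (P : Polynomial (MvPolynomial (Fin 2) k)) (u : Fin 2 → ℂ)
    (t : ℂ) : (pe u P).eval t = ∑ m ∈ Finset.range (P.natDegree + 1), aeval u (P.coeff m) * t ^ m := by
  rw [pe, Polynomial.eval_map, Polynomial.eval₂_eq_sum_range]
  rfl

private theorem DatA_P3_ev {k : IntermediateField ℚ ℂ} (P : Polynomial (MvPolynomial (Fin 2) k)) (a b t : ℂ) :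
    eval ![a, b, t] (DatA_P3 P) = (pe ![a, b] P).eval t := by
  rw [DatA_pe, DatA_P3, map_sum]
  refine Finset.sum_congr rfl fun m _ => ?_
  rw [map_mul, map_pow, eval_X, eval_rename]
  have h1 : (![a, b, t] ∘ Fin.castSucc : Fin 2 → ℂ) = ![a, b] := by
    funext i
    fin_cases i <;> rfl
  rw [h1, DatA_ev]
  rfl

/-- a root of the polynomial -/
private theorem DatA_root {k : IntermediateField ℚ ℂ} {e M R : ℕ} {P : Polynomial (MvPolynomial (Fin 2) k)}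
    {ρ : Fin P.natDegree → ℂ × ℂ → ℂ} (r : Rts P e M R ρ) (i : Fin P.natDegree) {w : ℂ × ℂ} (hw : w ∈ Om M R) :
    (pe (jj e w) P).eval (ρ i w) = 0 := by
  rw [r.split w hw, Polynomial.eval_mul, Polynomial.eval_prod]
  rw [Finset.prod_eq_zero (Finset.mem_univ i), mul_zero]
  simp

/-- a constant root is in `k` -/
private theorem DatA_nc {k : IntermediateField ℚ ℂ} (hk : AC k) {e M R : ℕ} (he : 0 < e)
    {P : Polynomial (MvPolynomial (Fin 2) k)} {ρ : Fin P.natDegree → ℂ × ℂ → ℂ} (r : Rts P e M R ρ)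
    (i : Fin P.natDegree) {c : ℂ} (h : ∀ w ∈ Om M R, ρ i w = c) : c ∈ k := by
  apply hk
  have hP : P ≠ 0 := by
    rintro rfl
    exact absurd i.2 (by simp)
  have h0 : (∑ m ∈ Finset.range (P.natDegree + 1),
      MvPolynomial.map (algebraMap k ℂ) (P.coeff m) * C (c ^ m) : MvPolynomial (Fin 2) ℂ) = 0 := by
    refine pol_ind he (M := M) (R := R) fun w hw => ?_
    have h1 := DatA_root r i hw
    rw [h w hw, DatA_pe] at h1
    rw [map_sum, ← h1]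
    refine Finset.sum_congr rfl fun m _ => ?_
    rw [map_mul, eval_C, DatA_ev]
  have h2 : P.coeff P.natDegree ≠ 0 := by
    rw [Polynomial.coeff_natDegree]
    exact Polynomial.leadingCoeff_ne_zero.mpr hP
  obtain ⟨s, hs⟩ := MvPolynomial.ne_zero_iff.mp h2
  refine ⟨∑ m ∈ Finset.range (P.natDegree + 1), Polynomial.C (coeff s (P.coeff m)) * Polynomial.X ^ m, ?_, ?_⟩
  · intro h3
    apply hs
    have h4 := congrArg (fun q => Polynomial.coeff q P.natDegree) h3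
    simp only [Polynomial.finsetSum_coeff, Polynomial.coeff_C_mul, Polynomial.coeff_X_pow,
      Polynomial.coeff_zero, mul_ite, mul_one, mul_zero] at h4
    rw [Finset.sum_ite_eq] at h4
    simpa using h4
  · have h5 := congrArg (coeff s) h0
    rw [MvPolynomial.coeff_sum, MvPolynomial.coeff_zero] at h5
    rw [map_sum, ← h5]
    refine Finset.sum_congr rfl fun m _ => ?_
    rw [map_mul, map_pow, Polynomial.aeval_C, Polynomial.aeval_X, mul_comm (MvPolynomial.map _ _) (C _),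
      coeff_C_mul, coeff_map, mul_comm]

/-- the roots of two polynomials, with the same constants -/
private theorem DatA_pair {k : IntermediateField ℚ ℂ} {u v s t : ℂ} (hi : AlgebraicIndependent k ![u, v])
    (h2 : ¬ AlgebraicIndependent k ![u, v, s]) (h3 : ¬ AlgebraicIndependent k ![u, v, t]) :
    ∃ (P₂ P₃ : Polynomial (MvPolynomial (Fin 2) k)) (e M R : ℕ) (ρ₂ : Fin P₂.natDegree → ℂ × ℂ → ℂ)
      (ρ₃ : Fin P₃.natDegree → ℂ × ℂ → ℂ), (pe ![u, v] P₂).eval s = 0 ∧ (pe ![u, v] P₃).eval t = 0 ∧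
      0 < e ∧ 1 ≤ M ∧ 1 ≤ R ∧ Rts P₂ e M R ρ₂ ∧ Rts P₃ e M R ρ₃ := by
  obtain ⟨P₂, hd₂, hv₂, A₂, B₂, c₂, hc₂, hs₂⟩ := exists_sep hi h2
  obtain ⟨P₃, hd₃, hv₃, A₃, B₃, c₃, hc₃, hs₃⟩ := exists_sep hi h3
  obtain ⟨e₂, M₂, R₂, ρ₂, he₂, hM₂, hR₂, r₂⟩ := exists_roots hd₂ hc₂ hs₂
  obtain ⟨e₃, M₃, R₃, ρ₃, he₃, hM₃, hR₃, r₃⟩ := exists_roots hd₃ hc₃ hs₃
  have h4 := (r₂.scale he₃).mono (le_max_left M₂ M₃) (le_max_left R₂ R₃)
  have h5 := (r₃.scale he₂).mono (le_max_right M₂ M₃) (le_max_right R₂ R₃)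
  rw [mul_comm e₃ e₂] at h5
  exact ⟨P₂, P₃, e₂ * e₃, max M₂ M₃, max R₂ R₃, _, _, hv₂, hv₃, Nat.mul_pos he₂ he₃,
    hM₂.trans (le_max_left _ _), hR₂.trans (le_max_left _ _), h4, h5⟩

theorem exists_dat {k : IntermediateField ℚ ℂ} (hk : AC k) {ξ : Fin 4 → ℂ}
    (hi : AlgebraicIndependent k ![ξ 0, ξ 1]) (h2 : ¬ AlgebraicIndependent k ![ξ 0, ξ 1, ξ 2])
    (h3 : ¬ AlgebraicIndependent k ![ξ 0, ξ 1, ξ 3]) {S : Set ℕ} (hS : S.Infinite)
    (hx : ∀ N ∈ S, ∃ x, Tp k ξ N x) : ∃ (e M R : ℕ) (ρ₂ ρ₃ : ℂ × ℂ → ℂ) (S' : Set ℕ), Dat k ξ e M R ρ₂ ρ₃ S' := by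
  classical
  obtain ⟨P₂, P₃, e, M, R, ρ₂, ρ₃, hv₂, hv₃, he, hM, hR, r₂, r₃⟩ := DatA_pair hi h2 h3
  -- pigeonhole
  let Q : Fin P₂.natDegree × Fin P₃.natDegree → ℕ → Prop := fun p N => ∃ x, Tp k ξ N x ∧
    ∀ G : MvPolynomial (Fin 4) k, aeval x G = (0 : ℂ) ↔
      ∀ t ∈ Hp R, aeval ![Jw (e * t), Jw (e * (N * t)), ρ₂ p.1 (t, (N : ℂ) * t), ρ₃ p.2 (t, (N : ℂ) * t)] G =
        (0 : ℂ)
  obtain ⟨p, hinf⟩ : ∃ p, {N ∈ S \ Set.Iic M | Q p N}.Infinite := by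
    by_contra hcon
    push Not at hcon
    have h4 : (S \ Set.Iic M).Infinite := hS.sdiff (Set.finite_Iic M)
    apply h4
    refine (Set.finite_iUnion hcon).subset fun N hN => ?_
    obtain ⟨x, hT⟩ := hx N hN.1
    have hMN : M < N := not_le.mp hN.2
    obtain ⟨i, i', hii⟩ := arc hk hT hv₂ hv₃ he r₂ r₃ hMN
    exact Set.mem_iUnion.mpr ⟨(i, i'), hN, x, hT, hii⟩
  obtain ⟨i, i'⟩ := p
  have fwd : ∀ G : MvPolynomial (Fin 4) k, aeval ξ G = (0 : ℂ) →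
      ∀ w ∈ Om M R, aeval ![Jw (e * w.1), Jw (e * w.2), ρ₂ i w, ρ₃ i' w] G = (0 : ℂ) := by
    intro G hG
    obtain ⟨N₀, -, key⟩ := key_mo (DatA_mo he hM hR (r₂.mo i) (r₃.mo i') G)
    obtain ⟨N, hN, hNN⟩ := hinf.exists_gt N₀
    obtain ⟨-, x, hT, hxG⟩ := hN
    exact key N hNN.le ((hxG G).1 (hT.spec G hG))
  -- one point
  obtain ⟨N₁, hN₁⟩ := hinf.nonempty
  obtain ⟨hN₁S, x₁, hT₁, hx₁⟩ := hN₁
  have hMN₁ : M < N₁ := not_le.mp hN₁S.2
  refine ⟨e, M, R, ρ₂ i, ρ₃ i', {N ∈ S \ Set.Iic M | Q (i, i') N}, he, r₂.mo i, r₃.mo i', ?_, ?_, ?_, ?_,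
    hinf, ?_⟩
  · rintro ⟨c, hc⟩
    have hck := DatA_nc hk he r₂ i hc
    have h6 := (hx₁ (X 2 - C ⟨c, hck⟩)).2 fun t ht => by
      rw [map_sub, aeval_X, aeval_C]
      exact sub_eq_zero.mpr (hc _ (arc_mem hMN₁ ht))
    rw [map_sub, aeval_X, aeval_C] at h6
    have h7 : x₁ 2 = c := sub_eq_zero.mp h6
    exact hT₁.nk 2 (h7 ▸ hck)
  · rintro ⟨c, hc⟩
    have hck := DatA_nc hk he r₃ i' hc
    have h6 := (hx₁ (X 3 - C ⟨c, hck⟩)).2 fun t ht => by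
      rw [map_sub, aeval_X, aeval_C]
      exact sub_eq_zero.mpr (hc _ (arc_mem hMN₁ ht))
    rw [map_sub, aeval_X, aeval_C] at h6
    have h7 : x₁ 3 = c := sub_eq_zero.mp h6
    exact hT₁.nk 3 (h7 ▸ hck)
  · intro G
    refine ⟨fwd G, fun hG => ?_⟩
    refine inc_fun (k := k) isOpen_Om Om_ne seg_Om ξ
      (fun j w => (![Jw (e * w.1), Jw (e * w.2), ρ₂ i w, ρ₃ i' w] : Fin 4 → ℂ) j)
      (fun j => (DatA_co he hM hR (r₂.mo i) (r₃.mo i') j).hol) (![0, 1] : Fin 2 → Fin 4) fwd ?_ ?_ G hG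
    · intro H hH
      have h8 : MvPolynomial.map (algebraMap k ℂ) H = 0 := by
        refine pol_ind he (M := M) (R := R) fun w hw => ?_
        rw [DatA_ev, ← hH w hw]
        congr 2
        funext j
        fin_cases j <;> rfl
      exact MvPolynomial.map_injective _ (algebraMap k ℂ).injective (by rw [h8, map_zero])
    · have h9 : (fun j => ξ ((![0, 1] : Fin 2 → Fin 4) j)) = ![ξ 0, ξ 1] := by
        funext j
        fin_cases j <;> rfl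
      rw [h9]
      intro j
      fin_cases j
      · exact isAlgebraic_algebraMap
          (⟨ξ 0, Algebra.subset_adjoin ⟨0, rfl⟩⟩ : Algebra.adjoin k (Set.range ![ξ 0, ξ 1]))
      · exact isAlgebraic_algebraMap
          (⟨ξ 1, Algebra.subset_adjoin ⟨1, rfl⟩⟩ : Algebra.adjoin k (Set.range ![ξ 0, ξ 1]))
      · exact alg_of_dep hi h2
      · exact alg_of_dep hi h3
  · refine ⟨DatA_P3 P₂, ?_, fun w hw => ?_⟩
    · intro h0
      obtain ⟨w, hw⟩ := Om_ne (M := M) (R := R)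
      have h10 : pe (jj e w) P₂ ≠ 0 := by
        rw [r₂.split w hw]
        refine mul_ne_zero (Polynomial.C_ne_zero.mpr (r₂.lc w hw)) ?_
        exact Finset.prod_ne_zero_iff.mpr fun j _ => Polynomial.X_sub_C_ne_zero _
      apply h10
      refine Polynomial.funext fun t => ?_
      rw [Polynomial.eval_zero, jj, ← DatA_P3_ev, h0, map_zero]
    · rw [DatA_P3_ev]
      exact DatA_root r₂ i hw
  · intro N hN hMN t ht
    obtain ⟨-, x, hT, hxG⟩ := hN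
    obtain ⟨g, hg, hgx⟩ := mr_of_rel hT.rel
    exact rel_of_mr hg (mr_spec hk (fun G hG => (hxG G).1 hG t ht) 2 3 hg hgx)

end Pool.Agent.LGO.FC
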