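import Mathlib
import Pool.Agent.LGO.FC.PolA

/-!
# LGO/FC: `j(a τ₀ + b τ₁ + c)` is not algebraic over `ℂ(j(e τ₀), j(e τ₁))`

`a ≠ 0`, `b > 0` integers, `c` real.

Proof.  Write `w₀ = 2 π i τ₀`, `w₁ = 2 π i τ₁`.  Let `D = {(w₀, w₁) | Re w₀ < 0, Re w₁ < 0, a Re w₀ + b Re w₁ < 0}`, open and convex.
`f w = G (Jw (e w₀), Jw (e w₁), jF ((a w₀ + b w₁) / (2 π i) + c))` is holomorphic on `D` (`Im ((a w₀ + b w₁) / (2 π i)) = - (a Re w₀ + b Re w₁) / (2 π)`, `c` real)
and zero on the open set `Om M R ∩ D`; this set is not empty (`b > 0`: take `Re w₁` very negative), so `f = 0` on `D` (`ident`).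
Write `G = ∑_{m ≤ d} G_m (X₁, X₂) X₀ ^ m`, `G_d ≠ 0` (`finSuccEquiv`).
Let `w₀ = 2 π i s - y`, `y → 0+`, `s = 1 / (e m)`: `τ₀ = s + i y / (2 π)`.  `a Re w₀ + b Re w₁ = - a y + b Re w₁ < 0` for small `y`, so
`(w₀, w₁) ∈ D`.  `Jw (e w₀) = j (1 / m + i e y / (2 π)) → ∞` (`γ ∈ SL₂(ℤ)` with rows `(1, 0)`, `(-m, 1)`:
`γ(1 / m + i η) = - 1 / m + i / (m ^ 2 η)`, and `|j(τ)| → ∞` as `Im τ → ∞`), and the third argument tends to
`ζ(s) = jF (a s + b w₁ / (2 π i) + c)`, continuous at this point of the upper half plane.  Dividing by `X₀ ^ d`: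
`G_d (Jw (e w₁), ζ(s)) = 0`.  The holomorphic function `z ↦ G_d (Jw (e w₁), jF z)` on the upper half plane vanishes at
`a s + b w₁ / (2 π i) + c` for `s = 1 / (e m)`; these points accumulate (`a ≠ 0`), so it vanishes identically (identity theorem).
As `j` is surjective, `G_d` is zero at all points: a contradiction.
-/

namespace Pool.Agent.LGO.FC

open Complex Pool.Agent.LGO

/-- `1 / j` tends to `0` at the cusp -/
theorem ExcA_cusp (ε : ℝ) (hε : 0 < ε) : ∃ B : ℝ, 0 < B ∧ ∀ τ : UpperHalfPlane, B ≤ τ.im →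
    Pool.Agent.Hhelper14.ZP.jInv τ ≠ 0 ∧ ‖(Pool.Agent.Hhelper14.ZP.jInv τ)⁻¹‖ < ε := by
  obtain ⟨C, hC, h⟩ := j_cusp
  have hpi := Real.pi_pos
  -- `‖q‖ = exp (- 2 π Im τ) ≤ 1 / (1 + 2 π Im τ)`
  refine ⟨1 + 2 * C + 2 / ε, by positivity, fun τ hτ => ?_⟩
  have h2e : 0 < 2 / ε := by positivity
  have him : 1 / 2 ≤ τ.im := by linarith
  have h1 := h τ him
  set q := Complex.exp (2 * Real.pi * Complex.I * τ) with hq
  have hqn : ‖q‖ = Real.exp (-(2 * Real.pi * τ.im)) := by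
    rw [hq, Complex.norm_exp]
    congr 1
    simp [Complex.mul_re, Complex.mul_im]
  have hb : 1 + 2 * C + 2 / ε ≤ 2 * Real.pi * τ.im := by
    have : τ.im ≤ 2 * Real.pi * τ.im := by nlinarith [Real.pi_gt_three, τ.im_pos]
    linarith
  have hb2 : 1 + 2 * C + 2 / ε < Real.exp (2 * Real.pi * τ.im) := by
    have := Real.add_one_le_exp (2 * Real.pi * τ.im)
    linarith
  have hq2 : ‖q‖ * Real.exp (2 * Real.pi * τ.im) = 1 := by
    rw [hqn, ← Real.exp_add]
    simp
  have hqpos : 0 < ‖q‖ := by rw [hqn]; exact Real.exp_pos _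
  have hs1 : C * ‖q‖ < 1 / 2 := by
    have : ‖q‖ * (1 + 2 * C + 2 / ε) < 1 := by
      calc ‖q‖ * (1 + 2 * C + 2 / ε) < ‖q‖ * Real.exp (2 * Real.pi * τ.im) :=
            mul_lt_mul_of_pos_left hb2 hqpos
        _ = 1 := hq2
    nlinarith [mul_pos hqpos h2e]
  have hs2 : ‖q‖ * (2 / ε) < 1 := by
    have : ‖q‖ * (1 + 2 * C + 2 / ε) < 1 := by
      calc ‖q‖ * (1 + 2 * C + 2 / ε) < ‖q‖ * Real.exp (2 * Real.pi * τ.im) :=
            mul_lt_mul_of_pos_left hb2 hqpos
        _ = 1 := hq2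
    nlinarith [mul_pos hqpos hC]
  set J := Pool.Agent.Hhelper14.ZP.jInv τ with hJ
  have h3 : 1 / 2 < ‖J‖ * ‖q‖ := by
    rw [← norm_mul]
    have h4 : (1 : ℝ) ≤ ‖J * q‖ + ‖J * q - 1‖ := by
      have h5 := norm_sub_norm_le (1 : ℂ) (J * q)
      rw [norm_one, norm_sub_rev] at h5
      linarith
    linarith
  have hJ0 : 0 < ‖J‖ := by
    by_contra hc
    have : ‖J‖ = 0 := le_antisymm (not_lt.mp hc) (norm_nonneg _)
    rw [this] at h3
    linarith
  refine ⟨norm_pos_iff.mp hJ0, ?_⟩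
  rw [norm_inv, inv_lt_iff_one_lt_mul₀ hJ0]
  have h6 : ‖q‖ < ε / 2 := by
    have : ‖q‖ * (2 / ε) * (ε / 2) < 1 * (ε / 2) := mul_lt_mul_of_pos_right hs2 (by positivity)
    have h7 : ‖q‖ * (2 / ε) * (ε / 2) = ‖q‖ := by field_simp
    linarith
  nlinarith [mul_lt_mul_of_pos_left h6 hJ0]

/-- the values of `j` near the cusp `1 / m` -/
theorem ExcA_gam (m : ℕ) (hm : 0 < m) (η : ℝ) (hη : 0 < η) : ∃ τ : UpperHalfPlane,
    τ.im = 1 / ((m : ℝ) ^ 2 * η) ∧ jF (1 / m + η * I) = Pool.Agent.Hhelper14.ZP.jInv τ := by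
  have him : 0 < ((1 : ℂ) / m + η * I).im := by
    have : ((1 : ℂ) / m + η * I).im = η := by
      have h1 : ((1 : ℂ) / m).im = 0 := by
        have : (1 : ℂ) / m = (((1 : ℝ) / m : ℝ) : ℂ) := by push_cast; rfl
        rw [this, Complex.ofReal_im]
      rw [Complex.add_im, h1]
      simp
    rw [this]; exact hη
  let σ : UpperHalfPlane := ⟨(1 : ℂ) / m + η * I, him⟩
  let γ : Matrix.SpecialLinearGroup (Fin 2) ℤ := ⟨!![1, 0; -(m : ℤ), 1], by simp [Matrix.det_fin_two]⟩
  refine ⟨γ • σ, ?_, ?_⟩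
  · have h1 := UpperHalfPlane.coe_specialLinearGroup_apply γ σ
    have hm' : (m : ℂ) ≠ 0 := by exact_mod_cast hm.ne'
    have hη' : (η : ℂ) ≠ 0 := by exact_mod_cast hη.ne'
    have h2 : ((γ • σ : UpperHalfPlane) : ℂ) = ((-(1 / m) : ℝ) : ℂ) + ((1 / ((m : ℝ) ^ 2 * η) : ℝ) : ℂ) * I := by
      rw [h1]
      have e1 : γ 0 0 = 1 := rfl
      have e2 : γ 0 1 = 0 := rfl
      have e3 : γ 1 0 = -(m : ℤ) := rfl
      have e4 : γ 1 1 = 1 := rfl
      have e5 : ((σ : UpperHalfPlane) : ℂ) = (1 : ℂ) / m + η * I := rfl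
      rw [e1, e2, e3, e4, e5]
      simp only [map_one, map_zero, map_neg, map_natCast]
      push_cast
      have h3 : (-(m : ℂ) * (1 / m + η * I) + 1) = -(m * η * I) := by
        field_simp
        ring
      rw [h3, div_eq_iff (by
        rw [neg_ne_zero]
        exact mul_ne_zero (mul_ne_zero hm' hη') I_ne_zero)]
      field_simp
      linear_combination (1 : ℂ) * I_sq
    have h3 : (γ • σ : UpperHalfPlane).im = ((γ • σ : UpperHalfPlane) : ℂ).im := rfl
    rw [h3, h2, Complex.add_im, Complex.ofReal_im, zero_add, Complex.im_ofReal_mul, Complex.I_im, mul_one]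
  · rw [Pool.Agent.Hhelper14.ZP.jInv_smul, ← jF_coe]

/-- `1 / j` tends to `0` at the cusp `1 / m` -/
theorem ExcA_inf (m : ℕ) (hm : 0 < m) : Filter.Tendsto (fun η : ℝ => (jF (1 / m + η * I))⁻¹)
    (nhdsWithin 0 (Set.Ioi 0)) (nhds 0) ∧
    ∀ᶠ η : ℝ in nhdsWithin 0 (Set.Ioi 0), jF (1 / m + η * I) ≠ 0 := by
  have key : ∀ ε > 0, ∀ᶠ η : ℝ in nhdsWithin 0 (Set.Ioi 0), jF (1 / m + η * I) ≠ 0 ∧
      ‖(jF (1 / m + η * I))⁻¹‖ < ε := by
    intro ε hε
    obtain ⟨B, hB, h⟩ := ExcA_cusp ε hε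
    have hm' : (0 : ℝ) < m := by exact_mod_cast hm
    have h1 : ∀ᶠ η : ℝ in nhdsWithin 0 (Set.Ioi 0), η < 1 / ((m : ℝ) ^ 2 * B) :=
      (eventually_lt_nhds (by positivity)).filter_mono nhdsWithin_le_nhds
    filter_upwards [h1, self_mem_nhdsWithin] with η hη1 hη0
    have hη0' : 0 < η := hη0
    obtain ⟨τ, hτ, hj⟩ := ExcA_gam m hm η hη0'
    rw [hj]
    apply h
    rw [hτ, le_div_iff₀ (by positivity)]
    rw [lt_div_iff₀ (by positivity)] at hη1
    nlinarith
  refine ⟨?_, (key 1 one_pos).mono fun η h => h.1⟩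
  rw [Metric.tendsto_nhds]
  intro ε hε
  filter_upwards [key ε hε] with η h
  rw [dist_zero_right]
  exact h.2

/-- polynomials in holomorphic functions -/
theorem ExcA_hol {E : Type*} [NormedAddCommGroup E] [NormedSpace ℂ E] {Ω : Set E} {k : ℕ} (g : Fin k → E → ℂ)
    (hg : ∀ i, DifferentiableOn ℂ (g i) Ω) (P : MvPolynomial (Fin k) ℂ) :
    DifferentiableOn ℂ (fun w => MvPolynomial.eval (fun i => g i w) P) Ω := by
  induction P using MvPolynomial.induction_on with
  | C a => simp only [MvPolynomial.eval_C]; exact differentiableOn_const a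
  | add p q hp hq => simp only [map_add]; exact hp.add hq
  | mul_X p i hp => simp only [map_mul, MvPolynomial.eval_X]; exact hp.mul (hg i)

/-- the argument `(a w₀ + b w₁) / (2 π i) + c` -/
theorem ExcA_im (z : ℂ) (c : ℝ) : (z / (2 * Real.pi * I) + c).im = -(z.re / (2 * Real.pi)) := by
  have hpi : (Real.pi : ℂ) ≠ 0 := by exact_mod_cast Real.pi_pos.ne'
  have h1 : z / (2 * Real.pi * I) = ((1 / (2 * Real.pi) : ℝ) : ℂ) * (-(I * z)) := by
    push_cast
    rw [div_eq_iff (by simp [hpi])]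
    field_simp
    linear_combination z * I_sq
  rw [h1, Complex.add_im, Complex.ofReal_im, add_zero, Complex.im_ofReal_mul, Complex.neg_im, Complex.I_mul_im]
  ring

theorem ExcA_dom_open (a b : ℤ) :
    IsOpen {w : ℂ × ℂ | w.1.re < 0 ∧ w.2.re < 0 ∧ (a : ℝ) * w.1.re + b * w.2.re < 0} := by
  have c1 : Continuous fun w : ℂ × ℂ => w.1.re := Complex.continuous_re.comp continuous_fst
  have c2 : Continuous fun w : ℂ × ℂ => w.2.re := Complex.continuous_re.comp continuous_snd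
  exact (isOpen_lt c1 continuous_const).inter ((isOpen_lt c2 continuous_const).inter
    (isOpen_lt ((continuous_const.mul c1).add (continuous_const.mul c2)) continuous_const))

theorem ExcA_dom_seg (a b : ℤ) : ∀ w ∈ {w : ℂ × ℂ | w.1.re < 0 ∧ w.2.re < 0 ∧ (a : ℝ) * w.1.re + b * w.2.re < 0},
    ∀ w' ∈ {w : ℂ × ℂ | w.1.re < 0 ∧ w.2.re < 0 ∧ (a : ℝ) * w.1.re + b * w.2.re < 0},
    ∀ s : ℝ, 0 ≤ s → s ≤ 1 → w + (s : ℂ) • (w' - w) ∈
      {w : ℂ × ℂ | w.1.re < 0 ∧ w.2.re < 0 ∧ (a : ℝ) * w.1.re + b * w.2.re < 0} := by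
  rintro w ⟨h1, h2, h3⟩ w' ⟨h1', h2', h3'⟩ s hs0 hs1
  have key : ∀ x y : ℝ, x < 0 → y < 0 → x + s * (y - x) < 0 := by
    intro x y hx hy
    rcases eq_or_lt_of_le hs0 with h | h
    · rw [← h]; linarith
    · nlinarith [mul_pos h (neg_pos.mpr hy), mul_nonneg (sub_nonneg.mpr hs1) (neg_pos.mpr hx).le]
  have e1 : (w + (s : ℂ) • (w' - w)).1.re = w.1.re + s * (w'.1.re - w.1.re) := by
    simp
  have e2 : (w + (s : ℂ) • (w' - w)).2.re = w.2.re + s * (w'.2.re - w.2.re) := by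
    simp
  refine ⟨?_, ?_, ?_⟩
  · rw [e1]; exact key _ _ h1 h1'
  · rw [e2]; exact key _ _ h2 h2'
  · rw [e1, e2]
    have := key _ _ h3 h3'
    nlinarith

/-- step 1: the relation holds on `D` -/
theorem ExcA_ext {e M R : ℕ} (he : 0 < e) {a b : ℤ} (hb : 0 < b) (c : ℝ) {G : MvPolynomial (Fin 3) ℂ}
    (h : ∀ w ∈ Om M R, MvPolynomial.eval
      ![Jw (e * w.1), Jw (e * w.2), jF ((a * w.1 + b * w.2) / (2 * Real.pi * I) + c)] G = 0) :
    ∀ w : ℂ × ℂ, w.1.re < 0 → w.2.re < 0 → (a : ℝ) * w.1.re + b * w.2.re < 0 → MvPolynomial.eval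
      ![Jw (e * w.1), Jw (e * w.2), jF ((a * w.1 + b * w.2) / (2 * Real.pi * I) + c)] G = 0 := by
  have he' : (0 : ℝ) < e := by exact_mod_cast he
  have hb' : (1 : ℝ) ≤ b := by exact_mod_cast hb
  set D : Set (ℂ × ℂ) := {w : ℂ × ℂ | w.1.re < 0 ∧ w.2.re < 0 ∧ (a : ℝ) * w.1.re + b * w.2.re < 0} with hD
  have hol0 : DifferentiableOn ℂ (fun w : ℂ × ℂ => Jw (e * w.1)) D := by
    refine jw_hol.comp (((differentiable_const _).mul differentiable_fst).differentiableOn) ?_
    intro w hw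
    change ((e : ℂ) * w.1).re < -((0 : ℕ) : ℝ)
    have h1 : ((e : ℂ) * w.1).re = e * w.1.re := by simp
    have h2 : w.1.re < 0 := hw.1
    rw [h1]
    push_cast
    nlinarith
  have hol1 : DifferentiableOn ℂ (fun w : ℂ × ℂ => Jw (e * w.2)) D := by
    refine jw_hol.comp (((differentiable_const _).mul differentiable_snd).differentiableOn) ?_
    intro w hw
    change ((e : ℂ) * w.2).re < -((0 : ℕ) : ℝ)
    have h1 : ((e : ℂ) * w.2).re = e * w.2.re := by simp
    have h2 : w.2.re < 0 := hw.2.1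
    rw [h1]
    push_cast
    nlinarith
  have hol2 : DifferentiableOn ℂ (fun w : ℂ × ℂ => jF ((a * w.1 + b * w.2) / (2 * Real.pi * I) + c)) D := by
    have hd : Differentiable ℂ (fun w : ℂ × ℂ => ((a : ℂ) * w.1 + b * w.2) / (2 * Real.pi * I) + c) := by
      fun_prop
    refine jF_analytic.differentiableOn.comp hd.differentiableOn ?_
    intro w hw
    change 0 < (((a : ℂ) * w.1 + b * w.2) / (2 * Real.pi * I) + c).im
    rw [ExcA_im]
    have h1 : ((a : ℂ) * w.1 + b * w.2).re = a * w.1.re + b * w.2.re := by simp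
    have h2 : (a : ℝ) * w.1.re + b * w.2.re < 0 := hw.2.2
    rw [h1]
    have hpi := Real.pi_pos
    have : ((a : ℝ) * w.1.re + b * w.2.re) / (2 * Real.pi) < 0 := div_neg_of_neg_of_pos h2 (by positivity)
    linarith
  have hol : DifferentiableOn ℂ (fun w : ℂ × ℂ => MvPolynomial.eval
      ![Jw (e * w.1), Jw (e * w.2), jF ((a * w.1 + b * w.2) / (2 * Real.pi * I) + c)] G) D := by
    have := ExcA_hol (Ω := D) (k := 3) ![fun w : ℂ × ℂ => Jw (e * w.1), fun w : ℂ × ℂ => Jw (e * w.2),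
      fun w : ℂ × ℂ => jF ((a * w.1 + b * w.2) / (2 * Real.pi * I) + c)] (by
        intro i
        fin_cases i
        · exact hol0
        · exact hol1
        · exact hol2) G
    refine this.congr fun w _ => ?_
    congr 2
    funext i
    fin_cases i <;> rfl
  -- a point of `Om M R ∩ D`
  set T : ℝ := (M + |(a : ℝ)| + 1) * (R + 1) with hT
  set w₀ : ℂ × ℂ := (((-(R + 1) : ℝ) : ℂ), ((-T : ℝ) : ℂ)) with hw₀
  have hR : (0 : ℝ) < (R : ℝ) + 1 := by positivity
  have hM : (0 : ℝ) ≤ M := by positivity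
  have ha0 : (0 : ℝ) ≤ |(a : ℝ)| := abs_nonneg _
  have hTpos : 0 < T := by positivity
  have r1 : w₀.1.re = -(R + 1) := by simp [hw₀]
  have r2 : w₀.2.re = -T := by simp [hw₀]
  have m1 : w₀ ∈ Om M R := by
    refine ⟨?_, ?_⟩
    · rw [r1]; linarith
    · rw [r1, r2, hT]
      nlinarith [mul_nonneg ha0 hR.le]
  have m2 : w₀ ∈ D := by
    refine ⟨?_, ?_, ?_⟩
    · rw [r1]; linarith
    · rw [r2]; linarith
    · rw [r1, r2]
      have h1 : -(a : ℝ) ≤ |(a : ℝ)| := neg_le_abs _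
      have h2 : -(a : ℝ) * (R + 1) ≤ |(a : ℝ)| * (R + 1) := mul_le_mul_of_nonneg_right h1 hR.le
      have h3 : T ≤ b * T := by nlinarith
      have h4 : |(a : ℝ)| * (R + 1) < T := by
        rw [hT]
        nlinarith [mul_nonneg hM hR.le]
      nlinarith
  have hev : ∀ᶠ z in nhds w₀, MvPolynomial.eval
      ![Jw (e * z.1), Jw (e * z.2), jF ((a * z.1 + b * z.2) / (2 * Real.pi * I) + c)] G = 0 := by
    filter_upwards [isOpen_Om.mem_nhds m1] with z hz
    exact h z hz
  have hfin := ident (ExcA_dom_open a b) (ExcA_dom_seg a b) hol m2 hev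
  intro w h1 h2 h3
  exact hfin w ⟨h1, h2, h3⟩

/-- the leading coefficient -/
theorem ExcA_lead {ι : Type*} {F : Filter ι} [F.NeBot] {d : ℕ} (u : ι → ℂ) (v : ℕ → ι → ℂ) (v₀ : ℕ → ℂ)
    (hu : Filter.Tendsto (fun i => (u i)⁻¹) F (nhds 0)) (hu0 : ∀ᶠ i in F, u i ≠ 0)
    (hv : ∀ m, Filter.Tendsto (v m) F (nhds (v₀ m)))
    (h : ∀ᶠ i in F, ∑ m ∈ Finset.range (d + 1), v m i * u i ^ m = 0) : v₀ d = 0 := by
  have h1 : Filter.Tendsto (fun i => ∑ m ∈ Finset.range (d + 1), v m i * (u i)⁻¹ ^ (d - m)) F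
      (nhds (∑ m ∈ Finset.range (d + 1), v₀ m * 0 ^ (d - m))) := by
    refine tendsto_finsetSum _ fun m _ => ?_
    exact (hv m).mul (hu.pow _)
  have h2 : ∀ᶠ i in F, ∑ m ∈ Finset.range (d + 1), v m i * (u i)⁻¹ ^ (d - m) = 0 := by
    filter_upwards [h, hu0] with i hi hi0
    have h3 : ∑ m ∈ Finset.range (d + 1), v m i * (u i)⁻¹ ^ (d - m) =
        (∑ m ∈ Finset.range (d + 1), v m i * u i ^ m) * (u i)⁻¹ ^ d := by
      rw [Finset.sum_mul]
      refine Finset.sum_congr rfl fun m hm => ?_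
      have hm' : m ≤ d := by
        have := Finset.mem_range.mp hm
        omega
      have h4 : (u i)⁻¹ ^ d = (u i)⁻¹ ^ (d - m) * (u i)⁻¹ ^ m := by
        rw [← pow_add]
        congr 1
        omega
      rw [h4, mul_assoc, mul_comm ((u i)⁻¹ ^ (d - m)), ← mul_assoc (u i ^ m), ← mul_pow,
        mul_inv_cancel₀ hi0, one_pow, one_mul]
    rw [h3, hi, zero_mul]
  have h5 : Filter.Tendsto (fun i => ∑ m ∈ Finset.range (d + 1), v m i * (u i)⁻¹ ^ (d - m)) F (nhds 0) := by
    refine Filter.Tendsto.congr' ?_ tendsto_const_nhds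
    filter_upwards [h2] with i hi
    rw [hi]
  have h6 := tendsto_nhds_unique h1 h5
  rw [Finset.sum_range_succ] at h6
  have h7 : ∑ m ∈ Finset.range d, v₀ m * (0 : ℂ) ^ (d - m) = 0 := by
    refine Finset.sum_eq_zero fun m hm => ?_
    have : d - m ≠ 0 := by
      have := Finset.mem_range.mp hm
      omega
    rw [zero_pow this, mul_zero]
  rw [h7] at h6
  simpa using h6

/-- `j(a τ₀ + b τ₁ + c)` is not algebraic over `ℂ(j(e τ₀), j(e τ₁))` -/
theorem excl {e M R : ℕ} (he : 0 < e) {a b : ℤ} (ha : a ≠ 0) (hb : 0 < b) (c : ℝ)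
    {G : MvPolynomial (Fin 3) ℂ} (hG : G ≠ 0)
    (h : ∀ w ∈ Om M R, MvPolynomial.eval
      ![Jw (e * w.1), Jw (e * w.2), jF ((a * w.1 + b * w.2) / (2 * Real.pi * I) + c)] G = 0) : False := by
  have hext := ExcA_ext he hb c h
  have he' : (0 : ℝ) < e := by exact_mod_cast he
  have heC : (e : ℂ) ≠ 0 := by exact_mod_cast he.ne'
  have hb' : (0 : ℝ) < b := by exact_mod_cast hb
  have haC : (a : ℂ) ≠ 0 := by exact_mod_cast ha
  have hpi := Real.pi_pos
  have hpiC : (Real.pi : ℂ) ≠ 0 := by exact_mod_cast hpi.ne'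
  set P := MvPolynomial.finSuccEquiv ℂ 2 G with hP
  have hP0 : P ≠ 0 := by
    rw [hP]
    exact (map_ne_zero_iff _ (MvPolynomial.finSuccEquiv ℂ 2).injective).mpr hG
  set L := P.leadingCoeff with hL
  have hL0 : L ≠ 0 := Polynomial.leadingCoeff_ne_zero.mpr hP0
  apply hL0
  -- the relation at the boundary points
  have hbd : ∀ w₁ : ℂ, w₁.re < 0 → ∀ m : ℕ, 0 < m → MvPolynomial.eval
      ![Jw (e * w₁), jF (a / (e * m) + (b * w₁ / (2 * Real.pi * I) + c))] L = 0 := by
    intro w₁ hw₁ m hm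
    have hmC : (m : ℂ) ≠ 0 := by exact_mod_cast hm.ne'
    -- the path
    set W : ℝ → ℂ := fun y => 2 * Real.pi * I * (1 / (e * m)) - y with hW
    have hWre : ∀ y, (W y).re = -y := by
      intro y
      have h1 : (2 * Real.pi * I * (1 / (e * m)) : ℂ) = ((2 * Real.pi * (1 / (e * m)) : ℝ) : ℂ) * I := by
        push_cast
        ring
      simp only [hW]
      rw [h1, Complex.sub_re, Complex.ofReal_re, Complex.re_ofReal_mul, Complex.I_re, mul_zero, zero_sub]
    set Z : ℝ → ℂ := fun y => (a * W y + b * w₁) / (2 * Real.pi * I) + c with hZ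
    have hZ0 : Z 0 = a / (e * m) + (b * w₁ / (2 * Real.pi * I) + c) := by
      simp only [hZ, hW, Complex.ofReal_zero, sub_zero]
      field_simp
      ring
    have hZim : 0 < (Z 0).im := by
      simp only [hZ]
      rw [ExcA_im]
      have h1 : ((a : ℂ) * W 0 + b * w₁).re = b * w₁.re := by
        have := hWre 0
        simp only [Complex.add_re, Complex.mul_re, Complex.intCast_re, Complex.intCast_im, zero_mul, sub_zero,
          this, neg_zero, mul_zero, zero_add]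
      rw [h1]
      have : (b : ℝ) * w₁.re / (2 * Real.pi) < 0 := div_neg_of_neg_of_pos (by nlinarith) (by positivity)
      linarith
    have hZc : Continuous Z := by
      simp only [hZ, hW]
      fun_prop
    have hjc : ContinuousAt (fun y => jF (Z y)) 0 :=
      ContinuousAt.comp (f := Z) (g := jF) (x := (0 : ℝ)) (jF_analytic (Z 0) hZim).continuousAt hZc.continuousAt
    -- the values of `j` tend to infinity
    have hpath : Filter.Tendsto (fun y : ℝ => e * y / (2 * Real.pi)) (nhdsWithin 0 (Set.Ioi 0))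
        (nhdsWithin 0 (Set.Ioi 0)) := by
      refine tendsto_nhdsWithin_iff.mpr ⟨?_, ?_⟩
      · have h3 : Filter.Tendsto (fun y : ℝ => e * y / (2 * Real.pi)) (nhds 0) (nhds (e * 0 / (2 * Real.pi))) := by
          apply Continuous.tendsto
          fun_prop
        rw [mul_zero, zero_div] at h3
        exact h3.mono_left nhdsWithin_le_nhds
      · filter_upwards [self_mem_nhdsWithin] with y hy
        have hy' : 0 < y := hy
        exact div_pos (mul_pos he' hy') (by positivity)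
    have hpe : ∀ y : ℝ, Jw (e * W y) = jF (1 / m + ((e * y / (2 * Real.pi) : ℝ) : ℂ) * I) := by
      intro y
      simp only [Jw, hW]
      congr 1
      push_cast
      field_simp
      linear_combination (-(e : ℂ) * m * y) * I_sq
    obtain ⟨hi1, hi2⟩ := ExcA_inf m hm
    have hinf : Filter.Tendsto (fun y : ℝ => (Jw (e * W y))⁻¹) (nhdsWithin 0 (Set.Ioi 0)) (nhds 0) := by
      refine (hi1.comp hpath).congr fun y => ?_
      simp only [Function.comp]
      rw [hpe]
    have hne : ∀ᶠ y : ℝ in nhdsWithin 0 (Set.Ioi 0), Jw (e * W y) ≠ 0 := by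
      filter_upwards [hpath.eventually hi2] with y hy
      rw [hpe]
      exact hy
    have hv : ∀ k, Filter.Tendsto (fun y : ℝ => MvPolynomial.eval ![Jw (e * w₁), jF (Z y)] (P.coeff k))
        (nhdsWithin 0 (Set.Ioi 0)) (nhds (MvPolynomial.eval ![Jw (e * w₁), jF (Z 0)] (P.coeff k))) := by
      intro k
      have h1 : ContinuousAt (fun y : ℝ => MvPolynomial.eval ![Jw (e * w₁), jF (Z y)] (P.coeff k)) 0 := by
        have h2 : Continuous fun x : Fin 2 → ℂ => MvPolynomial.eval x (P.coeff k) :=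
          MvPolynomial.continuous_eval _
        have h3 : ContinuousAt (fun y : ℝ => ![Jw (e * w₁), jF (Z y)]) 0 := by
          refine continuousAt_pi.mpr fun i => ?_
          fin_cases i
          · exact continuousAt_const
          · exact hjc
        exact ContinuousAt.comp (f := fun y : ℝ => ![Jw (e * w₁), jF (Z y)])
          (g := fun x : Fin 2 → ℂ => MvPolynomial.eval x (P.coeff k)) (x := (0 : ℝ)) h2.continuousAt h3
      exact h1.tendsto.mono_left nhdsWithin_le_nhds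
    have hrel : ∀ᶠ y : ℝ in nhdsWithin 0 (Set.Ioi 0), ∑ k ∈ Finset.range (P.natDegree + 1),
        MvPolynomial.eval ![Jw (e * w₁), jF (Z y)] (P.coeff k) * Jw (e * W y) ^ k = 0 := by
      have hsm : ∀ᶠ y : ℝ in nhdsWithin 0 (Set.Ioi 0), (a : ℝ) * (-y) + b * w₁.re < 0 := by
        have h1 : Filter.Tendsto (fun y : ℝ => (a : ℝ) * (-y) + b * w₁.re) (nhds 0)
            (nhds ((a : ℝ) * (-0) + b * w₁.re)) := by
          apply Continuous.tendsto
          fun_prop
        have h2 : (a : ℝ) * (-0) + b * w₁.re < 0 := by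
          rw [neg_zero, mul_zero, zero_add]
          nlinarith
        exact (h1.eventually (gt_mem_nhds h2)).filter_mono nhdsWithin_le_nhds
      filter_upwards [hsm, self_mem_nhdsWithin] with y hy hy0
      have hy0' : 0 < y := hy0
      have h1 := hext (W y, w₁) (by
        change (W y).re < 0
        rw [hWre]; linarith) hw₁ (by
        change (a : ℝ) * (W y).re + b * w₁.re < 0
        rw [hWre]; exact hy)
      have h2 : (![Jw (e * W y), Jw (e * w₁), jF (Z y)] : Fin 3 → ℂ) =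
          Fin.cons (Jw (e * W y)) ![Jw (e * w₁), jF (Z y)] := rfl
      have h3 : MvPolynomial.eval ![Jw (e * W y), Jw (e * w₁), jF (Z y)] G = 0 := h1
      rw [h2, MvPolynomial.eval_eq_eval_mv_eval', ← hP] at h3
      rw [Polynomial.eval_map, Polynomial.eval₂_eq_sum_range] at h3
      exact h3
    have h9 := ExcA_lead (fun y : ℝ => Jw (e * W y))
      (fun k (y : ℝ) => MvPolynomial.eval ![Jw (e * w₁), jF (Z y)] (P.coeff k))
      (fun k => MvPolynomial.eval ![Jw (e * w₁), jF (Z 0)] (P.coeff k)) hinf hne hv hrel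
    rw [hZ0] at h9
    exact h9
  -- the identity theorem
  have hall : ∀ w₁ : ℂ, w₁.re < 0 → ∀ z : ℂ, 0 < z.im → MvPolynomial.eval ![Jw (e * w₁), jF z] L = 0 := by
    intro w₁ hw₁
    set z₀ : ℂ := b * w₁ / (2 * Real.pi * I) + c with hz₀
    have hz₀im : 0 < z₀.im := by
      rw [hz₀, ExcA_im]
      have h1 : ((b : ℂ) * w₁).re = b * w₁.re := by simp
      rw [h1]
      have : (b : ℝ) * w₁.re / (2 * Real.pi) < 0 := div_neg_of_neg_of_pos (by nlinarith) (by positivity)
      linarith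
    have hhol : DifferentiableOn ℂ (fun z : ℂ => MvPolynomial.eval ![Jw (e * w₁), jF z] L) {z : ℂ | 0 < z.im} := by
      have := ExcA_hol (Ω := {z : ℂ | 0 < z.im}) (k := 2) ![fun _ : ℂ => Jw (e * w₁), fun z : ℂ => jF z] (by
        intro i
        fin_cases i
        · exact differentiableOn_const _
        · exact jF_analytic.differentiableOn) L
      refine this.congr fun w _ => ?_
      congr 2
      funext i
      fin_cases i <;> rfl
    have han := hhol.analyticOnNhd isOpen_uhp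
    have hpre : IsPreconnected {z : ℂ | 0 < z.im} := (convex_halfSpace_im_gt 0).isPreconnected
    have hfr : ∃ᶠ z in nhdsWithin z₀ {z₀}ᶜ, MvPolynomial.eval ![Jw (e * w₁), jF z] L = 0 := by
      have h1 : Filter.Tendsto (fun m : ℕ => (a : ℂ) / (e * ((m + 1 : ℕ) : ℂ)) + z₀) Filter.atTop
          (nhdsWithin z₀ {z₀}ᶜ) := by
        refine tendsto_nhdsWithin_iff.mpr ⟨?_, ?_⟩
        · have h2 : Filter.Tendsto (fun m : ℕ => (1 : ℂ) / ((m : ℂ) + 1)) Filter.atTop (nhds 0) :=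
            tendsto_one_div_add_atTop_nhds_zero_nat
          have h3 : Filter.Tendsto (fun m : ℕ => (a : ℂ) / e * ((1 : ℂ) / ((m : ℂ) + 1)) + z₀) Filter.atTop
              (nhds ((a : ℂ) / e * 0 + z₀)) := (h2.const_mul _).add_const _
          rw [mul_zero, zero_add] at h3
          refine h3.congr fun m => ?_
          have : (m : ℂ) + 1 ≠ 0 := by exact_mod_cast Nat.succ_ne_zero m
          push_cast
          field_simp
        · refine Filter.Eventually.of_forall fun m => ?_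
          have : ((m + 1 : ℕ) : ℂ) ≠ 0 := by exact_mod_cast Nat.succ_ne_zero m
          simp only [Set.mem_compl_iff, Set.mem_singleton_iff]
          intro h4
          have h5 : (a : ℂ) / (e * ((m + 1 : ℕ) : ℂ)) = 0 := by linear_combination h4
          exact div_ne_zero haC (mul_ne_zero heC this) h5
      refine h1.frequently ?_
      refine Filter.Frequently.of_forall fun m => ?_
      exact hbd w₁ hw₁ (m + 1) (Nat.succ_pos m)
    intro z hz
    exact han.eqOn_zero_of_preconnected_of_frequently_eq_zero hpre hz₀im hfr hz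
  -- all values
  refine MvPolynomial.funext fun x => ?_
  rw [map_zero]
  obtain ⟨τ, hτ⟩ := Pool.Agent.Hhelper14.ZPL.j_surj (x 0)
  obtain ⟨σ, hσ⟩ := Pool.Agent.Hhelper14.ZPL.j_surj (x 1)
  have hw : (2 * Real.pi * I * τ / e : ℂ).re < 0 := by
    have h1 : (2 * Real.pi * I * τ / e : ℂ) = ((2 * Real.pi / e : ℝ) : ℂ) * (I * τ) := by
      push_cast
      field_simp
    rw [h1, Complex.re_ofReal_mul, Complex.I_mul_re]
    have := τ.im_pos
    have h2 : 0 < 2 * Real.pi / e := by positivity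
    have h3 : ((τ : ℂ)).im = τ.im := rfl
    rw [h3]
    nlinarith [mul_pos h2 this]
  have h1 := hall _ hw (σ : ℂ) σ.im_pos
  have h2 : Jw (e * (2 * Real.pi * I * τ / e : ℂ)) = x 0 := by
    rw [← hτ, ← jF_coe]
    simp only [Jw]
    congr 1
    field_simp
  rw [h2, jF_coe, hσ] at h1
  have h3 : (![x 0, x 1] : Fin 2 → ℂ) = x := by
    funext i
    fin_cases i <;> rfl
  rw [h3] at h1
  exact h1

end Pool.Agent.LGO.FC
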