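import Mathlib
import Pool.Agent.LGO.FC.StrA
import Pool.Agent.LGO.AX.ChJ

/-!
# LGO/FC: lifts to the upper half plane near the corner

`Lf F q M R a b ψ`: `F (q w) = j (tau a b ψ w)` on `Om M R`, with `tau a b ψ w = (a w₀ + b w₁) / (2 π i) + ψ w` in the upper half plane,
of one of the two types of `Lft` (finite: `a = b = 0` and `Im ψ ≥ δ > 0`; infinite: `Lex a b`, so `Im tau → ∞` at the corner).

`exists_lf`: `F` periodic of moderate growth, not constant.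

Proof.  `str` for `F` (`F ≠ 0`): `F = exp (a w₀ + b w₁) U`, `U → p ≠ 0` at the corner.
(infinite) `Lex (-a) (-b)`: `1 / F = exp (-a w₀ - b w₁) / U → 0` (`cz_lex`).  By `j_inv_inf` (`LGO/AX/ChJ.lean`): `Q` holomorphic near `0`, `Q 0 = 0`,
`Q u ≠ 0` for `u ≠ 0`, `Q u = u Q₁ u` with `Q₁` holomorphic, `Q₁ 0 ≠ 0`, and `exp (2 π i z) = Q u` implies `jF z = 1 / u`.
Let `V = Q₁ (1 / F) / U`, `V → Q₁ 0 / p = v ≠ 0`, periodic, holomorphic, and `Q (1 / F) = exp (-a w₀ - b w₁) V`.  On a smaller region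
`|V / v - 1| < 1 / 2`, and `ψ = (log (V / v) + log v) / (2 π i)` is bounded, holomorphic (`V / v` is in the slit plane),
periodic, `exp (2 π i tau (-a) (-b) ψ) = exp (-a w₀ - b w₁) V = Q (1 / F)`.  `Im tau > 0` since `|Q (1/F)| < 1` near the corner.  `q = 1`.
(finite) otherwise `a = b = 0` (then `F → c = p`) or `Lex a b` (then `F → c = 0`).  `F - c` is periodic of moderate growth, not
zero since `F` is not constant, and tends to `0`: by `str` `F - c = exp (a' w₀ + b' w₁) U'`, `U' → p' ≠ 0`, and then `Lex a' b'`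
(`(a', b') = 0` would give `F - c → p' ≠ 0`; `Lex (-a') (-b')` would give `|F - c| → ∞`).  By `j_inv_fin` for `c`:
`q ≥ 1`, `φ` holomorphic near `0`, `Im φ > 0`, `jF (φ s) = c + s ^ q`.  On a smaller region `U'(q w) / p'` is close to `1`; let
`S = exp (a' w₀ + b' w₁) exp (log (U' (q w) / p') / q) p₁`, `p₁ ^ q = p'`.  Then `S ^ q = F (q w) - c`, `S` periodic, holomorphic,
`S → 0`.  `ψ = φ ∘ S`, `Im ψ ≥ δ = Im φ(0) / 2` on a smaller region (continuity), bounded.  `a = b = 0`.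

`Lf.scale`: `tau (q' a) (q' b) (ψ (q' ·)) w = tau a b ψ (q' w)`.
-/

namespace Pool.Agent.LGO.FC

open Complex

/-- a lift of `F (q w)` to the upper half plane -/
structure Lf (F : ℂ × ℂ → ℂ) (q M R : ℕ) (a b : ℤ) (ψ : ℂ × ℂ → ℂ) : Prop where
  lft : Lft M R a b ψ
  pos : ∀ w ∈ Om M R, 0 < (tau a b ψ w).im
  eq : ∀ w ∈ Om M R, F ((q : ℂ) * w.1, (q : ℂ) * w.2) = jF (tau a b ψ w)

theorem Lf.mono {F ψ : ℂ × ℂ → ℂ} {q M R M' R' : ℕ} {a b : ℤ} (h : Lf F q M R a b ψ) (hM : M ≤ M') (hR : R ≤ R') :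
    Lf F q M' R' a b ψ := by
  have hs : Om M' R' ⊆ Om M R := Om_mono hM hR
  refine ⟨⟨h.lft.bo.mono hM hR, ?_⟩, fun w hw => h.pos w (hs hw), fun w hw => h.eq w (hs hw)⟩
  rcases h.lft.ty with ⟨h1, h2, δ, hδ, h3⟩ | h1
  · exact Or.inl ⟨h1, h2, δ, hδ, fun w hw => h3 w (hs hw)⟩
  · exact Or.inr h1

private theorem LiftA_tau_scale (a b : ℤ) (q' : ℕ) (ψ : ℂ × ℂ → ℂ) (w : ℂ × ℂ) :
    tau (q' * a) (q' * b) (fun w => ψ ((q' : ℂ) * w.1, (q' : ℂ) * w.2)) w =
      tau a b ψ ((q' : ℂ) * w.1, (q' : ℂ) * w.2) := by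
  simp only [tau]
  push_cast
  congr 2
  ring

theorem Lf.scale {F ψ : ℂ × ℂ → ℂ} {q M R q' : ℕ} {a b : ℤ} (hq : 0 < q') (h : Lf F q M R a b ψ) :
    Lf F (q * q') M R (q' * a) (q' * b) (fun w => ψ ((q' : ℂ) * w.1, (q' : ℂ) * w.2)) := by
  refine ⟨⟨h.lft.bo.scale hq, ?_⟩, fun w hw => ?_, fun w hw => ?_⟩
  · rcases h.lft.ty with ⟨h1, h2, δ, hδ, h3⟩ | h1
    · refine Or.inl ⟨by rw [h1, mul_zero], by rw [h2, mul_zero], δ, hδ, fun w hw => ?_⟩
      exact h3 _ (sc_mem hq hw)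
    · right
      have hq0 : (0 : ℤ) < q' := by exact_mod_cast hq
      rcases h1 with h2 | ⟨h2, h3⟩
      · exact Or.inl (mul_pos hq0 h2)
      · exact Or.inr ⟨by rw [h2, mul_zero], mul_pos hq0 h3⟩
  · rw [LiftA_tau_scale]
    exact h.pos _ (sc_mem hq hw)
  · rw [LiftA_tau_scale, ← h.eq _ (sc_mem hq hw)]
    congr 1
    refine Prod.ext ?_ ?_
    · push_cast
      ring
    · push_cast
      ring

private theorem LiftA_tr1 {M R : ℕ} {w : ℂ × ℂ} (hw : w ∈ Om M R) :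
    (w.1 + 2 * Real.pi * I, w.2) ∈ Om M R := by
  obtain ⟨h1, h2⟩ := hw
  have h3 : (w.1 + 2 * Real.pi * I).re = w.1.re := by simp
  refine ⟨?_, ?_⟩
  · change (w.1 + 2 * Real.pi * I).re < -(R : ℝ)
    rw [h3]
    exact h1
  · change w.2.re < M * (w.1 + 2 * Real.pi * I).re
    rw [h3]
    exact h2

private theorem LiftA_tr2 {M R : ℕ} {w : ℂ × ℂ} (hw : w ∈ Om M R) :
    (w.1, w.2 + 2 * Real.pi * I) ∈ Om M R := by
  obtain ⟨h1, h2⟩ := hw
  have h3 : (w.2 + 2 * Real.pi * I).re = w.2.re := by simp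
  refine ⟨h1, ?_⟩
  change (w.2 + 2 * Real.pi * I).re < M * w.1.re
  rw [h3]
  exact h2

private theorem LiftA_cz_congr {F G : ℂ × ℂ → ℂ} {M R : ℕ} {p : ℂ} (h : ∀ w ∈ Om M R, F w = G w)
    (hG : Cz G p) : Cz F p := by
  intro ε hε
  obtain ⟨M1, R1, h1⟩ := hG ε hε
  refine ⟨max M M1, max R R1, fun w hw => ?_⟩
  rw [h w (Om_mono (le_max_left _ _) (le_max_left _ _) hw)]
  exact h1 w (Om_mono (le_max_right _ _) (le_max_right _ _) hw)

private theorem LiftA_cz_unique {F : ℂ × ℂ → ℂ} {p p' : ℂ} (h : Cz F p) (h' : Cz F p') : p = p' := by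
  by_contra hne
  have hd : 0 < ‖p - p'‖ / 2 := by
    have : 0 < ‖p - p'‖ := norm_pos_iff.mpr (sub_ne_zero.mpr hne)
    linarith
  obtain ⟨M1, R1, h1⟩ := h _ hd
  obtain ⟨M2, R2, h2⟩ := h' _ hd
  obtain ⟨w, hw⟩ := Om_ne (M := max M1 M2) (R := max R1 R2)
  have h3 := h1 w (Om_mono (le_max_left _ _) (le_max_left _ _) hw)
  have h4 := h2 w (Om_mono (le_max_right _ _) (le_max_right _ _) hw)
  have h5 : ‖p - p'‖ ≤ ‖F w - p‖ + ‖F w - p'‖ := by
    have h6 : p - p' = (F w - p') - (F w - p) := by ring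
    rw [h6]
    refine (norm_sub_le _ _).trans (le_of_eq ?_)
    ring
  linarith

private theorem LiftA_cz_const (c : ℂ) : Cz (fun _ => c) c := by
  intro ε hε
  exact ⟨0, 0, fun w _ => by rw [sub_self, norm_zero]; exact hε⟩

private theorem LiftA_tri (a b : ℤ) : Lex (-a) (-b) ∨ (a = 0 ∧ b = 0) ∨ Lex a b := by
  unfold Lex
  omega

private theorem LiftA_exp1 (a b : ℤ) (w : ℂ × ℂ) :
    exp (a * (w.1 + 2 * Real.pi * I) + b * w.2) = exp (a * w.1 + b * w.2) := by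
  have h1 : (a : ℂ) * (w.1 + 2 * Real.pi * I) + b * w.2 =
      (a * w.1 + b * w.2) + a * (2 * Real.pi * I) := by ring
  rw [h1, Complex.exp_add, Complex.exp_int_mul_two_pi_mul_I, mul_one]

private theorem LiftA_exp2 (a b : ℤ) (w : ℂ × ℂ) :
    exp (a * w.1 + b * (w.2 + 2 * Real.pi * I)) = exp (a * w.1 + b * w.2) := by
  have h1 : (a : ℂ) * w.1 + b * (w.2 + 2 * Real.pi * I) =
      (a * w.1 + b * w.2) + b * (2 * Real.pi * I) := by ring
  rw [h1, Complex.exp_add, Complex.exp_int_mul_two_pi_mul_I, mul_one]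

private theorem LiftA_div_const {Ω : Set (ℂ × ℂ)} {F : ℂ × ℂ → ℂ} (h : DifferentiableOn ℂ F Ω) (c : ℂ) :
    DifferentiableOn ℂ (fun w => F w / c) Ω := by
  simpa only [div_eq_mul_inv] using h.mul_const c⁻¹

private theorem LiftA_slit {z : ℂ} (hz : ‖z - 1‖ < 1 / 2) : z ∈ slitPlane := by
  have h1 : |(z - 1).re| ≤ ‖z - 1‖ := Complex.abs_re_le_norm _
  have h2 := (abs_le.mp h1).1
  rw [Complex.sub_re, Complex.one_re] at h2
  left
  linarith

private theorem LiftA_log_bd {z : ℂ} (hz : ‖z - 1‖ < 1 / 2) : ‖log z‖ ≤ 1 := by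
  have h1 := Complex.norm_log_one_add_half_le_self (z := z - 1) hz.le
  rw [add_sub_cancel] at h1
  linarith

/-- the infinite type -/
private theorem LiftA_inf {M R M1 R1 : ℕ} {F U : ℂ × ℂ → ℂ} {a b : ℤ} {p : ℂ} (hp : p ≠ 0)
    (hM : M ≤ M1) (hR : R ≤ R1) (hF : Mo M R F) (hU : Cz U p) (hBo : Bo M1 R1 U)
    (hU0 : ∀ w ∈ Om M1 R1, U w ≠ 0) (hFU : ∀ w ∈ Om M1 R1, F w = exp (a * w.1 + b * w.2) * U w)
    (hl : Lex (-a) (-b)) :
    ∃ (M' R' : ℕ) (ψ : ℂ × ℂ → ℂ), M ≤ M' ∧ R ≤ R' ∧ Lf F 1 M' R' (-a) (-b) ψ := by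
  obtain ⟨r, Q, hr, hQd, hQ0, hQ', hQ⟩ := Pool.Agent.LGO.AX.j_inv_inf
  set Q1 : ℂ → ℂ := dslope Q 0 with hQ1
  have hnb : Metric.ball (0 : ℂ) r ∈ nhds (0 : ℂ) := Metric.ball_mem_nhds _ hr
  have hQ1d : DifferentiableOn ℂ Q1 (Metric.ball 0 r) := (Complex.differentiableOn_dslope hnb).mpr hQd
  have hQ1c : ContinuousAt Q1 0 := (hQ1d.differentiableAt hnb).continuousAt
  have hQ10 : Q1 0 ≠ 0 := by
    rw [hQ1, dslope_same]
    exact hQ'
  have hQm : ∀ u : ℂ, Q u = u * Q1 u := by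
    intro u
    have := sub_smul_dslope Q 0 u
    rw [sub_zero, smul_eq_mul, hQ0, sub_zero] at this
    exact this.symm
  -- the function `u`
  set u : ℂ × ℂ → ℂ := fun w => exp (((-a : ℤ) : ℂ) * w.1 + ((-b : ℤ) : ℂ) * w.2) * (U w)⁻¹ with hu
  have hUi : Cz (fun w => (U w)⁻¹) p⁻¹ := hU.comp (f := fun z => z⁻¹) (continuousAt_inv₀ hp)
  have hu0 : Cz u 0 := by
    have := (cz_lex hl).mul hUi
    rwa [zero_mul] at this
  have huF : ∀ w ∈ Om M1 R1, u w = (F w)⁻¹ := by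
    intro w hw
    rw [hFU w hw, mul_inv, ← Complex.exp_neg]
    simp only [hu]
    congr 2
    push_cast
    ring
  set V : ℂ × ℂ → ℂ := fun w => Q1 (u w) * (U w)⁻¹ with hV
  set v : ℂ := Q1 0 * p⁻¹ with hv
  have hv0 : v ≠ 0 := mul_ne_zero hQ10 (inv_ne_zero hp)
  have hVv : Cz V v := (hu0.comp hQ1c).mul hUi
  have hvn : 0 < ‖v‖ / 2 := by
    have := norm_pos_iff.mpr hv0
    linarith
  obtain ⟨M2, R2, h2⟩ := hVv _ hvn
  obtain ⟨M3, R3, h3⟩ := hu0 _ hr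
  set M' := max M1 (max M2 M3) with hM'
  set R' := max R1 (max R2 R3) with hR'
  have s1 : Om M' R' ⊆ Om M1 R1 := Om_mono (le_max_left _ _) (le_max_left _ _)
  have s2 : Om M' R' ⊆ Om M2 R2 :=
    Om_mono ((le_max_left _ _).trans (le_max_right _ _)) ((le_max_left _ _).trans (le_max_right _ _))
  have s3 : Om M' R' ⊆ Om M3 R3 :=
    Om_mono ((le_max_right _ _).trans (le_max_right _ _)) ((le_max_right _ _).trans (le_max_right _ _))
  have hVn : ∀ w ∈ Om M' R', ‖V w / v - 1‖ < 1 / 2 := by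
    intro w hw
    have h4 := h2 w (s2 hw)
    have h5 : V w / v - 1 = (V w - v) / v := by field_simp
    rw [h5, norm_div, div_lt_iff₀ (norm_pos_iff.mpr hv0)]
    linarith
  have hub : ∀ w ∈ Om M' R', u w ∈ Metric.ball (0 : ℂ) r := by
    intro w hw
    rw [Metric.mem_ball, dist_eq_norm]
    exact h3 w (s3 hw)
  set ψ : ℂ × ℂ → ℂ := fun w => (log (V w / v) + log v) / (2 * Real.pi * I) with hψ
  have hpi : (2 * Real.pi * I : ℂ) ≠ 0 := Complex.two_pi_I_ne_zero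
  -- holomorphic
  have hUd : DifferentiableOn ℂ U (Om M' R') := hBo.hol.mono s1
  have hUid : DifferentiableOn ℂ (fun w => (U w)⁻¹) (Om M' R') :=
    hUd.inv fun w hw => hU0 w (s1 hw)
  have hud : DifferentiableOn ℂ u (Om M' R') := by
    refine DifferentiableOn.mul (DifferentiableOn.cexp ?_) hUid
    fun_prop
  have hVd : DifferentiableOn ℂ V (Om M' R') := (hQ1d.comp hud hub).mul hUid
  have hψd : DifferentiableOn ℂ ψ (Om M' R') := by
    have h4 : DifferentiableOn ℂ (fun w => log (V w / v)) (Om M' R') :=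
      (LiftA_div_const hVd v).clog fun w hw => LiftA_slit (hVn w hw)
    exact LiftA_div_const (h4.add_const (log v)) (2 * Real.pi * I)
  -- periodic
  have hVp1 : ∀ w ∈ Om M' R', V (w.1 + 2 * Real.pi * I, w.2) = V w := by
    intro w hw
    have h6 := LiftA_tr1 hw
    have h7 : w ∈ Om M R := Om_mono hM hR (s1 hw)
    simp only [hV]
    rw [huF _ (s1 h6), huF _ (s1 hw), hF.per1 w h7, hBo.per1 w (s1 hw)]
  have hVp2 : ∀ w ∈ Om M' R', V (w.1, w.2 + 2 * Real.pi * I) = V w := by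
    intro w hw
    have h6 := LiftA_tr2 hw
    have h7 : w ∈ Om M R := Om_mono hM hR (s1 hw)
    simp only [hV]
    rw [huF _ (s1 h6), huF _ (s1 hw), hF.per2 w h7, hBo.per2 w (s1 hw)]
  have hψB : Bo M' R' ψ := by
    refine ⟨⟨hψd, fun w hw => ?_, fun w hw => ?_⟩, (1 + ‖log v‖) / ‖(2 * Real.pi * I : ℂ)‖, fun w hw => ?_⟩
    · simp only [hψ]
      rw [hVp1 w hw]
    · simp only [hψ]
      rw [hVp2 w hw]
    · simp only [hψ]
      rw [norm_div]
      refine div_le_div_of_nonneg_right ?_ (norm_nonneg _)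
      exact (norm_add_le _ _).trans (add_le_add (LiftA_log_bd (hVn w hw)) le_rfl)
  have hexp : ∀ w ∈ Om M' R', exp (2 * Real.pi * I * tau (-a) (-b) ψ w) = Q (u w) := by
    intro w hw
    have hVv0 : V w / v ≠ 0 := Complex.slitPlane_ne_zero (LiftA_slit (hVn w hw))
    have h8 : 2 * Real.pi * I * tau (-a) (-b) ψ w =
        (((-a : ℤ) : ℂ) * w.1 + ((-b : ℤ) : ℂ) * w.2) + (log (V w / v) + log v) := by
      simp only [tau, hψ]
      field_simp
    rw [h8, Complex.exp_add, Complex.exp_add (log (V w / v)), Complex.exp_log hVv0, Complex.exp_log hv0,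
      div_mul_cancel₀ _ hv0, hQm]
    simp only [hV, hu]
    ring
  have hu0' : ∀ w ∈ Om M' R', u w ≠ 0 := by
    intro w hw
    exact mul_ne_zero (Complex.exp_ne_zero _) (inv_ne_zero (hU0 w (s1 hw)))
  refine ⟨M', R', ψ, hM.trans (le_max_left _ _), hR.trans (le_max_left _ _), ⟨hψB, Or.inr hl⟩,
    fun w hw => ?_, fun w hw => ?_⟩
  · exact ((hQ (u w) (hub w hw) (hu0' w hw)).2 _ (hexp w hw)).1
  · have h9 := ((hQ (u w) (hub w hw) (hu0' w hw)).2 _ (hexp w hw)).2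
    rw [h9, huF w (s1 hw), inv_inv, Nat.cast_one, one_mul, one_mul]

/-- the finite type -/
private theorem LiftA_fin {M R : ℕ} {F : ℂ × ℂ → ℂ} {c : ℂ} (hF : Mo M R F)
    (hnc : ¬ ∃ c : ℂ, ∀ w ∈ Om M R, F w = c) (hc : Cz F c) :
    ∃ (q M' R' : ℕ) (ψ : ℂ × ℂ → ℂ), 0 < q ∧ M ≤ M' ∧ R ≤ R' ∧ Lf F q M' R' 0 0 ψ := by
  have hG : Mo M R (fun w => F w + -c) := hF.add (mo_const (-c))
  have hG0 : Cz (fun w => F w + -c) 0 := by
    have := hc.comp (f := fun z => z + -c) (by fun_prop)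
    rwa [add_neg_cancel] at this
  have hGne : ∃ w ∈ Om M R, F w + -c ≠ 0 := by
    by_contra h
    push Not at h
    exact hnc ⟨c, fun w hw => by linear_combination h w hw⟩
  obtain ⟨a, b, p, U, M1, R1, hp, hM, hR, hU, hBo, hU0, hGU⟩ := str_u hG hGne
  have hl : Lex a b := by
    rcases LiftA_tri a b with h | ⟨h1, h2⟩ | h
    · exfalso
      have h3 : Cz U 0 := by
        have h4 := (cz_lex h).mul hG0
        rw [zero_mul] at h4
        refine LiftA_cz_congr (M := M1) (R := R1) (fun w hw => ?_) h4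
        rw [hGU w hw, ← mul_assoc, ← Complex.exp_add]
        have h5 : ((-a : ℤ) : ℂ) * w.1 + ((-b : ℤ) : ℂ) * w.2 + (a * w.1 + b * w.2) = 0 := by
          push_cast
          ring
        rw [h5, Complex.exp_zero, one_mul]
      exact hp (LiftA_cz_unique hU h3)
    · exfalso
      have h3 : Cz U 0 := by
        refine LiftA_cz_congr (M := M1) (R := R1) (fun w hw => ?_) hG0
        rw [hGU w hw, h1, h2, Int.cast_zero, zero_mul, zero_mul, add_zero, Complex.exp_zero, one_mul]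
      exact hp (LiftA_cz_unique hU h3)
    · exact h
  obtain ⟨q, r, φ, hq, hr, hφd, hφ⟩ := Pool.Agent.LGO.AX.j_inv_fin c
  obtain ⟨p1, hp1⟩ := IsAlgClosed.exists_pow_nat_eq p hq
  have hqc : (q : ℂ) ≠ 0 := by exact_mod_cast hq.ne'
  have hnb : Metric.ball (0 : ℂ) r ∈ nhds (0 : ℂ) := Metric.ball_mem_nhds _ hr
  -- the scaled factor
  set W : ℂ × ℂ → ℂ := fun w => U ((q : ℂ) * w.1, (q : ℂ) * w.2) with hW
  have hWp : Cz W p := hU.scale hq
  have hWB : Bo M1 R1 W := hBo.scale hq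
  set f : ℂ → ℂ := fun z => exp (log (z / p) / q) with hf
  have hfc : ContinuousAt f p := by
    have h1 : ContinuousAt (fun z : ℂ => z / p) p := continuousAt_id.div_const p
    have h2 : p / p ∈ slitPlane := by
      rw [div_self hp]
      exact Complex.one_mem_slitPlane
    exact ((h1.clog h2).div_const (q : ℂ)).cexp
  set S : ℂ × ℂ → ℂ := fun w => exp (a * w.1 + b * w.2) * f (W w) * p1 with hS
  have hS0 : Cz S 0 := by
    have h1 := ((cz_lex hl).mul (hWp.comp hfc)).mul (LiftA_cz_const p1)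
    rwa [zero_mul, zero_mul] at h1
  have hφc : ContinuousAt φ 0 := (hφd.differentiableAt hnb).continuousAt
  have hψ0 : Cz (fun w => φ (S w)) (φ 0) := hS0.comp hφc
  have him : 0 < (φ 0).im := (hφ 0 (Metric.mem_ball_self hr)).1
  have hpn : 0 < ‖p‖ / 2 := by
    have := norm_pos_iff.mpr hp
    linarith
  obtain ⟨M2, R2, h2⟩ := hWp _ hpn
  obtain ⟨M3, R3, h3⟩ := hS0 _ hr
  obtain ⟨M4, R4, h4⟩ := hψ0 _ (half_pos him)
  set M' := max (max M1 M2) (max M3 M4) with hM'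
  set R' := max (max R1 R2) (max R3 R4) with hR'
  have s1 : Om M' R' ⊆ Om M1 R1 :=
    Om_mono ((le_max_left _ _).trans (le_max_left _ _)) ((le_max_left _ _).trans (le_max_left _ _))
  have s2 : Om M' R' ⊆ Om M2 R2 :=
    Om_mono ((le_max_right _ _).trans (le_max_left _ _)) ((le_max_right _ _).trans (le_max_left _ _))
  have s3 : Om M' R' ⊆ Om M3 R3 :=
    Om_mono ((le_max_left _ _).trans (le_max_right _ _)) ((le_max_left _ _).trans (le_max_right _ _))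
  have s4 : Om M' R' ⊆ Om M4 R4 :=
    Om_mono ((le_max_right _ _).trans (le_max_right _ _)) ((le_max_right _ _).trans (le_max_right _ _))
  have hWn : ∀ w ∈ Om M' R', ‖W w / p - 1‖ < 1 / 2 := by
    intro w hw
    have h5 := h2 w (s2 hw)
    have h6 : W w / p - 1 = (W w - p) / p := by field_simp
    rw [h6, norm_div, div_lt_iff₀ (norm_pos_iff.mpr hp)]
    linarith
  have hSb : ∀ w ∈ Om M' R', S w ∈ Metric.ball (0 : ℂ) r := by
    intro w hw
    rw [Metric.mem_ball, dist_eq_norm]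
    exact h3 w (s3 hw)
  have hWd : DifferentiableOn ℂ W (Om M' R') := hWB.hol.mono s1
  have hSd : DifferentiableOn ℂ S (Om M' R') := by
    have h5 : DifferentiableOn ℂ (fun w : ℂ × ℂ => exp ((a : ℂ) * w.1 + (b : ℂ) * w.2)) (Om M' R') := by
      refine DifferentiableOn.cexp ?_
      fun_prop
    have h6 : DifferentiableOn ℂ (fun w => f (W w)) (Om M' R') := by
      have h7 : DifferentiableOn ℂ (fun w => log (W w / p)) (Om M' R') :=
        (LiftA_div_const hWd p).clog fun w hw => LiftA_slit (hWn w hw)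
      exact (LiftA_div_const h7 (q : ℂ)).cexp
    exact (h5.mul h6).mul_const p1
  have hψd : DifferentiableOn ℂ (fun w => φ (S w)) (Om M' R') := hφd.comp hSd hSb
  have hSp1 : ∀ w ∈ Om M' R', S (w.1 + 2 * Real.pi * I, w.2) = S w := by
    intro w hw
    have h5 := hWB.per1 w (s1 hw)
    simp only [hS]
    rw [h5, LiftA_exp1]
  have hSp2 : ∀ w ∈ Om M' R', S (w.1, w.2 + 2 * Real.pi * I) = S w := by
    intro w hw
    have h5 := hWB.per2 w (s1 hw)
    simp only [hS]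
    rw [h5, LiftA_exp2]
  have hψB : Bo M' R' (fun w => φ (S w)) := by
    refine ⟨⟨hψd, fun w hw => ?_, fun w hw => ?_⟩, ‖φ 0‖ + (φ 0).im / 2, fun w hw => ?_⟩
    · change φ (S (w.1 + 2 * Real.pi * I, w.2)) = φ (S w)
      rw [hSp1 w hw]
    · change φ (S (w.1, w.2 + 2 * Real.pi * I)) = φ (S w)
      rw [hSp2 w hw]
    · have h5 := h4 w (s4 hw)
      have h6 : φ (S w) = φ 0 + (φ (S w) - φ 0) := by ring
      rw [h6]
      exact (norm_add_le _ _).trans (add_le_add le_rfl h5.le)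
  have hψi : ∀ w ∈ Om M' R', (φ 0).im / 2 ≤ (φ (S w)).im := by
    intro w hw
    have h5 := h4 w (s4 hw)
    have h6 := (abs_le.mp (Complex.abs_im_le_norm (φ (S w) - φ 0))).1
    rw [Complex.sub_im] at h6
    linarith
  have htau : ∀ w : ℂ × ℂ, tau 0 0 (fun w => φ (S w)) w = φ (S w) := by
    intro w
    simp only [tau, Int.cast_zero, zero_mul, add_zero, zero_div, zero_add]
  have hSq : ∀ w ∈ Om M' R', S w ^ q = F ((q : ℂ) * w.1, (q : ℂ) * w.2) + -c := by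
    intro w hw
    have h7 := hGU _ (sc_mem hq (s1 hw))
    have hW0 : W w / p ≠ 0 := Complex.slitPlane_ne_zero (LiftA_slit (hWn w hw))
    rw [h7]
    simp only [hS, hf]
    rw [mul_pow, mul_pow, hp1, ← Complex.exp_nat_mul, ← Complex.exp_nat_mul, mul_div_cancel₀ _ hqc,
      Complex.exp_log hW0]
    have h8 : (q : ℂ) * ((a : ℂ) * w.1 + (b : ℂ) * w.2) = (a : ℂ) * ((q : ℂ) * w.1) + (b : ℂ) * ((q : ℂ) * w.2) := by
      ring
    rw [h8, mul_assoc, div_mul_cancel₀ _ hp]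
  refine ⟨q, M', R', fun w => φ (S w), hq, hM.trans ((le_max_left _ _).trans (le_max_left _ _)),
    hR.trans ((le_max_left _ _).trans (le_max_left _ _)),
    ⟨hψB, Or.inl ⟨rfl, rfl, (φ 0).im / 2, half_pos him, hψi⟩⟩, fun w hw => ?_, fun w hw => ?_⟩
  · rw [htau]
    exact (half_pos him).trans_le (hψi w hw)
  · rw [htau, (hφ (S w) (hSb w hw)).2, hSq w hw]
    ring

/-- existence of the lift -/
theorem exists_lf {M R : ℕ} {F : ℂ × ℂ → ℂ} (hF : Mo M R F) (hnc : ¬ ∃ c : ℂ, ∀ w ∈ Om M R, F w = c) :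
    ∃ (q M' R' : ℕ) (a b : ℤ) (ψ : ℂ × ℂ → ℂ), 0 < q ∧ M ≤ M' ∧ R ≤ R' ∧ Lf F q M' R' a b ψ := by
  have hne : ∃ w ∈ Om M R, F w ≠ 0 := by
    by_contra h
    push Not at h
    exact hnc ⟨0, h⟩
  obtain ⟨a, b, p, U, M1, R1, hp, hM, hR, hU, hBo, hU0, hFU⟩ := str_u hF hne
  have hfin : (∃ c, Cz F c) → ∃ (q M' R' : ℕ) (a b : ℤ) (ψ : ℂ × ℂ → ℂ), 0 < q ∧ M ≤ M' ∧ R ≤ R' ∧
      Lf F q M' R' a b ψ := by
    rintro ⟨c, hc⟩
    obtain ⟨q, M', R', ψ, h1, h2, h3, h4⟩ := LiftA_fin hF hnc hc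
    exact ⟨q, M', R', 0, 0, ψ, h1, h2, h3, h4⟩
  rcases LiftA_tri a b with h | ⟨h1, h2⟩ | h
  · obtain ⟨M', R', ψ, h2, h3, h4⟩ := LiftA_inf hp hM hR hF hU hBo hU0 hFU h
    exact ⟨1, M', R', -a, -b, ψ, one_pos, h2, h3, h4⟩
  · refine hfin ⟨p, LiftA_cz_congr (M := M1) (R := R1) (fun w hw => ?_) hU⟩
    rw [hFU w hw, h1, h2, Int.cast_zero, zero_mul, zero_mul, add_zero, Complex.exp_zero, one_mul]
  · refine hfin ⟨0 * p, LiftA_cz_congr (M := M1) (R := R1) hFU ((cz_lex h).mul hU)⟩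

/-- the lift of `j(e w₀)` -/
theorem lf_fst {e : ℕ} (he : 0 < e) : Lf (fun w => Jw (e * w.1)) 1 1 1 e 0 (fun _ => 0) := by
  have htau : ∀ w : ℂ × ℂ, tau e 0 (fun _ => 0) w = (e : ℂ) * w.1 / (2 * Real.pi * I) := by
    intro w
    simp only [tau, Int.cast_zero, zero_mul, add_zero, Int.cast_natCast]
  refine ⟨⟨bo_const 0, Or.inr (Or.inr ⟨rfl, by exact_mod_cast he⟩)⟩, fun w hw => ?_, fun w hw => ?_⟩
  · rw [htau]
    have h1 : (e : ℂ) * w.1 / (2 * Real.pi * I) = -(((e : ℝ) / (2 * Real.pi) : ℝ) : ℂ) * w.1 * I := by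
      have hpi : (Real.pi : ℂ) ≠ 0 := by exact_mod_cast Real.pi_ne_zero
      push_cast
      field_simp
      ring_nf
      rw [Complex.I_sq]
      ring
    rw [h1]
    have h2 : (-(((e : ℝ) / (2 * Real.pi) : ℝ) : ℂ) * w.1 * I).im = -((e : ℝ) / (2 * Real.pi)) * w.1.re := by
      rw [Complex.mul_I_im, ← Complex.ofReal_neg, Complex.re_ofReal_mul]
    rw [h2]
    have h3 : w.1.re < 0 := by
      have := hw.1
      push_cast at this
      linarith
    have h4 : 0 < (e : ℝ) / (2 * Real.pi) := by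
      have : (0 : ℝ) < e := by exact_mod_cast he
      positivity
    nlinarith
  · rw [htau]
    simp only [Jw, Nat.cast_one, one_mul]

end Pool.Agent.LGO.FC
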