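import Mathlib
import Pool.Agent.LGO.FC.DatA
import Pool.Agent.LGO.FC.LiftA
import Pool.Agent.LGO.FC.ConA
import Pool.Agent.LGO.FC.ExcA

/-!
# LGO/FC: the core theorem

`core_of_dat`.  Proof.  `exists_lf` for `ρ₂` and `ρ₃`: `Lf ρ₂ q₂ M₂ R₂ a₂ b₂ ψ₂`, `Lf ρ₃ q₃ M₃ R₃ a₃ b₃ ψ₃`; with `Lf.scale`, `Lf.mono` we may assume that
`q₂ = q₃ = q`, `M₂ = M₃ = M'`, `R₂ = R₃ = R'` (`q = q₂ q₃`).  Let `N ∈ S`, `N > M'`.  On `Hp R'` let `u t = tau a₂ b₂ ψ₂ (t, N t)`, `v t = tau a₃ b₃ ψ₃ (t, N t)`, holomorphic,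
with values in the upper half plane (`arc_mem`); `jF (u t) = ρ₂ (q t, N q t)`, `jF (v t) = ρ₃ (q t, N q t)` are isogenous (`Dat.iso` at
`q t ∈ Hp R`), so there is an integer matrix (`mat`).  `con` gives:
(i) `A, B, C, D` with `v (C u + D) = A u + B` on `Om M' R'`: by `rel_of_mat` there is `g` with `(ρ₂ (q w), ρ₃ (q w)) ∈ MR g` for all `w ∈ Om M' R'`.  Let
`Y` be the set of the points `y_w = ![Jw (e w₀), Jw (e w₁), ρ₂ w, ρ₃ w]`, `w = (q w'₀, q w'₁)`, `w' ∈ Om M' R'`.  If `G ∈ k[X]` vanishes on `Y` then the holomorphic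
function `G (Jw (e w₀), Jw (e w₁), ρ₂ w, ρ₃ w)` on `Om M R` vanishes on a non empty open set, so everywhere (`ident`), so `G (ξ) = 0` (`Dat.rel`).  By
`mr_spec'` `(ξ 2, ξ 3) ∈ MR g`, so `HeckeRel (ξ 2) (ξ 3)` (`rel_of_mr`).
(ii) `Lex a₂ b₂` and `ψ₂ = r`, rational: `ρ₂ (q w) = jF ((a₂ w₀ + b₂ w₁) / (2 π i) + r)`.  If `b₂ = 0`: `a₂ > 0`, and `Jw (e q w₀) = jF (e q w₀ / (2 π i))`, so with
`x = e q w₀ / (2 π i)`, `y = a₂ w₀ / (2 π i) + r`: `y = (a₂ / (e q)) x + r`, an integer matrix with determinant `> 0`; as in (i)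
`(ξ 0, ξ 2) ∈ MR g`.  If `a₂ = 0`: `b₂ > 0`, the same with `w₁` and `ξ 1`.  If `a₂ ≠ 0`, `b₂ ≠ 0`: then `b₂ > 0` and `excl` with `e q`, the
polynomial of `Dat.alg` and the points `(q w₀, q w₁)` gives a contradiction.
-/

namespace Pool.Agent.LGO.FC

open MvPolynomial Pool.Agent.Hhelper14.ZP Pool.Agent.Hhelper14.ZPL Pool.Agent.LGO

private theorem CorA_diff {k : IntermediateField ℚ ℂ} {E : Type*} [NormedAddCommGroup E]
    [NormedSpace ℂ E] {Ω : Set E} {n : ℕ} {φ : Fin n → E → ℂ} (hφ : ∀ i, DifferentiableOn ℂ (φ i) Ω)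
    (G : MvPolynomial (Fin n) k) :
    DifferentiableOn ℂ (fun w => (aeval (fun i => φ i w) G : ℂ)) Ω := by
  induction G using MvPolynomial.induction_on with
  | C a =>
    have h : (fun w : E => (aeval (fun i => φ i w) (C a : MvPolynomial (Fin n) k) : ℂ)) =
        fun _ => algebraMap k ℂ a := by
      funext w
      exact MvPolynomial.aeval_C _ _
    rw [h]
    exact differentiableOn_const _
  | add p q hp hq =>
    simp only [map_add]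
    exact hp.add hq
  | mul_X p i hp =>
    simp only [map_mul, aeval_X]
    exact hp.mul (hφ i)

/-- the point of the curve over `w` -/
private noncomputable def CorA_pt (e : ℕ) (ρ₂ ρ₃ : ℂ × ℂ → ℂ) (w : ℂ × ℂ) : Fin 4 → ℂ :=
  ![Jw (e * w.1), Jw (e * w.2), ρ₂ w, ρ₃ w]

private theorem CorA_re1 {M R : ℕ} {w : ℂ × ℂ} (hw : w ∈ Om M R) : w.1.re < 0 := by
  have h0 : (0 : ℝ) ≤ R := Nat.cast_nonneg _
  linarith [hw.1]

private theorem CorA_re2 {M R : ℕ} {w : ℂ × ℂ} (hw : w ∈ Om M R) : w.2.re < 0 := by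
  have h0 : (0 : ℝ) ≤ M := Nat.cast_nonneg _
  have h1 := CorA_re1 hw
  have h2 : (M : ℝ) * w.1.re ≤ 0 := mul_nonpos_of_nonneg_of_nonpos h0 h1.le
  exact hw.2.trans_le h2

private theorem CorA_hp0 {e : ℕ} (he : 0 < e) {z : ℂ} (hz : z.re < 0) : (e : ℂ) * z ∈ Hp 0 := by
  show ((e : ℂ) * z).re < -((0 : ℕ) : ℝ)
  rw [← Complex.ofReal_natCast, Complex.re_ofReal_mul]
  have : (0 : ℝ) < e := by exact_mod_cast he
  push_cast
  nlinarith

private theorem CorA_ptdiff {k : IntermediateField ℚ ℂ} {ξ : Fin 4 → ℂ} {e M R : ℕ} {ρ₂ ρ₃ : ℂ × ℂ → ℂ}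
    {S : Set ℕ} (h : Dat k ξ e M R ρ₂ ρ₃ S) (G : MvPolynomial (Fin 4) k) :
    DifferentiableOn ℂ (fun w => (aeval (CorA_pt e ρ₂ ρ₃ w) G : ℂ)) (Om M R) := by
  have h1 : DifferentiableOn ℂ (fun w : ℂ × ℂ => Jw ((e : ℂ) * w.1)) (Om M R) :=
    jw_hol.comp (by fun_prop) fun w hw => CorA_hp0 h.he (CorA_re1 hw)
  have h2 : DifferentiableOn ℂ (fun w : ℂ × ℂ => Jw ((e : ℂ) * w.2)) (Om M R) :=
    jw_hol.comp (by fun_prop) fun w hw => CorA_hp0 h.he (CorA_re2 hw)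
  have h3 := CorA_diff (k := k) (Ω := Om M R)
    (φ := ![fun w : ℂ × ℂ => Jw ((e : ℂ) * w.1), fun w : ℂ × ℂ => Jw ((e : ℂ) * w.2), ρ₂, ρ₃])
    (by
      intro i
      fin_cases i
      exacts [h1, h2, h.mo2.hol, h.mo3.hol]) G
  refine h3.congr fun w _ => ?_
  show (aeval (CorA_pt e ρ₂ ρ₃ w) G : ℂ) = _
  congr 1
  congr 1
  funext i
  fin_cases i <;> rfl

/-- a correspondence between the functions is one between the coordinates of `ξ` -/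
private theorem CorA_gen {k : IntermediateField ℚ ℂ} (hk : AC k) {ξ : Fin 4 → ℂ} {e M R : ℕ}
    {ρ₂ ρ₃ : ℂ × ℂ → ℂ} {S : Set ℕ} (h : Dat k ξ e M R ρ₂ ρ₃ S) {q M' R' : ℕ} (hq : 0 < q)
    (hM : M ≤ M') (hR : R ≤ R') (a b : Fin 4) {g : GL (Fin 2) ℚ} (hg : 0 < g.det.val)
    (hw : ∀ w ∈ Om M' R', (![CorA_pt e ρ₂ ρ₃ ((q : ℂ) * w.1, (q : ℂ) * w.2) a,
      CorA_pt e ρ₂ ρ₃ ((q : ℂ) * w.1, (q : ℂ) * w.2) b] : Fin 2 → ℂ) ∈ MR g) :
    HeckeRel (ξ a) (ξ b) := by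
  have hq0 : (q : ℂ) ≠ 0 := by exact_mod_cast hq.ne'
  have key : (![ξ a, ξ b] : Fin 2 → ℂ) ∈ MR g := by
    refine mr_spec' hk
      (Y := {y | ∃ w ∈ Om M' R', y = CorA_pt e ρ₂ ρ₃ ((q : ℂ) * w.1, (q : ℂ) * w.2)}) ?_ a b hg ?_
    · intro G hG
      rw [h.rel G]
      obtain ⟨w', hw'⟩ := Om_ne (M := M') (R := R')
      have hw0 : ((q : ℂ) * w'.1, (q : ℂ) * w'.2) ∈ Om M R := Om_mono hM hR (sc_mem hq hw')
      refine ident isOpen_Om seg_Om (CorA_ptdiff h G) hw0 ?_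
      have hc : Continuous fun z : ℂ × ℂ => (z.1 / (q : ℂ), z.2 / (q : ℂ)) := by fun_prop
      have hmem : ((q : ℂ) * w'.1 / (q : ℂ), (q : ℂ) * w'.2 / (q : ℂ)) ∈ Om M' R' := by
        rw [mul_div_cancel_left₀ _ hq0, mul_div_cancel_left₀ _ hq0]
        exact hw'
      have hev : ∀ᶠ z in nhds ((q : ℂ) * w'.1, (q : ℂ) * w'.2),
          (z.1 / (q : ℂ), z.2 / (q : ℂ)) ∈ Om M' R' :=
        hc.continuousAt.eventually (isOpen_Om.mem_nhds hmem)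
      filter_upwards [hev] with z hz
      have h1 := hG _ ⟨_, hz, rfl⟩
      have h2 : ((q : ℂ) * (z.1 / (q : ℂ)), (q : ℂ) * (z.2 / (q : ℂ))) = z := by
        rw [mul_div_cancel₀ _ hq0, mul_div_cancel₀ _ hq0]
      rw [h2] at h1
      exact h1
    · rintro y ⟨w, hwm, rfl⟩
      exact hw w hwm
  exact rel_of_mr hg key

private theorem CorA_tpi : (2 * (Real.pi : ℂ) * Complex.I) ≠ 0 := by
  have : (Real.pi : ℂ) ≠ 0 := by exact_mod_cast Real.pi_ne_zero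
  simp [this, Complex.I_ne_zero]

private theorem CorA_im {z : ℂ} (hz : z.re < 0) : 0 < (z / (2 * Real.pi * Complex.I)).im := by
  have h1 : z / (2 * Real.pi * Complex.I) = ((-(1 / (2 * Real.pi)) : ℝ) : ℂ) * z * Complex.I := by
    have hpi : (Real.pi : ℂ) ≠ 0 := by exact_mod_cast Real.pi_ne_zero
    push_cast
    field_simp
    ring_nf
    rw [Complex.I_sq]
    ring
  rw [h1, Complex.mul_I_im, Complex.re_ofReal_mul]
  have : 0 < 1 / (2 * Real.pi) := by positivity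
  nlinarith

/-- the matrix for a linear relation -/
private theorem CorA_lin {e q : ℕ} (he : 0 < e) (hq : 0 < q) {a : ℤ} (ha : 0 < a) (r : ℚ) :
    ∃ A B C D : ℤ, 0 < A * D - B * C ∧ ∀ z : ℂ,
      (a * z / (2 * Real.pi * Complex.I) + r) * (C * ((e : ℂ) * ((q : ℂ) * z) / (2 * Real.pi * Complex.I)) + D) =
        A * ((e : ℂ) * ((q : ℂ) * z) / (2 * Real.pi * Complex.I)) + B := by
  refine ⟨a * r.den, e * q * r.num, 0, e * q * r.den, ?_, fun z => ?_⟩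
  · have h1 : (0 : ℤ) < r.den := by exact_mod_cast r.den_pos
    have h2 : (0 : ℤ) < e := by exact_mod_cast he
    have h3 : (0 : ℤ) < q := by exact_mod_cast hq
    rw [mul_zero, sub_zero]
    positivity
  · have hr : (r : ℂ) = (r.num : ℂ) / (r.den : ℂ) := by
      exact_mod_cast congrArg (fun x : ℚ => (x : ℂ)) (Rat.num_div_den r).symm
    have hd : (r.den : ℂ) ≠ 0 := by exact_mod_cast r.den_ne_zero
    have h2 := CorA_tpi
    rw [hr]
    push_cast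
    field_simp
    ring

private theorem CorA_main {k : IntermediateField ℚ ℂ} (hk : AC k) {ξ : Fin 4 → ℂ} {e M R : ℕ}
    {ρ₂ ρ₃ : ℂ × ℂ → ℂ} {S : Set ℕ} (h : Dat k ξ e M R ρ₂ ρ₃ S) {q M' R' : ℕ} (hq : 0 < q)
    (hM : M ≤ M') (hR : R ≤ R') {a₂ b₂ a₃ b₃ : ℤ} {ψ₂ ψ₃ : ℂ × ℂ → ℂ}
    (l2 : Lf ρ₂ q M' R' a₂ b₂ ψ₂) (l3 : Lf ρ₃ q M' R' a₃ b₃ ψ₃) :
    HeckeRel (ξ 2) (ξ 3) ∨ HeckeRel (ξ 2) (ξ 0) ∨ HeckeRel (ξ 2) (ξ 1) := by
  have hsub : ∀ w ∈ Om M' R', ((q : ℂ) * w.1, (q : ℂ) * w.2) ∈ Om M R := fun w hw =>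
    Om_mono hM hR (sc_mem hq hw)
  have htau : ∀ (a b : ℤ) (ψ : ℂ × ℂ → ℂ), DifferentiableOn ℂ ψ (Om M' R') →
      DifferentiableOn ℂ (tau a b ψ) (Om M' R') := by
    intro a b ψ hψ
    unfold tau
    refine DifferentiableOn.add ?_ hψ
    refine Differentiable.differentiableOn ?_
    fun_prop
  have harc : ∀ N : ℕ, M' < N → ∀ (a b : ℤ) (ψ : ℂ × ℂ → ℂ), DifferentiableOn ℂ ψ (Om M' R') →
      DifferentiableOn ℂ (fun t : ℂ => tau a b ψ (t, (N : ℂ) * t)) (Hp R') := by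
    intro N hN a b ψ hψ
    exact (htau a b ψ hψ).comp (by fun_prop) fun t ht => arc_mem hN ht
  have hmat : ∀ N ∈ S, M' < N → ∃ A B C D : ℤ, 0 < A * D - B * C ∧ ∀ t ∈ Hp R',
      tau a₃ b₃ ψ₃ (t, (N : ℂ) * t) * (C * tau a₂ b₂ ψ₂ (t, (N : ℂ) * t) + D) =
        A * tau a₂ b₂ ψ₂ (t, (N : ℂ) * t) + B := by
    intro N hNS hN
    refine mat (harc N hN a₂ b₂ ψ₂ l2.lft.bo.hol) (harc N hN a₃ b₃ ψ₃ l3.lft.bo.hol)
      (fun t ht => l2.pos _ (arc_mem hN ht)) (fun t ht => l3.pos _ (arc_mem hN ht)) fun t ht => ?_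
    rw [← l2.eq _ (arc_mem hN ht), ← l3.eq _ (arc_mem hN ht)]
    have hqt : (q : ℂ) * t ∈ Hp R := by
      have h1 : (q : ℂ) * t ∈ Hp R' := sc_mem' hq ht
      have h2 : (R : ℝ) ≤ R' := by exact_mod_cast hR
      have h3 : ((q : ℂ) * t).re < -(R' : ℝ) := h1
      show ((q : ℂ) * t).re < -(R : ℝ)
      linarith
    have h1 := h.iso N hNS (lt_of_le_of_lt hM hN) _ hqt
    have h2 : (N : ℂ) * ((q : ℂ) * t) = (q : ℂ) * ((N : ℂ) * t) := by ring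
    rw [h2] at h1
    exact h1
  rcases con l2.lft l3.lft h.inf hmat with ⟨A, B, C, D, hd, hrel⟩ | ⟨hlex, r, hr⟩
  · left
    obtain ⟨g, hg, hgx⟩ := rel_of_mat hd
    refine CorA_gen hk h hq hM hR 2 3 hg fun w hw => ?_
    have h1 := hgx _ _ (l2.pos w hw) (l3.pos w hw) (hrel w hw)
    rw [← l2.eq w hw, ← l3.eq w hw] at h1
    exact h1
  · right
    have hrho : ∀ w ∈ Om M' R', ρ₂ ((q : ℂ) * w.1, (q : ℂ) * w.2) =
        jF ((a₂ * w.1 + b₂ * w.2) / (2 * Real.pi * Complex.I) + (r : ℂ)) := by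
      intro w hw
      rw [l2.eq w hw, tau, hr w hw]
    have hpos : ∀ w ∈ Om M' R',
        0 < ((a₂ * w.1 + b₂ * w.2) / (2 * Real.pi * Complex.I) + (r : ℂ)).im := by
      intro w hw
      have h1 := l2.pos w hw
      rw [tau, hr w hw] at h1
      exact h1
    by_cases hb : b₂ = 0
    · left
      have ha : 0 < a₂ := by
        rcases hlex with h1 | h1
        · omega
        · exact h1.2
      obtain ⟨A, B, C, D, hd, hz⟩ := CorA_lin h.he hq ha r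
      obtain ⟨g, hg, hgx⟩ := rel_of_mat hd
      refine HeckeRel.symm' (CorA_gen hk h hq hM hR 0 2 hg fun w hw => ?_)
      have h0 := hrho w hw
      have h1 := hpos w hw
      rw [hb, Int.cast_zero, zero_mul, add_zero] at h0 h1
      have h2 : ((e : ℂ) * ((q : ℂ) * w.1)).re < 0 :=  by
        have := CorA_hp0 h.he (CorA_re1 (hsub w hw))
        have h3 : ((e : ℂ) * ((q : ℂ) * w.1)).re < -((0 : ℕ) : ℝ) := this
        simpa using h3
      have h4 := hgx _ _ (CorA_im h2) h1 (hz w.1)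
      rw [← h0] at h4
      exact h4
    · by_cases ha : a₂ = 0
      · right
        have hb' : 0 < b₂ := by
          rcases hlex with h1 | h1
          · exact h1
          · exact absurd h1.1 hb
        obtain ⟨A, B, C, D, hd, hz⟩ := CorA_lin h.he hq hb' r
        obtain ⟨g, hg, hgx⟩ := rel_of_mat hd
        refine HeckeRel.symm' (CorA_gen hk h hq hM hR 1 2 hg fun w hw => ?_)
        have h0 := hrho w hw
        have h1 := hpos w hw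
        rw [ha, Int.cast_zero, zero_mul, zero_add] at h0 h1
        have h2 : ((e : ℂ) * ((q : ℂ) * w.2)).re < 0 :=  by
          have := CorA_hp0 h.he (CorA_re2 (hsub w hw))
          have h3 : ((e : ℂ) * ((q : ℂ) * w.2)).re < -((0 : ℕ) : ℝ) := this
          simpa using h3
        have h4 := hgx _ _ (CorA_im h2) h1 (hz w.2)
        rw [← h0] at h4
        exact h4
      · exfalso
        have hb' : 0 < b₂ := by
          rcases hlex with h1 | h1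
          · exact h1
          · exact absurd h1.1 hb
        obtain ⟨G, hG, hGv⟩ := h.alg
        refine excl (e := e * q) (M := M') (R := R') (Nat.mul_pos h.he hq) ha hb' (r : ℝ) hG fun w hw => ?_
        have h1 := hGv _ (hsub w hw)
        rw [hrho w hw] at h1
        simp only [Nat.cast_mul, mul_assoc] at h1 ⊢
        simpa using h1

theorem core_of_dat {k : IntermediateField ℚ ℂ} (hk : AC k) {ξ : Fin 4 → ℂ} {e M R : ℕ} {ρ₂ ρ₃ : ℂ × ℂ → ℂ}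
    {S : Set ℕ} (h : Dat k ξ e M R ρ₂ ρ₃ S) :
    HeckeRel (ξ 2) (ξ 3) ∨ HeckeRel (ξ 2) (ξ 0) ∨ HeckeRel (ξ 2) (ξ 1) := by
  obtain ⟨q₂, M₂, R₂, a₂, b₂, ψ₂, hq₂, hM₂, hR₂, l2⟩ := exists_lf h.mo2 h.nc2
  obtain ⟨q₃, M₃, R₃, a₃, b₃, ψ₃, hq₃, hM₃, hR₃, l3⟩ := exists_lf h.mo3 h.nc3
  have l2' := (l2.scale hq₃).mono (le_max_left M₂ M₃) (le_max_left R₂ R₃)
  have l3' := (l3.scale hq₂).mono (le_max_right M₂ M₃) (le_max_right R₂ R₃)
  rw [mul_comm q₃ q₂] at l3'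
  exact CorA_main hk h (Nat.mul_pos hq₂ hq₃) (hM₂.trans (le_max_left _ _)) (hR₂.trans (le_max_left _ _)) l2' l3'

/-- **the core theorem** -/
theorem core {k : IntermediateField ℚ ℂ} (hk : AC k) {ξ : Fin 4 → ℂ}
    (hi : AlgebraicIndependent k ![ξ 0, ξ 1]) (h2 : ¬ AlgebraicIndependent k ![ξ 0, ξ 1, ξ 2])
    (h3 : ¬ AlgebraicIndependent k ![ξ 0, ξ 1, ξ 3]) {S : Set ℕ} (hS : S.Infinite)
    (hx : ∀ N ∈ S, ∃ x, Tp k ξ N x) : HeckeRel (ξ 2) (ξ 3) ∨ HeckeRel (ξ 2) (ξ 0) ∨ HeckeRel (ξ 2) (ξ 1) := by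
  obtain ⟨e, M, R, ρ₂, ρ₃, S', h⟩ := exists_dat hk hi h2 h3 hS hx
  exact core_of_dat hk h

end Pool.Agent.LGO.FC
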