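import Mathlib
import Pool.Agent.LGO.FC.TrfA

/-!
# LGO/FC: bounds for the degree of the isogeny

`deg_main`: `H ∈ ℂ[X₀, X₁]`, `H ≠ 0` and `H (j τ, j (N τ)) = 0` for all `τ`: `N ≤ deg H`.
Proof.  Take `τ'` with `j τ'` not CM (`NCM`; or: `τ'` not quadratic) and `H (X, j τ') ≠ 0` (all but finitely many values `j τ'`; the CM values
are algebraic, so take `j τ'` transcendental).  For `b = 0, ..., N - 1` let `τ_b = (τ' + b) / N`: `N τ_b = τ' + b`, `j (N τ_b) = j τ'`, so `j (τ_b)` is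
a root of `H (X, j τ')`.  These roots are different: `j τ_b = j τ_c` gives `γ ∈ SL₂(ℤ)` with `γ τ_b = τ_c`, which is a quadratic
equation for `τ'` with rational coefficients, so it is trivial: `γ = ± (1, m; 0, 1)` and `c - b = N m`, so `b = c`.  So
`N ≤ deg_X H (X, j τ') ≤ H.totalDegree`.

`deg_bd`: `u, v, c` algebraically dependent over `k`, `c ∉ k`.  Let `G ∈ k[X₀, X₁, X₂]`, `G ≠ 0`, `G (u, v, c) = 0`, of minimal degree in `X₂`.
For `d ∈ k`: `H = G (X₀, X₁, d) ≠ 0`, because otherwise `G = (X₂ - d) G'` with `G' (u, v, c) = 0`, as `c ≠ d`, of smaller degree.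
If `Mlt N x y`, `x ∉ k` and `(x, y, d)` is a specialisation of `(u, v, c)`: `H (x, y) = 0`, so `H (j τ, j (N τ)) = 0` for all `τ` (`trf`), and
`N ≤ deg H ≤ deg G` (`deg_main`).  `deg_bd2`: the same without `c`.
-/

namespace Pool.Agent.LGO.FC

open UpperHalfPlane Pool.Agent.AHC Pool.Agent.Hhelper14.ZP Pool.Agent.Hhelper14.ZPL Pool.Agent.LGO

private theorem DegA_per (τ : ℍ) (b : ℕ) : jF ((τ : ℂ) + b) = jInv τ := by
  have h1 := jInv_smul (ModularGroup.T ^ (b : ℤ)) τ
  rw [← jF_coe, ModularGroup.coe_T_zpow_smul_eq] at h1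
  rw [← h1]
  push_cast
  rfl

private theorem DegA_im {τ : ℍ} {N : ℕ} (hN : 0 < N) (b : ℕ) : 0 < (((τ : ℂ) + b) / N).im := by
  have h1 : (((τ : ℂ) + b) / N).im = τ.im / N := by
    rw [← Complex.ofReal_natCast N, Complex.div_ofReal_im]
    simp
  rw [h1]
  have : (0 : ℝ) < N := by exact_mod_cast hN
  exact div_pos τ.im_pos this

private theorem DegA_inj {τ : ℍ} (hτ : NonCM (τ : ℂ)) {N : ℕ} {b c : ℕ} (hb : b < N)
    (hc : c < N) (h : jF (((τ : ℂ) + b) / N) = jF (((τ : ℂ) + c) / N)) : b = c := by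
  have hN : 0 < N := by omega
  have hN0 : (N : ℂ) ≠ 0 := by exact_mod_cast hN.ne'
  let u : ℍ := ⟨((τ : ℂ) + b) / N, DegA_im hN b⟩
  let v : ℍ := ⟨((τ : ℂ) + c) / N, DegA_im hN c⟩
  have hu : (u : ℂ) = ((τ : ℂ) + b) / N := rfl
  have hv : (v : ℂ) = ((τ : ℂ) + c) / N := rfl
  rw [← hu, ← hv, jF_coe, jF_coe] at h
  obtain ⟨γ, hγ⟩ := Gal.j_inj h
  have hm := Gal.maps_sl γ v
  rw [← hγ, Maps, hu, hv] at hm
  have hdet := γ.2
  rw [Matrix.det_fin_two] at hdet
  set p := γ.1 0 0
  set q := γ.1 0 1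
  set r := γ.1 1 0
  set s := γ.1 1 1
  have e : (r : ℂ) * (τ : ℂ) ^ 2 + ((r * c + s * N + r * b - N * p : ℤ) : ℂ) * (τ : ℂ) +
      ((b * r * c + b * s * N - N * p * c - N ^ 2 * q : ℤ) : ℂ) = 0 := by
    field_simp at hm
    push_cast
    linear_combination hm
  obtain ⟨h1, h2, h3⟩ := hτ _ _ _ e
  rw [h1] at h2 h3 hdet
  have h4 : s = p := by
    have : (N : ℤ) * (s - p) = 0 := by linarith
    rcases mul_eq_zero.1 this with h | h
    · omega
    · omega
  rw [h4] at h3 hdet
  have h5 : p * p = 1 := by linarith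
  have h6 : p * ((b : ℤ) - c) = N * q := by
    have : (N : ℤ) * (p * ((b : ℤ) - c) - N * q) = 0 := by linarith
    rcases mul_eq_zero.1 this with h | h
    · omega
    · omega
  have h7 : (N : ℤ) ∣ ((b : ℤ) - c) := by
    refine ⟨p * q, ?_⟩
    calc ((b : ℤ) - c) = (p * p) * ((b : ℤ) - c) := by rw [h5, one_mul]
      _ = p * (p * ((b : ℤ) - c)) := by ring
      _ = p * (N * q) := by rw [h6]
      _ = N * (p * q) := by ring
  have h8 : ((b : ℤ) - c) = 0 := by
    apply Int.eq_zero_of_abs_lt_dvd h7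
    rw [abs_lt]
    omega
  omega

private theorem DegA_deg (H : MvPolynomial (Fin 2) ℂ) (y : ℂ) :
    (MvPolynomial.aeval ![Polynomial.X, Polynomial.C y] H : Polynomial ℂ).natDegree ≤
      H.totalDegree := by
  rw [MvPolynomial.aeval_def, MvPolynomial.eval₂_eq']
  apply Polynomial.natDegree_sum_le_of_forall_le
  intro m hm
  rw [Fin.prod_univ_two]
  simp only [Matrix.cons_val_zero, Matrix.cons_val_one, Matrix.cons_val_fin_one]
  have h1 : m 0 ≤ H.totalDegree := by
    refine le_trans ?_ (MvPolynomial.le_totalDegree hm)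
    rw [Finsupp.sum_fintype _ _ (fun _ => rfl), Fin.sum_univ_two]
    omega
  refine le_trans ?_ h1
  have h2 : (algebraMap ℂ (Polynomial ℂ) (MvPolynomial.coeff m H) *
      (Polynomial.X ^ m 0 * Polynomial.C y ^ m 1)) =
      Polynomial.C (MvPolynomial.coeff m H * y ^ m 1) * Polynomial.X ^ m 0 := by
    rw [Polynomial.algebraMap_eq, map_mul, map_pow]
    ring
  rw [h2]
  exact Polynomial.natDegree_C_mul_X_pow_le _ _

private theorem DegA_eval (H : MvPolynomial (Fin 2) ℂ) (x y : ℂ) :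
    (MvPolynomial.aeval ![Polynomial.X, Polynomial.C y] H : Polynomial ℂ).eval x =
      MvPolynomial.eval ![x, y] H := by
  have : (Polynomial.evalRingHom x).comp
      ((MvPolynomial.aeval ![Polynomial.X, Polynomial.C y] : MvPolynomial (Fin 2) ℂ →ₐ[ℂ] Polynomial ℂ) :
        MvPolynomial (Fin 2) ℂ →+* Polynomial ℂ) = MvPolynomial.eval ![x, y] := by
    apply MvPolynomial.ringHom_ext
    · intro r
      simp
    · intro i
      fin_cases i <;> simp
  exact congrArg (fun f => f H) this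

private theorem DegA_eval' (H : MvPolynomial (Fin 2) ℂ) (x y : ℂ) :
    (MvPolynomial.aeval ![Polynomial.C x, Polynomial.X] H : Polynomial ℂ).eval y =
      MvPolynomial.eval ![x, y] H := by
  have : (Polynomial.evalRingHom y).comp
      ((MvPolynomial.aeval ![Polynomial.C x, Polynomial.X] : MvPolynomial (Fin 2) ℂ →ₐ[ℂ] Polynomial ℂ) :
        MvPolynomial (Fin 2) ℂ →+* Polynomial ℂ) = MvPolynomial.eval ![x, y] := by
    apply MvPolynomial.ringHom_ext
    · intro r
      simp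
    · intro i
      fin_cases i <;> simp
  exact congrArg (fun f => f H) this

private theorem DegA_nonCM {τ : ℍ} (h : ¬ IsAlgebraic ℚ (τ : ℂ)) : NonCM (τ : ℂ) := by
  intro a b c habc
  by_contra hne
  apply h
  refine ⟨Polynomial.C (a : ℚ) * Polynomial.X ^ 2 + Polynomial.C (b : ℚ) * Polynomial.X +
    Polynomial.C (c : ℚ), ?_, ?_⟩
  · intro h0
    apply hne
    have e0 := congrArg (fun p => Polynomial.coeff p 0) h0
    have e1 := congrArg (fun p => Polynomial.coeff p 1) h0
    have e2 := congrArg (fun p => Polynomial.coeff p 2) h0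
    simp only [Polynomial.coeff_add, Polynomial.coeff_C_mul, Polynomial.coeff_X_pow,
      Polynomial.coeff_X, Polynomial.coeff_C, Polynomial.coeff_zero] at e0 e1 e2
    norm_num at e0 e1 e2
    exact ⟨e2, e1, e0⟩
  · simpa using habc

theorem deg_main {N : ℕ} {H : MvPolynomial (Fin 2) ℂ} (hH : H ≠ 0)
    (h : ∀ τ : ℂ, 0 < τ.im → MvPolynomial.eval ![jF τ, jF (N * τ)] H = 0) : N ≤ H.totalDegree := by
  rcases Nat.eq_zero_or_pos N with rfl | hN
  · exact Nat.zero_le _
  have hN0 : (N : ℂ) ≠ 0 := by exact_mod_cast hN.ne'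
  -- a point where H does not vanish
  obtain ⟨w, hw⟩ : ∃ w : Fin 2 → ℂ, MvPolynomial.eval w H ≠ 0 := by
    by_contra hall
    push Not at hall
    exact hH (MvPolynomial.funext fun w => by rw [hall w, map_zero])
  set R : Polynomial ℂ := MvPolynomial.aeval ![Polynomial.C (w 0), Polynomial.X] H with hR
  have hR0 : R ≠ 0 := by
    intro h0
    apply hw
    have : w = ![w 0, w 1] := by
      funext i
      fin_cases i <;> rfl
    rw [this, ← DegA_eval', ← hR, h0, Polynomial.eval_zero]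
  -- the good value
  obtain ⟨y, hy⟩ : ∃ y : ℂ, y ∉ (jF '' {x : ℂ | IsAlgebraic ℚ x}) ∪ {x | R.IsRoot x} := by
    have hc : ((jF '' {x : ℂ | IsAlgebraic ℚ x}) ∪ {x | R.IsRoot x}).Countable := by
      apply Set.Countable.union
      · exact (Algebraic.countable ℚ ℂ).image _
      · exact (Polynomial.finite_setOfPred_isRoot hR0).countable
    by_contra hall
    push Not at hall
    have : (Set.univ : Set ℂ) ⊆ (jF '' {x : ℂ | IsAlgebraic ℚ x}) ∪ {x | R.IsRoot x} :=
      fun x _ => hall x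
    exact not_countable_complex (hc.mono this)
  rw [Set.mem_union, not_or] at hy
  obtain ⟨τ, hτy⟩ := j_surj y
  have hτ : NonCM (τ : ℂ) := DegA_nonCM fun h0 => hy.1 ⟨τ, h0, by rw [jF_coe, hτy]⟩
  set P : Polynomial ℂ := MvPolynomial.aeval ![Polynomial.X, Polynomial.C y] H with hP
  have hP0 : P ≠ 0 := by
    intro h0
    apply hy.2
    show R.eval y = 0
    rw [hR, DegA_eval', ← DegA_eval, ← hP, h0, Polynomial.eval_zero]
  have hroot : ∀ b : ℕ, P.IsRoot (jF (((τ : ℂ) + b) / N)) := by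
    intro b
    show P.eval _ = 0
    rw [hP, DegA_eval]
    have h1 := h (((τ : ℂ) + b) / N) (DegA_im hN b)
    rw [mul_div_cancel₀ _ hN0, DegA_per, hτy] at h1
    exact h1
  have hcard : (Finset.univ.image fun b : Fin N => jF (((τ : ℂ) + (b : ℕ)) / N)).card = N := by
    rw [Finset.card_image_of_injective, Finset.card_univ, Fintype.card_fin]
    intro b c hbc
    exact Fin.ext (DegA_inj hτ b.2 c.2 hbc)
  calc N = (Finset.univ.image fun b : Fin N => jF (((τ : ℂ) + (b : ℕ)) / N)).card := hcard.symm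
    _ ≤ P.roots.toFinset.card := by
        apply Finset.card_le_card
        intro x hx
        obtain ⟨b, _, rfl⟩ := Finset.mem_image.1 hx
        rw [Multiset.mem_toFinset, Polynomial.mem_roots hP0]
        exact hroot b
    _ ≤ P.roots.card := Multiset.toFinset_card_le _
    _ ≤ P.natDegree := P.card_roots'
    _ ≤ H.totalDegree := DegA_deg H y

private theorem DegA_bd {k : IntermediateField ℚ ℂ} (hk : AC k) {N : ℕ} {x y : ℂ}
    (hm : Mlt N x y) (hx : x ∉ k) {G : MvPolynomial (Fin 2) k} (hG0 : G ≠ 0)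
    (hG : MvPolynomial.aeval ![x, y] G = (0 : ℂ)) : N ≤ G.totalDegree := by
  have hinj : Function.Injective (algebraMap k ℂ) := (algebraMap k ℂ).injective
  have h0 : MvPolynomial.map (algebraMap k ℂ) G ≠ 0 := by
    intro h
    apply hG0
    apply MvPolynomial.map_injective _ hinj
    rw [h, map_zero]
  refine (deg_main h0 ?_).trans ?_
  · intro τ hτ
    rw [MvPolynomial.eval_map]
    exact trf hk hm hx hG hτ
  · rw [MvPolynomial.totalDegree, MvPolynomial.totalDegree]
    exact Finset.sup_mono (MvPolynomial.support_map_subset _ _)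

/-- the value of a polynomial in `T` over `k[X₀, X₁]` -/
private noncomputable def DegA_ev (k : IntermediateField ℚ ℂ) (a b t : ℂ) :
    Polynomial (MvPolynomial (Fin 2) k) →+* ℂ :=
  Polynomial.eval₂RingHom ((MvPolynomial.aeval ![a, b] : MvPolynomial (Fin 2) k →ₐ[k] ℂ) :
    MvPolynomial (Fin 2) k →+* ℂ) t

private noncomputable def DegA_phi (k : IntermediateField ℚ ℂ) :
    Polynomial (MvPolynomial (Fin 2) k) →+* MvPolynomial (Fin 3) k :=
  Polynomial.eval₂RingHom ((MvPolynomial.rename ![0, 1] : MvPolynomial (Fin 2) k →ₐ[k]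
    MvPolynomial (Fin 3) k) : MvPolynomial (Fin 2) k →+* MvPolynomial (Fin 3) k) (MvPolynomial.X 2)

private noncomputable def DegA_psi (k : IntermediateField ℚ ℂ) :
    MvPolynomial (Fin 3) k →ₐ[k] Polynomial (MvPolynomial (Fin 2) k) :=
  MvPolynomial.aeval ![Polynomial.C (MvPolynomial.X 0), Polynomial.C (MvPolynomial.X 1),
    Polynomial.X]

private theorem DegA_phi_psi {k : IntermediateField ℚ ℂ} (G : MvPolynomial (Fin 3) k) :
    DegA_phi k (DegA_psi k G) = G := by
  have : (DegA_phi k).comp (DegA_psi k : MvPolynomial (Fin 3) k →+* _) = RingHom.id _ := by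
    apply MvPolynomial.ringHom_ext
    · intro r
      simp [DegA_phi, DegA_psi, Polynomial.algebraMap_apply]
    · intro i
      fin_cases i <;> simp [DegA_phi, DegA_psi]
  exact congrArg (fun f => f G) this

private theorem DegA_aeval_phi {k : IntermediateField ℚ ℂ} (a b t : ℂ)
    (g : Polynomial (MvPolynomial (Fin 2) k)) :
    MvPolynomial.aeval ![a, b, t] (DegA_phi k g) = DegA_ev k a b t g := by
  have : ((MvPolynomial.aeval ![a, b, t] : MvPolynomial (Fin 3) k →ₐ[k] ℂ) :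
      MvPolynomial (Fin 3) k →+* ℂ).comp (DegA_phi k) = DegA_ev k a b t := by
    apply Polynomial.ringHom_ext'
    · apply MvPolynomial.ringHom_ext
      · intro r
        simp [DegA_phi, DegA_ev]
      · intro i
        fin_cases i <;> simp [DegA_phi, DegA_ev]
    · simp [DegA_phi, DegA_ev]
  exact congrArg (fun f => f g) this

private theorem DegA_min {k : IntermediateField ℚ ℂ} {u v c : ℂ} (hc : c ∉ k)
    (hd : ¬ AlgebraicIndependent k ![u, v, c]) :
    ∃ g : Polynomial (MvPolynomial (Fin 2) k), DegA_ev k u v c g = 0 ∧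
      ∀ d : k, g.eval (MvPolynomial.C d) ≠ 0 := by
  classical
  have hex : ∃ n : ℕ, ∃ g : Polynomial (MvPolynomial (Fin 2) k), g ≠ 0 ∧
      DegA_ev k u v c g = 0 ∧ g.natDegree = n := by
    rw [algebraicIndependent_iff] at hd
    push Not at hd
    obtain ⟨G, hG, hG0⟩ := hd
    refine ⟨_, DegA_psi k G, ?_, ?_, rfl⟩
    · intro h
      apply hG0
      rw [← DegA_phi_psi G, h, map_zero]
    · rw [← DegA_aeval_phi, DegA_phi_psi]
      exact hG
  obtain ⟨g, hg0, hg, hgn⟩ := Nat.find_spec hex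
  refine ⟨g, hg, ?_⟩
  intro d hgd
  obtain ⟨g', hg'⟩ := Polynomial.dvd_iff_isRoot.2 hgd
  have h1 : DegA_ev k u v c (Polynomial.X - Polynomial.C (MvPolynomial.C d)) = c - d := by
    simp [DegA_ev]
  have h2 : (c - d : ℂ) ≠ 0 := by
    intro h
    rw [sub_eq_zero] at h
    exact hc (h ▸ d.2)
  have h3 : DegA_ev k u v c g' = 0 := by
    rw [hg', map_mul, h1] at hg
    exact (mul_eq_zero.1 hg).resolve_left h2
  have h4 : g' ≠ 0 := by
    rintro rfl
    rw [mul_zero] at hg'
    exact hg0 hg'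
  have h5 : g.natDegree = 1 + g'.natDegree := by
    rw [hg', Polynomial.natDegree_mul (Polynomial.X_sub_C_ne_zero _) h4,
      Polynomial.natDegree_X_sub_C]
  have h6 := Nat.find_min' hex ⟨g', h4, h3, rfl⟩
  omega

theorem deg_bd {k : IntermediateField ℚ ℂ} (hk : AC k) {u v c : ℂ} (hc : c ∉ k)
    (hd : ¬ AlgebraicIndependent k ![u, v, c]) :
    ∃ N₀ : ℕ, ∀ (N : ℕ) (x y d : ℂ), Mlt N x y → x ∉ k → d ∈ k →
      (∀ G : MvPolynomial (Fin 3) k, MvPolynomial.aeval ![u, v, c] G = (0 : ℂ) →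
        MvPolynomial.aeval ![x, y, d] G = (0 : ℂ)) → N ≤ N₀ := by
  obtain ⟨g, hg, hgd⟩ := DegA_min hc hd
  refine ⟨∑ i ∈ Finset.range (g.natDegree + 1), (g.coeff i).totalDegree, ?_⟩
  intro N x y d hm hx hdk hsp
  have h1 := hsp (DegA_phi k g) (by rw [DegA_aeval_phi, hg])
  rw [DegA_aeval_phi] at h1
  have h2 : MvPolynomial.aeval ![x, y] (g.eval (MvPolynomial.C (⟨d, hdk⟩ : k))) = (0 : ℂ) := by
    have h3 := Polynomial.hom_eval₂ g (RingHom.id _)
      ((MvPolynomial.aeval ![x, y] : MvPolynomial (Fin 2) k →ₐ[k] ℂ) :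
        MvPolynomial (Fin 2) k →+* ℂ) (MvPolynomial.C (⟨d, hdk⟩ : k))
    rw [RingHom.comp_id] at h3
    have h4 : ((MvPolynomial.aeval ![x, y] : MvPolynomial (Fin 2) k →ₐ[k] ℂ) :
        MvPolynomial (Fin 2) k →+* ℂ) (MvPolynomial.C (⟨d, hdk⟩ : k)) = d := by
      simp
    rw [h4] at h3
    exact h3.trans h1
  refine (DegA_bd hk hm hx (hgd _) h2).trans ?_
  rw [Polynomial.eval_eq_sum_range]
  apply MvPolynomial.totalDegree_finsetSum_le
  intro i hi
  refine le_trans ?_ (Finset.single_le_sum (f := fun i => (g.coeff i).totalDegree)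
    (fun _ _ => Nat.zero_le _) hi)
  refine (MvPolynomial.totalDegree_mul _ _).trans ?_
  rw [← map_pow, MvPolynomial.totalDegree_C, add_zero]

theorem deg_bd2 {k : IntermediateField ℚ ℂ} (hk : AC k) {u v : ℂ}
    (hd : ¬ AlgebraicIndependent k ![u, v]) :
    ∃ N₀ : ℕ, ∀ (N : ℕ) (x y : ℂ), Mlt N x y → x ∉ k →
      (∀ G : MvPolynomial (Fin 2) k, MvPolynomial.aeval ![u, v] G = (0 : ℂ) →
        MvPolynomial.aeval ![x, y] G = (0 : ℂ)) → N ≤ N₀ := by
  rw [algebraicIndependent_iff] at hd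
  push Not at hd
  obtain ⟨G, hG, hG0⟩ := hd
  exact ⟨G.totalDegree, fun N x y hm hx hsp => DegA_bd hk hm hx hG0 (hsp G hG)⟩

end Pool.Agent.LGO.FC
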