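import Mathlib
import Pool.Agent.LGO.FC.DimA

/-!
# LGO/FC: points of a curve over a small field

`exists_fin_gen`: a curve `W` has infinitely many points over `clF S`, `S` finite.
Proof.  Let `S` be the set of the coefficients of finitely many generators `p₁, ..., p_r` of the vanishing ideal of `W`,
`k = clF S`, algebraically closed (`clF_ac`).  Suppose that `E = Kp k W` is finite.  For every coordinate `a` the polynomial
`q = ∏_{e ∈ E} (X_a - e_a) ∈ k[X]` vanishes on the points of `p₁ = ... = p_r = 0` over `k`, so by the Nullstellensatz over `k`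
(`MvPolynomial.vanishingIdeal_zeroLocus_eq_radical` for the field `k`) a power of `q` is in the ideal of `k[X]` generated by the `p_j`, so
`q = 0` on `W`.  So every coordinate takes finitely many values on `W`, and `W` is finite; but an irreducible closed set of
dimension `1` is infinite (`exists_nc` and `inter`: if `x_a` takes the values `c₁, ..., c_s` on `W` then `W` is covered by the closed
sets `x_a = c_j`, so by `irred_cover` `x_a` is constant).

`gen_alg`: `W` has infinitely many points over `k`, `ξ` generic over `k`, `x_a` not constant.  Then `ξ_b` is algebraic over `k(ξ_a)`: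
`curve_dep` for `X_a`, `X_b` gives `P ≠ 0` over `ℂ` with `P (x_a, x_b) = 0` on `W`; write `P = ∑ c_j P_j`, `c_j ∈ ℂ` linearly
independent over `k`, `P_j ∈ k[X, Y]` (a basis of `ℂ` over `k`; `exists_decomp` in `ZPL/KClosed.lean` does this over `Qb`).  At the
infinitely many points of `W` over `k` all `P_j` vanish, so `P_j (x_a, x_b) = 0` on `W` (`inter`), in particular at `ξ`.  Some `P_j ≠ 0`.
`ξ_a ∉ k` (`X_a - ξ_a` would vanish at `ξ`, so on `W`), so it is transcendental over `k` (`AC k`), `P_j (ξ_a, Y) ≠ 0`, and `ξ_b` is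
algebraic over `k(ξ_a)`, so `ξ_b ∈ cl (insert (ξ a) k)` (`cl` of a set containing `k`: the coefficients of `P_j (ξ_a, Y)` are in
`Algebra.adjoin ℚ (insert (ξ a) k)`).
-/

namespace Pool.Agent.LGO.FC

open Pool.Agent.AHC Pool.Agent.Hhelper14.ZPL

variable {n : ℕ} {W : Set (Fin n → ℂ)}

private theorem CurB_ac {k : IntermediateField ℚ ℂ} (hk : AC k) : IsAlgClosed k := by
  refine IsAlgClosed.of_exists_root _ fun p hmon hirr => ?_
  obtain ⟨x, hx⟩ := IsAlgClosed.exists_aeval_eq_zero ℂ p (Polynomial.degree_pos_of_irreducible hirr).ne'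
  have hxk : x ∈ k := hk x ⟨p, hmon.ne_zero, hx⟩
  refine ⟨⟨x, hxk⟩, ?_⟩
  have h1 : Polynomial.aeval (algebraMap k ℂ ⟨x, hxk⟩) p =
      algebraMap k ℂ (Polynomial.aeval (⟨x, hxk⟩ : k) p) :=
    Polynomial.aeval_algebraMap_apply ℂ (⟨x, hxk⟩ : k) p
  have h2 : algebraMap k ℂ (Polynomial.aeval (⟨x, hxk⟩ : k) p) = algebraMap k ℂ 0 := by
    rw [← h1, map_zero]
    exact hx
  exact (algebraMap k ℂ).injective h2

private theorem CurB_closed_coord (a : Fin n) (c : ℂ) : IsZClosed {y : Fin n → ℂ | y a = c} := by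
  have h : {y : Fin n → ℂ | y a = c} =
      MvPolynomial.zeroLocus ℂ (Ideal.span {(MvPolynomial.X a - MvPolynomial.C c : MvPolynomial (Fin n) ℂ)}) := by
    ext y
    rw [MvPolynomial.mem_zeroLocus_iff]
    constructor
    · intro hy p hp
      obtain ⟨q, rfl⟩ := Ideal.mem_span_singleton.1 hp
      rw [map_mul, map_sub, MvPolynomial.aeval_X, MvPolynomial.aeval_C, Algebra.algebraMap_self,
        RingHom.id_apply, show y a = c from hy, sub_self, zero_mul]
    · intro hy
      have h1 := hy _ (Ideal.mem_span_singleton_self _)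
      rw [map_sub, MvPolynomial.aeval_X, MvPolynomial.aeval_C, Algebra.algebraMap_self,
        RingHom.id_apply, sub_eq_zero] at h1
      exact h1
  rw [h]
  exact closed_zeroLocus _

/-- the value of a polynomial over `k` at a point over `k` -/
private theorem CurB_coe {k : IntermediateField ℚ ℂ} {m : ℕ} (x : Fin m → k) (p : MvPolynomial (Fin m) k) :
    (MvPolynomial.aeval (fun i => (x i : ℂ)) p : ℂ) = ((MvPolynomial.aeval x p : k) : ℂ) := by
  have h := MvPolynomial.aeval_algebraMap_apply ℂ x p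
  exact h

theorem exists_fin_gen (hW : Pool.Agent.Hhelper14.ZPL.IsIrredClosed W)
    (hdim : Pool.Agent.Hhelper14.ZPL.dim W = 1) : ∃ S : Finset ℂ, (Kp (clF S) W).Infinite := by
  classical
  obtain ⟨G, hG⟩ : (MvPolynomial.vanishingIdeal ℂ W : Ideal (MvPolynomial (Fin n) ℂ)).FG :=
    IsNoetherian.noetherian _
  refine ⟨G.biUnion fun p => p.coeffs, fun hfin => ?_⟩
  set S : Finset ℂ := G.biUnion fun p => p.coeffs with hS
  set k := clF (S : Set ℂ) with hkdef
  have hk : AC k := clF_ac _
  have : IsAlgClosed k := CurB_ac hk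
  have hlift : ∀ p ∈ G, ∃ p' : MvPolynomial (Fin n) k, MvPolynomial.map (algebraMap k ℂ) p' = p := by
    intro p hp
    have h1 : (p.coeffs : Set ℂ) ⊆ Set.range (algebraMap k ℂ) := by
      intro c hc
      have h2 : c ∈ k := subset_cl _ (by
        rw [hS]
        exact Finset.mem_coe.2 (Finset.mem_biUnion.2 ⟨p, hp, hc⟩))
      exact ⟨⟨c, h2⟩, rfl⟩
    exact MvPolynomial.mem_range_map_iff_coeffs_subset.2 h1
  set J : Ideal (MvPolynomial (Fin n) k) :=
    (MvPolynomial.vanishingIdeal ℂ W : Ideal (MvPolynomial (Fin n) ℂ)).comap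
      (MvPolynomial.map (algebraMap k ℂ)) with hJ
  -- points of `J` over `k` are points of `W`
  have hpt : ∀ x ∈ MvPolynomial.zeroLocus k J, (fun i => (x i : ℂ)) ∈ Kp k W := by
    intro x hx
    refine ⟨?_, fun i => (x i).2⟩
    rw [← hW.2, MvPolynomial.mem_zeroLocus_iff, ← hG]
    intro p hp
    refine Submodule.span_induction (p := fun p _ => MvPolynomial.aeval (fun i => (x i : ℂ)) p = 0)
      ?_ ?_ ?_ ?_ hp
    · intro p hp
      obtain ⟨p', rfl⟩ := hlift p hp
      have h1 : p' ∈ J := by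
        rw [hJ, Ideal.mem_comap, ← hG]
        exact Ideal.subset_span hp
      have h2 := (MvPolynomial.mem_zeroLocus_iff.1 hx) p' h1
      rw [MvPolynomial.aeval_map_algebraMap, CurB_coe, h2]
      rfl
    · exact map_zero _
    · intro p q _ _ h1 h2
      rw [map_add, h1, h2, add_zero]
    · intro c p _ h1
      rw [smul_eq_mul, map_mul, h1, mul_zero]
  have hVfin : (MvPolynomial.zeroLocus k J : Set (Fin n → k)).Finite := by
    refine Set.Finite.of_injOn (f := fun (x : Fin n → k) (i : Fin n) => (x i : ℂ)) hpt ?_ hfin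
    intro x _ y _ hxy
    funext i
    exact Subtype.ext (congrFun hxy i)
  obtain ⟨a, ha⟩ := exists_nc hW hdim
  set q : MvPolynomial (Fin n) k := ∏ x ∈ hVfin.toFinset, (MvPolynomial.X a - MvPolynomial.C (x a)) with hq
  have hqv : q ∈ (MvPolynomial.vanishingIdeal k (MvPolynomial.zeroLocus k J) : Ideal (MvPolynomial (Fin n) k)) := by
    rw [MvPolynomial.mem_vanishingIdeal_iff]
    intro x hx
    rw [hq, map_prod]
    refine Finset.prod_eq_zero (hVfin.mem_toFinset.2 hx) ?_
    rw [map_sub, MvPolynomial.aeval_X, MvPolynomial.aeval_C]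
    exact sub_self _
  rw [MvPolynomial.vanishingIdeal_zeroLocus_eq_radical] at hqv
  obtain ⟨N, hN⟩ := hqv
  rw [hJ, Ideal.mem_comap, MvPolynomial.mem_vanishingIdeal_iff] at hN
  have hval : ∀ y ∈ W, ∃ x ∈ hVfin.toFinset, y a = (x a : ℂ) := by
    intro y hy
    have h1 := hN y hy
    rw [map_pow, map_pow] at h1
    have h3 : MvPolynomial.aeval y (MvPolynomial.map (algebraMap k ℂ) q) = 0 := by
      by_contra hne
      exact pow_ne_zero N hne h1
    rw [MvPolynomial.aeval_map_algebraMap, hq, map_prod, Finset.prod_eq_zero_iff] at h3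
    obtain ⟨x, hx, h4⟩ := h3
    refine ⟨x, hx, ?_⟩
    rw [map_sub, MvPolynomial.aeval_X, MvPolynomial.aeval_C, sub_eq_zero] at h4
    exact h4
  obtain ⟨E, hE, hsub⟩ := irred_cover hW (hVfin.toFinset.image fun x => {y : Fin n → ℂ | y a = (x a : ℂ)})
    (by
      intro E hE
      obtain ⟨x, _, rfl⟩ := Finset.mem_image.1 hE
      exact CurB_closed_coord a _) (by
      intro y hy
      obtain ⟨x, hx, h⟩ := hval y hy
      exact ⟨_, Finset.mem_image.2 ⟨x, hx, rfl⟩, h⟩)
  obtain ⟨x, _, rfl⟩ := Finset.mem_image.1 hE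
  obtain ⟨y, hy, hne⟩ := ha (x a : ℂ)
  exact hne (hsub hy)

/-- a polynomial in two variables which vanishes on `{u} × Y`, `Y` infinite -/
private theorem CurB_inf {k : IntermediateField ℚ ℂ} (P : MvPolynomial (Fin 2) k) (u : ℂ)
    {Y : Set ℂ} (hY : Y.Infinite) (h : ∀ y ∈ Y, (MvPolynomial.aeval ![u, y] P : ℂ) = 0) (y : ℂ) :
    (MvPolynomial.aeval ![u, y] P : ℂ) = 0 := by
  set f : Polynomial ℂ := MvPolynomial.aeval ![Polynomial.C u, Polynomial.X] P with hf
  have hev : ∀ y, Polynomial.eval y f = (MvPolynomial.aeval ![u, y] P : ℂ) := by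
    intro y
    have h1 : (Polynomial.evalRingHom y : Polynomial ℂ →+* ℂ) f =
        MvPolynomial.eval₂ ((Polynomial.evalRingHom y).comp (algebraMap k (Polynomial ℂ)))
          (fun i => Polynomial.evalRingHom y (![Polynomial.C u, Polynomial.X] i)) P := by
      rw [hf, MvPolynomial.aeval_def, MvPolynomial.hom_eval₂]
    rw [MvPolynomial.aeval_def]
    refine h1.trans ?_
    congr 1
    · ext z
      show Polynomial.eval y (algebraMap k (Polynomial ℂ) z) = algebraMap k ℂ z
      rw [Polynomial.algebraMap_apply, Polynomial.eval_C]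
    · funext i
      fin_cases i
      · show Polynomial.eval y (Polynomial.C u) = u
        rw [Polynomial.eval_C]
      · show Polynomial.eval y Polynomial.X = y
        rw [Polynomial.eval_X]
  have h0 : f = 0 := by
    refine Polynomial.eq_zero_of_infinite_isRoot f (hY.mono fun z hz => ?_)
    show Polynomial.eval z f = 0
    rw [hev]
    exact h z hz
  rw [← hev, h0, Polynomial.eval_zero]

/-- the same in the first variable -/
private theorem CurB_inf' {k : IntermediateField ℚ ℂ} (P : MvPolynomial (Fin 2) k) (y : ℂ)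
    {U : Set ℂ} (hU : U.Infinite) (h : ∀ u ∈ U, (MvPolynomial.aeval ![u, y] P : ℂ) = 0) (u : ℂ) :
    (MvPolynomial.aeval ![u, y] P : ℂ) = 0 := by
  have key : ∀ v, (MvPolynomial.aeval ![v, y] P : ℂ) =
      MvPolynomial.aeval ![y, v] (MvPolynomial.rename (Equiv.swap (0 : Fin 2) 1) P) := by
    intro v
    rw [MvPolynomial.aeval_rename]
    congr 2
    funext i
    fin_cases i <;> rfl
  rw [key]
  refine CurB_inf _ y hU (fun v hv => ?_) u
  rw [← key]
  exact h v hv

private theorem CurB_shift {S : Set ℂ} {x : ℂ} (hx : x ∉ cl S) :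
    {z : ℂ | z ∉ cl S}.Infinite := by
  refine Set.infinite_of_injective_forall_mem (f := fun m : ℕ => x + m) ?_ ?_
  · intro m l hml
    have : (m : ℂ) = l := add_left_cancel hml
    exact_mod_cast this
  · intro m hm
    apply hx
    have h1 : x + (m : ℂ) ∈ clF S := hm
    have h2 : (m : ℂ) ∈ clF S := natCast_mem _ m
    have h3 := (clF S).sub_mem h1 h2
    rw [add_sub_cancel_right] at h3
    exact h3

private theorem CurB_aut {k : IntermediateField ℚ ℂ} (P : MvPolynomial (Fin 2) k) (α : ℂ ≃+* ℂ)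
    (hα : ∀ z ∈ k, α z = z) (u y : ℂ) :
    (MvPolynomial.aeval ![α u, α y] P : ℂ) = α (MvPolynomial.aeval ![u, y] P : ℂ) := by
  have h1 : (α : ℂ →+* ℂ) (MvPolynomial.eval₂ (algebraMap k ℂ) ![u, y] P) =
      MvPolynomial.eval₂ ((α : ℂ →+* ℂ).comp (algebraMap k ℂ)) (fun i => (α : ℂ →+* ℂ) (![u, y] i)) P := by
    rw [MvPolynomial.hom_eval₂]
  rw [MvPolynomial.aeval_def, MvPolynomial.aeval_def]
  refine Eq.trans ?_ h1.symm
  congr 1
  · ext z
    exact (hα _ z.2).symm
  · funext i
    fin_cases i <;> rfl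

theorem gen_alg {k : IntermediateField ℚ ℂ} (hk : AC k) (hW : Pool.Agent.Hhelper14.ZPL.IsIrredClosed W)
    (hdim : Pool.Agent.Hhelper14.ZPL.dim W = 1) (hinf : (Kp k W).Infinite) {ξ : Fin n → ℂ} (hξ : ξ ∈ W)
    (hgen : ∀ G : MvPolynomial (Fin n) k, MvPolynomial.aeval ξ G = (0 : ℂ) →
      ∀ x ∈ W, MvPolynomial.aeval x G = (0 : ℂ)) {a : Fin n} (ha : ∀ c : ℂ, ∃ x ∈ W, x a ≠ c) (b : Fin n) :
    ξ b ∈ cl (insert (ξ a) (k : Set ℂ)) := by
  classical
  have hclk : cl (k : Set ℂ) = (k : Set ℂ) := by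
    have h := eq_clF hk
    exact congrArg (fun F : IntermediateField ℚ ℂ => (F : Set ℂ)) h
  -- the relation over `k`
  obtain ⟨P, hP0, hP⟩ := curve_dep hW hdim (MvPolynomial.X a) (MvPolynomial.X b)
  simp only [MvPolynomial.eval_X] at hP
  set B := Module.Basis.ofVectorSpace k ℂ with hB
  obtain ⟨m, hm⟩ := MvPolynomial.ne_zero_iff.1 hP0
  obtain ⟨j, hj⟩ : ∃ j, B.repr (P.coeff m) j ≠ 0 := by
    by_contra hcon
    push Not at hcon
    apply hm
    have h1 : B.repr (P.coeff m) = 0 := Finsupp.ext hcon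
    exact (LinearEquiv.map_eq_zero_iff B.repr).1 h1
  set φ : ℂ →ₗ[k] k := B.coord j with hφ
  set Q : MvPolynomial (Fin 2) k := ∑ α ∈ P.support, MvPolynomial.monomial α (φ (P.coeff α)) with hQ
  have hQ0 : Q ≠ 0 := by
    intro h
    apply hj
    have h1 : Q.coeff m = φ (P.coeff m) := by
      rw [hQ, MvPolynomial.coeff_sum]
      rw [Finset.sum_eq_single m]
      · rw [MvPolynomial.coeff_monomial, if_pos rfl]
      · intro α _ hne
        rw [MvPolynomial.coeff_monomial, if_neg hne]
      · intro hns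
        rw [MvPolynomial.notMem_support_iff.1 hns, map_zero, MvPolynomial.coeff_monomial, if_pos rfl]
    rw [h, MvPolynomial.coeff_zero] at h1
    exact h1.symm
  have hQk : ∀ x ∈ Kp k W, (MvPolynomial.aeval ![x a, x b] Q : ℂ) = 0 := by
    intro x hx
    have h1 := hP x hx.1
    set z : Fin 2 → k := ![⟨x a, hx.2 a⟩, ⟨x b, hx.2 b⟩] with hz
    have hzx : (![x a, x b] : Fin 2 → ℂ) = fun i => (z i : ℂ) := by
      funext i
      fin_cases i <;> rfl
    rw [hzx] at h1 ⊢
    rw [CurB_coe]
    have h2 : (MvPolynomial.aeval z Q : k) = φ (MvPolynomial.eval (fun i => (z i : ℂ)) P) := by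
      rw [MvPolynomial.eval_eq', hQ, map_sum, map_sum]
      refine Finset.sum_congr rfl fun α _ => ?_
      rw [MvPolynomial.aeval_monomial, Algebra.algebraMap_self, RingHom.id_apply]
      have h3 : P.coeff α * ∏ i, ((z i : ℂ)) ^ (α i) = (∏ i, (z i) ^ (α i) : k) • P.coeff α := by
        rw [Algebra.smul_def, mul_comm]
        congr 1
      rw [h3, map_smul, smul_eq_mul, mul_comm]
      congr 1
      exact Finsupp.prod_fintype _ _ (fun i => pow_zero _)
    rw [h2, h1, map_zero]
    rfl
  -- the relation on `W`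
  have hQW : ∀ x ∈ W, (MvPolynomial.aeval ![x a, x b] Q : ℂ) = 0 := by
    set R : MvPolynomial (Fin n) ℂ :=
      MvPolynomial.rename ![a, b] (MvPolynomial.map (algebraMap k ℂ) Q) with hR
    have hRv : ∀ x : Fin n → ℂ, (MvPolynomial.aeval x R : ℂ) = MvPolynomial.aeval ![x a, x b] Q := by
      intro x
      rw [hR, MvPolynomial.aeval_rename, MvPolynomial.aeval_map_algebraMap]
      congr 2
      funext i
      fin_cases i <;> rfl
    have hcl : IsZClosed (MvPolynomial.zeroLocus ℂ (Ideal.span {R})) := closed_zeroLocus _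
    have hmem : ∀ x : Fin n → ℂ, x ∈ MvPolynomial.zeroLocus ℂ (Ideal.span {R}) ↔
        (MvPolynomial.aeval x R : ℂ) = 0 := by
      intro x
      rw [MvPolynomial.mem_zeroLocus_iff]
      constructor
      · intro h
        exact h _ (Ideal.mem_span_singleton_self _)
      · intro h p hp
        obtain ⟨q, rfl⟩ := Ideal.mem_span_singleton.1 hp
        rw [map_mul, h, zero_mul]
    rcases inter hW hdim hcl with h | h
    · exfalso
      refine hinf (h.subset fun x hx => ⟨hx.1, ?_⟩)
      rw [hmem, hRv]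
      exact hQk x hx
    · intro x hx
      rw [← hRv]
      exact (hmem x).1 (h hx)
  -- transcendence of `ξ a`
  have hak : ξ a ∉ cl (k : Set ℂ) := by
    rw [hclk]
    intro hmem
    have h1 : ∀ x ∈ W, (MvPolynomial.aeval x
        (MvPolynomial.X a - MvPolynomial.C (⟨ξ a, hmem⟩ : k) : MvPolynomial (Fin n) k) : ℂ) = 0 := by
      apply hgen
      rw [map_sub, MvPolynomial.aeval_X, MvPolynomial.aeval_C]
      exact sub_self _
    obtain ⟨x, hx, hne⟩ := ha (ξ a)
    have h2 := h1 x hx
    rw [map_sub, MvPolynomial.aeval_X, MvPolynomial.aeval_C, sub_eq_zero] at h2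
    exact hne h2
  by_contra hcon
  -- all values vanish
  have e1 : ∀ y, (MvPolynomial.aeval ![ξ a, y] Q : ℂ) = 0 := by
    refine CurB_inf Q (ξ a) (CurB_shift hcon) ?_
    intro y hy
    obtain ⟨α, h1, h2⟩ := exists_move hcon hy
    have h3 : α (ξ a) = ξ a := h1 _ (subset_cl _ (Set.mem_insert _ _))
    have h4 := CurB_aut Q α (fun z hz => h1 z (subset_cl _ (Set.mem_insert_of_mem _ hz))) (ξ a) (ξ b)
    rw [h2, h3, hQW ξ hξ, map_zero] at h4
    exact h4
  have e2 : ∀ u y, (MvPolynomial.aeval ![u, y] Q : ℂ) = 0 := by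
    intro u y
    refine CurB_inf' Q y (CurB_shift hak) ?_ u
    intro u' hu'
    obtain ⟨α, h1, h2⟩ := exists_move hak hu'
    have h4 := CurB_aut Q α (fun z hz => h1 z (subset_cl _ hz)) (ξ a) (α.symm y)
    rw [h2, e1, map_zero, RingEquiv.apply_symm_apply] at h4
    exact h4
  apply hQ0
  have h5 : MvPolynomial.map (algebraMap k ℂ) Q = 0 := by
    apply MvPolynomial.funext
    intro x
    have h6 := e2 (x 0) (x 1)
    have h7 : (![x 0, x 1] : Fin 2 → ℂ) = x := by
      funext i
      fin_cases i <;> rfl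
    rw [h7] at h6
    rw [MvPolynomial.eval_map, map_zero, ← MvPolynomial.aeval_def]
    exact h6
  exact MvPolynomial.map_injective _ (algebraMap k ℂ).injective (by rw [h5, map_zero])

end Pool.Agent.LGO.FC
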