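import Mathlib
import Pool.Agent.LGO.FC.DimA

/-!
# LGO/FC: generic points of a curve

`curve_unc`: `W` is uncountable.  Proof.  `a` a nonconstant coordinate (`exists_nc`); `x_a` takes infinitely many values on `W`.  If
`t ∉ x_a (W)` then `X_a - t` has no zeros on `W` and is a unit in `A = ℂ[X] ⧸ I(W)` (Nullstellensatz: `I(W) + (X_a - t) = 1`).  The
elements `1 / (X_a - t)` of `A` for different such `t` are linearly independent over `ℂ` (a linear relation multiplied by the product
of the denominators is a polynomial `∑ c_t ∏_{t' ≠ t} (x_a - t')` in `x_a` which vanishes on `W`, so it is the zero polynomial, and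
its value at `t` shows `c_t = 0`).  The dimension of `A` over `ℂ` is countable (the monomials span), so there are at most countably
many such `t` (`LinearIndependent.cardinal_le_rank`, `MvPolynomial` has the countable basis of monomials), and `x_a (W)` is uncountable.

`exists_generic`: `k` countable, `W` arbitrary curve.  For each of the countably many `G ∈ k[X]` (`MvPolynomial` over a countable ring is
countable) which do not vanish on `W` the set `W ∩ {G = 0}` is finite (`inter`); their union is countable, so there is a point `ξ ∈ W`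
outside.
-/

namespace Pool.Agent.LGO.FC

open Pool.Agent.AHC Pool.Agent.Hhelper14.ZPL

variable {n : ℕ} {W : Set (Fin n → ℂ)}

open MvPolynomial in
private theorem CurC_unit {V : Set (Fin n → ℂ)} (hV : Pool.Agent.Hhelper14.ZPL.IsIrredClosed V) (j : Fin n) {a : ℂ}
    (ha : ∀ x ∈ V, x j ≠ a) :
    ∃ b : MvPolynomial (Fin n) ℂ, b * (X j - C a) - 1 ∈ vanishingIdeal ℂ V := by
  have h1 : zeroLocus ℂ (vanishingIdeal ℂ V ⊔ Ideal.span {X j - C a}) = (∅ : Set (Fin n → ℂ)) := by
    rw [Set.eq_empty_iff_forall_notMem]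
    intro x hx
    rw [mem_zeroLocus_iff] at hx
    have hxV : x ∈ V := by
      rw [← hV.2, mem_zeroLocus_iff]
      intro p hp
      exact hx p (Ideal.mem_sup_left hp)
    have h2 := hx (X j - C a) (Ideal.mem_sup_right (Ideal.mem_span_singleton_self _))
    rw [map_sub, aeval_X, aeval_C] at h2
    have h3 := sub_eq_zero.1 h2
    exact ha x hxV (by simpa using h3)
  have h2 := vanishingIdeal_zeroLocus_eq_radical (k := ℂ) (K := ℂ) (vanishingIdeal ℂ V ⊔ Ideal.span {X j - C a})
  rw [h1] at h2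
  have h3 : (vanishingIdeal ℂ (∅ : Set (Fin n → ℂ))) = (⊤ : Ideal (MvPolynomial (Fin n) ℂ)) := by
    rw [Ideal.eq_top_iff_one, mem_vanishingIdeal_iff]
    intro x hx
    exact absurd hx (Set.notMem_empty x)
  rw [h3] at h2
  have h4 := Ideal.radical_eq_top.1 h2.symm
  rw [Ideal.eq_top_iff_one, Submodule.mem_sup] at h4
  obtain ⟨y, hy, z, hz, hyz⟩ := h4
  obtain ⟨b, hb⟩ := Ideal.mem_span_singleton'.1 hz
  refine ⟨b, ?_⟩
  rw [hb, ← hyz]
  have : z - (y + z) = -y := by ring
  rw [this]
  exact neg_mem hy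

open MvPolynomial in
private theorem CurC_unc {V : Set (Fin n → ℂ)}
    (hV : Pool.Agent.Hhelper14.ZPL.IsIrredClosed V) (j : Fin n) (hj : ∀ c : ℂ, ∃ x ∈ V, x j ≠ c) :
    ¬ V.Countable := by
  intro hcount
  have hprime : (vanishingIdeal ℂ V).IsPrime := hV.1
  let R := MvPolynomial (Fin n) ℂ ⧸ vanishingIdeal ℂ V
  let L := FractionRing R
  let ξ : L := algebraMap R L (Ideal.Quotient.mk _ (X j))
  have hinj : Function.Injective (algebraMap R L) := IsFractionRing.injective R L
  have hcst : ∀ a : ℂ, algebraMap ℂ L a = algebraMap R L (Ideal.Quotient.mk _ (C a)) := by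
    intro a
    rw [IsScalarTower.algebraMap_apply ℂ R L]
    rfl
  have hsub : ∀ a : ℂ, ξ - algebraMap ℂ L a =
      algebraMap R L (Ideal.Quotient.mk _ (X j - C a)) := by
    intro a
    rw [hcst, map_sub, map_sub]
  have htr : Transcendental ℂ ξ := by
    intro halg
    have hint : IsIntegral ℂ ξ := halg.isIntegral
    have h1 : (minpoly ℂ ξ).degree = 1 :=
      IsAlgClosed.degree_eq_one_of_irreducible ℂ (minpoly.irreducible hint)
    obtain ⟨c, hc⟩ := minpoly.mem_range_of_degree_eq_one ℂ ξ h1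
    have h2 := hsub c
    rw [hc, sub_self] at h2
    have h3 : (Ideal.Quotient.mk (vanishingIdeal ℂ V)) (X j - C c) = 0 := by
      apply hinj
      rw [← h2, map_zero]
    rw [Ideal.Quotient.eq_zero_iff_mem, mem_vanishingIdeal_iff] at h3
    obtain ⟨x, hx, hne⟩ := hj c
    have h4 := h3 x hx
    rw [map_sub, aeval_X, aeval_C] at h4
    apply hne
    have := sub_eq_zero.1 h4
    simpa using this
  have hli := htr.linearIndependent_sub_inv
  have hli2 : LinearIndependent ℂ fun a : {a : ℂ // ∀ x ∈ V, x j ≠ a} => (ξ - algebraMap ℂ L a)⁻¹ :=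
    hli.comp _ Subtype.val_injective
  choose b hb using fun a : {a : ℂ // ∀ x ∈ V, x j ≠ a} => CurC_unit hV j a.2
  have hli3 : LinearIndependent ℂ fun a : {a : ℂ // ∀ x ∈ V, x j ≠ a} =>
      (Ideal.Quotient.mk (vanishingIdeal ℂ V) (b a) : R) := by
    refine LinearIndependent.of_comp (IsScalarTower.toAlgHom ℂ R L).toLinearMap ?_
    have : (⇑(IsScalarTower.toAlgHom ℂ R L).toLinearMap ∘ fun a : {a : ℂ // ∀ x ∈ V, x j ≠ a} =>
        (Ideal.Quotient.mk (vanishingIdeal ℂ V) (b a) : R)) =
        fun a : {a : ℂ // ∀ x ∈ V, x j ≠ a} => (ξ - algebraMap ℂ L a)⁻¹ := by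
      funext a
      have h5 : algebraMap R L (Ideal.Quotient.mk _ (b a)) * (ξ - algebraMap ℂ L a) = 1 := by
        rw [hsub, ← map_mul, ← map_mul, ← map_one (algebraMap R L)]
        congr 1
        rw [← map_one (Ideal.Quotient.mk (vanishingIdeal ℂ V)), Ideal.Quotient.eq]
        exact hb a
      exact eq_inv_of_mul_eq_one_left h5
    rw [this]
    exact hli2
  have h6 := hli3.cardinal_le_rank
  have h7 : Module.rank ℂ R ≤ Cardinal.aleph0 := by
    have h8 : Module.rank ℂ R ≤ Module.rank ℂ (MvPolynomial (Fin n) ℂ) :=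
      LinearMap.rank_le_of_surjective (Ideal.Quotient.mkₐ ℂ (vanishingIdeal ℂ V)).toLinearMap
        (Ideal.Quotient.mkₐ_surjective ℂ (vanishingIdeal ℂ V))
    refine h8.trans ?_
    rw [← (basisMonomials (Fin n) ℂ).mk_eq_rank'']
    exact Cardinal.mk_le_aleph0
  have h9 : Countable {a : ℂ // ∀ x ∈ V, x j ≠ a} := Cardinal.mk_le_aleph0_iff.1 (h6.trans h7)
  have h10 : ({a : ℂ | ∀ x ∈ V, x j ≠ a} : Set ℂ).Countable := h9
  have h11 : ((fun x : Fin n → ℂ => x j) '' V).Countable := hcount.image _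
  have h12 : (Set.univ : Set ℂ).Countable := by
    refine (h10.union h11).mono ?_
    intro a _
    by_cases ha : ∀ x ∈ V, x j ≠ a
    · exact Or.inl ha
    · push Not at ha
      exact Or.inr ha
  exact not_countable_complex h12

theorem curve_unc (hW : Pool.Agent.Hhelper14.ZPL.IsIrredClosed W)
    (hdim : Pool.Agent.Hhelper14.ZPL.dim W = 1) : ¬ W.Countable := by
  obtain ⟨a, ha⟩ := exists_nc hW hdim
  exact CurC_unc hW a ha

private theorem CurC_closed {k : IntermediateField ℚ ℂ} (G : MvPolynomial (Fin n) k) :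
    IsZClosed {x : Fin n → ℂ | MvPolynomial.aeval x G = (0 : ℂ)} := by
  have h : {x : Fin n → ℂ | MvPolynomial.aeval x G = (0 : ℂ)} =
      MvPolynomial.zeroLocus ℂ (Ideal.span {MvPolynomial.map (algebraMap k ℂ) G}) := by
    ext x
    rw [MvPolynomial.zeroLocus_span]
    simp only [Set.mem_ofPred_eq, Set.mem_singleton_iff, forall_eq]
    rw [MvPolynomial.aeval_map_algebraMap]
  rw [h]
  exact closed_zeroLocus _

theorem exists_generic {k : IntermediateField ℚ ℂ} (hk : (k : Set ℂ).Countable)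
    (hW : Pool.Agent.Hhelper14.ZPL.IsIrredClosed W) (hdim : Pool.Agent.Hhelper14.ZPL.dim W = 1) :
    ∃ ξ ∈ W, ∀ G : MvPolynomial (Fin n) k, MvPolynomial.aeval ξ G = (0 : ℂ) →
      ∀ x ∈ W, MvPolynomial.aeval x G = (0 : ℂ) := by
  by_contra hcon
  push Not at hcon
  have hkc : Countable k := hk.to_subtype
  have hcG : Countable (MvPolynomial (Fin n) k) := by
    have h1 : Cardinal.mk (MvPolynomial (Fin n) k) ≤ Cardinal.aleph0 := by
      refine MvPolynomial.cardinalMk_le_max.trans ?_
      refine max_le (max_le ?_ ?_) le_rfl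
      · exact Cardinal.mk_le_aleph0_iff.2 hkc
      · exact Cardinal.mk_le_aleph0
    exact Cardinal.mk_le_aleph0_iff.1 h1
  refine curve_unc hW hdim ?_
  have h1 : (⋃ G ∈ {G : MvPolynomial (Fin n) k | ∃ x ∈ W, MvPolynomial.aeval x G ≠ (0 : ℂ)},
      (W ∩ {x : Fin n → ℂ | MvPolynomial.aeval x G = (0 : ℂ)})).Countable := by
    refine Set.Countable.biUnion (Set.to_countable _) ?_
    rintro G ⟨x, hx, hne⟩
    rcases inter hW hdim (CurC_closed G) with h | h
    · exact h.countable
    · exact absurd (h hx) hne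
  refine h1.mono ?_
  intro ξ hξ
  obtain ⟨G, hG, x, hx, hne⟩ := hcon ξ hξ
  simp only [Set.mem_iUnion]
  exact ⟨G, ⟨x, hx, hne⟩, hξ, hG⟩

end Pool.Agent.LGO.FC
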