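import Mathlib
import Pool.Agent.LGO.FC.CurB
import Pool.Agent.LGO.FC.CurC
import Pool.Agent.LGO.FC.MatA
import Pool.Agent.Hhelper78.ZPL.SpK

/-!
# LGO/FC: the fields of a curve which is not defined over `ℚbar`

`exists_setup`: `W` an irreducible closed curve with finitely many algebraic points.

Proof.  Let `r` be the smallest cardinality of a finite set `S` such that `W` has infinitely many points over `clF S`
(`exists_fin_gen`, `Nat.find`), and `S` such a set.  `S` is not empty by `hfin`; write `S = insert z S'` with `S'` of smaller cardinality;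
`k = clF S'`, `k₂ = clF (insert z S')`.  `fin`: by minimality `Kp k W` is finite.  `k₂` is countable (`cl_countable`), and let `ξ ∈ W` be a
generic point over `k₂` (`exists_generic`), so it is generic over `k ⊆ k₂` as well (`gen`; map the coefficients from `k` to `k₂`).
`dep3`: let `a₀` be a nonconstant coordinate (`exists_nc`); all `ξ b` are in `cl (insert (ξ a₀) k₂) = cl (insert (ξ a₀) (insert z S'))`
(`gen_alg` over `k₂`, `cl_union_cl_right`), so `dep_three` applies with `t = ξ a₀`.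
`dep2`: `x ∈ W`, `HeckeRel (x a) (x b)`, `¬ HeckeRel (ξ a) (ξ b)`.  `mr_of_rel`: `(x a, x b) ∈ MR g`.  The set `Z = {y | ![y a, y b] ∈ MR g}` is
`KClosed` (`special_kclosed` in `Hhelper78/ZPL/SpK.lean` and `ZF.mr_special` for `MR a b g`; `a = b` is impossible, since `HeckeRel (ξ a) (ξ a)`,
`HeckeRel.refl'`), so it is stable under the automorphisms over `k₂` (`kclosed_stab`), and `ξ ∉ Z`, so `W ⊄ Z`.
`inter_mem` over `k₂`: all `x c` are in `k₂ = cl (insert z S')`, and `dep_two`.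

`Setup.rel`: `(ξ a, ξ b) ∈ MR g` for some `g` (`mr_of_rel`).  `Z = {y | ![y a, y b] ∈ MR g}` is `KClosed`, it is the zero set of polynomials
over `Qb`, whose coefficients are in `k` (algebraic over `ℚ`, `k` algebraically closed); they vanish at `ξ`, so on `W` (`gen`).
(For `a = b` take `g = 1`.)
`Setup.nk`: if `ξ a ∈ k` then `X_a - ξ_a` vanishes at `ξ`, so on `W`.
`mlt_fin`: `{y | Mlt N (y a) (y b)} ⊆ {y | (y a, y b) ∈ MR g}` for `g = diag (N, 1)`, `N ≥ 1`, closed; `NoRel W a b` says that it does not contain `W`;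
`inter`.  (For `a = b` the hypothesis `NoRel W a b` fails with `g = 1`: `j` is surjective.)
-/

namespace Pool.Agent.LGO.FC

open UpperHalfPlane Pool.Agent.AHC Pool.Agent.Hhelper14.ZP Pool.Agent.Hhelper14.ZPL Pool.Agent.LGO

variable {n : ℕ} {W : Set (Fin n → ℂ)}

/-- the closed set of a Hecke correspondence -/
private def SetB_Z (a b : Fin n) (g : GL (Fin 2) ℚ) : Set (Fin n → ℂ) :=
  {x | ∃ τ : ℍ, x a = jInv τ ∧ x b = jInv (gact g τ)}

private theorem SetB_special {a b : Fin n} (hab : a ≠ b) {g : GL (Fin 2) ℚ} (hg : 0 < g.det.val) :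
    Pool.Agent.Hhelper14.ZPL.IsSpecial (SetB_Z a b g) := by
  have h := special_pair (ι := Fin n) (i := a) (k := b) hab (gi := 1) (gk := g) (by simp) hg
  have h2 : SetB_Z a b g =
      {x : Fin n → ℂ | ∃ τ : ℍ, x a = jInv (gact 1 τ) ∧ x b = jInv (gact g τ)} := by
    ext x
    simp only [SetB_Z, Set.mem_setOf_eq, gact_one]
  rw [h2]
  exact h

private theorem SetB_kclosed {a b : Fin n} (hab : a ≠ b) {g : GL (Fin 2) ℚ} (hg : 0 < g.det.val) :
    KClosed (SetB_Z a b g) := special_kclosed (SetB_special hab hg)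

/-- polynomials over a smaller field -/
private theorem SetB_map {k k₂ : IntermediateField ℚ ℂ} (h : k ≤ k₂) (G : MvPolynomial (Fin n) k)
    (x : Fin n → ℂ) :
    (MvPolynomial.aeval x (MvPolynomial.map (IntermediateField.inclusion h : k →+* k₂) G) : ℂ) =
      MvPolynomial.aeval x G := by
  rw [MvPolynomial.aeval_def, MvPolynomial.aeval_def, MvPolynomial.eval₂_map]
  rfl

private theorem SetB_gen {k k₂ : IntermediateField ℚ ℂ} (h : k ≤ k₂) {ξ : Fin n → ℂ}
    (hgen : ∀ G : MvPolynomial (Fin n) k₂, MvPolynomial.aeval ξ G = (0 : ℂ) →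
      ∀ x ∈ W, MvPolynomial.aeval x G = (0 : ℂ)) :
    ∀ G : MvPolynomial (Fin n) k, MvPolynomial.aeval ξ G = (0 : ℂ) →
      ∀ x ∈ W, MvPolynomial.aeval x G = (0 : ℂ) := by
  intro G hG x hx
  rw [← SetB_map h]
  apply hgen _ _ x hx
  rw [SetB_map h]
  exact hG

private theorem SetB_cl (x : ℂ) (T : Set ℂ) : cl (insert x (cl T)) = cl (insert x T) := by
  rw [Set.insert_eq, Set.insert_eq, cl_union_cl_right]

theorem exists_setup (hW : Pool.Agent.Hhelper14.ZPL.IsIrredClosed W)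
    (hdim : Pool.Agent.Hhelper14.ZPL.dim W = 1) (hfin : (Kp (clF ∅) W).Finite) :
    ∃ (k : IntermediateField ℚ ℂ) (ξ : Fin n → ℂ), Setup W k ξ := by
  classical
  have hex : ∃ r : ℕ, ∃ S : Finset ℂ, S.card = r ∧ (Kp (clF (S : Set ℂ)) W).Infinite := by
    obtain ⟨S, hS⟩ := exists_fin_gen hW hdim
    exact ⟨S.card, S, rfl, hS⟩
  obtain ⟨S, hSc, hSi⟩ := Nat.find_spec hex
  have hmin : ∀ T : Finset ℂ, T.card < S.card → (Kp (clF (T : Set ℂ)) W).Finite := by
    intro T hT
    by_contra hcon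
    rw [hSc] at hT
    exact Nat.find_min hex hT ⟨T, rfl, hcon⟩
  have hne : S.Nonempty := by
    rw [Finset.nonempty_iff_ne_empty]
    intro h
    apply hSi
    rw [h, Finset.coe_empty]
    exact hfin
  obtain ⟨z, hz⟩ := hne
  set S' : Finset ℂ := S.erase z with hS'
  have hSS : S = insert z S' := (Finset.insert_erase hz).symm
  have hcard : S'.card < S.card := Finset.card_erase_lt_of_mem hz
  have hcoe : (S : Set ℂ) = insert z (S' : Set ℂ) := by
    rw [hSS, Finset.coe_insert]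
  rw [hcoe] at hSi
  have hac : AC (clF (S' : Set ℂ)) := clF_ac _
  have hac₂ : AC (clF (insert z (S' : Set ℂ))) := clF_ac _
  have hcnt : ((clF (insert z (S' : Set ℂ)) : IntermediateField ℚ ℂ) : Set ℂ).Countable := by
    have h1 : (cl (insert z (S' : Set ℂ))).Countable :=
      cl_countable ((S'.countable_toSet).insert z)
    exact h1
  obtain ⟨ξ, hξ, hgen⟩ := exists_generic hcnt hW hdim
  have hle : clF (S' : Set ℂ) ≤ clF (insert z (S' : Set ℂ)) := clF_mono (Set.subset_insert _ _)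
  refine ⟨clF (S' : Set ℂ), ξ, hac, hξ, SetB_gen hle hgen, hmin S' hcard, ?_, ?_⟩
  · obtain ⟨a₀, ha₀⟩ := exists_nc hW hdim
    have hall : ∀ b, ξ b ∈ cl (insert (ξ a₀) (insert z (S' : Set ℂ))) := by
      intro b
      have h1 := gen_alg hac₂ hW hdim hSi hξ hgen ha₀ b
      have h2 : ((clF (insert z (S' : Set ℂ)) : IntermediateField ℚ ℂ) : Set ℂ) =
          cl (insert z (S' : Set ℂ)) := rfl
      rw [h2, SetB_cl] at h1
      exact h1
    intro a b c
    exact dep_three (hall a) (hall b) (hall c)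
  · rintro x hx ⟨a, b, hr, hnr⟩ c d
    have hab : a ≠ b := by
      rintro rfl
      exact hnr (HeckeRel.refl' _)
    obtain ⟨g, hg, hmr⟩ := mr_of_rel hr
    have hkc := SetB_kclosed (n := n) hab hg
    have hxZ : x ∈ SetB_Z a b g := by
      obtain ⟨τ, h1, h2⟩ := hmr
      exact ⟨τ, by simpa using h1, by simpa using h2⟩
    have hWZ : ¬ W ⊆ SetB_Z a b g := by
      intro hsub
      obtain ⟨τ, h1, h2⟩ := hsub hξ
      apply hnr
      have h3 : (![ξ a, ξ b] : Fin 2 → ℂ) ∈ MR g := ⟨τ, by simpa using h1, by simpa using h2⟩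
      simpa using rel_of_mr hg h3
    have hmem := inter_mem hW hdim hac₂ hSi hkc.closed
      (fun σ hσ y hy => kclosed_stab hac₂ hkc hσ y hy) hWZ x ⟨hx, hxZ⟩
    exact dep_two (hmem c) (hmem d)

theorem Setup.rel {k : IntermediateField ℚ ℂ} {ξ : Fin n → ℂ} (h : Setup W k ξ) {a b : Fin n}
    (hr : HeckeRel (ξ a) (ξ b)) : ¬ NoRel W a b := by
  intro hN
  by_cases hab : a = b
  · subst hab
    obtain ⟨x, hx, hno⟩ := hN 1 (by simp)
    obtain ⟨τ, hτ⟩ := j_surj (x a)
    exact hno ⟨τ, hτ.symm, by rw [gact_one]; exact hτ.symm⟩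
  · obtain ⟨g, hg, hmr⟩ := mr_of_rel hr
    have hkc := SetB_kclosed (n := n) hab hg
    have hξZ : ξ ∈ SetB_Z a b g := by
      obtain ⟨τ, h1, h2⟩ := hmr
      exact ⟨τ, by simpa using h1, by simpa using h2⟩
    have hQ : Qb ≤ k := by
      intro y hy
      apply h.ac
      rw [mem_algebraicClosure_iff] at hy
      exact IsAlgebraic.tower_top (K := ℚ) (L := ↥k) hy
    obtain ⟨x, hx, hno⟩ := hN g hg
    apply hno
    change x ∈ SetB_Z a b g
    refine kclosed_iff.mp hkc x fun p hp => ?_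
    rw [← SetB_map hQ]
    apply h.gen _ _ x hx
    rw [SetB_map hQ]
    exact (MvPolynomial.mem_vanishingIdeal_iff.mp hp) ξ hξZ

theorem Setup.nk {k : IntermediateField ℚ ℂ} {ξ : Fin n → ℂ} (h : Setup W k ξ) {a : Fin n}
    (ha : ∀ c : ℂ, ∃ x ∈ W, x a ≠ c) : ξ a ∉ k := by
  intro hk
  obtain ⟨x, hx, hne⟩ := ha (ξ a)
  apply hne
  have h1 := h.gen (MvPolynomial.X a - MvPolynomial.C ⟨ξ a, hk⟩) (by
    rw [map_sub, MvPolynomial.aeval_X, MvPolynomial.aeval_C]
    exact sub_self _) x hx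
  rw [map_sub, MvPolynomial.aeval_X, MvPolynomial.aeval_C] at h1
  exact sub_eq_zero.mp h1

/-- the matrix `diag (N, 1)` -/
private theorem SetB_diag (N : ℕ) (hN : 0 < N) : ∃ g : GL (Fin 2) ℚ, 0 < g.det.val ∧
    ∀ τ : ℍ, (gact g τ : ℂ) = N * (τ : ℂ) := by
  have hN' : (0 : ℚ) < N := by exact_mod_cast hN
  have hdet : (!![(N : ℚ), 0; 0, 1] : Matrix (Fin 2) (Fin 2) ℚ).det = N := by
    rw [Matrix.det_fin_two_of]; ring
  have hne : (!![(N : ℚ), 0; 0, 1] : Matrix (Fin 2) (Fin 2) ℚ).det ≠ 0 := by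
    rw [hdet]; exact hN'.ne'
  have hpos : 0 < (Matrix.GeneralLinearGroup.mkOfDetNeZero _ hne).det.val := by
    change 0 < (!![(N : ℚ), 0; 0, 1] : Matrix (Fin 2) (Fin 2) ℚ).det
    rw [hdet]; exact hN'
  refine ⟨Matrix.GeneralLinearGroup.mkOfDetNeZero _ hne, hpos, fun τ => ?_⟩
  rw [coe_gact hpos]
  have h1 : (Matrix.GeneralLinearGroup.mkOfDetNeZero _ hne).1 =
      (!![(N : ℚ), 0; 0, 1] : Matrix (Fin 2) (Fin 2) ℚ) := rfl
  rw [h1]
  simp

/-- bounded degree -/
theorem mlt_fin (hW : Pool.Agent.Hhelper14.ZPL.IsIrredClosed W) (hdim : Pool.Agent.Hhelper14.ZPL.dim W = 1)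
    {a b : Fin n} (hab : NoRel W a b) (N : ℕ) (hN : 0 < N) : {x ∈ W | Mlt N (x a) (x b)}.Finite := by
  have hne : a ≠ b := by
    rintro rfl
    obtain ⟨x, hx, hno⟩ := hab 1 (by simp)
    obtain ⟨τ, hτ⟩ := j_surj (x a)
    exact hno ⟨τ, hτ.symm, by rw [gact_one]; exact hτ.symm⟩
  obtain ⟨g, hg, hgN⟩ := SetB_diag N hN
  have hkc := SetB_kclosed (n := n) hne hg
  rcases inter hW hdim hkc.closed with h | h
  · refine h.subset ?_
    rintro x ⟨hx, σ, σ', hσ, h1, h2⟩
    refine ⟨hx, σ, h1, ?_⟩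
    rw [h2]
    congr 1
    apply UpperHalfPlane.ext
    rw [hσ, hgN]
  · obtain ⟨x, hx, hno⟩ := hab g hg
    exact absurd (h hx) hno

end Pool.Agent.LGO.FC
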