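import Mathlib
import Pool.Agent.LGO.FC.SetB
import Pool.Agent.LGO.FC.DegA
import Pool.Agent.LGO.FC.CorA

/-!
# LGO/FC: two isogenous pairs, a pair and a singular modulus

`W ⊆ ℂⁿ` an irreducible curve with finitely many algebraic points (`hfin`); `s : Fin 4 → Fin n` surjective.

`pair2`: `T = {x ∈ W | HeckeRel (x (s 0)) (x (s 1)) ∧ HeckeRel (x (s 2)) (x (s 3))}` is finite.
Proof.  `exists_setup`: `k`, `ξ`.  Let `x ∈ T`.  By `Setup.rel` and `h01`: `¬ HeckeRel (ξ (s 0)) (ξ (s 1))`, so any two coordinates of `x` are dependent over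
`k` (`Setup.dep2`).  `x (s 0) ∈ k ↔ x (s 1) ∈ k` and `x (s 2) ∈ k ↔ x (s 3) ∈ k` (`hecke_mem`).  If `x (s 0) ∈ k` and `x (s 2) ∈ k` then all coordinates of
`x` are in `k` (`s` surjective), `x ∈ Kp k W`: finitely many.  Every polynomial over `k` which vanishes at `ξ` vanishes at `x` (`Setup.gen`), the
same for `ξ ∘ t` and `x ∘ t` for every map `t` into `Fin n` (`rename`).
(A) `T_A = {x ∈ T | x (s 0) ∉ k, x (s 2) ∈ k}`: `Mlt N (x (s 0)) (x (s 1))` for some `N > 0` (`hecke_cyc`); `deg_bd` with `u = ξ (s 0)`, `v = ξ (s 1)`,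
`c = ξ (s 2) ∉ k` (`Setup.nk`, `n2`), dependent by `Setup.dep3`: `N ≤ N₀`.  So `T_A ⊆ ⋃_{0 < N ≤ N₀} {x ∈ W | Mlt N (x (s 0)) (x (s 1))}`, finite by `mlt_fin`.
(B) `T_B = {x ∈ T | x (s 0) ∈ k, x (s 2) ∉ k}`: the same with the pair `s 2, s 3` and `c = ξ (s 0)` (`n0`, `h23`).
(C) `T_C = {x ∈ T | x (s 0) ∉ k, x (s 2) ∉ k}`.  Suppose it is infinite.  `S = {N | 0 < N, ∃ x ∈ T_C, Mlt N (x (s 0)) (x (s 1))}` is infinite, because otherwise
`T_C ⊆ ⋃_{N ∈ S} {x ∈ W | Mlt N ..}` would be finite.  For `N ∈ S` with its `x`: `Tp k (ξ ∘ s) N (x ∘ s)`.  `ξ (s 0), ξ (s 1)` are algebraically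
independent, because otherwise `deg_bd2` bounds all `N ∈ S`.  `Setup.dep3` gives the two dependences, `core`:
`HeckeRel (ξ (s 2)) (ξ (s 3))` or `HeckeRel (ξ (s 2)) (ξ (s 0))` or `HeckeRel (ξ (s 2)) (ξ (s 1))`, against `h23`, `h02`, `h12` (`Setup.rel`, `HeckeRel.symm'`).

`one2`: `{x ∈ W | HeckeRel (x (s 0)) (x (s 1)) ∧ IsCMVal (x (s 2))}` is finite, `s : Fin 3 → Fin n` surjective.  `x (s 2)` is algebraic over `ℚ` (`halg`), so in `k`.  If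
`x (s 0) ∈ k` then `x ∈ Kp k W`; otherwise as (A).
-/

namespace Pool.Agent.LGO.FC

open UpperHalfPlane Pool.Agent.AHC Pool.Agent.Hhelper14.ZP Pool.Agent.Hhelper14.ZPL Pool.Agent.LGO

variable {n : ℕ} {W : Set (Fin n → ℂ)}

private theorem TypN_gen {k : IntermediateField ℚ ℂ} {ξ : Fin n → ℂ} (h : Setup W k ξ) {m : ℕ} (t : Fin m → Fin n)
    {x : Fin n → ℂ} (hx : x ∈ W) (G : MvPolynomial (Fin m) k)
    (hG : MvPolynomial.aeval (fun i => ξ (t i)) G = (0 : ℂ)) : MvPolynomial.aeval (fun i => x (t i)) G = (0 : ℂ) := by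
  have h1 := h.gen (MvPolynomial.rename t G) (by
    rw [MvPolynomial.aeval_rename]; exact hG) x hx
  rw [MvPolynomial.aeval_rename] at h1
  exact h1

private theorem TypN_vec3 (ξ : Fin n → ℂ) (a b c : Fin n) :
    (![ξ a, ξ b, ξ c] : Fin 3 → ℂ) = fun i => ξ ((![a, b, c] : Fin 3 → Fin n) i) := by
  funext i
  fin_cases i <;> rfl

private theorem TypN_vec2 (ξ : Fin n → ℂ) (a b : Fin n) :
    (![ξ a, ξ b] : Fin 2 → ℂ) = fun i => ξ ((![a, b] : Fin 2 → Fin n) i) := by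
  funext i
  fin_cases i <;> rfl

private theorem TypN_bd (hW : Pool.Agent.Hhelper14.ZPL.IsIrredClosed W) (hdim : Pool.Agent.Hhelper14.ZPL.dim W = 1)
    {a b : Fin n} (hab : NoRel W a b) (N₀ : ℕ) :
    {x ∈ W | ∃ N, 0 < N ∧ N ≤ N₀ ∧ Mlt N (x a) (x b)}.Finite := by
  have h1 : (⋃ N ∈ Finset.Icc 1 N₀, {x ∈ W | Mlt N (x a) (x b)}).Finite := by
    refine Set.Finite.biUnion (Finset.finite_toSet _) fun N hN => ?_
    rw [Finset.coe_Icc, Set.mem_Icc] at hN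
    exact mlt_fin hW hdim hab N (by omega)
  refine h1.subset ?_
  rintro x ⟨hx, N, hN, hN', hm⟩
  simp only [Set.mem_iUnion]
  exact ⟨N, by rw [Finset.mem_Icc]; omega, hx, hm⟩

private theorem TypN_A (hW : Pool.Agent.Hhelper14.ZPL.IsIrredClosed W) (hdim : Pool.Agent.Hhelper14.ZPL.dim W = 1)
    {k : IntermediateField ℚ ℂ} {ξ : Fin n → ℂ} (h : Setup W k ξ) {a b c : Fin n} (hab : NoRel W a b)
    (hc : ∀ z : ℂ, ∃ x ∈ W, x c ≠ z) : {x ∈ W | HeckeRel (x a) (x b) ∧ x a ∉ k ∧ x c ∈ k}.Finite := by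
  obtain ⟨N₀, hN₀⟩ := deg_bd h.ac (h.nk hc) (h.dep3 a b c)
  refine (TypN_bd hW hdim hab N₀).subset ?_
  rintro x ⟨hx, hr, hxa, hxc⟩
  obtain ⟨N, hN, hm⟩ := hecke_cyc hr
  refine ⟨hx, N, hN, ?_, hm⟩
  refine hN₀ N _ _ _ hm hxa hxc ?_
  intro G hG
  rw [TypN_vec3] at hG ⊢
  exact TypN_gen h _ hx G hG

/-- two isogenous pairs, general form -/
theorem pair2g (hW : Pool.Agent.Hhelper14.ZPL.IsIrredClosed W) (hdim : Pool.Agent.Hhelper14.ZPL.dim W = 1)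
    (hfin : (Kp (clF ∅) W).Finite) (s : Fin 4 → Fin n) {T : Set (Fin n → ℂ)}
    (hT : ∀ x ∈ T, x ∈ W ∧ HeckeRel (x (s 0)) (x (s 1)) ∧ HeckeRel (x (s 2)) (x (s 3)))
    (hall : ∀ k : IntermediateField ℚ ℂ, AC k → ∀ x ∈ T, x (s 0) ∈ k → x (s 2) ∈ k → ∀ i, x i ∈ k)
    (h01 : NoRel W (s 0) (s 1)) (h23 : NoRel W (s 2) (s 3)) (h02 : NoRel W (s 0) (s 2)) (h12 : NoRel W (s 1) (s 2))
    (n0 : ∀ c : ℂ, ∃ x ∈ W, x (s 0) ≠ c) (n2 : ∀ c : ℂ, ∃ x ∈ W, x (s 2) ≠ c) : T.Finite := by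
  obtain ⟨k, ξ, h⟩ := exists_setup hW hdim hfin
  have hk := h.ac
  -- the points with no coordinate in `k`
  have hC : {x ∈ W | HeckeRel (x (s 0)) (x (s 1)) ∧ HeckeRel (x (s 2)) (x (s 3)) ∧ x (s 0) ∉ k ∧ x (s 2) ∉ k}.Finite := by
    by_contra hinf
    set S : Set ℕ := {N | 0 < N ∧ ∃ x ∈ W, HeckeRel (x (s 0)) (x (s 1)) ∧ HeckeRel (x (s 2)) (x (s 3)) ∧
      x (s 0) ∉ k ∧ x (s 2) ∉ k ∧ Mlt N (x (s 0)) (x (s 1))} with hS
    have hSinf : S.Infinite := by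
      intro hfinS
      apply hinf
      have h1 : (⋃ N ∈ S, {x ∈ W | Mlt N (x (s 0)) (x (s 1))}).Finite :=
        Set.Finite.biUnion hfinS fun N hN => mlt_fin hW hdim h01 N hN.1
      refine h1.subset ?_
      rintro x ⟨hx, hr, hr', hx0, hx2⟩
      obtain ⟨N, hN, hm⟩ := hecke_cyc hr
      simp only [Set.mem_iUnion]
      exact ⟨N, ⟨hN, x, hx, hr, hr', hx0, hx2, hm⟩, hx, hm⟩
    have hnr : ¬ HeckeRel (ξ (s 0)) (ξ (s 1)) := fun hr => h.rel hr h01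
    have hTp : ∀ N ∈ S, ∃ x, Tp k (fun i => ξ (s i)) N x := by
      rintro N ⟨hN, x, hx, hr, hr', hx0, hx2, hm⟩
      refine ⟨fun i => x (s i), hm, hr', ?_, ?_, ?_⟩
      · intro i
        fin_cases i
        · exact hx0
        · exact fun hc => hx0 (hecke_mem hk (HeckeRel.symm' hr) hc)
        · exact hx2
        · exact fun hc => hx2 (hecke_mem hk (HeckeRel.symm' hr') hc)
      · intro i j
        exact h.dep2 x hx ⟨s 0, s 1, hr, hnr⟩ (s i) (s j)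
      · intro G hG
        exact TypN_gen h s hx G hG
    have hi : AlgebraicIndependent k ![ξ (s 0), ξ (s 1)] := by
      by_contra hd
      obtain ⟨N₀, hN₀⟩ := deg_bd2 hk hd
      apply hSinf
      refine (Set.finite_Iic N₀).subset ?_
      rintro N ⟨hN, x, hx, hr, hr', hx0, hx2, hm⟩
      refine hN₀ N _ _ hm hx0 ?_
      intro G hG
      rw [TypN_vec2] at hG ⊢
      exact TypN_gen h _ hx G hG
    rcases core hk (ξ := fun i => ξ (s i)) hi (h.dep3 _ _ _) (h.dep3 _ _ _) hSinf hTp with hr | hr | hr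
    · exact h.rel hr h23
    · exact h.rel (HeckeRel.symm' hr) h02
    · exact h.rel (HeckeRel.symm' hr) h12
  have hA := TypN_A hW hdim h h01 n2
  have hB := TypN_A hW hdim h h23 n0
  refine (((hC.union hA).union hB).union h.fin).subset ?_
  intro x hxT
  obtain ⟨hx, hr, hr'⟩ := hT x hxT
  by_cases hx0 : x (s 0) ∈ k
  · by_cases hx2 : x (s 2) ∈ k
    · exact Or.inr ⟨hx, hall k hk x hxT hx0 hx2⟩
    · exact Or.inl (Or.inr ⟨hx, hr', hx2, hx0⟩)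
  · by_cases hx2 : x (s 2) ∈ k
    · exact Or.inl (Or.inl (Or.inr ⟨hx, hr, hx0, hx2⟩))
    · exact Or.inl (Or.inl (Or.inl ⟨hx, hr, hr', hx0, hx2⟩))

/-- two isogenous pairs -/
theorem pair2 (hW : Pool.Agent.Hhelper14.ZPL.IsIrredClosed W) (hdim : Pool.Agent.Hhelper14.ZPL.dim W = 1)
    (hfin : (Kp (clF ∅) W).Finite) (s : Fin 4 → Fin n) (hs : Function.Surjective s)
    (h01 : NoRel W (s 0) (s 1)) (h23 : NoRel W (s 2) (s 3)) (h02 : NoRel W (s 0) (s 2)) (h12 : NoRel W (s 1) (s 2))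
    (n0 : ∀ c : ℂ, ∃ x ∈ W, x (s 0) ≠ c) (n2 : ∀ c : ℂ, ∃ x ∈ W, x (s 2) ≠ c) :
    {x ∈ W | HeckeRel (x (s 0)) (x (s 1)) ∧ HeckeRel (x (s 2)) (x (s 3))}.Finite := by
  refine pair2g hW hdim hfin s (fun x hx => hx) ?_ h01 h23 h02 h12 n0 n2
  rintro k hk x ⟨-, hr, hr'⟩ hx0 hx2 i
  obtain ⟨j, rfl⟩ := hs i
  fin_cases j
  · exact hx0
  · exact hecke_mem hk hr hx0
  · exact hx2
  · exact hecke_mem hk hr' hx2

/-- an isogenous pair and a singular modulus -/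
theorem one2 (hW : Pool.Agent.Hhelper14.ZPL.IsIrredClosed W) (hdim : Pool.Agent.Hhelper14.ZPL.dim W = 1)
    (hfin : (Kp (clF ∅) W).Finite) (s : Fin 3 → Fin n) (hs : Function.Surjective s)
    (h01 : NoRel W (s 0) (s 1)) (n2 : ∀ c : ℂ, ∃ x ∈ W, x (s 2) ≠ c)
    (halg : ∀ x : ℂ, IsCMVal x → IsAlgebraic ℚ x) :
    {x ∈ W | HeckeRel (x (s 0)) (x (s 1)) ∧ IsCMVal (x (s 2))}.Finite := by
  obtain ⟨k, ξ, h⟩ := exists_setup hW hdim hfin
  have hk := h.ac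
  have hA := TypN_A hW hdim h h01 n2
  refine (hA.union h.fin).subset ?_
  rintro x ⟨hx, hr, hcm⟩
  have hx2 : x (s 2) ∈ k := hk _ ((halg _ hcm).extendScalars (algebraMap ℚ k).injective)
  by_cases hx0 : x (s 0) ∈ k
  · refine Or.inr ⟨hx, fun i => ?_⟩
    obtain ⟨j, rfl⟩ := hs i
    fin_cases j
    · exact hx0
    · exact hecke_mem hk hr hx0
    · exact hx2
  · exact Or.inl ⟨hx, hr, hx0, hx2⟩

end Pool.Agent.LGO.FC
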