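import Mathlib
import Pool.Agent.LGO.FC.TypN
import Pool.Agent.LGO.KC.Main
import Pool.Agent.LGO.ZG.InC

/-!
# LGO/FC: the four types on a curve in general position

`GP C`: `C` an irreducible curve over `ℂ`, coordinates allowed to be constant, no two coordinates modular related and no
coordinate a constant singular modulus.

`gp_k` (`C` defined over `ℚbar`): the argument of `KC.main_c`.  `exists_sigma C`: `σ`, `c`, `ConstOff C σ c`, coordinates `σ a` not constant.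
`proj σ C` is closed (`ConstOff.intOver`, `IntOver.closed`), so it is `cp σ C` (the closure of itself).  `ConstOff.crv` (the hypothesis `hmod` from
`GP.nomod`), and `KC.Gen C σ c` (`alg`: `ConstOff.alg`; `ncm`, `rel`: from `GP`, the constants would otherwise violate it), and `Gen.t1`, `Gen.t2` with
`H`, `Gen.t3` with `T3_v`, `Gen.t4` with `T4_v` (`cmAll`, `cm_alg` in `ZG/InC.lean`), exactly as at the end of `KC.main_c`.

`gp_n1` .. `gp_n4` (`C` not defined over `ℚbar`): `Kp (clF ∅) C` is finite by `kclosed_of_inf`.  If two coordinates `a ≠ b` are both constant then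
`HeckeRel (x a) (x b)` never holds on `C` (with `mr_of_rel` it would be a modular relation of the two coordinates on all of `C`).
`gp_n1` (three coordinates, all isogenous): `C` has a nonconstant coordinate (`exists_nc`).  If only one is not constant then the other two are constant
and isogenous on the set (`HeckeRel.trans'`), so it is empty.  Otherwise let `p ≠ q` be two nonconstant coordinates and `r` the third: the set is
contained in the set of `pair2` for `s = ![p, r, q, r]`.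
`gp_n2` (four coordinates, two pairs): one of the coordinates `0, 1` and one of `2, 3` are not constant, otherwise the set is empty: `pair2` with
`s = ![0, 1, 2, 3]` or with `0, 1` or `2, 3` exchanged.
`gp_n3`: if the coordinate `2` is constant then the set is empty (`GP.ncm`), otherwise `one2` with `s = id`.
`gp_n4`: the set is contained in `Kp (clF ∅) C` (`mem_clF_empty`, `cm_alg`).
-/

namespace Pool.Agent.LGO.FC

open UpperHalfPlane Pool.Agent.AHC Pool.Agent.Hhelper14.ZP Pool.Agent.Hhelper14.ZPL Pool.Agent.LGO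
  Pool.Agent.LGO.ZF

/-- an irreducible curve in general position -/
structure GP {m : ℕ} (C : Set (Fin m → ℂ)) : Prop where
  irr : Pool.Agent.Hhelper14.ZPL.IsIrredClosed C
  dim : Pool.Agent.Hhelper14.ZPL.dim C = 1
  nomod : ∀ a b : Fin m, a ≠ b → NoRel C a b
  ncm : ∀ (a : Fin m) (c : ℂ), IsCMVal c → ∃ x ∈ C, x a ≠ c

private theorem NkA_cp {m l : ℕ} {C : Set (Fin m → ℂ)} {σ : Fin l → Fin m}
    (h : IsZClosed (proj σ C)) : cp σ C = proj σ C := by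
  have e : {y : Fin l → ℂ | ∃ x ∈ C, y = fun a => x (σ a)} = proj σ C := by
    ext y
    constructor
    · rintro ⟨x, hx, rfl⟩
      exact ⟨x, hx, rfl⟩
    · rintro ⟨x, hx, rfl⟩
      exact ⟨x, hx, rfl⟩
  rw [cp, e]
  exact h

/-- two constant coordinates are not isogenous -/
private theorem NkA_rel {m : ℕ} {C : Set (Fin m → ℂ)} (h : GP C) {k l : Fin m} (hkl : k ≠ l)
    {c d : ℂ} (hc : ∀ x ∈ C, x k = c) (hd : ∀ x ∈ C, x l = d) : ¬ HeckeRel c d := by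
  rintro ⟨τ, g, hg, h3, h4⟩
  obtain ⟨x, hx, hno⟩ := h.nomod k l hkl g hg
  exact hno ⟨τ, by rw [hc x hx, h3], by rw [hd x hx, h4]⟩

private theorem NkA_rel' {m : ℕ} {C : Set (Fin m → ℂ)} (h : GP C) {k l : Fin m} (hkl : k ≠ l)
    (hc : ¬ ∀ c : ℂ, ∃ x ∈ C, x k ≠ c) (hd : ¬ ∀ c : ℂ, ∃ x ∈ C, x l ≠ c) {x : Fin m → ℂ}
    (hx : x ∈ C) : ¬ HeckeRel (x k) (x l) := by
  push Not at hc hd
  obtain ⟨c, hc⟩ := hc
  obtain ⟨d, hd⟩ := hd
  rw [hc x hx, hd x hx]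
  exact NkA_rel h hkl hc hd

private theorem NkA_fin {m : ℕ} {C : Set (Fin m → ℂ)} (h : GP C) (hk : ¬ KClosed C) :
    (Kp (clF ∅) C).Finite := by
  by_contra hcon
  exact hk (kclosed_of_inf h.irr h.dim hcon)

/-- a curve over `ℚbar` -/
theorem gp_k {m : ℕ} {C : Set (Fin m → ℂ)} (h : GP C) (hk : KClosed C)
    (H : ∀ (l : ℕ) (σ : Fin l → Fin m), Function.Injective σ → ZV.Crv (cp σ C) → T1 (cp σ C) ∧ T2 (cp σ C)) :
    T1 C ∧ T2 C ∧ T3 C ∧ T4 C := by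
  obtain ⟨l, σ, c, hσ, hc, hnc⟩ := KC.exists_sigma C (irred_nonempty h.irr)
  have hcl : IsZClosed (proj σ C) := hc.intOver.closed h.irr.2
  have hcp : cp σ C = proj σ C := NkA_cp hcl
  have hcrv : ZV.Crv (proj σ C) := hc.crv hσ h.irr hk h.dim hnc
    (fun a b hab g hg => h.nomod (σ a) (σ b) (hσ.ne hab) g hg)
  obtain ⟨h1, h2⟩ := H l σ hσ (by rw [hcp]; exact hcrv)
  rw [hcp] at h1 h2
  have hG : KC.Gen C σ c := by
    refine ⟨hc, hcrv, fun k hk' => hc.alg hk (irred_nonempty h.irr) hk', fun k hk' => ?_,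
      fun k l hkl hk' hl' => ?_⟩
    · rw [ncm_iff]
      intro hcm
      obtain ⟨x, hx, hne⟩ := h.ncm k (c k) hcm
      exact hne (hc x hx k hk')
    · exact NkA_rel h hkl (fun x hx => hc x hx k hk') (fun x hx => hc x hx l hl')
  exact ⟨hG.t1 h1, hG.t2 h2, hG.t3 (ZV.T3_v hcrv ZG.cmAll),
    hG.t4 (ZV.T4_v hcrv ZG.cmAll fun x hx => ZG.cm_alg hx)⟩

theorem gp_n1 {C : Set (Fin 3 → ℂ)} (h : GP C) (hk : ¬ KClosed C) :
    {x ∈ C | HeckeRel (x 0) (x 1) ∧ HeckeRel (x 0) (x 2)}.Finite := by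
  have hall : ∀ x ∈ {x ∈ C | HeckeRel (x 0) (x 1) ∧ HeckeRel (x 0) (x 2)},
      ∀ i j : Fin 3, HeckeRel (x i) (x j) := by
    rintro x ⟨hx, h1, h2⟩
    have h0 : ∀ i : Fin 3, HeckeRel (x 0) (x i) := by
      intro i
      fin_cases i
      · exact HeckeRel.refl' _
      · exact h1
      · exact h2
    exact fun i j => HeckeRel.trans' (HeckeRel.symm' (h0 i)) (h0 j)
  have key : ∀ p q r : Fin 3, p ≠ q → p ≠ r → q ≠ r → (∀ i, i = p ∨ i = q ∨ i = r) →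
      (∀ c : ℂ, ∃ x ∈ C, x p ≠ c) → (∀ c : ℂ, ∃ x ∈ C, x q ≠ c) →
      {x ∈ C | HeckeRel (x 0) (x 1) ∧ HeckeRel (x 0) (x 2)}.Finite := by
    intro p q r hpq hpr hqr hi hp hq
    refine (pair2 h.irr h.dim (NkA_fin h hk) ![p, r, q, r] ?_ (h.nomod p r hpr)
      (h.nomod q r hqr) (h.nomod p q hpq) (h.nomod r q hqr.symm) hp hq).subset ?_
    · intro i
      rcases hi i with rfl | rfl | rfl
      · exact ⟨0, rfl⟩
      · exact ⟨2, rfl⟩
      · exact ⟨1, rfl⟩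
    · intro x hx
      exact ⟨hx.1, hall x hx _ _, hall x hx _ _⟩
  have emp : ∀ p q : Fin 3, p ≠ q → (¬ ∀ c : ℂ, ∃ x ∈ C, x p ≠ c) →
      (¬ ∀ c : ℂ, ∃ x ∈ C, x q ≠ c) →
      {x ∈ C | HeckeRel (x 0) (x 1) ∧ HeckeRel (x 0) (x 2)}.Finite := by
    intro p q hpq hp hq
    refine (Set.finite_empty).subset ?_
    intro x hx
    exact absurd (hall x hx p q) (NkA_rel' h hpq hp hq hx.1)
  by_cases n0 : ∀ c : ℂ, ∃ x ∈ C, x 0 ≠ c
  · by_cases n1 : ∀ c : ℂ, ∃ x ∈ C, x 1 ≠ c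
    · exact key 0 1 2 (by decide) (by decide) (by decide) (by decide) n0 n1
    · by_cases n2 : ∀ c : ℂ, ∃ x ∈ C, x 2 ≠ c
      · exact key 0 2 1 (by decide) (by decide) (by decide) (by decide) n0 n2
      · exact emp 1 2 (by decide) n1 n2
  · by_cases n1 : ∀ c : ℂ, ∃ x ∈ C, x 1 ≠ c
    · by_cases n2 : ∀ c : ℂ, ∃ x ∈ C, x 2 ≠ c
      · exact key 1 2 0 (by decide) (by decide) (by decide) (by decide) n1 n2
      · exact emp 0 2 (by decide) n0 n2
    · exact emp 0 1 (by decide) n0 n1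

theorem gp_n2 {C : Set (Fin 4 → ℂ)} (h : GP C) (hk : ¬ KClosed C) :
    {x ∈ C | HeckeRel (x 0) (x 1) ∧ HeckeRel (x 2) (x 3)}.Finite := by
  have key : ∀ p p' q q' : Fin 4, (p = 0 ∧ p' = 1 ∨ p = 1 ∧ p' = 0) →
      (q = 2 ∧ q' = 3 ∨ q = 3 ∧ q' = 2) →
      (∀ c : ℂ, ∃ x ∈ C, x p ≠ c) → (∀ c : ℂ, ∃ x ∈ C, x q ≠ c) →
      {x ∈ C | HeckeRel (x 0) (x 1) ∧ HeckeRel (x 2) (x 3)}.Finite := by
    intro p p' q q' hpp hqq hp hq
    have d1 : p ≠ p' := by rcases hpp with ⟨rfl, rfl⟩ | ⟨rfl, rfl⟩ <;> decide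
    have d2 : q ≠ q' := by rcases hqq with ⟨rfl, rfl⟩ | ⟨rfl, rfl⟩ <;> decide
    have d3 : p ≠ q := by
      rcases hpp with ⟨rfl, rfl⟩ | ⟨rfl, rfl⟩ <;> rcases hqq with ⟨rfl, rfl⟩ | ⟨rfl, rfl⟩ <;> decide
    have d4 : p' ≠ q := by
      rcases hpp with ⟨rfl, rfl⟩ | ⟨rfl, rfl⟩ <;> rcases hqq with ⟨rfl, rfl⟩ | ⟨rfl, rfl⟩ <;> decide
    refine (pair2 h.irr h.dim (NkA_fin h hk) ![p, p', q, q'] ?_ (h.nomod p p' d1)
      (h.nomod q q' d2) (h.nomod p q d3) (h.nomod p' q d4) hp hq).subset ?_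
    · have : ∀ i : Fin 4, i = p ∨ i = p' ∨ i = q ∨ i = q' := by
        rcases hpp with ⟨rfl, rfl⟩ | ⟨rfl, rfl⟩ <;> rcases hqq with ⟨rfl, rfl⟩ | ⟨rfl, rfl⟩ <;>
          decide
      intro i
      rcases this i with rfl | rfl | rfl | rfl
      · exact ⟨0, rfl⟩
      · exact ⟨1, rfl⟩
      · exact ⟨2, rfl⟩
      · exact ⟨3, rfl⟩
    · rintro x ⟨hx, h1, h2⟩
      refine ⟨hx, ?_, ?_⟩
      · show HeckeRel (x p) (x p')
        rcases hpp with ⟨rfl, rfl⟩ | ⟨rfl, rfl⟩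
        · exact h1
        · exact HeckeRel.symm' h1
      · show HeckeRel (x q) (x q')
        rcases hqq with ⟨rfl, rfl⟩ | ⟨rfl, rfl⟩
        · exact h2
        · exact HeckeRel.symm' h2
  have k1 : ∀ p p' : Fin 4, (p = 0 ∧ p' = 1 ∨ p = 1 ∧ p' = 0) → (∀ c : ℂ, ∃ x ∈ C, x p ≠ c) →
      {x ∈ C | HeckeRel (x 0) (x 1) ∧ HeckeRel (x 2) (x 3)}.Finite := by
    intro p p' hpp hp
    by_cases n2 : ∀ c : ℂ, ∃ x ∈ C, x 2 ≠ c
    · exact key p p' 2 3 hpp (Or.inl ⟨rfl, rfl⟩) hp n2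
    · by_cases n3 : ∀ c : ℂ, ∃ x ∈ C, x 3 ≠ c
      · exact key p p' 3 2 hpp (Or.inr ⟨rfl, rfl⟩) hp n3
      · refine (Set.finite_empty).subset ?_
        rintro x ⟨hx, h1, h2⟩
        exact absurd h2 (NkA_rel' h (by decide) n2 n3 hx)
  by_cases n0 : ∀ c : ℂ, ∃ x ∈ C, x 0 ≠ c
  · exact k1 0 1 (Or.inl ⟨rfl, rfl⟩) n0
  · by_cases n1 : ∀ c : ℂ, ∃ x ∈ C, x 1 ≠ c
    · exact k1 1 0 (Or.inr ⟨rfl, rfl⟩) n1
    · refine (Set.finite_empty).subset ?_
      rintro x ⟨hx, h1, h2⟩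
      exact absurd h1 (NkA_rel' h (by decide) n0 n1 hx)

theorem gp_n3 {C : Set (Fin 3 → ℂ)} (h : GP C) (hk : ¬ KClosed C) :
    {x ∈ C | HeckeRel (x 0) (x 1) ∧ IsCMVal (x 2)}.Finite := by
  by_cases n2 : ∀ c : ℂ, ∃ x ∈ C, x 2 ≠ c
  · exact one2 h.irr h.dim (NkA_fin h hk) id Function.surjective_id (h.nomod 0 1 (by decide)) n2
      fun x hx => ZG.cm_alg hx
  · push Not at n2
    obtain ⟨c, hc⟩ := n2
    refine (Set.finite_empty).subset ?_
    rintro x ⟨hx, h1, h2⟩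
    rw [hc x hx] at h2
    obtain ⟨y, hy, hne⟩ := h.ncm 2 c h2
    exact hne (hc y hy)

theorem gp_n4 {C : Set (Fin 2 → ℂ)} (h : GP C) (hk : ¬ KClosed C) :
    {x ∈ C | IsCMVal (x 0) ∧ IsCMVal (x 1)}.Finite := by
  refine (NkA_fin h hk).subset ?_
  rintro x ⟨hx, h0, h1⟩
  refine ⟨hx, fun i => ?_⟩
  rw [mem_clF_empty]
  fin_cases i
  · exact ZG.cm_alg h0
  · exact ZG.cm_alg h1

end Pool.Agent.LGO.FC
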