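import Mathlib
import Pool.Agent.LGO.FC.NkA
import Pool.Agent.LGO.FC.DimA

/-!
# LGO/FC: from `ℚbar` to `ℂ`

`main_C`: `W` an irreducible curve over `ℂ` in `Y(1)ⁿ` (coordinates allowed to be constant).  If for all projections of `W` to some coordinates
which are curves over `ℚbar` with nonconstant coordinates, no two modular related, the points of the types `T1` and `T2` are finitely many,
then the atypical intersections of `W` lie in finitely many proper special subvarieties.

Proof.  If two coordinates `a ≠ b` are modular related on `W` (`¬ NoRel W a b`): `fin_of_mod`.  If a coordinate is a constant singular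
modulus: `fin_of_sub` with `special_const` (as in `KC.main_c`).  Otherwise `W` is in general position, `GP W`.  `crit` (`ZF/Crit.lean`) and `atyp_finite`
(`ZF/Asm.lean`): it suffices to prove `T1 W`, .., `T4 W`.
For `i : Fin m → Fin n` injective, with one of the coordinates `i a` not constant on `W`: `C = cp i W` is in general position (`cp_irr`, `dim_image`,
`cp_mem`), and the finiteness of the set of the points of `C` (if `C` is `KClosed`: `gp_k` with the types of `C` for the identity of `Fin m`, and `H` for `C`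
from `H` for `W` by `cp_cp`; if not: `gp_n1` .. `gp_n4`) gives the finiteness of the set of the points of `W` by `cp_fin`.
If all coordinates `i a` are constant on `W`: the set for `T1`, `T2`, `T3` is empty, because `HeckeRel (x (i 0)) (x (i 1))` with constant coordinates
is a modular relation on `W` (`mr_of_rel`), and the set for `T4` is empty by `GP.ncm`.
-/

namespace Pool.Agent.LGO.FC

open UpperHalfPlane Pool.Agent.AHC Pool.Agent.Hhelper14.ZP Pool.Agent.Hhelper14.ZPL Pool.Agent.LGO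
  Pool.Agent.LGO.ZF Pool.Agent.ZPE

variable {n : ℕ} {W : Set (Fin n → ℂ)}

theorem gp_image (h : GP W) {m : ℕ} {i : Fin m → Fin n} (hi : Function.Injective i)
    (hnc : ∃ a : Fin m, ∀ c : ℂ, ∃ x ∈ W, x (i a) ≠ c) : GP (cp i W) := by
  refine ⟨cp_irr h.irr, dim_image h.irr h.dim hnc, fun a b hab g hg => ?_, fun a c hc => ?_⟩
  · obtain ⟨x, hx, hxn⟩ := h.nomod (i a) (i b) (hi.ne hab) g hg
    exact ⟨fun a => x (i a), cp_mem hx, hxn⟩
  · obtain ⟨x, hx, hxn⟩ := h.ncm (i a) c hc
    exact ⟨fun a => x (i a), cp_mem hx, hxn⟩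

private theorem MainC_const (h : GP W) {a b : Fin n} (hab : a ≠ b) (ha : ∃ c : ℂ, ∀ x ∈ W, x a = c)
    (hb : ∃ c : ℂ, ∀ x ∈ W, x b = c) {x : Fin n → ℂ} (hx : x ∈ W) : ¬ HeckeRel (x a) (x b) := by
  intro hr
  obtain ⟨g, hg, τ, h1, h2⟩ := mr_of_rel hr
  obtain ⟨y, hy, hyn⟩ := h.nomod a b hab g hg
  obtain ⟨ca, hca⟩ := ha
  obtain ⟨cb, hcb⟩ := hb
  refine hyn ⟨τ, ?_, ?_⟩
  · rw [hca y hy, ← hca x hx]
    exact h1
  · rw [hcb y hy, ← hcb x hx]
    exact h2

private theorem MainC_hyp {m : ℕ} {i : Fin m → Fin n} (hi : Function.Injective i)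
    (H : ∀ (m : ℕ) (i : Fin m → Fin n), Function.Injective i → ZV.Crv (cp i W) → T1 (cp i W) ∧ T2 (cp i W)) :
    ∀ (l : ℕ) (σ : Fin l → Fin m), Function.Injective σ → ZV.Crv (cp σ (cp i W)) →
      T1 (cp σ (cp i W)) ∧ T2 (cp σ (cp i W)) := by
  intro l σ hσ
  rw [cp_cp]
  exact H l (fun a => i (σ a)) (hi.comp hσ)

theorem gp_types (h : GP W)
    (H : ∀ (m : ℕ) (i : Fin m → Fin n), Function.Injective i → ZV.Crv (cp i W) → T1 (cp i W) ∧ T2 (cp i W)) :
    T1 W ∧ T2 W ∧ T3 W ∧ T4 W := by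
  refine ⟨fun i hi => ?_, fun i hi => ?_, fun i hi => ?_, fun i hi => ?_⟩
  · by_cases hnc : ∃ a, ∀ c : ℂ, ∃ x ∈ W, x (i a) ≠ c
    · have hC := gp_image h hi hnc
      have hS : {y ∈ cp i W | (∀ a, NCM (y a)) ∧ HeckeRel (y 0) (y 1) ∧ HeckeRel (y 0) (y 2)}.Finite := by
        by_cases hk : KClosed (cp i W)
        · exact (gp_k hC hk (MainC_hyp hi H)).1 id Function.injective_id
        · exact (gp_n1 hC hk).subset fun y hy => ⟨hy.1, hy.2.2⟩
      exact cp_fin h.irr h.dim hnc hS fun x hx => ⟨hx.1, cp_mem hx.1, hx.2⟩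
    · push Not at hnc
      refine Set.finite_empty.subset fun x hx => ?_
      exact absurd hx.2.2.1 (MainC_const h (hi.ne (by decide)) (hnc 0) (hnc 1) hx.1)
  · by_cases hnc : ∃ a, ∀ c : ℂ, ∃ x ∈ W, x (i a) ≠ c
    · have hC := gp_image h hi hnc
      have hS : {y ∈ cp i W | (∀ a, NCM (y a)) ∧ HeckeRel (y 0) (y 1) ∧ HeckeRel (y 2) (y 3)}.Finite := by
        by_cases hk : KClosed (cp i W)
        · exact (gp_k hC hk (MainC_hyp hi H)).2.1 id Function.injective_id
        · exact (gp_n2 hC hk).subset fun y hy => ⟨hy.1, hy.2.2⟩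
      exact cp_fin h.irr h.dim hnc hS fun x hx => ⟨hx.1, cp_mem hx.1, hx.2⟩
    · push Not at hnc
      refine Set.finite_empty.subset fun x hx => ?_
      exact absurd hx.2.2.1 (MainC_const h (hi.ne (by decide)) (hnc 0) (hnc 1) hx.1)
  · by_cases hnc : ∃ a, ∀ c : ℂ, ∃ x ∈ W, x (i a) ≠ c
    · have hC := gp_image h hi hnc
      have hS : {y ∈ cp i W | NCM (y 0) ∧ NCM (y 1) ∧ HeckeRel (y 0) (y 1) ∧ IsCMVal (y 2)}.Finite := by
        by_cases hk : KClosed (cp i W)
        · exact (gp_k hC hk (MainC_hyp hi H)).2.2.1 id Function.injective_id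
        · exact (gp_n3 hC hk).subset fun y hy => ⟨hy.1, hy.2.2.2⟩
      exact cp_fin h.irr h.dim hnc hS fun x hx => ⟨hx.1, cp_mem hx.1, hx.2⟩
    · push Not at hnc
      refine Set.finite_empty.subset fun x hx => ?_
      exact absurd hx.2.2.2.1 (MainC_const h (hi.ne (by decide)) (hnc 0) (hnc 1) hx.1)
  · by_cases hnc : ∃ a, ∀ c : ℂ, ∃ x ∈ W, x (i a) ≠ c
    · have hC := gp_image h hi hnc
      have hS : {y ∈ cp i W | IsCMVal (y 0) ∧ IsCMVal (y 1)}.Finite := by
        by_cases hk : KClosed (cp i W)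
        · exact (gp_k hC hk (MainC_hyp hi H)).2.2.2 id Function.injective_id
        · exact gp_n4 hC hk
      exact cp_fin h.irr h.dim hnc hS fun x hx => ⟨hx.1, cp_mem hx.1, hx.2⟩
    · push Not at hnc
      refine Set.finite_empty.subset fun x hx => ?_
      obtain ⟨c, hc⟩ := hnc 0
      obtain ⟨y, hy, hyn⟩ := h.ncm (i 0) (x (i 0)) hx.2.1
      exact absurd (by rw [hc y hy, hc x hx.1]) hyn

/-- **from `ℚbar` to `ℂ`** -/
theorem main_C (hW : Pool.Agent.Hhelper14.ZPL.IsIrredClosed W) (hdim : Pool.Agent.Hhelper14.ZPL.dim W = 1)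
    (H : ∀ (m : ℕ) (i : Fin m → Fin n), Function.Injective i → ZV.Crv (cp i W) → T1 (cp i W) ∧ T2 (cp i W)) :
    FinAtypical W := by
  by_cases hmod : ∀ a b : Fin n, a ≠ b → NoRel W a b
  · by_cases hcm : ∀ (a : Fin n) (c : ℂ), IsCMVal c → ∃ x ∈ W, x a ≠ c
    · have hG : GP W := ⟨hW, hdim, hmod, hcm⟩
      obtain ⟨h1, h2, h3, h4⟩ := gp_types hG H
      exact crit hW hdim (atyp_finite h1 h2 h3 h4)
    · push Not at hcm
      obtain ⟨k, c, ⟨τ, hτ, hck⟩, hc⟩ := hcm
      refine ZG.fin_of_sub (special_const k hτ) ?_ fun x hx => ?_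
      · intro hu
        have h3 : (fun _ => jInv τ + 1) ∈ {x : Fin n → ℂ | x k = jInv τ} := by
          rw [hu]
          exact Set.mem_univ _
        have h4 : jInv τ + 1 = jInv τ := h3
        simp at h4
      · show x k = jInv τ
        rw [hc x hx, hck]
  · push Not at hmod
    obtain ⟨a, b, hab, hn⟩ := hmod
    unfold NoRel at hn
    push Not at hn
    obtain ⟨g, hg, hx⟩ := hn
    exact ZG.fin_of_mod hab g hg hx

end Pool.Agent.LGO.FC
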