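import Mathlib
import Pool.Agent.LGO.ZG.CDefs
import Pool.Agent.LGO.ZG.Cur
import Pool.Agent.LGO.FC.DimA

/-!
# LGO/FC: rational curves over `ℂ`

`ratC_irr`: `ratCurve A B` is irreducible and closed: its vanishing ideal is the kernel of `ℂ[X] → ℂ(t)`, `X_i ↦ A_i / B_i`: a polynomial `p` with
`p (A_i / B_i) ≠ 0` in `ℂ(t)` does not vanish at all but finitely many `t` (model: `curve_irred`, `ZF/CurA.lean`, for `Qb`).
`ratC_dim`: dimension `1` if a coordinate is not constant.  (Two elements of `ℂ(t)` are algebraically dependent.  Noether normalisation of the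
coordinate ring as in `dim_image`, which embeds into `ℂ(t)`: `s ≤ 1`; model `rat_dim` in `ZG/Cur.lean`, `curve_dim` in `ZF/CurB.lean`; `≥ 1`: `one_le_dim`.)
`ratC_cp`: the projection of a rational curve.  Both sides are closures of the sets of the points `(A_(i a) (t) / B_(i a) (t))_a` for all `t` outside of
finite sets; a polynomial which vanishes at infinitely many of these points vanishes at all of them (as `KC.proj_curve`).
`ratC_point`: all coordinates constant.
-/

namespace Pool.Agent.LGO.FC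

open Polynomial Pool.Agent.Hhelper14.ZPL Pool.Agent.LGO.ZG

variable {n m : ℕ} {A B : Fin n → ℂ[X]}

private theorem RatD_sub (A B : Fin n → ℂ[X]) : ratPoints A B ⊆ ratCurve A B := subset_closure' _

private theorem RatD_poles (hB : ∀ i, B i ≠ 0) : {t : ℂ | ∃ i, (B i).eval t = 0}.Finite := by
  have h : {t : ℂ | ∃ i, (B i).eval t = 0} ⊆ ⋃ i, ((B i).rootSet ℂ : Set ℂ) := by
    rintro t ⟨i, hi⟩
    refine Set.mem_iUnion.2 ⟨i, mem_rootSet.2 ⟨hB i, ?_⟩⟩
    rw [coe_aeval_eq_eval]
    exact hi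
  exact (Set.finite_iUnion fun i => Polynomial.rootSet_finite (B i) ℂ).subset h

private theorem RatD_inf (hB : ∀ i, B i ≠ 0) : {t : ℂ | ∃ i, (B i).eval t = 0}ᶜ.Infinite :=
  (RatD_poles hB).infinite_compl

private theorem RatD_poly (p : MvPolynomial (Fin n) ℂ) : ∃ (N : ℕ) (P : Polynomial ℂ), ∀ t : ℂ,
    (∀ i, (B i).eval t ≠ 0) →
    MvPolynomial.eval (fun i => (A i).eval t / (B i).eval t) p *
      (∏ i, (B i).eval t) ^ N = P.eval t := by
  classical
  have hQ : ∀ t : ℂ, (∏ i, B i).eval t = ∏ i, (B i).eval t := fun t => eval_prod _ _ _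
  induction p using MvPolynomial.induction_on with
  | C a =>
    refine ⟨0, C a, fun t _ => ?_⟩
    simp
  | add p q hp hq =>
    obtain ⟨N, P, hP⟩ := hp
    obtain ⟨M, Q, hQ'⟩ := hq
    refine ⟨N + M, P * (∏ i, B i) ^ M + Q * (∏ i, B i) ^ N, fun t ht => ?_⟩
    rw [map_add, eval_add, eval_mul, eval_mul, eval_pow, eval_pow, hQ, ← hP t ht, ← hQ' t ht]
    ring
  | mul_X p j hp =>
    obtain ⟨N, P, hP⟩ := hp
    refine ⟨N + 1, P * A j * ∏ i ∈ Finset.univ.erase j, B i, fun t ht => ?_⟩
    rw [map_mul, MvPolynomial.eval_X, eval_mul, eval_mul, ← hP t ht, eval_prod]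
    have h2 : ∏ i, (B i).eval t = (B j).eval t * ∏ i ∈ Finset.univ.erase j, (B i).eval t :=
      (Finset.mul_prod_erase _ _ (Finset.mem_univ j)).symm
    have h3 := ht j
    have h4 : (A j).eval t / (B j).eval t * (B j).eval t = (A j).eval t := div_mul_cancel₀ _ h3
    calc MvPolynomial.eval (fun i => (A i).eval t / (B i).eval t) p * ((A j).eval t / (B j).eval t) *
          (∏ i, (B i).eval t) ^ (N + 1)
        = MvPolynomial.eval (fun i => (A i).eval t / (B i).eval t) p * (∏ i, (B i).eval t) ^ N *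
          ((A j).eval t / (B j).eval t * (∏ i, (B i).eval t)) := by ring
      _ = MvPolynomial.eval (fun i => (A i).eval t / (B i).eval t) p * (∏ i, (B i).eval t) ^ N *
          (((A j).eval t / (B j).eval t * (B j).eval t) *
            ∏ i ∈ Finset.univ.erase j, (B i).eval t) := by
          congr 1
          rw [h2]
          ring
      _ = _ := by rw [h4]; ring

private theorem RatD_zero_or (p : MvPolynomial (Fin n) ℂ) :
    {t : ℂ | (∀ i, (B i).eval t ≠ 0) ∧
      MvPolynomial.eval (fun i => (A i).eval t / (B i).eval t) p = 0}.Finite ∨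
    ∀ x ∈ ratPoints A B, MvPolynomial.eval x p = 0 := by
  obtain ⟨N, P, hP⟩ := RatD_poly (A := A) (B := B) p
  by_cases h0 : P = 0
  · right
    rintro x ⟨t, ht⟩
    have hx : x = fun i => (A i).eval t / (B i).eval t := funext fun i => (ht i).2
    have h1 := hP t fun i => (ht i).1
    rw [h0, eval_zero] at h1
    rw [hx]
    refine (mul_eq_zero.1 h1).resolve_right (pow_ne_zero _ ?_)
    exact Finset.prod_ne_zero_iff.2 fun i _ => (ht i).1
  · left
    refine (Polynomial.rootSet_finite P ℂ).subset ?_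
    rintro t ⟨ht, h2⟩
    refine mem_rootSet.2 ⟨h0, ?_⟩
    have h1 := hP t ht
    rw [h2, zero_mul] at h1
    rw [coe_aeval_eq_eval]
    exact h1.symm

theorem ratC_irr (hB : ∀ i, B i ≠ 0) : Pool.Agent.Hhelper14.ZPL.IsIrredClosed (ratCurve A B) := by
  refine irredClosed_closure ⟨?_, ?_⟩
  · intro h
    obtain ⟨t, ht⟩ := (RatD_inf hB).nonempty
    have ht' : ∀ i, (B i).eval t ≠ 0 := fun i hi => ht ⟨i, hi⟩
    rw [Ideal.eq_top_iff_one, MvPolynomial.mem_vanishingIdeal_iff] at h
    have := h (fun i => (A i).eval t / (B i).eval t) ⟨t, fun i => ⟨ht' i, rfl⟩⟩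
    simp at this
  · intro p q hpq
    rw [MvPolynomial.mem_vanishingIdeal_iff] at hpq
    by_contra hc
    push Not at hc
    have hp : {t : ℂ | (∀ i, (B i).eval t ≠ 0) ∧
        MvPolynomial.eval (fun i => (A i).eval t / (B i).eval t) p = 0}.Finite := by
      refine (RatD_zero_or p).resolve_right fun h => hc.1 ?_
      rw [MvPolynomial.mem_vanishingIdeal_iff]
      intro x hx
      rw [MvPolynomial.aeval_eq_eval]
      exact h x hx
    have hq : {t : ℂ | (∀ i, (B i).eval t ≠ 0) ∧
        MvPolynomial.eval (fun i => (A i).eval t / (B i).eval t) q = 0}.Finite := by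
      refine (RatD_zero_or q).resolve_right fun h => hc.2 ?_
      rw [MvPolynomial.mem_vanishingIdeal_iff]
      intro x hx
      rw [MvPolynomial.aeval_eq_eval]
      exact h x hx
    have hu := ((hp.union hq).union (RatD_poles hB))
    refine Set.infinite_univ (hu.subset ?_)
    intro t _
    by_cases ht : ∃ i, (B i).eval t = 0
    · exact Or.inr ht
    · left
      have ht' : ∀ i, (B i).eval t ≠ 0 := fun i hi => ht ⟨i, hi⟩
      have h1 := hpq (fun i => (A i).eval t / (B i).eval t) ⟨t, fun i => ⟨ht' i, rfl⟩⟩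
      rw [MvPolynomial.aeval_eq_eval, map_mul] at h1
      rcases mul_eq_zero.1 h1 with h2 | h2
      · exact Or.inl ⟨ht', h2⟩
      · exact Or.inr ⟨ht', h2⟩

/-- two coordinates are algebraically dependent -/
private lemma RatD_dep (A B : Fin n → ℂ[X]) (a b : Fin n) :
    ∃ (N : ℕ) (c : Fin (N + 1) × Fin (N + 1) → ℂ), c ≠ 0 ∧
      ∀ t : ℂ, (∀ i, (B i).eval t ≠ 0) →
        ∑ kl, c kl * (((A a).eval t / (B a).eval t) ^ (kl.1 : ℕ) *
          ((A b).eval t / (B b).eval t) ^ (kl.2 : ℕ)) = 0 := by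
  obtain ⟨D, hD0, h1, h2, h3, h4⟩ : ∃ D : ℕ, 0 < D ∧ (A a).natDegree ≤ D ∧ (B a).natDegree ≤ D ∧
      (A b).natDegree ≤ D ∧ (B b).natDegree ≤ D :=
    ⟨(A a).natDegree + (B a).natDegree + (A b).natDegree + (B b).natDegree + 1, by omega,
      by omega, by omega, by omega, by omega⟩
  let N := 2 * D
  let M := 2 * N * D + 1
  let P : Fin (N + 1) × Fin (N + 1) → ℂ[X] := fun kl =>
    A a ^ (kl.1 : ℕ) * B a ^ (N - kl.1) * (A b ^ (kl.2 : ℕ) * B b ^ (N - kl.2))
  have hpair : ∀ (p q : ℂ[X]) (k : Fin (N + 1)), p.natDegree ≤ D → q.natDegree ≤ D →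
      (p ^ (k : ℕ) * q ^ (N - k)).natDegree ≤ N * D := by
    intro p q k hp hq
    have hk : (k : ℕ) ≤ N := Nat.lt_succ_iff.mp k.2
    calc (p ^ (k : ℕ) * q ^ (N - k)).natDegree
        ≤ (p ^ (k : ℕ)).natDegree + (q ^ (N - k)).natDegree := natDegree_mul_le
      _ ≤ k * D + (N - k) * D := by
          apply Nat.add_le_add
          · exact (natDegree_pow_le).trans (Nat.mul_le_mul_left _ hp)
          · exact (natDegree_pow_le).trans (Nat.mul_le_mul_left _ hq)
      _ = N * D := by rw [← Nat.add_mul, Nat.add_sub_cancel' hk]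
  have hP : ∀ kl, P kl ∈ degreeLT ℂ M := by
    intro kl
    rw [mem_degreeLT]
    have hle : (P kl).natDegree ≤ 2 * N * D := by
      calc (P kl).natDegree ≤ N * D + N * D :=
            (natDegree_mul_le).trans (Nat.add_le_add (hpair _ _ _ h1 h2) (hpair _ _ _ h3 h4))
        _ = 2 * N * D := by ring
    refine lt_of_le_of_lt degree_le_natDegree ?_
    have : (P kl).natDegree < M := by
      simp only [M]
      omega
    exact_mod_cast this
  let f : (Fin (N + 1) × Fin (N + 1) → ℂ) →ₗ[ℂ] degreeLT ℂ M :=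
    Fintype.linearCombination ℂ (fun kl => (⟨P kl, hP kl⟩ : degreeLT ℂ M))
  have hfin : Module.finrank ℂ (degreeLT ℂ M) <
      Module.finrank ℂ (Fin (N + 1) × Fin (N + 1) → ℂ) := by
    rw [Module.finrank_fintype_fun_eq_card, (degreeLTEquiv ℂ M).finrank_eq, Module.finrank_fin_fun,
      Fintype.card_prod, Fintype.card_fin]
    simp only [M, N]
    nlinarith
  have hfd : Module.Finite ℂ (degreeLT ℂ M) :=
    Module.Finite.equiv (degreeLTEquiv ℂ M).symm
  have hker := LinearMap.ker_ne_bot_of_finrank_lt (f := f) hfin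
  obtain ⟨c, hc, hc0⟩ := Submodule.exists_mem_ne_zero_of_ne_bot hker
  refine ⟨N, c, hc0, fun t ht => ?_⟩
  have hsum : ∑ kl, c kl • P kl = 0 := by
    have h5 : f c = 0 := hc
    have h6 := congrArg (Subtype.val) h5
    simpa [f, Fintype.linearCombination_apply] using h6
  have hev := congrArg (fun q : ℂ[X] => q.eval t) hsum
  simp only [eval_finsetSum, eval_zero] at hev
  have hBa := ht a
  have hBb := ht b
  have key : ∀ kl : Fin (N + 1) × Fin (N + 1),
      c kl * (((A a).eval t / (B a).eval t) ^ (kl.1 : ℕ) *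
          ((A b).eval t / (B b).eval t) ^ (kl.2 : ℕ)) =
        (c kl • P kl).eval t * (((B a).eval t) ^ N * ((B b).eval t) ^ N)⁻¹ := by
    intro kl
    have hk : (kl.1 : ℕ) ≤ N := Nat.lt_succ_iff.mp kl.1.2
    have hl : (kl.2 : ℕ) ≤ N := Nat.lt_succ_iff.mp kl.2.2
    have e1 : ((B a).eval t) ^ N = ((B a).eval t) ^ (kl.1 : ℕ) *
        ((B a).eval t) ^ (N - kl.1) := by rw [← pow_add, Nat.add_sub_cancel' hk]
    have e2 : ((B b).eval t) ^ N = ((B b).eval t) ^ (kl.2 : ℕ) *
        ((B b).eval t) ^ (N - kl.2) := by rw [← pow_add, Nat.add_sub_cancel' hl]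
    rw [e1, e2, eval_smul]
    simp only [P, eval_mul, eval_pow, smul_eq_mul]
    rw [div_pow, div_pow]
    field_simp
  rw [Finset.sum_congr rfl fun kl _ => key kl, ← Finset.sum_mul, hev, zero_mul]

theorem ratC_dim (hB : ∀ i, B i ≠ 0) (hnc : ∃ i, ∀ c : ℂ, ∃ x ∈ ratCurve A B, x i ≠ c) :
    Pool.Agent.Hhelper14.ZPL.dim (ratCurve A B) = 1 := by
  have hirr := ratC_irr (A := A) hB
  obtain ⟨i₀, hnc⟩ := hnc
  obtain ⟨x, hx, -⟩ := hnc 0
  obtain ⟨y, hy, hyx⟩ := hnc (x i₀)
  have hge : 1 ≤ Pool.Agent.Hhelper14.ZPL.dim (ratCurve A B) :=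
    one_le_dim hirr hx hy (fun e => hyx (by rw [e]))
  refine le_antisymm ?_ hge
  have hp := hirr.1
  obtain ⟨I, hI⟩ := Pool.Agent.Hhelper14.ZP.exists_basis (MvPolynomial.vanishingIdeal ℂ (ratCurve A B))
  have hcard : I.card ≤ 1 := by
    rw [Finset.card_le_one]
    intro a ha b hb
    by_contra hab
    obtain ⟨N, c, hc, hrel⟩ := RatD_dep A B a b
    -- the relation as a polynomial in two variables
    let mon : Fin (N + 1) × Fin (N + 1) → (Fin 2 →₀ ℕ) := fun kl =>
      Finsupp.single 0 (kl.1 : ℕ) + Finsupp.single 1 (kl.2 : ℕ)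
    have hmon : Function.Injective mon := by
      intro u v huv
      have h0 := DFunLike.congr_fun huv 0
      have h1 := DFunLike.congr_fun huv 1
      simp [mon] at h0 h1
      exact Prod.ext (Fin.ext h0) (Fin.ext h1)
    let q : MvPolynomial (Fin 2) ℂ := ∑ kl, MvPolynomial.monomial (mon kl) (c kl)
    have hevq : ∀ {R : Type} [CommRing R] [Algebra ℂ R] (z : Fin 2 → R),
        MvPolynomial.aeval z q = ∑ kl, algebraMap ℂ R (c kl) *
          (z 0 ^ (kl.1 : ℕ) * z 1 ^ (kl.2 : ℕ)) := by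
      intro R _ _ z
      simp only [q, map_sum]
      refine Finset.sum_congr rfl fun kl _ => ?_
      rw [MvPolynomial.aeval_monomial]
      congr 1
      simp only [mon]
      rw [Finsupp.prod_add_index' (fun _ => pow_zero _) (fun _ _ _ => pow_add _ _ _)]
      have e1 : (Finsupp.single (0 : Fin 2) (kl.1 : ℕ)).prod (fun i e => z i ^ e) =
          z 0 ^ (kl.1 : ℕ) := Finsupp.prod_single_index (pow_zero _)
      have e2 : (Finsupp.single (1 : Fin 2) (kl.2 : ℕ)).prod (fun i e => z i ^ e) =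
          z 1 ^ (kl.2 : ℕ) := Finsupp.prod_single_index (pow_zero _)
      exact congrArg₂ (· * ·) e1 e2
    let g : Fin 2 → I := ![⟨a, ha⟩, ⟨b, hb⟩]
    have hg : Function.Injective g := by
      intro i j hij
      fin_cases i <;> fin_cases j
      · rfl
      · exact absurd (congrArg Subtype.val hij) hab
      · exact absurd (congrArg Subtype.val hij).symm hab
      · rfl
    have hind := hI.1.comp g hg
    have hq0 : q = 0 := by
      apply (algebraicIndependent_iff.mp hind) q
      rw [hevq]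
      -- the polynomial in `n` variables
      let p : MvPolynomial (Fin n) ℂ := ∑ kl, MvPolynomial.C (c kl) *
        (MvPolynomial.X a ^ (kl.1 : ℕ) * MvPolynomial.X b ^ (kl.2 : ℕ))
      have hp0 : p ∈ MvPolynomial.vanishingIdeal ℂ (ratPoints A B) := by
        rw [MvPolynomial.mem_vanishingIdeal_iff]
        rintro z ⟨t, ht⟩
        have h5 := hrel t (fun i => (ht i).1)
        simp only [p, map_sum, map_mul, map_pow, MvPolynomial.aeval_X, MvPolynomial.aeval_C]
        rw [(ht a).2, (ht b).2]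
        exact h5
      have hp1 : p ∈ MvPolynomial.vanishingIdeal ℂ (ratCurve A B) := by
        rw [MvPolynomial.mem_vanishingIdeal_iff]
        intro z hz
        exact (MvPolynomial.mem_zeroLocus_iff.mp hz) p hp0
      have h6 := Ideal.Quotient.eq_zero_iff_mem.mpr hp1
      rw [← h6]
      simp only [p, map_sum, map_mul, map_pow]
      rfl
    apply hc
    funext kl
    have h7 := congrArg (MvPolynomial.coeff (mon kl)) hq0
    simp only [q, MvPolynomial.coeff_sum, MvPolynomial.coeff_monomial, MvPolynomial.coeff_zero] at h7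
    rw [Finset.sum_eq_single kl (fun v _ hv => if_neg fun e => hv (hmon e))
      (fun hkl => absurd (Finset.mem_univ _) hkl), if_pos rfl] at h7
    exact h7
  have hk := Pool.Agent.Hhelper14.ZP.krull_eq_card hI
  change ringKrullDim (MvPolynomial (Fin n) ℂ ⧸ MvPolynomial.vanishingIdeal ℂ (ratCurve A B)) ≤ 1
  rw [hk, Nat.card_eq_fintype_card, Fintype.card_coe]
  exact_mod_cast hcard

private theorem RatD_cp1 (A B : Fin n → ℂ[X]) (i : Fin m → Fin n) {x : Fin n → ℂ} (hx : x ∈ ratCurve A B) :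
    (fun a => x (i a)) ∈ ratCurve (fun a => A (i a)) (fun a => B (i a)) := by
  show (fun a => x (i a)) ∈ MvPolynomial.zeroLocus ℂ (MvPolynomial.vanishingIdeal ℂ
    (ratPoints (fun a => A (i a)) (fun a => B (i a))))
  rw [MvPolynomial.mem_zeroLocus_iff]
  intro p hp
  have h1 : MvPolynomial.rename i p ∈ (MvPolynomial.vanishingIdeal ℂ (ratPoints A B) :
      Ideal (MvPolynomial (Fin n) ℂ)) := by
    rw [MvPolynomial.mem_vanishingIdeal_iff]
    rintro z ⟨t, ht⟩
    rw [MvPolynomial.aeval_rename]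
    exact (MvPolynomial.mem_vanishingIdeal_iff.1 hp) _ ⟨t, fun a => ht (i a)⟩
  have h2 := (MvPolynomial.mem_zeroLocus_iff.1 hx) _ h1
  rw [MvPolynomial.aeval_rename] at h2
  exact h2

theorem ratC_cp (hB : ∀ i, B i ≠ 0) (i : Fin m → Fin n) :
    cp i (ratCurve A B) = ratCurve (fun a => A (i a)) (fun a => B (i a)) := by
  refine Set.Subset.antisymm ?_ ?_
  · refine closure_subset' ?_ (closed_zeroLocus _)
    rintro y ⟨x, hx, rfl⟩
    exact RatD_cp1 A B i hx
  · refine closure_subset' ?_ (closed_zeroLocus _)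
    intro y hy
    show y ∈ MvPolynomial.zeroLocus ℂ (MvPolynomial.vanishingIdeal ℂ
      {y : Fin m → ℂ | ∃ x ∈ ratCurve A B, y = fun a => x (i a)})
    rw [MvPolynomial.mem_zeroLocus_iff]
    intro p hp
    rw [MvPolynomial.aeval_eq_eval]
    refine (RatD_zero_or (A := fun a => A (i a)) (B := fun a => B (i a)) p).resolve_left ?_ y hy
    intro hfin
    refine RatD_inf hB (hfin.subset ?_)
    intro t ht
    have ht' : ∀ j, (B j).eval t ≠ 0 := fun j hj => ht ⟨j, hj⟩
    refine ⟨fun a => ht' (i a), ?_⟩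
    have h1 := (MvPolynomial.mem_vanishingIdeal_iff.1 hp) _
      ⟨fun j => (A j).eval t / (B j).eval t, RatD_sub A B ⟨t, fun j => ⟨ht' j, rfl⟩⟩, rfl⟩
    rw [MvPolynomial.aeval_eq_eval] at h1
    exact h1

theorem ratC_point (hB : ∀ i, B i ≠ 0) (hc : ∀ i, ∃ c : ℂ, ∀ x ∈ ratCurve A B, x i = c) :
    ∃ c : Fin n → ℂ, ratCurve A B = {c} := by
  choose c hc using hc
  refine ⟨c, Set.Subset.antisymm ?_ ?_⟩
  · intro x hx
    exact Set.mem_singleton_iff.2 (funext fun i => hc i x hx)
  · obtain ⟨x, hx⟩ := irred_nonempty (ratC_irr (A := A) hB)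
    have h : x = c := funext fun i => hc i x hx
    rw [Set.singleton_subset_iff, ← h]
    exact hx

end Pool.Agent.LGO.FC
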