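import Mathlib
import Pool.Agent.LGO.ZF.CurA
import Pool.Agent.LGO.FC.RatD

/-!
# LGO/FC: descent of the parametrisation

`rat_desc`: a rational curve over `ℂ` which is defined over `ℚbar` has a parametrisation over `ℚbar`.

Proof.  `C = ratCurve A B`, `d` an upper bound for the degrees, `v ∈ ℂ ^ M` the vector of the coefficients of all `A i`, `B i`, `M = 2 m (d + 1)` (index type
`Fin m × Fin 2 × Fin (d + 1)` or `Fin m ⊕ ..`, any finite type), `Z = kcl {v}` (`ZPL/KClosed.lean`).  Let `F` be a polynomial over `Qb` which vanishes on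
`C`.  The polynomial `F (A_i(t) / B_i(t)) ∏ B_i(t) ^ (deg F)` in `t` is zero (it vanishes for all `t` with `B_i(t) ≠ 0`); its coefficients are polynomials over
`Qb` in `v`, so they vanish on `Z`.  So for `v' ∈ Z` with `B'_i ≠ 0` for all `i`: `F (A'_i(t) / B'_i(t)) = 0` for all `t` with `B'_i(t) ≠ 0`, that is
`ratCurve A' B' ⊆ C`, because `C` is the zero set of such `F` (`KClosed`).
Choose a polynomial `p` over `Qb` in the coefficients with `p (v) ≠ 0` such that `p (v') ≠ 0` implies: all `B'_i ≠ 0`, and if `A_j / B_j` is not constant,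
for one fixed `j` (if there is one), then `A'_j / B'_j` is not constant: `p = (a nonzero coefficient of B_1) ... (a nonzero coefficient of B_m) *
(a nonzero coefficient of A_j(t) B_j(u) - A_j(u) B_j(t))` (in terms of coefficients: `a_k b_l - a_l b_k ≠ 0` for some `k, l`).  `exists_Qb_point` gives
`v' ∈ Z` with coordinates in `Qb` and `p (v') ≠ 0`.  `curve A' B' ⊆ C`.  If `C` has dimension `1` (`ratC_dim`, a nonconstant coordinate `j`) then `curve A' B'` is
irreducible of dimension `≥ 1` (two different points, `one_le_dim`), so it is `C` (`eq_of_dim_le`).  If all coordinates of `C` are constant then `C` is a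
point (`ratC_point`), and `curve A' B'` is not empty.
(`curve A' B'` and `ratCurve` of the polynomials mapped to `ℂ` are equal, see the end of `KC.main_cpx`.)
-/

namespace Pool.Agent.LGO.FC

open Polynomial Pool.Agent.Hhelper14.ZPL Pool.Agent.LGO.ZG Pool.Agent.LGO.ZF

/-- the polynomial with the given coefficients -/
private noncomputable def ratE_pol {R : Type} [CommRing R] {d : ℕ} (u : Fin (d + 1) → R) : R[X] :=
  ∑ k : Fin (d + 1), C (u k) * X ^ (k : ℕ)

private theorem ratE_coeff {R : Type} [CommRing R] {d : ℕ} (u : Fin (d + 1) → R) (k : Fin (d + 1)) :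
    (ratE_pol u).coeff k = u k := by
  classical
  rw [ratE_pol, finsetSum_coeff]
  rw [Finset.sum_eq_single k]
  · simp
  · intro l _ hl
    rw [coeff_C_mul, coeff_X_pow, if_neg, mul_zero]
    exact fun h => hl (Fin.ext h.symm)
  · intro h
    exact absurd (Finset.mem_univ k) h

private theorem ratE_map {R S : Type} [CommRing R] [CommRing S] (f : R →+* S) {d : ℕ} (u : Fin (d + 1) → R) :
    (ratE_pol u).map f = ratE_pol (fun k => f (u k)) := by
  rw [ratE_pol, ratE_pol, Polynomial.map_sum]
  refine Finset.sum_congr rfl fun k _ => ?_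
  rw [Polynomial.map_mul, Polynomial.map_pow, map_C, map_X]

private theorem ratE_self {R : Type} [CommRing R] {d : ℕ} (P : R[X]) (h : P.natDegree ≤ d) :
    ratE_pol (d := d) (fun k => P.coeff k) = P := by
  rw [ratE_pol, Fin.sum_univ_eq_sum_range (fun k => C (P.coeff k) * X ^ k) (d + 1)]
  exact (P.as_sum_range_C_mul_X_pow' (by omega)).symm

/-- the index type of the coefficients -/
private abbrev ratE_K (m d : ℕ) : Type := Bool × Fin m × Fin (d + 1)

/-- the numerators and the denominators -/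
private noncomputable def ratE_P {R : Type} [CommRing R] {m d : ℕ} (w : ratE_K m d → R) (e : Bool) (i : Fin m) : R[X] :=
  ratE_pol (fun k => w (e, i, k))

/-- the homomorphism given by a vector of coefficients -/
private noncomputable def ratE_hom {m d : ℕ} (w : ratE_K m d → ℂ) : MvPolynomial (ratE_K m d) Qb →+* ℂ :=
  (MvPolynomial.aeval w : MvPolynomial (ratE_K m d) Qb →ₐ[Qb] ℂ).toRingHom

private theorem ratE_gen {m d : ℕ} (w : ratE_K m d → ℂ) (e : Bool) (i : Fin m) :
    (ratE_P (fun k : ratE_K m d => (MvPolynomial.X k : MvPolynomial (ratE_K m d) Qb)) e i).map (ratE_hom w) =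
      ratE_P w e i := by
  rw [ratE_P, ratE_map, ratE_P]
  congr 1
  funext k
  show (MvPolynomial.aeval w : MvPolynomial (ratE_K m d) Qb →ₐ[Qb] ℂ) (MvPolynomial.X _) = _
  rw [MvPolynomial.aeval_X]

private theorem ratE_poly {m d : ℕ} (F : MvPolynomial (Fin m) Qb) :
    ∃ (N : ℕ) (P : Polynomial (MvPolynomial (ratE_K m d) Qb)), ∀ (w : ratE_K m d → ℂ) (t : ℂ),
    (∀ i, (ratE_P w true i).eval t ≠ 0) →
    (MvPolynomial.aeval (fun i => (ratE_P w false i).eval t / (ratE_P w true i).eval t) F : ℂ) *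
      (∏ i, (ratE_P w true i).eval t) ^ N = (P.map (ratE_hom w)).eval t := by
  classical
  set G : Bool → Fin m → Polynomial (MvPolynomial (ratE_K m d) Qb) :=
    ratE_P (fun k : ratE_K m d => (MvPolynomial.X k : MvPolynomial (ratE_K m d) Qb)) with hG
  have hQ : ∀ (w : ratE_K m d → ℂ) (t : ℂ), ((∏ i, G true i).map (ratE_hom w)).eval t =
      ∏ i, (ratE_P w true i).eval t := by
    intro w t
    rw [Polynomial.map_prod, eval_prod]
    refine Finset.prod_congr rfl fun i _ => ?_
    rw [ratE_gen]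
  induction F using MvPolynomial.induction_on with
  | C a =>
    refine ⟨0, C (MvPolynomial.C a), fun w t _ => ?_⟩
    rw [map_C, eval_C, pow_zero, mul_one, MvPolynomial.aeval_C]
    show _ = (MvPolynomial.aeval w : MvPolynomial (ratE_K m d) Qb →ₐ[Qb] ℂ) (MvPolynomial.C a)
    rw [MvPolynomial.aeval_C]
  | add p q hp hq =>
    obtain ⟨N, P, hP⟩ := hp
    obtain ⟨M, Q, hQ'⟩ := hq
    refine ⟨N + M, P * (∏ i, G true i) ^ M + Q * (∏ i, G true i) ^ N, fun w t ht => ?_⟩
    rw [map_add, Polynomial.map_add, Polynomial.map_mul, Polynomial.map_mul, Polynomial.map_pow, Polynomial.map_pow,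
      eval_add, eval_mul, eval_mul, eval_pow, eval_pow, hQ, ← hP w t ht, ← hQ' w t ht]
    ring
  | mul_X p j hp =>
    obtain ⟨N, P, hP⟩ := hp
    refine ⟨N + 1, P * G false j * ∏ i ∈ Finset.univ.erase j, G true i, fun w t ht => ?_⟩
    rw [map_mul, MvPolynomial.aeval_X, Polynomial.map_mul, Polynomial.map_mul, eval_mul, eval_mul, ratE_gen,
      ← hP w t ht, Polynomial.map_prod, eval_prod]
    have h1 : ∏ i ∈ Finset.univ.erase j, ((G true i).map (ratE_hom w)).eval t =
        ∏ i ∈ Finset.univ.erase j, (ratE_P w true i).eval t :=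
      Finset.prod_congr rfl fun i _ => by rw [ratE_gen]
    rw [h1]
    have h2 : ∏ i, (ratE_P w true i).eval t = (ratE_P w true j).eval t *
        ∏ i ∈ Finset.univ.erase j, (ratE_P w true i).eval t :=
      (Finset.mul_prod_erase _ _ (Finset.mem_univ j)).symm
    have h4 : ((ratE_P w false j).eval t / (ratE_P w true j).eval t : ℂ) * (ratE_P w true j).eval t =
      (ratE_P w false j).eval t := div_mul_cancel₀ _ (ht j)
    generalize (MvPolynomial.aeval (fun i => (ratE_P w false i).eval t / (ratE_P w true i).eval t) p : ℂ) = u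
    calc u * ((ratE_P w false j).eval t / (ratE_P w true j).eval t) * (∏ i, (ratE_P w true i).eval t) ^ (N + 1)
        = u * (∏ i, (ratE_P w true i).eval t) ^ N *
          (((ratE_P w false j).eval t / (ratE_P w true j).eval t) * (∏ i, (ratE_P w true i).eval t)) := by ring
      _ = u * (∏ i, (ratE_P w true i).eval t) ^ N *
          ((((ratE_P w false j).eval t / (ratE_P w true j).eval t) * (ratE_P w true j).eval t) *
            ∏ i ∈ Finset.univ.erase j, (ratE_P w true i).eval t) := by
          congr 1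
          rw [h2]
          ring
      _ = _ := by rw [h4]; ring

/-- nonzero polynomials have finitely many common roots -/
private theorem ratE_fin {m : ℕ} {B : Fin m → ℂ[X]} (hB : ∀ i, B i ≠ 0) :
    {t : ℂ | ∃ i, (B i).eval t = 0}.Finite := by
  have h : {t : ℂ | ∃ i, (B i).eval t = 0} ⊆ ⋃ i, ((B i).rootSet ℂ : Set ℂ) := by
    rintro t ⟨i, hi⟩
    exact Set.mem_iUnion.2 ⟨i, mem_rootSet.2 ⟨hB i, by rwa [coe_aeval_eq_eval]⟩⟩
  exact (Set.finite_iUnion fun i => Polynomial.rootSet_finite (B i) ℂ).subset h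

/-- a polynomial which vanishes off the poles is zero -/
private theorem ratE_zero {m : ℕ} {B : Fin m → ℂ[X]} (hB : ∀ i, B i ≠ 0) {P : ℂ[X]}
    (h : ∀ t, (∀ i, (B i).eval t ≠ 0) → P.eval t = 0) : P = 0 := by
  by_contra hne
  refine Set.infinite_univ (((ratE_fin hB).union (Polynomial.rootSet_finite P ℂ)).subset ?_)
  intro t _
  by_cases ht : ∃ i, (B i).eval t = 0
  · exact Or.inl ht
  · push Not at ht
    exact Or.inr (mem_rootSet.2 ⟨hne, by rw [coe_aeval_eq_eval]; exact h t ht⟩)

private theorem ratE_sub {m d : ℕ} {v : ratE_K m d → ℂ} (hB : ∀ i, ratE_P v true i ≠ 0)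
    (hK : KClosed (ratCurve (ratE_P v false) (ratE_P v true))) {z : ratE_K m d → ℂ} (hz : z ∈ kcl {v}) :
    ratPoints (ratE_P z false) (ratE_P z true) ⊆ ratCurve (ratE_P v false) (ratE_P v true) := by
  rintro x ⟨t, ht⟩
  have hx : x = fun i => (ratE_P z false i).eval t / (ratE_P z true i).eval t := funext fun i => (ht i).2
  refine kclosed_iff.mp hK x fun F hF => ?_
  obtain ⟨N, P, hP⟩ := ratE_poly (m := m) (d := d) F
  have h0 : P.map (ratE_hom v) = 0 := by
    refine ratE_zero hB fun s hs => ?_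
    rw [← hP v s hs]
    have h1 := (MvPolynomial.mem_vanishingIdeal_iff.mp hF)
      (fun i => (ratE_P v false i).eval s / (ratE_P v true i).eval s)
      (subset_closure' _ ⟨s, fun i => ⟨hs i, rfl⟩⟩)
    rw [h1, zero_mul]
  have h1 : P.map (ratE_hom z) = 0 := by
    ext k
    rw [coeff_map, coeff_zero]
    have h2 : P.coeff k ∈ (MvPolynomial.vanishingIdeal Qb {v} : Ideal (MvPolynomial (ratE_K m d) Qb)) := by
      rw [MvPolynomial.mem_vanishingIdeal_iff]
      intro y hy
      rw [Set.mem_singleton_iff] at hy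
      rw [hy]
      have h3 : (P.map (ratE_hom v)).coeff k = 0 := by rw [h0, coeff_zero]
      rw [coeff_map] at h3
      exact h3
    exact (MvPolynomial.mem_zeroLocus_iff.mp hz) _ h2
  have h2 := hP z t fun i => (ht i).1
  rw [h1, eval_zero] at h2
  rw [hx]
  exact (mul_eq_zero.1 h2).resolve_right (pow_ne_zero _ (Finset.prod_ne_zero_iff.2 fun i _ => (ht i).1))

private theorem ratE_img {m d : ℕ} (z : ratE_K m d → Qb) :
    img (ratE_P z false) (ratE_P z true) =
      ratPoints (ratE_P (fun k => (z k : ℂ)) false) (ratE_P (fun k => (z k : ℂ)) true) := by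
  have h : ∀ (e : Bool) (i : Fin m) (t : ℂ), (aeval t (ratE_P z e i) : ℂ) =
      (ratE_P (fun k => (z k : ℂ)) e i).eval t := by
    intro e i t
    have h1 : (ratE_P z e i).map (algebraMap Qb ℂ) = ratE_P (fun k => (z k : ℂ)) e i := by
      rw [ratE_P, ratE_map, ratE_P]
      rfl
    rw [← h1, eval_map_algebraMap]
  ext x
  constructor
  · rintro ⟨t, ht⟩
    refine ⟨t, fun i => ?_⟩
    have := ht i
    rw [h, h] at this
    exact this
  · rintro ⟨t, ht⟩
    refine ⟨t, fun i => ?_⟩
    rw [h, h]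
    exact ht i

private theorem ratE_main {m d : ℕ} {v : ratE_K m d → ℂ} (hB : ∀ i, ratE_P v true i ≠ 0)
    (hK : KClosed (ratCurve (ratE_P v false) (ratE_P v true))) :
    ∃ z : ratE_K m d → Qb, (∀ i, ratE_P z true i ≠ 0) ∧
      ratCurve (ratE_P v false) (ratE_P v true) = curve (ratE_P z false) (ratE_P z true) := by
  classical
  have hk : ∀ i, ∃ k : Fin (d + 1), v (true, i, k) ≠ 0 := by
    intro i
    by_contra hc
    push Not at hc
    apply hB i
    rw [ratE_P, ratE_pol]
    refine Finset.sum_eq_zero fun k _ => ?_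
    rw [hc k, C_0, zero_mul]
  choose k hk using hk
  set p₁ : MvPolynomial (ratE_K m d) Qb := ∏ i, MvPolynomial.X (true, i, k i) with hp₁
  have hp₁v : (MvPolynomial.aeval v p₁ : ℂ) ≠ 0 := by
    rw [hp₁, map_prod]
    refine Finset.prod_ne_zero_iff.2 fun i _ => ?_
    rw [MvPolynomial.aeval_X]
    exact hk i
  have hp₁z : ∀ z : ratE_K m d → Qb, (MvPolynomial.aeval z p₁ : Qb) ≠ 0 → ∀ i, ratE_P z true i ≠ 0 := by
    intro z hz i h0
    rw [hp₁, map_prod] at hz
    have h1 := Finset.prod_ne_zero_iff.1 hz i (Finset.mem_univ i)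
    rw [MvPolynomial.aeval_X] at h1
    apply h1
    have h2 : (ratE_P z true i).coeff (k i) = 0 := by rw [h0, coeff_zero]
    rw [ratE_P, ratE_coeff] at h2
    exact h2
  have hmem : v ∈ kcl ({v} : Set (ratE_K m d → ℂ)) := subset_kcl _ rfl
  have hnot : ∀ p : MvPolynomial (ratE_K m d) Qb, (MvPolynomial.aeval v p : ℂ) ≠ 0 →
      p ∉ (MvPolynomial.vanishingIdeal Qb (kcl {v}) : Ideal (MvPolynomial (ratE_K m d) Qb)) :=
    fun p hp h => hp ((MvPolynomial.mem_vanishingIdeal_iff.mp h) v hmem)
  have hsub : ∀ z : ratE_K m d → Qb, (fun i => (z i : ℂ)) ∈ kcl ({v} : Set (ratE_K m d → ℂ)) →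
      curve (ratE_P z false) (ratE_P z true) ⊆ ratCurve (ratE_P v false) (ratE_P v true) := by
    intro z hz
    refine closure_subset' ?_ hK.closed
    rw [ratE_img]
    exact ratE_sub hB hK hz
  by_cases hc : ∀ i, ∃ c : ℂ, ∀ x ∈ ratCurve (ratE_P v false) (ratE_P v true), x i = c
  · obtain ⟨c, hc⟩ := ratC_point hB hc
    obtain ⟨z, hz, hz1⟩ := exists_Qb_point (kcl_kclosed {v}) (hnot p₁ hp₁v)
    refine ⟨z, hp₁z z hz1, ?_⟩
    have h1 := hsub z hz
    obtain ⟨x, hx⟩ := irred_nonempty (curve_irred (A := ratE_P z false) (hp₁z z hz1))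
    rw [hc] at h1 ⊢
    refine Set.Subset.antisymm ?_ h1
    rintro _ rfl
    rw [← Set.mem_singleton_iff.1 (h1 hx)]
    exact hx
  · push Not at hc
    obtain ⟨j, hj⟩ := hc
    have hdim := ratC_dim hB ⟨j, hj⟩
    obtain ⟨a, b, hab⟩ : ∃ a b : Fin (d + 1),
        v (false, j, a) * v (true, j, b) - v (false, j, b) * v (true, j, a) ≠ 0 := by
      by_contra hcon
      push Not at hcon
      have h1 : ratE_P v false j = C (v (false, j, k j) / v (true, j, k j)) * ratE_P v true j := by
        rw [ratE_P, ratE_P, ratE_pol, ratE_pol, Finset.mul_sum]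
        refine Finset.sum_congr rfl fun a _ => ?_
        rw [← mul_assoc, ← C_mul]
        congr 2
        have h2 := hcon a (k j)
        have h3 := hk j
        field_simp
        linear_combination h2
      obtain ⟨x, hx, hxj⟩ := hj (v (false, j, k j) / v (true, j, k j))
      apply hxj
      have h2 := (MvPolynomial.mem_zeroLocus_iff.mp hx)
        (MvPolynomial.X j - MvPolynomial.C (v (false, j, k j) / v (true, j, k j))) (by
          rw [MvPolynomial.mem_vanishingIdeal_iff]
          rintro y ⟨t, ht⟩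
          rw [map_sub, MvPolynomial.aeval_X, MvPolynomial.aeval_C, (ht j).2, h1, eval_mul, eval_C,
            mul_div_cancel_right₀ _ (ht j).1]
          exact sub_self _)
      rw [map_sub, MvPolynomial.aeval_X, MvPolynomial.aeval_C] at h2
      exact sub_eq_zero.1 h2
    set p₂ : MvPolynomial (ratE_K m d) Qb := MvPolynomial.X (false, j, a) * MvPolynomial.X (true, j, b) -
      MvPolynomial.X (false, j, b) * MvPolynomial.X (true, j, a) with hp₂
    have hpv : (MvPolynomial.aeval v (p₁ * p₂) : ℂ) ≠ 0 := by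
      rw [map_mul]
      refine mul_ne_zero hp₁v ?_
      rw [hp₂, map_sub, map_mul, map_mul, MvPolynomial.aeval_X, MvPolynomial.aeval_X, MvPolynomial.aeval_X,
        MvPolynomial.aeval_X]
      exact hab
    obtain ⟨z, hz, hz1⟩ := exists_Qb_point (kcl_kclosed {v}) (hnot _ hpv)
    rw [map_mul] at hz1
    have hz2 := left_ne_zero_of_mul hz1
    have hz3 := right_ne_zero_of_mul hz1
    rw [hp₂, map_sub, map_mul, map_mul, MvPolynomial.aeval_X, MvPolynomial.aeval_X, MvPolynomial.aeval_X,
        MvPolynomial.aeval_X] at hz3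
    have hB' := hp₁z z hz2
    have hirr := curve_irred (A := ratE_P z false) hB'
    refine ⟨z, hB', (eq_of_dim_le hirr (ratC_irr hB) (hsub z hz) ?_).symm⟩
    rw [hdim]
    have hB'' : ∀ i, ratE_P (fun k => (z k : ℂ)) true i ≠ 0 := by
      intro i h0
      apply hB' i
      have h1 : (ratE_P z true i).map (algebraMap Qb ℂ) = ratE_P (fun k => (z k : ℂ)) true i := by
        rw [ratE_P, ratE_map, ratE_P]
        rfl
      rw [h0] at h1
      exact (Polynomial.map_eq_zero _).1 h1
    obtain ⟨t₀, ht₀⟩ := (ratE_fin hB'').infinite_compl.nonempty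
    have ht₀' : ∀ i, (ratE_P (fun k => (z k : ℂ)) true i).eval t₀ ≠ 0 := fun i hi => ht₀ ⟨i, hi⟩
    set c : ℂ := (ratE_P (fun k => (z k : ℂ)) false j).eval t₀ / (ratE_P (fun k => (z k : ℂ)) true j).eval t₀ with hcdef
    obtain ⟨t₁, ht₁, hne⟩ : ∃ t₁ : ℂ, (∀ i, (ratE_P (fun k => (z k : ℂ)) true i).eval t₁ ≠ 0) ∧
        (ratE_P (fun k => (z k : ℂ)) false j).eval t₁ / (ratE_P (fun k => (z k : ℂ)) true j).eval t₁ ≠ c := by
      by_contra hcon
      push Not at hcon
      have h1 : ratE_P (fun k => (z k : ℂ)) false j - C c * ratE_P (fun k => (z k : ℂ)) true j = 0 := by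
        refine ratE_zero hB'' fun t ht => ?_
        rw [eval_sub, eval_mul, eval_C, ← hcon t ht, div_mul_cancel₀ _ (ht j), sub_self]
      have h2 : ∀ l : Fin (d + 1), (z (false, j, l) : ℂ) = c * (z (true, j, l) : ℂ) := by
        intro l
        have h3 : (ratE_P (fun k => (z k : ℂ)) false j - C c * ratE_P (fun k => (z k : ℂ)) true j).coeff l = 0 := by
          rw [h1, coeff_zero]
        rw [coeff_sub, coeff_C_mul, ratE_P, ratE_P, ratE_coeff, ratE_coeff] at h3
        exact sub_eq_zero.1 h3
      apply hz3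
      apply Subtype.val_injective
      push_cast
      rw [h2 a, h2 b]
      ring
    have hmem' : ∀ t : ℂ, (∀ i, (ratE_P (fun k => (z k : ℂ)) true i).eval t ≠ 0) →
        (fun i => (ratE_P (fun k => (z k : ℂ)) false i).eval t / (ratE_P (fun k => (z k : ℂ)) true i).eval t) ∈
          curve (ratE_P z false) (ratE_P z true) := by
      intro t ht
      apply img_subset
      rw [ratE_img]
      exact ⟨t, fun i => ⟨ht i, rfl⟩⟩
    refine one_le_dim hirr (hmem' t₁ ht₁) (hmem' t₀ ht₀') fun h => hne ?_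
    exact congrFun h j

/-- descent of the parametrisation -/
theorem rat_desc {m : ℕ} {A B : Fin m → ℂ[X]} (hB : ∀ i, B i ≠ 0) (hK : KClosed (ratCurve A B)) :
    ∃ A' B' : Fin m → Polynomial Qb, (∀ i, B' i ≠ 0) ∧ ratCurve A B = curve A' B' := by
  classical
  obtain ⟨d, hd⟩ : ∃ d : ℕ, ∀ i, (A i).natDegree ≤ d ∧ (B i).natDegree ≤ d := by
    refine ⟨∑ i, ((A i).natDegree + (B i).natDegree), fun i => ?_⟩
    have h := Finset.single_le_sum (f := fun i => (A i).natDegree + (B i).natDegree)
      (fun i _ => Nat.zero_le _) (Finset.mem_univ i)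
    omega
  set v : ratE_K m d → ℂ := fun k => if k.1 = true then (B k.2.1).coeff k.2.2 else (A k.2.1).coeff k.2.2 with hv
  have hA' : ratE_P v false = A := by
    funext i
    rw [ratE_P]
    exact ratE_self (A i) (hd i).1
  have hB' : ratE_P v true = B := by
    funext i
    rw [ratE_P]
    exact ratE_self (B i) (hd i).2
  obtain ⟨z, hz1, hz2⟩ := ratE_main (v := v) (by rw [hB']; exact hB) (by rw [hA', hB']; exact hK)
  rw [hA', hB'] at hz2
  exact ⟨_, _, hz1, hz2⟩

end Pool.Agent.LGO.FC
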