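import Mathlib
import Pool.Agent.LGO.FC.MainC
import Pool.Agent.LGO.FC.RatE
import Pool.Agent.LGO.KC.Rat

/-!
# LGO/FC: all rational curves over `ℂ` (MP_d83ecd_ag)
-/

namespace Pool.Agent.LGO.FC

open Polynomial UpperHalfPlane Pool.Agent.Hhelper14.ZP Pool.Agent.Hhelper14.ZPL Pool.Agent.LGO
  Pool.Agent.LGO.ZF Pool.Agent.LGO.ZG Pool.Agent.LGO.ZV Pool.Agent.LGO.PWG Pool.Agent.ZPE

variable {n : ℕ} {A B : Fin n → ℂ[X]}

/-- **the Zilber-Pink statement for every rational curve over `ℂ`** -/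
theorem main_rcC (hB : ∀ i, B i ≠ 0) : FinAtypical (ratCurve A B) := by
  by_cases hc : ∀ i, ∃ c : ℂ, ∀ x ∈ ratCurve A B, x i = c
  · obtain ⟨c, hc⟩ := ratC_point hB hc
    exact KC.fin_point hc
  · push Not at hc
    refine main_C (ratC_irr hB) (ratC_dim hB hc) fun m i hi hcrv => ?_
    rw [ratC_cp hB] at hcrv ⊢
    obtain ⟨A', B', hB', hE⟩ := rat_desc (fun a => hB (i a)) hcrv.kcl
    choose A₁ B₁ h1 h2 h3 using fun j => KC.reduce (A' j) (B' j) (hB' j)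
    rw [KC.curve_congr hB' h1 h3] at hE
    rw [hE] at hcrv ⊢
    have hR : Rat0 A₁ B₁ := by
      refine ⟨h1, h2, fun a => ?_⟩
      by_contra h0
      obtain ⟨c', hc'⟩ := KC.const_of_deg (A := A₁) (B := B₁) (i := a) (by omega)
      obtain ⟨x, hx, hne⟩ := hcrv.nc a c'
      exact hne (hc' x hx)
    exact ⟨KC.rat_T1 hR hcrv.nomod, KC.rat_T2 hR hcrv.nomod⟩

end Pool.Agent.LGO.FC
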