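import Mathlib
import Pool.Agent.LGO.FC.MainC
import Pool.Agent.LGO.F3.Low5

/-!
# LGO/FC: special subvarieties of dimension `< n / 4` over `ℂ`

`gp_t34`: `T3 W`, `T4 W` for a curve in general position over `ℂ`.  As `gp_types` (`MainC`), but without the hypothesis `H`: for a projection `C` defined
over `ℚbar` take `σ` (`exists_sigma C`) and `KC.Gen C σ c` as in `gp_k`, and `Gen.t3`, `Gen.t4` with `T3_v`, `T4_v` (they need no hypothesis on `T1`, `T2`).

`gp_n5`: `C` in general position with at least three coordinates, not defined over `ℚbar`: the points with all coordinates isogenous are finitely many.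
`Kp (clF ∅) C` is finite (`kclosed_of_inf`).  If two coordinates are constant then the set is empty (`mr_of_rel` and `GP.nomod`).  Otherwise there are two
nonconstant coordinates `p ≠ q` and a third one `r`: `pair2g` (`TypN`) with `s = ![p, r, q, r]`; `hk` by `hecke_mem` (all coordinates are isogenous to `x p`).

`gp_k5`: `C ⊆ ℂ⁵` in general position over `ℚbar`.  `exists_sigma C`, `KC.Gen C σ c` as in `gp_k`, `σ : Fin l → Fin 5`.  If two coordinates are constant the set is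
empty.  If exactly one coordinate `k` is constant: take two nonconstant coordinates `l ≠ l'`: the set is contained in the set of `Gen.p6` with
`k' = k`.  If `σ` is surjective (no constant coordinate) then `C` is a `ZV.Crv` (`GP.nomod`, `kclosed`, all coordinates nonconstant) and `F3.fin_five` with
`m = 5`, `i = id` (`heckeRel_iff`).

`low_C`: as `ZV.low_main`, with `W` over `ℂ`, constants allowed.  If `W` lies in a proper special subvariety, trivial.  Otherwise `GP W` (the two cases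
of `main_C`).  `typ_low` with `k = 4`: a point of `W` on a special subvariety `Z` with `4 dim Z < n` has five isogenous coordinates, or is of type
`T3` or `T4`.  `T3`, `T4`: `gp_t34`.  Five isogenous coordinates `i : Fin 5 → Fin n`: if all coordinates `i a` are constant on `W` the set is empty;
otherwise `C = cp i W` is in general position (`gp_image`), the set is finite by `gp_k5` or `gp_n5`, and `cp_fin`.  The end of the proof is the
same as in `ZV.low_main` (it uses only `irr`, `dim W = 1` and the finiteness).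
-/

namespace Pool.Agent.LGO.FC

open UpperHalfPlane Pool.Agent.AHC Pool.Agent.Hhelper14.ZP Pool.Agent.Hhelper14.ZPL Pool.Agent.LGO
  Pool.Agent.LGO.ZF Pool.Agent.ZPE

variable {n : ℕ} {W : Set (Fin n → ℂ)}

/-- the setup of `gp_k` -/
private theorem LowC_gen {m : ℕ} {C : Set (Fin m → ℂ)} (h : GP C) (hk : KClosed C) :
    ∃ (l : ℕ) (σ : Fin l → Fin m) (c : Fin m → ℂ), Function.Injective σ ∧ KC.Gen C σ c ∧
      ∀ (a : Fin l) (c' : ℂ), ∃ x ∈ C, x (σ a) ≠ c' := by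
  obtain ⟨l, σ, c, hσ, hc, hnc⟩ := KC.exists_sigma C (irred_nonempty h.irr)
  have hcrv : ZV.Crv (proj σ C) := hc.crv hσ h.irr hk h.dim hnc
    (fun a b hab g hg => h.nomod (σ a) (σ b) (hσ.ne hab) g hg)
  refine ⟨l, σ, c, hσ, ⟨hc, hcrv, fun k hk' => hc.alg hk (irred_nonempty h.irr) hk', fun k hk' => ?_,
    fun k l hkl hk' hl' => ?_⟩, hnc⟩
  · rw [ncm_iff]
    intro hcm
    obtain ⟨x, hx, hne⟩ := h.ncm k (c k) hcm
    exact hne (hc x hx k hk')
  · rintro ⟨τ, g, hg, h3, h4⟩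
    obtain ⟨x, hx, hno⟩ := h.nomod k l hkl g hg
    exact hno ⟨τ, by rw [hc x hx k hk', h3], by rw [hc x hx l hl', h4]⟩

/-- two constant coordinates are not isogenous -/
private theorem LowC_const (h : GP W) {a b : Fin n} (hab : a ≠ b) (ha : ∃ c : ℂ, ∀ x ∈ W, x a = c)
    (hb : ∃ c : ℂ, ∀ x ∈ W, x b = c) {x : Fin n → ℂ} (hx : x ∈ W) : ¬ HeckeRel (x a) (x b) := by
  rintro ⟨τ, g, hg, h1, h2⟩
  obtain ⟨y, hy, hyn⟩ := h.nomod a b hab g hg
  obtain ⟨ca, hca⟩ := ha
  obtain ⟨cb, hcb⟩ := hb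
  refine hyn ⟨τ, ?_, ?_⟩
  · rw [hca y hy, ← hca x hx]
    exact h1
  · rw [hcb y hy, ← hcb x hx]
    exact h2

private theorem LowC_fin {m : ℕ} {C : Set (Fin m → ℂ)} (h : GP C) (hk : ¬ KClosed C) :
    (Kp (clF ∅) C).Finite := by
  by_contra hcon
  exact hk (kclosed_of_inf h.irr h.dim hcon)

theorem gp_t34 (h : GP W) : T3 W ∧ T4 W := by
  refine ⟨fun i hi => ?_, fun i hi => ?_⟩
  · by_cases hnc : ∃ a, ∀ c : ℂ, ∃ x ∈ W, x (i a) ≠ c
    · have hC := gp_image h hi hnc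
      have hS : {y ∈ cp i W | NCM (y 0) ∧ NCM (y 1) ∧ HeckeRel (y 0) (y 1) ∧ IsCMVal (y 2)}.Finite := by
        by_cases hk : KClosed (cp i W)
        · obtain ⟨l, σ, c, hσ, hG, -⟩ := LowC_gen hC hk
          exact (hG.t3 (ZV.T3_v hG.crv ZG.cmAll)) id Function.injective_id
        · exact (gp_n3 hC hk).subset fun y hy => ⟨hy.1, hy.2.2.2⟩
      exact cp_fin h.irr h.dim hnc hS fun x hx => ⟨hx.1, cp_mem hx.1, hx.2⟩
    · push Not at hnc
      refine Set.finite_empty.subset fun x hx => ?_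
      exact absurd hx.2.2.2.1 (LowC_const h (hi.ne (by decide)) (hnc 0) (hnc 1) hx.1)
  · by_cases hnc : ∃ a, ∀ c : ℂ, ∃ x ∈ W, x (i a) ≠ c
    · have hC := gp_image h hi hnc
      have hS : {y ∈ cp i W | IsCMVal (y 0) ∧ IsCMVal (y 1)}.Finite := by
        by_cases hk : KClosed (cp i W)
        · obtain ⟨l, σ, c, hσ, hG, -⟩ := LowC_gen hC hk
          exact (hG.t4 (ZV.T4_v hG.crv ZG.cmAll fun x hx => ZG.cm_alg hx)) id Function.injective_id
        · exact gp_n4 hC hk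
      exact cp_fin h.irr h.dim hnc hS fun x hx => ⟨hx.1, cp_mem hx.1, hx.2⟩
    · push Not at hnc
      refine Set.finite_empty.subset fun x hx => ?_
      obtain ⟨c, hc⟩ := hnc 0
      obtain ⟨y, hy, hyn⟩ := h.ncm (i 0) (x (i 0)) hx.2.1
      exact absurd (by rw [hc y hy, hc x hx.1]) hyn

private theorem LowC_third {m : ℕ} (hm : 3 ≤ m) (p q : Fin m) : ∃ r : Fin m, r ≠ p ∧ r ≠ q := by
  have h1 : ({p, q} : Finset (Fin m)).card < (Finset.univ : Finset (Fin m)).card := by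
    have h2 := Finset.card_le_two (a := p) (b := q)
    rw [Finset.card_univ, Fintype.card_fin]
    omega
  obtain ⟨r, -, hr⟩ := Finset.exists_mem_notMem_of_card_lt_card h1
  simp only [Finset.mem_insert, Finset.mem_singleton, not_or] at hr
  exact ⟨r, hr.1, hr.2⟩

theorem gp_n5 {m : ℕ} (hm : 3 ≤ m) {C : Set (Fin m → ℂ)} (h : GP C) (hk : ¬ KClosed C) :
    {x ∈ C | ∀ a b, HeckeRel (x a) (x b)}.Finite := by
  by_cases hpq : ∃ p q : Fin m, p ≠ q ∧ (∀ c : ℂ, ∃ x ∈ C, x p ≠ c) ∧ (∀ c : ℂ, ∃ x ∈ C, x q ≠ c)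
  · obtain ⟨p, q, hpq, hp, hq⟩ := hpq
    obtain ⟨r, hrp, hrq⟩ := LowC_third hm p q
    refine pair2g h.irr h.dim (LowC_fin h hk) ![p, r, q, r] (fun x hx => ⟨hx.1, hx.2 _ _, hx.2 _ _⟩)
      ?_ (h.nomod p r hrp.symm) (h.nomod q r hrq.symm) (h.nomod p q hpq) (h.nomod r q hrq) hp hq
    intro k hk' x hx h0 _ i
    exact hecke_mem hk' (hx.2 p i) h0
  · push Not at hpq
    -- two constant coordinates
    have hc : ∃ a b : Fin m, a ≠ b ∧ (∃ c : ℂ, ∀ x ∈ C, x a = c) ∧ ∃ c : ℂ, ∀ x ∈ C, x b = c := by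
      by_cases h1 : ∃ p : Fin m, ∀ c : ℂ, ∃ x ∈ C, x p ≠ c
      · obtain ⟨p, hp⟩ := h1
        obtain ⟨q, hq, -⟩ := LowC_third hm p p
        obtain ⟨r, hrp, hrq⟩ := LowC_third hm p q
        exact ⟨q, r, hrq.symm, hpq p q hq.symm hp, hpq p r hrp.symm hp⟩
      · push Not at h1
        have a : Fin m := ⟨0, by omega⟩
        obtain ⟨q, hq, -⟩ := LowC_third hm a a
        exact ⟨a, q, hq.symm, h1 a, h1 q⟩
    obtain ⟨a, b, hab, ha, hb⟩ := hc
    refine Set.finite_empty.subset fun x hx => ?_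
    exact absurd (hx.2 a b) (LowC_const h hab ha hb hx.1)

theorem gp_k5 {C : Set (Fin 5 → ℂ)} (h : GP C) (hk : KClosed C) :
    {x ∈ C | (∀ a, NCM (x a)) ∧ ∀ a b, HeckeRel (x a) (x b)}.Finite := by
  obtain ⟨l, σ, c, hσ, hG, hnc⟩ := LowC_gen h hk
  by_cases hs : ∀ k, k ∈ Set.range σ
  · have hcrv : ZV.Crv C := by
      refine ⟨h.irr, hk, h.dim, fun i c' => ?_, fun a b hab g hg => h.nomod a b hab g hg⟩
      obtain ⟨a, rfl⟩ := hs i
      exact hnc a c'
    refine (F3.fin_five hcrv (le_refl 5) id Function.injective_id).subset ?_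
    rintro x ⟨hx, h1, h2⟩
    exact ⟨hx, h1, fun a b => heckeRel_iff.mp (h2 a b)⟩
  · push Not at hs
    obtain ⟨k, hk1⟩ := hs
    by_cases hs2 : ∀ k', k' ≠ k → k' ∈ Set.range σ
    · obtain ⟨a, ha, -⟩ := LowC_third (m := 5) (by norm_num) k k
      obtain ⟨b, hbk, hba⟩ := LowC_third (m := 5) (by norm_num) k a
      refine (hG.p6 hk1 hk1 (hs2 a ha) (hs2 b hbk) hba.symm).subset ?_
      rintro x ⟨hx, -, h2⟩
      exact ⟨hx, h2 _ _, h2 _ _⟩
    · push Not at hs2
      obtain ⟨k', hkk, hk2⟩ := hs2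
      refine Set.finite_empty.subset fun x hx => ?_
      have h1 := hx.2.2 k k'
      rw [hG.off x hx.1 k hk1, hG.off x hx.1 k' hk2] at h1
      exact absurd h1 (hG.rel k k' hkk.symm hk1 hk2)

private theorem LowC_five (h : GP W) {i : Fin 5 → Fin n} (hi : Function.Injective i) :
    {x ∈ W | (∀ a, NCM (x (i a))) ∧ ∀ a b, HeckeRel (x (i a)) (x (i b))}.Finite := by
  by_cases hnc : ∃ a, ∀ c : ℂ, ∃ x ∈ W, x (i a) ≠ c
  · have hC := gp_image h hi hnc
    have hS : {y ∈ cp i W | (∀ a, NCM (y a)) ∧ ∀ a b, HeckeRel (y a) (y b)}.Finite := by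
      by_cases hk : KClosed (cp i W)
      · exact gp_k5 hC hk
      · exact (gp_n5 (by norm_num) hC hk).subset fun y hy => ⟨hy.1, hy.2.2⟩
    exact cp_fin h.irr h.dim hnc hS fun x hx => ⟨hx.1, cp_mem hx.1, hx.2⟩
  · push Not at hnc
    refine Set.finite_empty.subset fun x hx => ?_
    exact absurd (hx.2.2 0 1) (LowC_const h (hi.ne (by decide)) (hnc 0) (hnc 1) hx.1)

/-- the points of `W` on special subvarieties of dimension `< n / 4` are finitely many -/
private theorem LowC_low (h : GP W) (hn : 2 ≤ n) :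
    {x ∈ W | ∃ Z, Pool.Agent.Hhelper14.ZPL.IsSpecial Z ∧ x ∈ Z ∧
      ((4 : ℕ) : WithBot ℕ∞) * Pool.Agent.Hhelper14.ZPL.dim Z < n}.Finite := by
  classical
  obtain ⟨ht3, ht4⟩ := gp_t34 h
  have f1 : (⋃ i : {i : Fin 5 → Fin n // Function.Injective i},
      {x ∈ W | (∀ a, NCM (x (i.1 a))) ∧ ∀ a b, HeckeRel (x (i.1 a)) (x (i.1 b))}).Finite :=
    Set.finite_iUnion fun i => LowC_five h i.2
  have f3 : (⋃ i : {i : Fin 3 → Fin n // Function.Injective i},
      {x ∈ W | NCM (x (i.1 0)) ∧ NCM (x (i.1 1)) ∧ HeckeRel (x (i.1 0)) (x (i.1 1)) ∧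
        IsCMVal (x (i.1 2))}).Finite :=
    Set.finite_iUnion fun i => ht3 i.1 i.2
  have f4 : (⋃ i : {i : Fin 2 → Fin n // Function.Injective i},
      {x ∈ W | IsCMVal (x (i.1 0)) ∧ IsCMVal (x (i.1 1))}).Finite :=
    Set.finite_iUnion fun i => ht4 i.1 i.2
  refine (f1.union (f3.union f4)).subset ?_
  rintro x ⟨hxV, Z, hZ, hxZ, hd⟩
  rcases ZV.typ_low (k := 4) (by norm_num) hn hZ hd hxZ with ⟨i, hi, h'⟩ | ⟨i, hi, h'⟩ | ⟨i, hi, h'⟩
  · exact Or.inl (Set.mem_iUnion.mpr ⟨⟨i, hi⟩, hxV, h'⟩)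
  · exact Or.inr (Or.inl (Set.mem_iUnion.mpr ⟨⟨i, hi⟩, hxV, h'⟩))
  · exact Or.inr (Or.inr (Set.mem_iUnion.mpr ⟨⟨i, hi⟩, hxV, h'⟩))

private theorem LowC_ne_univ (hn : 2 ≤ n) {Z : Set (Fin n → ℂ)}
    (hd : ((4 : ℕ) : WithBot ℕ∞) * Pool.Agent.Hhelper14.ZPL.dim Z < n) : Z ≠ Set.univ := by
  rintro rfl
  rw [dim_univ, Fintype.card_fin] at hd
  have h2 : 4 * n < n := by exact_mod_cast hd
  omega

/-- **the special subvarieties of dimension `< n / 4`, every curve over `ℂ`** -/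
theorem low_C (hW : Pool.Agent.Hhelper14.ZPL.IsIrredClosed W) (hdim : Pool.Agent.Hhelper14.ZPL.dim W = 1)
    (hn : 2 ≤ n) :
    ∃ S : Set (Set (Fin n → ℂ)), S.Finite ∧
      (∀ T ∈ S, Pool.Agent.Hhelper14.ZP.IsSpecial T ∧ T ≠ Set.univ) ∧
      ∀ Z, Pool.Agent.Hhelper14.ZP.IsSpecial Z →
        ((4 : ℕ) : WithBot ℕ∞) * Pool.Agent.Hhelper14.ZP.dim Z < n →
          ∀ C, Pool.Agent.Hhelper14.ZP.IsComponent C (W ∩ Z) → ∃ T ∈ S, C ⊆ T := by
  classical
  by_cases h0 : ∃ T₀ : Set (Fin n → ℂ), Pool.Agent.Hhelper14.ZPL.IsSpecial T₀ ∧ T₀ ≠ Set.univ ∧ W ⊆ T₀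
  · obtain ⟨T₀, hT, hne, hVT⟩ := h0
    refine ⟨{T₀}, Set.finite_singleton _, ?_, ?_⟩
    · intro T hTT
      rw [Set.mem_singleton_iff] at hTT
      rw [hTT]
      exact ⟨hT, hne⟩
    · intro Z _ _ C hC
      exact ⟨T₀, rfl, fun x hx => hVT (hC.2.1 hx).1⟩
  · have hG : GP W := by
      refine ⟨hW, hdim, fun a b hab g hg => ?_, fun a c hc => ?_⟩
      · by_contra hcon
        push Not at hcon
        exact h0 (ZG.sub_of_mod hab g hg hcon)
      · by_contra hcon
        push Not at hcon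
        obtain ⟨τ, hτ, hck⟩ := hc
        refine h0 ⟨_, special_const a hτ, ?_, fun x hx => ?_⟩
        · intro hu
          have h3 : (fun _ => jInv τ + 1) ∈ {x : Fin n → ℂ | x a = jInv τ} := by
            rw [hu]
            exact Set.mem_univ _
          have h4 : jInv τ + 1 = jInv τ := h3
          simp at h4
        · show x a = jInv τ
          rw [hcon x hx, hck]
    set A : Set (Fin n → ℂ) := {x ∈ W | ∃ Z, Pool.Agent.Hhelper14.ZPL.IsSpecial Z ∧ x ∈ Z ∧
      ((4 : ℕ) : WithBot ℕ∞) * Pool.Agent.Hhelper14.ZPL.dim Z < n} with hA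
    have hfin : A.Finite := LowC_low hG hn
    have hch : ∀ x : A, ∃ Z, Pool.Agent.Hhelper14.ZPL.IsSpecial Z ∧ x.1 ∈ Z ∧
        ((4 : ℕ) : WithBot ℕ∞) * Pool.Agent.Hhelper14.ZPL.dim Z < n := fun x => x.2.2
    choose Z hZs hxZ hZd using hch
    have hfin' : Finite A := hfin
    refine ⟨Set.range Z, Set.finite_range Z, ?_, ?_⟩
    · rintro _ ⟨x, rfl⟩
      exact ⟨hZs x, LowC_ne_univ hn (hZd x)⟩
    · intro Y hY hYd C hC
      have hY' : Pool.Agent.Hhelper14.ZPL.IsSpecial Y := hY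
      have hYd' : ((4 : ℕ) : WithBot ℕ∞) * Pool.Agent.Hhelper14.ZPL.dim Y < n := hYd
      have hC' : Pool.Agent.Hhelper14.ZPL.IsIrredClosed C := hC.1
      obtain ⟨c, hc⟩ := dim_eq_nat hC'
      have hCV : C ⊆ W := fun x hx => (hC.2.1 hx).1
      have hCY : C ⊆ Y := fun x hx => (hC.2.1 hx).2
      have h4 : Pool.Agent.Hhelper14.ZPL.dim C ≤ Pool.Agent.Hhelper14.ZPL.dim W :=
        Pool.Agent.Hhelper14.ZPL.dim_mono hCV
      rw [hc, hdim] at h4
      have h5' : c ≤ 1 := by exact_mod_cast h4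
      by_cases hc1 : c = 1
      · exfalso
        have h6 : C = W := by
          refine eq_of_dim_le hC' hW hCV ?_
          rw [hdim, hc, hc1]
          exact le_rfl
        exact h0 ⟨Y, hY', LowC_ne_univ hn hYd', h6 ▸ hCY⟩
      · have hc0 : c = 0 := by omega
        obtain ⟨x, hx⟩ := irred_nonempty hC'
        have hxA : x ∈ A := ⟨hCV hx, Y, hY', hCY hx, hYd'⟩
        refine ⟨Z ⟨x, hxA⟩, ⟨_, rfl⟩, fun y hy => ?_⟩
        by_cases hxy : x = y
        · rw [← hxy]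
          exact hxZ ⟨x, hxA⟩
        · exfalso
          have h9 := one_le_dim hC' hx hy hxy
          rw [hc, hc0] at h9
          have h10 : 1 ≤ 0 := by exact_mod_cast h9
          omega

end Pool.Agent.LGO.FC
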